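import Pool.Agent.H94.FG.SpecC

set_option autoImplicit false

open Polynomial Pool.Agent.H22.NL

noncomputable section
namespace H94FG.CRL

theorem main : S_CRL := by
  have hs : Alg (fun q : List ℂ × ℂ => (q.2 :: q.1, q.2 + 1)) (fun _ => 1) :=
    ((Alg.snd.cons' Alg.fst).pair (Alg.snd.add' Alg.one)).congr (fun _ => rfl)
      (fun _ => by simp)
  have hi : Alg (fun _ : ℕ => (([] : List ℂ), (1 : ℂ))) (fun _ => 0) :=
    (Alg.nil.pair Alg.one).congr (fun _ => rfl) (fun _ => by simp)
  have h := ((Alg.loopK (n := fun m : ℕ => m) (i := fun _ => (([] : List ℂ), (1 : ℂ)))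
    hs Alg.id hi).fst').reverse'
  refine ⟨1, h.congr (fun m => ?_) (fun _ => by simp)⟩
  have : ∀ m : ℕ, (fun q : List ℂ × ℂ => (q.2 :: q.1, q.2 + 1))^[m]
      (([] : List ℂ), (1 : ℂ)) = ((rlC m).reverse, (m : ℂ) + 1) := by
    intro m
    induction m with
    | zero => simp [rlC]
    | succ m ih =>
      rw [Function.iterate_succ_apply', ih]
      simp [rlC, List.range_succ]
  simp only [this, List.reverse_reverse]

end H94FG.CRL
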