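import Pool.Agent.H94.FG.SpecC

/-! # Project NU, stub CALG: the cost of the algorithm -/

set_option autoImplicit false

noncomputable section
namespace H94FG.CALG

open H94FG.Alg

theorem main (hCTS : S_CTS) (hCKK : S_CKK) (hCST : S_CST) (hCRL : S_CRL) : S_CALG := by
  obtain ⟨Kt, ht⟩ := hCTS
  obtain ⟨Ks, hs⟩ := hCST
  obtain ⟨Kr, hr⟩ := hCRL
  have hk : Alg (fun p : ℕ × ℂ × List (ℂ × ℂ × ℂ) => kk (p.1 - 1)) (fun _ => 0) :=
    ((Alg.fst.natSub' (Alg.nat 1)).comp hCKK).congr (fun _ => rfl) (fun _ => by simp)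
  have hst : Alg (fun p : ℕ × ℂ × List (ℂ × ℂ × ℂ) => stC (kk (p.1 - 1)) p.2.2)
      (fun p => Ks * 2 ^ kk (p.1 - 1)) :=
    ((hk.pair (snd' Alg.snd)).comp hs).congr (fun _ => rfl) (fun _ => by simp)
  have hts : Alg (fun p : ℕ × ℂ × List (ℂ × ℂ × ℂ) =>
      tsolC (kk (p.1 - 1)) (stC (kk (p.1 - 1)) p.2.2) p.2.1 / p.2.1)
      (fun p => Ks * 2 ^ kk (p.1 - 1) +
        Kt * (kk (p.1 - 1) + 1) ^ 4 * 2 ^ kk (p.1 - 1) + 1) := by
    have h1 : Alg (fun p : ℕ × ℂ × List (ℂ × ℂ × ℂ) =>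
        tsolC (kk (p.1 - 1)) (stC (kk (p.1 - 1)) p.2.2) p.2.1)
        (fun p => Ks * 2 ^ kk (p.1 - 1) + Kt * (kk (p.1 - 1) + 1) ^ 4 * 2 ^ kk (p.1 - 1)) :=
      ((hk.pair (hst.pair (fst' Alg.snd))).comp ht).congr (fun _ => rfl) (fun _ => by simp)
    exact (h1.div' (fst' Alg.snd)).congr (fun _ => rfl) (fun _ => by simp)
  have hmap : Alg (fun q : (ℕ × ℂ × List (ℂ × ℂ × ℂ)) × ℂ => (rlC q.1.1).map fun c => q.2 * c)
      (fun q => Kr * (q.1.1 + 1) + q.1.1) := by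
    refine (mapK (F := fun (q : (ℕ × ℂ × List (ℂ × ℂ × ℂ)) × ℂ) (c : ℂ) => q.2 * c) (K := 1)
      (((snd' Alg.fst).mul' Alg.snd).congr (fun _ => rfl) (fun _ => by simp))
      ((fst' Alg.fst).comp hr)).congr (fun _ => rfl) (fun q => ?_)
    simp [rlC]
  refine ⟨Ks + Kt + 2 + Kr, ?_⟩
  refine (letIn (h := fun (p : ℕ × ℂ × List (ℂ × ℂ × ℂ)) (s : ℂ) => (rlC p.1).map fun c => s * c)
    hts hmap).congr (fun p => rfl) (fun p => ?_)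
  simp only
  set k : ℕ := kk (p.1 - 1) with hkd
  set u : ℕ := (k + 1) ^ 4 * 2 ^ k with hu
  have h1 : 2 ^ k ≤ u := by
    rw [hu]
    exact Nat.le_mul_of_pos_left _ (by positivity)
  have h2 : Ks * 2 ^ k ≤ Ks * u := Nat.mul_le_mul_left _ h1
  have e1 : Kt * (k + 1) ^ 4 * 2 ^ k = Kt * u := by rw [hu]; ring
  have e2 : (Ks + Kt + 2 + Kr) * (u + p.1 + 1) = Ks * u + Kt * u + Kr * (p.1 + 1) +
      (2 * (u + p.1 + 1) + (Ks + Kt) * (p.1 + 1) + Kr * u) := by ring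
  rw [e1, e2]
  have h3 : 0 ≤ (Ks + Kt) * (p.1 + 1) + Kr * u := Nat.zero_le _
  omega

end H94FG.CALG
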