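import Pool.Agent.H94.FG.SpecC

set_option autoImplicit false

open Polynomial Pool.Agent.H22.NL

noncomputable section
namespace H94FG.CCP

/-- the cost of the product tree -/
theorem tm_alg (hCM : S_CMM) :
    ∃ K, Alg (fun p : ℕ × List MC => tmC p.1 p.2) (fun p => K * (p.1 + 1) ^ 2 * 2 ^ p.1) := by
  obtain ⟨K, hK⟩ := hCM
  have h0 : Alg (fun _ : List MC => (0 : ℂ)) (fun _ => 1) := Alg.zero'
  have n0 : Alg (fun _ : List MC => ([] : List ℂ)) (fun _ => 0) := Alg.nil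
  have hid : Alg (fun _ : List MC => idC) (fun _ => 6) :=
    ((Alg.one.cons' (h0.cons' n0)).pair ((h0.cons' (h0.cons' n0)).pair
      ((h0.cons' (h0.cons' n0)).pair (Alg.one.cons' (h0.cons' n0))))).congr (fun _ => rfl)
      (fun _ => by simp)
  have hg : Alg (fun l : List MC => l.headD idC) (fun _ => 6) :=
    (Alg.id.headD' hid).congr (fun _ => rfl) (fun _ => by simp)
  have hl : Alg (fun p : ℕ × List MC => (p.2.drop (2 ^ p.1)).take (2 ^ p.1)) (fun _ => 0) :=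
    ((Alg.two_pow' Alg.fst).take' ((Alg.two_pow' Alg.fst).drop' Alg.snd)).congr
      (fun _ => rfl) (fun _ => by simp)
  have hr : Alg (fun p : ℕ × List MC => p.2.take (2 ^ p.1)) (fun _ => 0) :=
    ((Alg.two_pow' Alg.fst).take' Alg.snd).congr (fun _ => rfl) (fun _ => by simp)
  have hh : Alg (fun p : ℕ × List MC × MC × MC => mmC (p.1 + 1) p.2.2.1 p.2.2.2)
      (fun p => K * (p.1 + 1 + 1) * 2 ^ (p.1 + 1)) :=
    (Alg.call hK ((Alg.fst.natAdd' (Alg.nat 1)).pair ((Alg.snd.snd').fst'.pair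
      (Alg.snd.snd').snd'))).congr (fun _ => rfl) (fun _ => by simp)
  have key := Alg.rec2 (F := tmC) (G := 6) (cl := fun _ => 0) (cr := fun _ => 0)
    (ch := fun k => K * (k + 1 + 1) * 2 ^ (k + 1)) hg hl hr hh (fun _ => rfl) (fun _ _ => rfl)
  refine ⟨6 + 4 * K, key.congr (fun _ => rfl) (fun p => ?_)⟩
  have := Alg.S2_le (G := 6) (K := 6 + 4 * K) (j := 1)
    (e := fun k => 0 + 0 + K * (k + 1 + 1) * 2 ^ (k + 1)) (by omega)
    (fun k => by
      have h1 : 0 ≤ k * 2 ^ k * K := Nat.zero_le _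
      have h2 : 0 ≤ (k + 1) * 2 ^ k := Nat.zero_le _
      simp only [pow_succ, pow_zero, one_mul]
      nlinarith) p.1
  simpa using this

theorem main : S_CMM → S_CCP := by
  intro hCM
  obtain ⟨K, hK⟩ := tm_alg hCM
  -- the matrix of a site
  have hsm : Alg (fun p : (ℕ × List (ℂ × ℂ) × ℂ) × ℂ × ℂ => smC (p.2.1 - p.1.2.2, p.2.2))
      (fun _ => 9) := by
    have z : Alg (fun _ : (ℕ × List (ℂ × ℂ) × ℂ) × ℂ × ℂ => (0 : ℂ)) (fun _ => 1) := Alg.zero'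
    have n0 : Alg (fun _ : (ℕ × List (ℂ × ℂ) × ℂ) × ℂ × ℂ => ([] : List ℂ)) (fun _ => 0) :=
      Alg.nil
    have s1 : Alg (fun p : (ℕ × List (ℂ × ℂ) × ℂ) × ℂ × ℂ => -(p.2.1 - p.1.2.2))
        (fun _ => 3) :=
      (((Alg.snd.fst').sub' ((Alg.fst.snd').snd')).neg').congr (fun _ => rfl) (fun _ => by simp)
    have s2 : Alg (fun p : (ℕ × List (ℂ × ℂ) × ℂ) × ℂ × ℂ => -p.2.2) (fun _ => 2) :=
      ((Alg.snd.snd').neg').congr (fun _ => rfl) (fun _ => by simp)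
    exact ((s1.cons' (Alg.one.cons' n0)).pair ((s2.cons' (z.cons' n0)).pair
      ((Alg.one.cons' (z.cons' n0)).pair (z.cons' (z.cons' n0))))).congr (fun _ => rfl)
      (fun _ => by simp)
  have hl : Alg (fun p : ℕ × List (ℂ × ℂ) × ℂ => p.2.1.take (2 ^ p.1)) (fun _ => 0) :=
    ((Alg.two_pow' Alg.fst).take' (Alg.snd.fst')).congr (fun _ => rfl) (fun _ => by simp)
  have hmap : Alg (fun p : ℕ × List (ℂ × ℂ) × ℂ =>
      (p.2.1.take (2 ^ p.1)).map fun q => smC (q.1 - p.2.2, q.2)) (fun p => 9 * 2 ^ p.1) := by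
    refine (Alg.mapK (F := fun (p : ℕ × List (ℂ × ℂ) × ℂ) (q : ℂ × ℂ) =>
      smC (q.1 - p.2.2, q.2)) hsm hl).congr (fun _ => rfl) (fun x => ?_)
    have : (x.2.1.take (2 ^ x.1)).length ≤ 2 ^ x.1 := List.length_take_le _ _
    omega
  have h1 : Alg (fun p : ℕ × List (ℂ × ℂ) × ℂ =>
      tmC p.1 ((p.2.1.take (2 ^ p.1)).map fun q => smC (q.1 - p.2.2, q.2)))
      (fun p => 9 * 2 ^ p.1 + K * (p.1 + 1) ^ 2 * 2 ^ p.1) :=
    (Alg.call hK (Alg.fst.pair hmap)).congr (fun _ => rfl) (fun _ => by simp)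
  refine ⟨9 + K, (((Alg.two_pow' (Alg.fst.natAdd' (Alg.nat 1))).take' h1.fst')).congr
    (fun _ => rfl) (fun x => ?_)⟩
  have h2 : 1 ≤ (x.1 + 1) ^ 2 := Nat.one_le_pow _ _ (by omega)
  have h3 := Nat.mul_le_mul_right (2 ^ x.1) h2
  nlinarith

end H94FG.CCP
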