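import Pool.Agent.H94.FG.SpecC

set_option autoImplicit false

/-!
# Project NU, stub CHG: cost of `hg`
-/

open Polynomial Pool.Agent.H22.NL

noncomputable section
namespace H94FG.CHG

theorem hgb_alg : ∃ K, Alg hgb (fun _ => K) := by
  have h0 : Alg (fun _ : List ℂ × List ℂ => (0:ℂ)) (fun _ => 1) := Alg.zero'
  have h1 : Alg (fun _ : List ℂ × List ℂ => (1:ℂ)) (fun _ => 0) := Alg.one
  have hm1 : Alg (fun _ : List ℂ × List ℂ => (-1:ℂ)) (fun _ => 2) :=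
    (h1.neg').congr (fun _ => rfl) (fun _ => by simp)
  have ha : Alg (fun p : List ℂ × List ℂ => p.1.headD 0) (fun _ => 1) :=
    (Alg.headD' Alg.fst h0).congr (fun _ => rfl) (fun _ => by simp)
  have hb : Alg (fun p : List ℂ × List ℂ => p.2.headD 0) (fun _ => 1) :=
    (Alg.headD' Alg.snd h0).congr (fun _ => rfl) (fun _ => by simp)
  have hc : Alg (fun p : List ℂ × List ℂ => (p.1.drop 1).headD 0) (fun _ => 1) :=
    (Alg.headD' (Alg.drop' (Alg.nat 1) Alg.fst) h0).congr (fun _ => rfl) (fun _ => by simp)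
  have hd : Alg (fun p : List ℂ × List ℂ => (p.2.drop 1).headD 0) (fun _ => 1) :=
    (Alg.headD' (Alg.drop' (Alg.nat 1) Alg.snd) h0).congr (fun _ => rfl) (fun _ => by simp)
  have hnil : Alg (fun _ : List ℂ × List ℂ => ([] : List ℂ)) (fun _ => 0) := Alg.nil
  have hq := ha.div' hb
  have hr := ((hc.sub' (hq.mul' hd)).div' hb)
  have e1 := h0.cons' (h0.cons' (h0.cons' (h0.cons' hnil)))
  have e2 := h0.cons' (h0.cons' (h1.cons' (h0.cons' hnil)))
  have e3 := hm1.cons' (h0.cons' (h0.cons' (h0.cons' hnil)))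
  have e4 := hq.cons' (hr.cons' (h0.cons' (h0.cons' hnil)))
  exact ⟨_, ((e1.pair (e2.pair (e3.pair e4))).pair (hb.cons' hnil)).congr (fun _ => rfl)
    (fun _ => le_rfl)⟩

theorem main : S_CMUL → S_CMM → S_MULC → S_CHG := by
  intro hC1 hC2 hM
  obtain ⟨K1, hK1⟩ := hC1
  obtain ⟨K2, hK2⟩ := hC2
  obtain ⟨K0, hK0⟩ := hgb_alg
  have mulcall : ∀ {α : Type} {k : α → ℕ} {a b : α → List ℂ}, Alg k (fun _ => 0) →
      Alg a (fun _ => 0) → Alg b (fun _ => 0) →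
      Alg (fun x => mulC (k x) (a x) (b x)) (fun x => K1 * (k x + 1) * 2 ^ (k x)) := by
    intro α k a b hk ha hb
    exact (Alg.call hK1 (hk.pair (ha.pair hb))).congr (fun _ => rfl) (fun _ => by simp)
  have zipcall : ∀ {α : Type} {k : α → ℕ} {a b a' b' : α → List ℂ}, Alg k (fun _ => 0) →
      Alg a (fun _ => 0) → Alg b (fun _ => 0) → Alg a' (fun _ => 0) → Alg b' (fun _ => 0) →
      Alg (fun x => List.zipWith (· + ·) (mulC (k x) (a x) (b x)) (mulC (k x) (a' x) (b' x)))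
        (fun x => 2 * (K1 * (k x + 1) * 2 ^ (k x)) + 2 ^ (k x + 1)) := by
    intro α k a b a' b' hk ha hb ha' hb'
    have hadd : Alg (fun p : α × ℂ × ℂ => p.2.1 + p.2.2) (fun _ => 1) :=
      ((Alg.fst' Alg.snd).add' (Alg.snd' Alg.snd)).congr (fun _ => rfl) (fun _ => by simp)
    refine (Alg.zipWithK (F := fun _ a b => a + b) hadd (mulcall hk ha hb)
      (mulcall hk ha' hb')).congr (fun _ => rfl) (fun x => ?_)
    have := hM.1 (k x) (a x) (b x)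
    omega
  -- the projections
  have p1 : Alg (fun p : ℕ × (List ℂ × List ℂ) × (MC × List ℂ) => p.1) (fun _ => 0) := Alg.fst
  have pA : Alg (fun p : ℕ × (List ℂ × List ℂ) × (MC × List ℂ) => p.2.2.1) (fun _ => 0) :=
    Alg.snd.snd'.fst'
  have px : Alg (fun p : ℕ × (List ℂ × List ℂ) × (MC × List ℂ) => p.2.1) (fun _ => 0) :=
    Alg.snd.fst'
  have hk2 : Alg (fun p : ℕ × (List ℂ × List ℂ) × (MC × List ℂ) => p.1 + 2) (fun _ => 0) :=
    (p1.natAdd' (Alg.nat 2)).congr (fun _ => rfl) (fun _ => by simp)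
  have hk1 : Alg (fun p : ℕ × (List ℂ × List ℂ) × (MC × List ℂ) => 2 ^ (p.1 + 1)) (fun _ => 0) :=
    (Alg.two_pow' (p1.natAdd' (Alg.nat 1))).congr (fun _ => rfl) (fun _ => by simp)
  have hadv : Alg (fun p : ℕ × (List ℂ × List ℂ) × (MC × List ℂ) => adv p.1 p.2.2.1 p.2.1)
      (fun p => 2 * (2 * (K1 * (p.1 + 2 + 1) * 2 ^ (p.1 + 2)) + 2 ^ (p.1 + 2 + 1))) := by
    refine ((hk1.take' (hk1.drop' (zipcall hk2 pA.fst' px.fst' pA.snd'.fst' px.snd'))).pair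
      (hk1.take' (hk1.drop' (zipcall hk2 pA.snd'.snd'.fst' px.fst' pA.snd'.snd'.snd'
        px.snd')))).congr (fun _ => rfl) (fun p => ?_)
    omega
  have hs : Alg (fun p : ℕ × (List ℂ × List ℂ) =>
      ((p.2.1.take (2 ^ (p.1 + 1)), p.2.2.take (2 ^ (p.1 + 1))) : List ℂ × List ℂ))
      (fun _ => 0) := by
    have hk : Alg (fun p : ℕ × (List ℂ × List ℂ) => 2 ^ (p.1 + 1)) (fun _ => 0) :=
      (Alg.two_pow' (Alg.fst.natAdd' (Alg.nat 1))).congr (fun _ => rfl) (fun _ => by simp)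
    exact ((hk.take' Alg.snd.fst').pair (hk.take' Alg.snd.snd')).congr (fun _ => rfl)
      (fun _ => by simp)
  have hh : Alg (fun p : ℕ × (List ℂ × List ℂ) × (MC × List ℂ) × (MC × List ℂ) =>
      ((mmC (p.1 + 2) p.2.2.2.1 p.2.2.1.1, p.2.2.1.2 ++ p.2.2.2.2) : MC × List ℂ))
      (fun p => K2 * (p.1 + 2 + 1) * 2 ^ (p.1 + 2)) := by
    have q1 : Alg (fun p : ℕ × (List ℂ × List ℂ) × (MC × List ℂ) × (MC × List ℂ) => p.1)
      (fun _ => 0) := Alg.fst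
    have qy : Alg (fun p : ℕ × (List ℂ × List ℂ) × (MC × List ℂ) × (MC × List ℂ) => p.2.2.1)
      (fun _ => 0) := Alg.snd.snd'.fst'
    have qz : Alg (fun p : ℕ × (List ℂ × List ℂ) × (MC × List ℂ) × (MC × List ℂ) => p.2.2.2)
      (fun _ => 0) := Alg.snd.snd'.snd'
    refine ((Alg.call hK2 ((q1.natAdd' (Alg.nat 2)).pair (qz.fst'.pair qy.fst'))).pair
      (qy.snd'.append' qz.snd')).congr (fun _ => rfl) (fun p => ?_)
    simp
  have key := Alg.recS (F := hg) (G := K0) (cs := fun _ => 0)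
    (ct := fun k => 2 * (2 * (K1 * (k + 2 + 1) * 2 ^ (k + 2)) + 2 ^ (k + 2 + 1)))
    (ch := fun k => K2 * (k + 2 + 1) * 2 ^ (k + 2)) hK0 hs hadv hh (fun _ => rfl)
    (fun _ _ => rfl)
  refine ⟨K0 + 48 * K1 + 12 * K2 + 16, key.congr (fun _ => rfl) (fun p => ?_)⟩
  have := Alg.S2_le (G := K0) (K := K0 + 48 * K1 + 12 * K2 + 16) (j := 1)
    (e := fun k => 0 + 2 * (2 * (K1 * (k + 2 + 1) * 2 ^ (k + 2)) + 2 ^ (k + 2 + 1)) +
      K2 * (k + 2 + 1) * 2 ^ (k + 2)) (by omega)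
    (fun k => by
      have h1 : 2 ^ (k + 2) = 4 * 2 ^ k := by ring
      have h2 : 2 ^ (k + 2 + 1) = 8 * 2 ^ k := by ring
      have h3 : k + 2 + 1 ≤ 3 * (k + 1) := by omega
      have h4 : K1 * (k + 2 + 1) * (4 * 2 ^ k) ≤ K1 * (3 * (k + 1)) * (4 * 2 ^ k) :=
        Nat.mul_le_mul_right _ (Nat.mul_le_mul_left _ h3)
      have h5 : K2 * (k + 2 + 1) * (4 * 2 ^ k) ≤ K2 * (3 * (k + 1)) * (4 * 2 ^ k) :=
        Nat.mul_le_mul_right _ (Nat.mul_le_mul_left _ h3)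
      simp only [pow_one]
      rw [h1, h2]
      have h6 : (K0 + 48 * K1 + 12 * K2 + 16) * (k + 1) * 2 ^ k =
          K0 * (k + 1) * 2 ^ k + 2 * (2 * (K1 * (3 * (k + 1)) * (4 * 2 ^ k))) +
          K2 * (3 * (k + 1)) * (4 * 2 ^ k) + 16 * (k * 2 ^ k) + 16 * 2 ^ k := by ring
      rw [h6]
      have h7 : 0 ≤ K0 * (k + 1) * 2 ^ k := Nat.zero_le _
      have h8 : 0 ≤ 16 * (k * 2 ^ k) := Nat.zero_le _
      omega) p.1
  simpa using this

end H94FG.CHG
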