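import Pool.Agent.H94.FG.SpecC

/-! # Project NU, stub CKK: the computation of the exponent -/

set_option autoImplicit false

noncomputable section
namespace H94FG.CKK

open H94FG.Alg

theorem main : S_CKK := by
  set s : ℕ → ℕ × ℕ → ℕ × ℕ := fun n s => if (n + 1) - s.1 = 0 then s else (2 * s.1, s.2 + 1)
    with hs
  have hstep : Alg (fun q : ℕ × (ℕ × ℕ) => (q.1, s q.1 q.2)) (fun _ => 0) := by
    have h1 : Alg (fun q : ℕ × (ℕ × ℕ) => s q.1 q.2) (fun _ => 0) := by
      refine (Alg.natIf (h := fun q : ℕ × (ℕ × ℕ) => (q.1 + 1) - q.2.1) (f := fun q => q.2)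
        (g := fun q => (2 * q.2.1, q.2.2 + 1)) (ch := fun _ => 0) (cf := fun _ => 0)
        (cg := fun _ => 0) ?_ Alg.snd ?_).congr (fun _ => rfl) (fun q => by simp)
      · exact ((Alg.fst.natAdd' (Alg.nat 1)).natSub' (fst' Alg.snd)).congr (fun _ => rfl)
          (fun _ => by simp)
      · exact (((Alg.nat 2).natMul' (fst' Alg.snd)).pair
          ((snd' Alg.snd).natAdd' (Alg.nat 1))).congr (fun _ => rfl) (fun _ => by simp)
    exact (Alg.fst.pair h1).congr (fun _ => rfl) (fun _ => by simp)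
  have hit : ∀ (n r : ℕ) (x : ℕ × ℕ),
      (fun q : ℕ × (ℕ × ℕ) => (q.1, s q.1 q.2))^[r] (n, x) = (n, (s n)^[r] x) := by
    intro n r x
    induction r with
    | zero => rfl
    | succ r ih =>
      rw [Function.iterate_succ_apply', ih, Function.iterate_succ_apply']
  refine (snd' (snd' (loopK (n := fun n : ℕ => n + 1) (i := fun n => (n, ((1, 0) : ℕ × ℕ))) hstep
    (Alg.id.natAdd' (Alg.nat 1)) (Alg.id.pair ((Alg.nat 1).pair (Alg.nat 0)))))).congr
    (fun n => ?_) (fun n => by simp)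
  simp only [hit]
  rfl

end H94FG.CKK
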