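import Pool.Agent.H94.FG.SpecC

set_option autoImplicit false

open Polynomial Pool.Agent.H22.NL

noncomputable section
namespace H94FG.CMM

theorem main : S_CMUL → S_MULC → S_CMM := by
  intro hCM hM
  obtain ⟨K, hK⟩ := hCM
  have hadd : Alg (fun p : (ℕ × MC × MC) × ℂ × ℂ => p.2.1 + p.2.2) (fun _ => 1) :=
    ((Alg.fst' Alg.snd).add' (Alg.snd' Alg.snd)).congr (fun _ => rfl) (fun _ => by simp)
  have hm : ∀ {f g : ℕ × MC × MC → List ℂ}, Alg f (fun _ => 0) → Alg g (fun _ => 0) →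
      Alg (fun p => mulC p.1 (f p) (g p)) (fun p => K * (p.1 + 1) * 2 ^ p.1) := by
    intro f g hf hg
    exact (Alg.call hK (Alg.fst.pair (hf.pair hg))).congr (fun _ => rfl) (fun _ => by simp)
  have hs : ∀ {f g f' g' : ℕ × MC × MC → List ℂ}, Alg f (fun _ => 0) → Alg g (fun _ => 0) →
      Alg f' (fun _ => 0) → Alg g' (fun _ => 0) →
      Alg (fun p => List.zipWith (· + ·) (mulC p.1 (f p) (g p)) (mulC p.1 (f' p) (g' p)))
        (fun p => 2 * (K * (p.1 + 1) * 2 ^ p.1) + 2 * 2 ^ p.1) := by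
    intro f g f' g' hf hg hf' hg'
    refine (Alg.zipWithK (F := fun _ a b => a + b) hadd (hm hf hg) (hm hf' hg')).congr
      (fun _ => rfl) (fun x => ?_)
    have := hM.1 x.1 (f x) (g x)
    rw [pow_succ] at this
    omega
  have a1 : Alg (fun p : ℕ × MC × MC => p.2.1.1) (fun _ => 0) := (Alg.snd.fst').fst'
  have a2 : Alg (fun p : ℕ × MC × MC => p.2.1.2.1) (fun _ => 0) := ((Alg.snd.fst').snd').fst'
  have a3 : Alg (fun p : ℕ × MC × MC => p.2.1.2.2.1) (fun _ => 0) :=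
    (((Alg.snd.fst').snd').snd').fst'
  have a4 : Alg (fun p : ℕ × MC × MC => p.2.1.2.2.2) (fun _ => 0) :=
    (((Alg.snd.fst').snd').snd').snd'
  have b1 : Alg (fun p : ℕ × MC × MC => p.2.2.1) (fun _ => 0) := (Alg.snd.snd').fst'
  have b2 : Alg (fun p : ℕ × MC × MC => p.2.2.2.1) (fun _ => 0) := ((Alg.snd.snd').snd').fst'
  have b3 : Alg (fun p : ℕ × MC × MC => p.2.2.2.2.1) (fun _ => 0) :=
    (((Alg.snd.snd').snd').snd').fst'
  have b4 : Alg (fun p : ℕ × MC × MC => p.2.2.2.2.2) (fun _ => 0) :=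
    (((Alg.snd.snd').snd').snd').snd'
  refine ⟨8 * K + 8, ((hs a1 b1 a2 b3).pair ((hs a1 b2 a2 b4).pair ((hs a3 b1 a4 b3).pair
    (hs a3 b2 a4 b4)))).congr (fun _ => rfl) (fun x => ?_)⟩
  have h1 : 1 * 2 ^ x.1 ≤ (x.1 + 1) * 2 ^ x.1 := Nat.mul_le_mul_right _ (by omega)
  nlinarith

end H94FG.CMM
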