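import Pool.Agent.H94.FG.SpecC

set_option autoImplicit false

/-!
# CMUL: cost of the multiplication
-/

open Polynomial Pool.Agent.H22.NL

noncomputable section
namespace H94FG.CMUL

theorem length_V : ∀ (k : ℕ) (a : List ℂ), (V k a).length ≤ 2 ^ k
  | 0, a => by
    simp only [V, List.length_take, pow_zero]
    exact min_le_left _ _
  | k + 1, a => by
    simp only [V, List.length_append]
    have h1 := length_V k
      (List.zipWith (· + ·) (a.take (2 ^ k)) ((a.drop (2 ^ k)).take (2 ^ k)))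
    have h2 := length_V k (List.zipWith (· * ·)
      (List.zipWith (· - ·) (a.take (2 ^ k)) ((a.drop (2 ^ k)).take (2 ^ k)))
      (pw (om (k + 1)) (2 ^ k)))
    rw [pow_succ]
    omega

theorem zc_alg {α : Type} {f : α → ℕ} {c : α → ℕ} (hf : Alg f c) :
    Alg (fun x => zc (f x)) (fun x => c x + 1) :=
  (hf.replicate' Alg.zero').congr (fun _ => rfl) (fun _ => le_rfl)

theorem main : S_CV → S_CW → S_CMUL := by
  intro hV hW
  obtain ⟨K1, hV⟩ := hV
  obtain ⟨K2, hW⟩ := hW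
  -- the extended lists
  have he1 : Alg (fun p : ℕ × List ℂ × List ℂ => p.2.1.take (2 ^ p.1) ++ zc (2 ^ p.1))
      (fun _ => 1) :=
    (((Alg.two_pow' Alg.fst).take' (Alg.fst' Alg.snd)).append'
      (zc_alg (Alg.two_pow' Alg.fst))).congr (fun _ => rfl) (fun _ => by simp)
  have he2 : Alg (fun p : ℕ × List ℂ × List ℂ => p.2.2.take (2 ^ p.1) ++ zc (2 ^ p.1))
      (fun _ => 1) :=
    (((Alg.two_pow' Alg.fst).take' (Alg.snd' Alg.snd)).append'
      (zc_alg (Alg.two_pow' Alg.fst))).congr (fun _ => rfl) (fun _ => by simp)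
  have hk : Alg (fun p : ℕ × List ℂ × List ℂ => p.1 + 1) (fun _ => 0) :=
    (Alg.fst.natAdd' (Alg.nat 1)).congr (fun _ => rfl) (fun _ => by simp)
  have hv1 : Alg (fun p : ℕ × List ℂ × List ℂ =>
      V (p.1 + 1) (p.2.1.take (2 ^ p.1) ++ zc (2 ^ p.1)))
      (fun p => 1 + K1 * (p.1 + 1 + 1) * 2 ^ (p.1 + 1)) :=
    (Alg.call hV (hk.pair he1)).congr (fun _ => rfl) (fun _ => by simp)
  have hv2 : Alg (fun p : ℕ × List ℂ × List ℂ =>
      V (p.1 + 1) (p.2.2.take (2 ^ p.1) ++ zc (2 ^ p.1)))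
      (fun p => 1 + K1 * (p.1 + 1 + 1) * 2 ^ (p.1 + 1)) :=
    (Alg.call hV (hk.pair he2)).congr (fun _ => rfl) (fun _ => by simp)
  have hmul : Alg (fun p : (ℕ × List ℂ × List ℂ) × ℂ × ℂ => p.2.1 * p.2.2) (fun _ => 1) :=
    ((Alg.fst' Alg.snd).mul' (Alg.snd' Alg.snd)).congr (fun _ => rfl) (fun _ => by simp)
  have hz := Alg.zipWithK (F := fun _ a b => a * b) hmul hv1 hv2
  have hw := Alg.call hW (hk.pair hz)
  refine ⟨4 + 8 * K1 + 4 * K2 + 4, hw.congr (fun _ => rfl) (fun p => ?_)⟩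
  have h1 := length_V (p.1 + 1) (p.2.1.take (2 ^ p.1) ++ zc (2 ^ p.1))
  have h2 : 1 ≤ 2 ^ p.1 := Nat.one_le_two_pow
  have h3 : 2 ^ (p.1 + 1) = 2 * 2 ^ p.1 := by rw [pow_succ]; ring
  simp only
  rw [h3] at h1 ⊢
  generalize 2 ^ p.1 = N at *
  generalize (V (p.1 + 1) (p.2.1.take N ++ zc N)).length = M at *
  generalize p.1 = k at *
  have h5 : K1 * (k + 1 + 1) * (2 * N) ≤ K1 * (4 * ((k + 1) * N)) := by
    rw [mul_assoc]
    refine Nat.mul_le_mul_left _ ?_
    nlinarith [Nat.zero_le (k * N)]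
  have h6 : K2 * (k + 1 + 1) * (2 * N) ≤ K2 * (4 * ((k + 1) * N)) := by
    rw [mul_assoc]
    refine Nat.mul_le_mul_left _ ?_
    nlinarith [Nat.zero_le (k * N)]
  have h7 : N ≤ (k + 1) * N := by nlinarith [Nat.zero_le (k * N)]
  generalize K1 * (k + 1 + 1) * (2 * N) = A at *
  generalize K2 * (k + 1 + 1) * (2 * N) = B at *
  have h8 : (4 + 8 * K1 + 4 * K2 + 4) * (k + 1) * N =
      8 * ((k + 1) * N) + 2 * (K1 * (4 * ((k + 1) * N))) + K2 * (4 * ((k + 1) * N)) := by ring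
  rw [h8]
  generalize K1 * (4 * ((k + 1) * N)) = A' at *
  generalize K2 * (4 * ((k + 1) * N)) = B' at *
  generalize (k + 1) * N = D at *
  omega

end H94FG.CMUL
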