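import Pool.Agent.H94.FG.Spec

set_option autoImplicit false

/-!
# Polynomials given by lists of coefficients: basic lemmas (project FG)
-/

open Polynomial

noncomputable section
namespace H94FG

section
variable {R : Type} [Semiring R]

@[simp] theorem toPoly_nil : toPoly ([] : List R) = 0 := rfl

@[simp] theorem toPoly_cons (a : R) (l : List R) : toPoly (a :: l) = C a + X * toPoly l := rfl

theorem coeff_toPoly (l : List R) (i : ℕ) : (toPoly l).coeff i = l.getD i 0 := by
  induction l generalizing i with
  | nil => simp
  | cons a l ih =>
    cases i with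
    | zero => simp
    | succ i => simp [ih, coeff_X_mul]

theorem toPoly_append (l l' : List R) :
    toPoly (l ++ l') = toPoly l + X ^ l.length * toPoly l' := by
  induction l with
  | nil => simp
  | cons a l ih =>
    simp only [List.cons_append, toPoly_cons, ih, List.length_cons, pow_succ']
    rw [mul_add, mul_assoc, add_assoc]

@[simp] theorem toPoly_replicate_zero (m : ℕ) : toPoly (List.replicate m (0 : R)) = 0 := by
  induction m with
  | zero => simp
  | succ m ih => simp [List.replicate_succ, ih]

theorem toPoly_append_zero (l : List R) (m : ℕ) :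
    toPoly (l ++ List.replicate m (0 : R)) = toPoly l := by
  simp [toPoly_append]

theorem toPoly_eq_iff (l l' : List R) :
    toPoly l = toPoly l' ↔ ∀ i, l.getD i 0 = l'.getD i 0 := by
  rw [Polynomial.ext_iff]
  simp [coeff_toPoly]

theorem toPoly_inj {l l' : List R} (h : l.length = l'.length) (h' : toPoly l = toPoly l') :
    l = l' := by
  rw [toPoly_eq_iff] at h'
  apply List.ext_getElem h
  intro i h1 h2
  have := h' i
  rwa [List.getD_eq_getElem l 0 h1, List.getD_eq_getElem l' 0 h2] at this

/-- the list of the first `n` coefficients -/
def cf (n : ℕ) (p : R[X]) : List R := (List.range n).map p.coeff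

@[simp] theorem length_cf (n : ℕ) (p : R[X]) : (cf n p).length = n := by simp [cf]

theorem coeff_toPoly_cf (n : ℕ) (p : R[X]) (i : ℕ) :
    (toPoly (cf n p)).coeff i = if i < n then p.coeff i else 0 := by
  rw [coeff_toPoly, cf]
  split_ifs with h
  · rw [List.getD_eq_getElem _ _ (by simpa using h)]
    simp
  · rw [List.getD_eq_default _ _ (by simpa using h)]

theorem toPoly_cf {n : ℕ} {p : R[X]} (h : ∀ i, n ≤ i → p.coeff i = 0) : toPoly (cf n p) = p := by
  ext i
  rw [coeff_toPoly_cf]
  split_ifs with h1
  · rfl
  · rw [h i (not_lt.mp h1)]

theorem coeff_toPoly_of_le {l : List R} {i : ℕ} (h : l.length ≤ i) : (toPoly l).coeff i = 0 := by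
  rw [coeff_toPoly, List.getD_eq_default _ _ h]

theorem natDegree_toPoly_le {l : List R} {n : ℕ} (h : l.length ≤ n + 1) :
    (toPoly l).natDegree ≤ n :=
  Polynomial.natDegree_le_iff_coeff_eq_zero.mpr fun _ hi =>
    coeff_toPoly_of_le (h.trans hi)

theorem toPoly_map {S : Type} [Semiring S] (f : R →+* S) (l : List R) :
    toPoly (l.map f) = (toPoly l).map f := by
  induction l with
  | nil => simp
  | cons a l ih => simp [ih]

theorem toPoly_reverse {l : List R} {n : ℕ} (h : l.length = n + 1) :
    toPoly l.reverse = reflect n (toPoly l) := by
  ext i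
  rw [coeff_reflect, coeff_toPoly, coeff_toPoly]
  rcases le_or_gt i n with hi | hi
  · rw [revAt_le hi, List.getD_eq_getElem _ _ (by simp; omega),
      List.getD_eq_getElem _ _ (by omega), List.getElem_reverse]
    congr 1
    omega
  · rw [revAt_eq_self_of_lt hi, List.getD_eq_default _ _ (by simp; omega),
      List.getD_eq_default _ _ (by omega)]

end

section
variable {R : Type} [Ring R]

theorem toPoly_zipWith_add {l l' : List R} (h : l.length = l'.length) :
    toPoly (List.zipWith (· + ·) l l') = toPoly l + toPoly l' := by
  induction l generalizing l' with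
  | nil =>
    cases l' with
    | nil => simp
    | cons b l' => simp at h
  | cons a l ih =>
    cases l' with
    | nil => simp at h
    | cons b l' =>
      simp only [List.length_cons, Nat.add_right_cancel_iff] at h
      simp only [List.zipWith_cons_cons, toPoly_cons, ih h, map_add, mul_add]
      abel

theorem toPoly_zipWith_sub {l l' : List R} (h : l.length = l'.length) :
    toPoly (List.zipWith (· - ·) l l') = toPoly l - toPoly l' := by
  induction l generalizing l' with
  | nil =>
    cases l' with
    | nil => simp
    | cons b l' => simp at h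
  | cons a l ih =>
    cases l' with
    | nil => simp at h
    | cons b l' =>
      simp only [List.length_cons, Nat.add_right_cancel_iff] at h
      simp only [List.zipWith_cons_cons, toPoly_cons, ih h, map_sub, mul_sub]
      abel

end

section
variable {R : Type} [CommRing R]

/-- the first `m` coefficients determine the polynomial modulo `X ^ m` -/
theorem X_pow_dvd_sub_take (l : List R) (m : ℕ) : (X : R[X]) ^ m ∣ toPoly l - toPoly (l.take m) := by
  rw [X_pow_dvd_iff]
  intro i hi
  rw [coeff_sub, coeff_toPoly, coeff_toPoly, sub_eq_zero]
  rcases lt_or_ge i l.length with h | h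
  · rw [List.getD_eq_getElem _ _ h, List.getD_eq_getElem _ _ (by simp; omega), List.getElem_take]
  · rw [List.getD_eq_default _ _ h, List.getD_eq_default _ _ (by simp; omega)]

theorem toPoly_take_add_drop (l : List R) {m : ℕ} (h : m ≤ l.length) :
    toPoly l = toPoly (l.take m) + X ^ m * toPoly (l.drop m) := by
  conv_lhs => rw [← List.take_append_drop m l]
  rw [toPoly_append, List.length_take, min_eq_left h]

/-- two polynomials which are equal modulo `X ^ m`, the second one with less than `m`
coefficients -/
theorem eq_of_X_pow_dvd {p q : R[X]} {m : ℕ} (hp : ∀ i, m ≤ i → p.coeff i = 0)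
    (hq : ∀ i, m ≤ i → q.coeff i = 0) (h : X ^ m ∣ p - q) : p = q := by
  rw [X_pow_dvd_iff] at h
  ext i
  rcases lt_or_ge i m with hi | hi
  · have := h i hi
    rwa [coeff_sub, sub_eq_zero] at this
  · rw [hp i hi, hq i hi]

end

end H94FG
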