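import Pool.Agent.H94.FG.SpecC
import Pool.Agent.H94.FG.PL

set_option autoImplicit false

/-!
# Project NU, stub CPC: continuants by a product tree of transfer matrices
-/

open Polynomial Matrix Pool.Agent.H22.NL

noncomputable section
namespace H94FG.CPC

/-- the matrix of polynomials -/
def toM (A : MC) : Matrix (Fin 2) (Fin 2) ℂ[X] :=
  !![toPoly A.1, toPoly A.2.1; toPoly A.2.2.1, toPoly A.2.2.2]

/-- all entries have length `m` -/
def Len (m : ℕ) (A : MC) : Prop :=
  A.1.length = m ∧ A.2.1.length = m ∧ A.2.2.1.length = m ∧ A.2.2.2.length = m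

theorem mmC_spec (hM : S_MULC) (k : ℕ) (A B : MC) (hA : Len (2 ^ k) A) (hB : Len (2 ^ k) B) :
    Len (2 ^ (k + 1)) (mmC k A B) ∧ toM (mmC k A B) = toM A * toM B := by
  obtain ⟨a1, a2, a3, a4⟩ := A
  obtain ⟨b1, b2, b3, b4⟩ := B
  obtain ⟨ha1, ha2, ha3, ha4⟩ := hA
  obtain ⟨hb1, hb2, hb3, hb4⟩ := hB
  simp only at ha1 ha2 ha3 ha4 hb1 hb2 hb3 hb4
  have h11 := hM.2 k a1 b1 ha1 hb1
  have h23 := hM.2 k a2 b3 ha2 hb3
  have h12 := hM.2 k a1 b2 ha1 hb2
  have h24 := hM.2 k a2 b4 ha2 hb4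
  have h31 := hM.2 k a3 b1 ha3 hb1
  have h43 := hM.2 k a4 b3 ha4 hb3
  have h32 := hM.2 k a3 b2 ha3 hb2
  have h44 := hM.2 k a4 b4 ha4 hb4
  refine ⟨⟨?_, ?_, ?_, ?_⟩, ?_⟩
  · simp [mmC, h11.1, h23.1]
  · simp [mmC, h12.1, h24.1]
  · simp [mmC, h31.1, h43.1]
  · simp [mmC, h32.1, h44.1]
  · simp only [mmC, toM]
    rw [toPoly_zipWith_add (by rw [h11.1, h23.1]), toPoly_zipWith_add (by rw [h12.1, h24.1]),
      toPoly_zipWith_add (by rw [h31.1, h43.1]), toPoly_zipWith_add (by rw [h32.1, h44.1]),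
      h11.2, h23.2, h12.2, h24.2, h31.2, h43.2, h32.2, h44.2, Matrix.mul_fin_two]

theorem tmC_spec (hM : S_MULC) (k : ℕ) (L : List MC) (hL : L.length = 2 ^ k)
    (h2 : ∀ A ∈ L, Len 2 A) :
    Len (2 ^ (k + 1)) (tmC k L) ∧ toM (tmC k L) = (L.reverse.map toM).prod := by
  induction k generalizing L with
  | zero =>
    obtain ⟨A, rfl⟩ := List.length_eq_one_iff.mp (by simpa using hL)
    simp only [tmC, List.headD_cons]
    refine ⟨by simpa using h2 A (by simp), by simp⟩
  | succ k ih =>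
    have hd : ((L.drop (2 ^ k)).take (2 ^ k)) = L.drop (2 ^ k) := by
      apply List.take_of_length_le
      rw [List.length_drop, hL, pow_succ]; omega
    have h1 := ih (L.take (2 ^ k)) (by rw [List.length_take, hL, pow_succ]; omega)
      (fun A hA => h2 A (List.mem_of_mem_take hA))
    have h3 := ih (L.drop (2 ^ k)) (by rw [List.length_drop, hL, pow_succ]; omega)
      (fun A hA => h2 A (List.mem_of_mem_drop hA))
    have h4 := mmC_spec hM (k + 1) (tmC k (L.drop (2 ^ k))) (tmC k (L.take (2 ^ k))) h3.1 h1.1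
    simp only [tmC, hd]
    refine ⟨h4.1, ?_⟩
    rw [h4.2, h1.2, h3.2, ← List.prod_append, ← List.map_append, ← List.reverse_append,
      List.take_append_drop]

theorem toM_smC (x y : ℂ) : toM (smC (x, y)) = !![X - C x, - C y; 1, 0] := by
  simp only [toM, smC, toPoly]
  congr 1
  ext i j
  fin_cases i <;> fin_cases j <;> simp <;> ring

theorem prod_spec (α γ : ℕ → ℂ) (τ : ℂ) (n : ℕ) :
    ((((sts α γ n).map fun q => smC (q.1 - τ, q.2)).reverse.map toM).prod 0 0 =
      (cont (fun i => α i - τ) γ n).1) ∧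
    ((((sts α γ n).map fun q => smC (q.1 - τ, q.2)).reverse.map toM).prod 1 0 =
      (cont (fun i => α i - τ) γ n).2) := by
  induction n with
  | zero => simp [sts, cont]
  | succ n ih =>
    have h1 : sts α γ (n + 1) = sts α γ n ++ [(α n, if n = 0 then 0 else γ (n - 1))] := by
      simp [sts, List.range_succ]
    rw [h1, List.map_append, List.reverse_append, List.map_append, List.prod_append]
    simp only [List.map_cons, List.map_nil, List.reverse_cons, List.reverse_nil, List.nil_append,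
      List.prod_cons, List.prod_nil, mul_one, toM_smC]
    simp only [Matrix.mul_apply, Fin.sum_univ_two]
    rw [ih.1, ih.2]
    constructor
    · rcases n with _ | n
      · simp [cont]
      · simp [cont]
        ring
    · simp [cont]

theorem main : S_MULC → S_CPC := by
  intro hM k α γ τ
  have hl : (sts α γ (2 ^ k)).length = 2 ^ k := by simp [sts]
  have ht : (sts α γ (2 ^ k)).take (2 ^ k) = sts α γ (2 ^ k) := List.take_of_length_le hl.le
  have hspec := tmC_spec hM k ((sts α γ (2 ^ k)).map fun q => smC (q.1 - τ, q.2))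
    (by rw [List.length_map, hl])
    (by
      intro A hA
      obtain ⟨q, _, rfl⟩ := List.mem_map.mp hA
      simp [Len, smC])
  have ht2 : ((tmC k ((sts α γ (2 ^ k)).map fun q => smC (q.1 - τ, q.2))).1).take (2 ^ (k + 1)) =
      (tmC k ((sts α γ (2 ^ k)).map fun q => smC (q.1 - τ, q.2))).1 :=
    List.take_of_length_le hspec.1.1.le
  unfold cpC
  rw [ht, ht2]
  refine ⟨hspec.1.1, ?_⟩
  rw [← (prod_spec α γ τ (2 ^ k)).1, ← hspec.2]
  simp [toM]

end H94FG.CPC
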