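import Pool.Agent.H94.FG.SpecC

set_option autoImplicit false

open Polynomial Pool.Agent.H22.NL

noncomputable section
namespace H94FG.CPR

/-- one step: multiply by the head of the list -/
def stp (q : ℂ × List ℂ) : ℂ × List ℂ :=
  caseList q.2 (q.1, q.2) (fun b t => (q.1 * b, t))

theorem stp_iter (m : ℕ) : ∀ (z : ℂ) (l : List ℂ),
    stp^[m] (z, l) = (z * (l.take m).prod, l.drop m) := by
  induction m with
  | zero => intro z l; simp
  | succ m ih =>
    intro z l
    rw [Function.iterate_succ_apply]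
    cases l with
    | nil => simp [stp, ih]
    | cons b t => simp [stp, ih, mul_assoc]

theorem stp_alg : Alg stp (fun _ => 1) := by
  have h2 : Alg (fun q : (ℂ × List ℂ) × ℂ × List ℂ => (q.1.1 * q.2.1, q.2.2)) (fun _ => 1) :=
    (((Alg.fst.fst').mul' (Alg.snd.fst')).pair (Alg.snd.snd')).congr (fun _ => rfl)
      (fun _ => by simp)
  refine ((Alg.id.pair Alg.snd).comp (Alg.caseList (g := fun q : ℂ × List ℂ => q) Alg.id h2)).congr
    (fun _ => rfl) (fun x => ?_)
  cases x.2 <;> simp

theorem main : S_CPR := by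
  have hi : Alg (fun p : ℕ × List ℂ => ((1 : ℂ), p.2)) (fun _ => 0) :=
    (Alg.one.pair Alg.snd).congr (fun _ => rfl) (fun _ => by simp)
  have h := (Alg.loopK (n := fun p : ℕ × List ℂ => p.1) (i := fun p => ((1 : ℂ), p.2))
    stp_alg Alg.fst hi).fst'
  refine ⟨1, h.congr (fun p => ?_) (fun _ => by simp)⟩
  rw [stp_iter]
  simp

end H94FG.CPR
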