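import Pool.Agent.H94.FG.SpecC

set_option autoImplicit false

open Polynomial Pool.Agent.H22.NL

noncomputable section
namespace H94FG.CPW

theorem main : S_CPW := by
  have hs : Alg (fun q : List ℂ × ℂ × ℂ => (q.2.1 :: q.1, q.2.1 * q.2.2, q.2.2)) (fun _ => 1) :=
    (((Alg.snd.fst').cons' Alg.fst).pair (((Alg.snd.fst').mul' (Alg.snd.snd')).pair
      (Alg.snd.snd'))).congr (fun _ => rfl) (fun _ => by simp)
  have hi : Alg (fun p : ℂ × ℕ => (([] : List ℂ), (1 : ℂ), p.1)) (fun _ => 0) :=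
    (Alg.nil.pair (Alg.one.pair Alg.fst)).congr (fun _ => rfl) (fun _ => by simp)
  have h := ((Alg.loopK (n := fun p : ℂ × ℕ => p.2) (i := fun p => (([] : List ℂ), (1 : ℂ), p.1))
    hs Alg.snd hi).fst').reverse'
  refine ⟨1, h.congr (fun p => ?_) (fun _ => by simp)⟩
  obtain ⟨z, m⟩ := p
  have : ∀ m : ℕ, (fun q : List ℂ × ℂ × ℂ => (q.2.1 :: q.1, q.2.1 * q.2.2, q.2.2))^[m]
      (([] : List ℂ), (1 : ℂ), z) = ((pw z m).reverse, z ^ m, z) := by
    intro m
    induction m with
    | zero => simp [pw]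
    | succ m ih =>
      rw [Function.iterate_succ_apply', ih]
      simp [pw, List.range_succ, pow_succ]
  simp only [this, List.reverse_reverse]

end H94FG.CPW
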