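import Pool.Agent.H94.FG.SpecC

/-! # Project NU, stub CSR: the cost of the search -/

set_option autoImplicit false

noncomputable section
namespace H94FG.CSR

open H94FG.Alg

/-- natural numbers as constants, with explicit cost -/
theorem cn {α : Type} (n : ℕ) : Alg (fun _ : α => (n : ℂ)) (fun _ => n + 1) := by
  induction n with
  | zero => exact zero'.congr (fun _ => by simp) (fun _ => le_rfl)
  | succ n ih =>
    exact (ih.add' Alg.one).congr (fun _ => by push_cast; ring) (fun _ => by simp)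

/-- squares -/
theorem sqr {α : Type} {f : α → ℂ} {c : α → ℕ} (hf : Alg f c) :
    Alg (fun x => f x ^ 2) (fun x => c x + 1) := by
  have h : Alg (fun z : ℂ => z ^ 2) (fun _ => 1) :=
    (Alg.id.mul' Alg.id).congr (fun z => by ring) (fun _ => by simp)
  exact hf.un h

/-- the points -/
theorem pos (α : Type) (i : ℕ) :
    Alg (fun x : α × ℂ × ℂ => posC x.2.1 x.2.2 i) (fun _ => i + 20) := by
  have ht : Alg (fun x : α × ℂ × ℂ => x.2.1) (fun _ => 0) := fst' Alg.snd
  have hh : Alg (fun x : α × ℂ × ℂ => x.2.2) (fun _ => 0) := snd' Alg.snd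
  refine (ht.add' (((cn i).sub' (cn 4)).mul' (hh.div' (cn 4)))).congr (fun x => ?_) (fun x => ?_)
  · simp [posC]
  · omega

/-- the candidates -/
theorem cand {α : Type} {W : α → ℂ → ℂ} {c : α → ℕ}
    (hW : Alg (fun p : α × ℂ => W p.1 p.2) (fun p => c p.1)) (i : ℕ) :
    Alg (fun x : α × ℂ × ℂ => candC (W x.1) x.2.1 x.2.2 i) (fun x => 3 * c x.1 + (3 * i + 70)) := by
  have h : ∀ i, Alg (fun x : α × ℂ × ℂ => W x.1 (posC x.2.1 x.2.2 i))
      (fun x => c x.1 + (i + 20)) := fun i =>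
    ((Alg.fst.pair (pos α i)).comp hW).congr (fun _ => rfl) (fun x => by simp; omega)
  refine (((h i).mul' (h (i + 2))).div' (sqr (h (i + 1)))).congr (fun x => ?_) (fun x => ?_)
  · simp [candC]
  · omega

/-- the best candidate -/
theorem best {α : Type} {W : α → ℂ → ℂ} {c : α → ℕ}
    (hW : Alg (fun p : α × ℂ => W p.1 p.2) (fun p => c p.1)) (m : ℕ) :
    Alg (fun x : α × ℂ × ℂ => bestC (W x.1) x.2.1 x.2.2 m)
      (fun x => 3 * (m + 1) * c x.1 + (m + 1) * (6 * m + 130)) := by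
  induction m with
  | zero =>
    refine ((cand hW 0).pair (pos α 1)).congr (fun x => rfl) (fun x => ?_)
    simp only [zero_add, mul_one, one_mul, mul_zero]
    omega
  | succ m ih =>
    have h1 : Alg (fun q : ((α × ℂ × ℂ) × (ℂ × ℂ)) × ℂ =>
        if 0 ≤ (q.1.2.1 - q.2).re then (q.2, posC q.1.1.2.1 q.1.1.2.2 (m + 2)) else q.1.2)
        (fun _ => 2 * m + 48) := by
      have ha : Alg (fun q : ((α × ℂ × ℂ) × (ℂ × ℂ)) × ℂ => q.1.2.1 - q.2) (fun _ => 1) :=
        ((fst' (snd' Alg.fst)).sub' Alg.snd).congr (fun _ => rfl) (fun _ => by simp)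
      have hb : Alg (fun q : ((α × ℂ × ℂ) × (ℂ × ℂ)) × ℂ =>
          (q.2, posC q.1.1.2.1 q.1.1.2.2 (m + 2))) (fun _ => m + 22) :=
        (Alg.snd.pair ((fst' Alg.fst).un (pos α (m + 2)))).congr (fun _ => rfl)
          (fun _ => by simp)
      have hc : Alg (fun q : ((α × ℂ × ℂ) × (ℂ × ℂ)) × ℂ => q.1.2) (fun _ => 0) := snd' Alg.fst
      refine ((sel' ha (fst' hb) (fst' hc)).pair (sel' ha (snd' hb) (snd' hc))).congr
        (fun q => ?_) (fun q => ?_)
      · by_cases h : 0 ≤ (q.1.2.1 - q.2).re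
        · simp only [if_pos h]
        · simp only [if_neg h]
      · omega
    have h2 : Alg (fun q : (α × ℂ × ℂ) × (ℂ × ℂ) =>
        if 0 ≤ (q.2.1 - candC (W q.1.1) q.1.2.1 q.1.2.2 (m + 1)).re then
          (candC (W q.1.1) q.1.2.1 q.1.2.2 (m + 1), posC q.1.2.1 q.1.2.2 (m + 2)) else q.2)
        (fun q => 3 * c q.1.1 + (3 * (m + 1) + 70) + (2 * m + 48)) := by
      have hc : Alg (fun q : (α × ℂ × ℂ) × (ℂ × ℂ) => candC (W q.1.1) q.1.2.1 q.1.2.2 (m + 1))
          (fun q => 3 * c q.1.1 + (3 * (m + 1) + 70)) :=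
        (Alg.fst.comp (cand hW (m + 1))).congr (fun _ => rfl) (fun _ => by simp)
      exact (letIn (h := fun (q : (α × ℂ × ℂ) × (ℂ × ℂ)) (y : ℂ) =>
        if 0 ≤ (q.2.1 - y).re then (y, posC q.1.2.1 q.1.2.2 (m + 2)) else q.2)
        (ch := fun _ => 2 * m + 48) hc h1).congr (fun _ => rfl) (fun _ => le_rfl)
    refine (letIn (h := fun (x : α × ℂ × ℂ) (y : ℂ × ℂ) =>
        if 0 ≤ (y.1 - candC (W x.1) x.2.1 x.2.2 (m + 1)).re then
          (candC (W x.1) x.2.1 x.2.2 (m + 1), posC x.2.1 x.2.2 (m + 2)) else y)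
        (ch := fun q => 3 * c q.1.1 + (3 * (m + 1) + 70) + (2 * m + 48)) ih h2).congr
        (fun x => ?_) (fun x => ?_)
    · rfl
    · have e : 3 * (m + 1 + 1) * c x.1 = 3 * (m + 1) * c x.1 + 3 * c x.1 := by ring
      rw [e]
      have e2 : (m + 1 + 1) * (6 * (m + 1) + 130) = (m + 1) * (6 * m + 130) + (12 * m + 142) := by
        ring
      rw [e2]
      simp only
      omega

theorem main : S_CSR := by
  refine ⟨7 * (6 * 6 + 130) + 6, ?_⟩
  intro α W c hW
  set K : ℕ := 7 * (6 * 6 + 130) + 6 with hK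
  set s : α × ℂ × ℂ → α × ℂ × ℂ := fun x => (x.1, (bestC (W x.1) x.2.1 x.2.2 6).2, x.2.2 / 4)
    with hs
  have hstep : Alg s (fun x => 21 * c x.1 + K) := by
    refine (Alg.fst.pair ((snd' (best hW 6)).pair ((snd' Alg.snd).div' (cn 4)))).congr
      (fun x => ?_) (fun x => ?_)
    · simp [hs]
    · simp only [hK]
      omega
  have hit : ∀ (r : ℕ) (x : α × ℂ × ℂ),
      s^[r] x = (x.1, srchC (W x.1) x.2.1 x.2.2 r, x.2.2 / 4 ^ r) := by
    intro r x
    induction r with
    | zero => simp [srchC]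
    | succ r ih =>
      rw [Function.iterate_succ_apply', ih]
      simp only [hs, srchC, pow_succ]
      rw [div_div]
  have hin : Alg (fun p : α × ℂ × ℂ × ℕ => (p.2.2.2, (p.1, p.2.1, p.2.2.1))) (fun _ => 0) :=
    ((snd' (snd' Alg.snd)).pair (Alg.fst.pair ((fst' Alg.snd).pair (fst' (snd' Alg.snd))))).congr
      (fun _ => rfl) (fun _ => by simp)
  refine (fst' (snd' (hin.comp (Alg.loop hstep)))).congr (fun p => ?_) (fun p => ?_)
  · simp only [hit]
  · simp only [hit, Finset.sum_const, Finset.card_range, smul_eq_mul]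
    rw [zero_add]
    exact Nat.mul_le_mul_right _ (Nat.le_succ _)

end H94FG.CSR
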