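import Pool.Agent.H94.FG.SpecC

/-! # Project NU, stub CST: the cost of the list of the sites -/

set_option autoImplicit false

noncomputable section
namespace H94FG.CST

open H94FG.Alg

theorem main : S_CST := by
  refine ⟨4, ?_⟩
  have hm : Alg (fun p : ℕ × List (ℂ × ℂ × ℂ) => 2 ^ p.1) (fun _ => 0) := two_pow' Alg.fst
  have ht : Alg (fun p : ℕ × List (ℂ × ℂ × ℂ) => p.2.take (2 ^ p.1)) (fun _ => 0) :=
    (hm.take' Alg.snd).congr (fun _ => rfl) (fun _ => by simp)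
  have h1 : Alg (fun p : ℕ × List (ℂ × ℂ × ℂ) => (p.2.take (2 ^ p.1)).map fun q => q.1)
      (fun _ => 0) :=
    (mapK (F := fun (_ : ℕ × List (ℂ × ℂ × ℂ)) (q : ℂ × ℂ × ℂ) => q.1) (K := 0)
      (fst' Alg.snd) ht).congr (fun _ => rfl) (fun _ => by simp)
  have h2 : Alg (fun p : ℕ × List (ℂ × ℂ × ℂ) =>
      (p.2.take (2 ^ p.1)).map fun q => q.2.1 * q.2.2) (fun p => 2 ^ p.1) := by
    refine (mapK (F := fun (_ : ℕ × List (ℂ × ℂ × ℂ)) (q : ℂ × ℂ × ℂ) => q.2.1 * q.2.2) (K := 1)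
      (((fst' (snd' Alg.snd)).mul' (snd' (snd' Alg.snd))).congr (fun _ => rfl)
        (fun _ => by simp)) ht).congr (fun _ => rfl) (fun p => ?_)
    rw [List.length_take]
    have := min_le_left (2 ^ p.1) p.2.length
    omega
  have hz : Alg (fun p : ℕ × List (ℂ × ℂ × ℂ) => zc (2 ^ p.1)) (fun _ => 1) :=
    (hm.replicate' zero').congr (fun _ => rfl) (fun _ => by simp)
  refine ((h1.append' hz).zip' (hm.take' (zero'.cons' (h2.append' hz)))).congr (fun _ => rfl)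
    (fun p => ?_)
  have : 1 ≤ 2 ^ p.1 := Nat.one_le_two_pow
  omega

end H94FG.CST
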