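import Pool.Agent.H94.FG.SpecC

/-! # Project NU, stub CTS: the cost of the computation of the shift -/

set_option autoImplicit false

noncomputable section
namespace H94FG.CTS

open H94FG.Alg

/-- natural numbers as constants, with explicit cost -/
theorem cn {α : Type} (n : ℕ) : Alg (fun _ : α => (n : ℂ)) (fun _ => n + 1) := by
  induction n with
  | zero => exact zero'.congr (fun _ => by simp) (fun _ => le_rfl)
  | succ n ih =>
    exact (ih.add' Alg.one).congr (fun _ => by push_cast; ring) (fun _ => by simp)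

/-- powers of a natural number -/
theorem pwn (b : ℕ) : Alg (fun r : ℕ => (b : ℂ) ^ r) (fun r => (b + 2) * r) := by
  have h : Alg (fun z : ℂ => b * z) (fun _ => b + 2) :=
    ((cn b).mul' Alg.id).congr (fun z => rfl) (fun _ => by simp)
  refine (loopK (n := fun p : ℕ => p) (i := fun _ => (1 : ℂ)) h
    Alg.id Alg.one).congr (fun m => ?_) (fun p => by simp)
  show (fun z : ℂ => b * z)^[m] 1 = b ^ m
  induction m with
  | zero => simp
  | succ m ih =>
    rw [Function.iterate_succ_apply', ih, pow_succ]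
    ring

theorem main (hCWZ : S_CWZ) (hCSR : S_CSR) : S_CTS := by
  obtain ⟨Kw, hw⟩ := hCWZ
  obtain ⟨Ks, hs⟩ := hCSR
  -- the potential with the environment `((k, K), l, ε)`
  have hW : Alg (fun p : ((ℕ × ℕ) × List (ℂ × ℂ) × ℂ) × ℂ =>
      wz p.1.1.1 p.1.1.2 p.1.2.1 p.1.2.2 p.2)
      (fun p => Kw * (p.1.1.2 + 1) * ((p.1.1.1 + 1) ^ 2 * 2 ^ p.1.1.1 + p.1.1.2)) :=
    (((fst' Alg.fst).pair ((fst' (snd' Alg.fst)).pair
      ((snd' (snd' Alg.fst)).pair Alg.snd))).comp hw).congr (fun _ => rfl) (fun _ => by simp)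
  have hS := hs ((ℕ × ℕ) × List (ℂ × ℂ) × ℂ) (fun x t => wz x.1.1 x.1.2 x.2.1 x.2.2 t)
    (fun x => Kw * (x.1.2 + 1) * ((x.1.1 + 1) ^ 2 * 2 ^ x.1.1 + x.1.2)) hW
  -- the data
  have hj : Alg (fun x : ℕ × List (ℂ × ℂ) × ℂ => x.1) (fun _ => 0) := Alg.fst
  have h2j : Alg (fun x : ℕ × List (ℂ × ℂ) × ℂ => (2 : ℂ) ^ x.1) (fun x => 4 * x.1) :=
    (hj.comp (pwn 2)).congr (fun _ => by norm_num) (fun _ => by simp)
  have hh : Alg (fun x : ℕ × List (ℂ × ℂ) × ℂ => x.2.2 / (2 * 2 ^ x.1)) (fun x => 4 * x.1 + 5) :=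
    ((snd' Alg.snd).div' ((cn 2).mul' h2j)).congr (fun _ => by norm_num) (fun x => by omega)
  have hr : Alg (fun x : ℕ × List (ℂ × ℂ) × ℂ => 11 + 21 * x.1) (fun _ => 0) :=
    ((Alg.nat 11).natAdd' ((Alg.nat 21).natMul' hj)).congr (fun _ => rfl) (fun _ => by simp)
  have hK : Alg (fun x : ℕ × List (ℂ × ℂ) × ℂ => 5 + 12 * x.1) (fun _ => 0) :=
    ((Alg.nat 5).natAdd' ((Alg.nat 12).natMul' hj)).congr (fun _ => rfl) (fun _ => by simp)
  have h4 : Alg (fun x : ℕ × List (ℂ × ℂ) × ℂ => (4 : ℂ) ^ (11 + 21 * x.1))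
      (fun x => 6 * (11 + 21 * x.1)) :=
    (hr.comp (pwn 4)).congr (fun _ => by norm_num) (fun _ => by simp)
  have h5 : Alg (fun x : ℕ × List (ℂ × ℂ) × ℂ => ((2 : ℂ) ^ x.1) ^ 5) (fun x => 20 * x.1 + 4) :=
    ((((h2j.mul' h2j).mul' h2j).mul' h2j).mul' h2j).congr (fun _ => by ring)
      (fun x => by omega)
  have he : Alg (fun x : ℕ × List (ℂ × ℂ) × ℂ =>
      x.2.2 / (2 * 2 ^ x.1) / 4 ^ (11 + 21 * x.1) / (4 * (2 ^ x.1) ^ 5))
      (fun x => 150 * x.1 + 90) :=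
    ((hh.div' h4).div' ((cn 4).mul' h5)).congr (fun _ => by norm_num) (fun x => by omega)
  have hin : Alg (fun x : ℕ × List (ℂ × ℂ) × ℂ =>
      (((x.1, 5 + 12 * x.1), x.2.1,
        x.2.2 / (2 * 2 ^ x.1) / 4 ^ (11 + 21 * x.1) / (4 * (2 ^ x.1) ^ 5)),
        x.2.2 / (2 * 2 ^ x.1), x.2.2 / (2 * 2 ^ x.1), 11 + 21 * x.1))
      (fun x => 158 * x.1 + 100) :=
    (((hj.pair hK).pair ((fst' Alg.snd).pair he)).pair (hh.pair (hh.pair hr))).congr
      (fun _ => rfl) (fun x => by omega)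
  refine ⟨258 + 21 * (21 * (Kw * 12 * 13) + Ks), ?_⟩
  refine (hin.comp hS).congr (fun x => rfl) (fun x => ?_)
  obtain ⟨j, l, δ⟩ := x
  simp only
  set u : ℕ := (j + 1) ^ 2 * 2 ^ j with hu
  have h2 : 1 ≤ 2 ^ j := Nat.one_le_two_pow
  have hju : j + 1 ≤ u := by
    calc j + 1 = (j + 1) * 1 * 1 := by ring
      _ ≤ (j + 1) * (j + 1) * 2 ^ j := by gcongr; omega
      _ = u := by rw [hu]; ring
  have e : (258 + 21 * (21 * (Kw * 12 * 13) + Ks)) * (j + 1) ^ 4 * 2 ^ j =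
      (258 + 21 * (21 * (Kw * 12 * 13) + Ks)) * ((j + 1) * ((j + 1) * u)) := by rw [hu]; ring
  rw [e]
  have i1 : 158 * j + 100 ≤ 258 * ((j + 1) * ((j + 1) * u)) := by
    have h3 : j + 1 ≤ (j + 1) * ((j + 1) * u) := by
      apply Nat.le_mul_of_pos_right
      exact Nat.mul_pos (by omega) (by omega)
    omega
  have i2 : Kw * (5 + 12 * j + 1) * (u + (5 + 12 * j)) ≤ Kw * 12 * 13 * ((j + 1) * u) := by
    calc Kw * (5 + 12 * j + 1) * (u + (5 + 12 * j)) ≤ Kw * (12 * (j + 1)) * (13 * u) := by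
          gcongr
          · omega
          · omega
      _ = Kw * 12 * 13 * ((j + 1) * u) := by ring
  have i3 : (11 + 21 * j + 1) * (21 * (Kw * (5 + 12 * j + 1) * (u + (5 + 12 * j))) + Ks) ≤
      21 * (21 * (Kw * 12 * 13) + Ks) * ((j + 1) * ((j + 1) * u)) := by
    have h3 : 1 ≤ (j + 1) * u := Nat.mul_pos (by omega) (by omega)
    calc (11 + 21 * j + 1) * (21 * (Kw * (5 + 12 * j + 1) * (u + (5 + 12 * j))) + Ks)
        ≤ (21 * (j + 1)) * (21 * (Kw * 12 * 13 * ((j + 1) * u)) + Ks * ((j + 1) * u)) := by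
          have h4 : Ks ≤ Ks * ((j + 1) * u) := Nat.le_mul_of_pos_right _ (by omega)
          gcongr
          · omega
      _ = _ := by ring
  calc 158 * j + 100 + (11 + 21 * j + 1) *
        (21 * (Kw * (5 + 12 * j + 1) * (u + (5 + 12 * j))) + Ks)
      ≤ 258 * ((j + 1) * ((j + 1) * u)) +
        21 * (21 * (Kw * 12 * 13) + Ks) * ((j + 1) * ((j + 1) * u)) := Nat.add_le_add i1 i3
    _ = _ := by ring

end H94FG.CTS
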