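import Pool.Agent.H94.FG.SpecC

set_option autoImplicit false

open Polynomial Pool.Agent.H22.NL

noncomputable section
namespace H94FG.CV

/-- the root of unity -/
theorem om_alg (hOM : S_OM) {α : Type} {f : α → ℕ} {c : α → ℕ} (hf : Alg f c) :
    Alg (fun x => om (f x)) (fun x => c x + 1) :=
  (hf.un Alg.unity).congr (fun x => (hOM (f x)).symm) (fun _ => le_rfl)

theorem main : S_OM → S_CPW → S_CV := by
  intro hOM hPW
  obtain ⟨K, hK⟩ := hPW
  have hf1 : Alg (fun p : ℕ × List ℂ => p.2.take (2 ^ p.1)) (fun _ => 0) :=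
    ((Alg.two_pow' Alg.fst).take' Alg.snd).congr (fun _ => rfl) (fun _ => by simp)
  have hf2 : Alg (fun p : ℕ × List ℂ => (p.2.drop (2 ^ p.1)).take (2 ^ p.1)) (fun _ => 0) :=
    ((Alg.two_pow' Alg.fst).take' ((Alg.two_pow' Alg.fst).drop' Alg.snd)).congr
      (fun _ => rfl) (fun _ => by simp)
  have hadd : Alg (fun p : (ℕ × List ℂ) × ℂ × ℂ => p.2.1 + p.2.2) (fun _ => 1) :=
    ((Alg.fst' Alg.snd).add' (Alg.snd' Alg.snd)).congr (fun _ => rfl) (fun _ => by simp)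
  have hsub : Alg (fun p : (ℕ × List ℂ) × ℂ × ℂ => p.2.1 - p.2.2) (fun _ => 1) :=
    ((Alg.fst' Alg.snd).sub' (Alg.snd' Alg.snd)).congr (fun _ => rfl) (fun _ => by simp)
  have hmul : Alg (fun p : (ℕ × List ℂ) × ℂ × ℂ => p.2.1 * p.2.2) (fun _ => 1) :=
    ((Alg.fst' Alg.snd).mul' (Alg.snd' Alg.snd)).congr (fun _ => rfl) (fun _ => by simp)
  have hpw : Alg (fun p : ℕ × List ℂ => pw (om (p.1 + 1)) (2 ^ p.1))
      (fun p => 1 + K * (2 ^ p.1 + 1)) := by
    refine (Alg.call hK ((om_alg hOM (Alg.fst.natAdd' (Alg.nat 1))).pair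
      (Alg.two_pow' Alg.fst))).congr (fun _ => rfl) (fun _ => by simp)
  have hl : Alg (fun p : ℕ × List ℂ =>
      List.zipWith (· + ·) (p.2.take (2 ^ p.1)) ((p.2.drop (2 ^ p.1)).take (2 ^ p.1)))
      (fun p => 2 ^ p.1) := by
    refine (Alg.zipWithK (F := fun _ a b => a + b) hadd hf1 hf2).congr (fun _ => rfl) (fun x => ?_)
    have : (x.2.take (2 ^ x.1)).length ≤ 2 ^ x.1 := List.length_take_le _ _
    omega
  have hr : Alg (fun p : ℕ × List ℂ =>
      List.zipWith (· * ·)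
      (List.zipWith (· - ·) (p.2.take (2 ^ p.1)) ((p.2.drop (2 ^ p.1)).take (2 ^ p.1)))
      (pw (om (p.1 + 1)) (2 ^ p.1)))
      (fun p => 2 ^ p.1 + 2 ^ p.1 + (1 + K * (2 ^ p.1 + 1))) := by
    have h1 : Alg (fun p : ℕ × List ℂ =>
        List.zipWith (· - ·) (p.2.take (2 ^ p.1)) ((p.2.drop (2 ^ p.1)).take (2 ^ p.1)))
        (fun p => 2 ^ p.1) := by
      refine (Alg.zipWithK (F := fun _ a b => a - b) hsub hf1 hf2).congr (fun _ => rfl)
        (fun x => ?_)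
      have : (x.2.take (2 ^ x.1)).length ≤ 2 ^ x.1 := List.length_take_le _ _
      omega
    refine (Alg.zipWithK (F := fun _ a b => a * b) hmul h1 hpw).congr (fun _ => rfl) (fun x => ?_)
    have h2 : (x.2.take (2 ^ x.1)).length ≤ 2 ^ x.1 := List.length_take_le _ _
    have h3 : (List.zipWith (fun a b => a - b) (x.2.take (2 ^ x.1))
      ((x.2.drop (2 ^ x.1)).take (2 ^ x.1))).length ≤ 2 ^ x.1 := by
      rw [List.length_zipWith]; omega
    omega
  have hh : Alg (fun p : ℕ × List ℂ × List ℂ × List ℂ => p.2.2.1 ++ p.2.2.2) (fun _ => 0) :=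
    (((Alg.snd.snd').fst').append' ((Alg.snd.snd').snd')).congr (fun _ => rfl) (fun _ => by simp)
  have hg : Alg (fun a : List ℂ => a.take 1) (fun _ => 0) :=
    ((Alg.nat 1).take' Alg.id).congr (fun _ => rfl) (fun _ => by simp)
  have key := Alg.rec2 (F := V) (G := 0) (cl := fun k => 2 ^ k)
    (cr := fun k => 2 ^ k + 2 ^ k + (1 + K * (2 ^ k + 1))) (ch := fun _ => 0)
    hg hl hr hh (fun _ => rfl) (fun _ _ => rfl)
  refine ⟨4 + 2 * K, key.congr (fun _ => rfl) (fun p => ?_)⟩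
  have := Alg.S2_le (G := 0) (K := 4 + 2 * K) (j := 0)
    (e := fun k => 2 ^ k + (2 ^ k + 2 ^ k + (1 + K * (2 ^ k + 1))) + 0) (Nat.zero_le _)
    (fun k => by
      have h1 : 1 ≤ 2 ^ k := Nat.one_le_two_pow
      have h2 : K * 1 ≤ K * 2 ^ k := Nat.mul_le_mul_left _ h1
      simp only [pow_zero, mul_one]
      nlinarith) p.1
  simpa using this

end H94FG.CV
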