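import Pool.Agent.H94.FG.SpecC

/-! # Project NU, stub CV2: the cost of the regularised discriminant -/

set_option autoImplicit false

noncomputable section
namespace H94FG.CV2

open H94FG.Alg

/-- natural numbers as constants, with explicit cost -/
theorem cn {α : Type} (n : ℕ) : Alg (fun _ : α => (n : ℂ)) (fun _ => n + 1) := by
  induction n with
  | zero => exact zero'.congr (fun _ => by simp) (fun _ => le_rfl)
  | succ n ih =>
    exact (ih.add' Alg.one).congr (fun _ => by push_cast; ring) (fun _ => by simp)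

theorem two_le (k : ℕ) : 1 ≤ 2 ^ k := Nat.one_le_two_pow

/-- `vof` -/
theorem cvof (hCPR : S_CPR) : ∃ K, Alg (fun p : ℕ × List ℂ => vof p.1 p.2)
    (fun p => K * 2 ^ p.1) := by
  obtain ⟨Kp, hp⟩ := hCPR
  have hm : Alg (fun p : ℕ × List ℂ => 2 ^ p.1 - 1) (fun _ => 0) :=
    ((two_pow' Alg.fst).natSub' (Alg.nat 1)).congr (fun _ => rfl) (fun _ => by simp)
  have h1 : Alg (fun p : ℕ × List ℂ => (p.2.take (2 ^ p.1 - 1)).map fun x => x * x)
      (fun p => 2 ^ p.1) := by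
    refine (mapK (F := fun (_ : ℕ × List ℂ) (x : ℂ) => x * x) (K := 1)
      ((Alg.snd.mul' Alg.snd).congr (fun _ => rfl) (fun _ => by simp))
      (hm.take' Alg.snd)).congr (fun _ => rfl) (fun p => ?_)
    rw [List.length_take]
    have := min_le_left (2 ^ p.1 - 1) p.2.length
    have h0 := two_le p.1
    omega
  have h2 : Alg (fun p : ℕ × List ℂ => ((p.2.take (2 ^ p.1 - 1)).map fun x => x * x).prod)
      (fun p => 2 ^ p.1 + Kp * 2 ^ p.1) := by
    refine ((hm.pair h1).comp hp).congr (fun p => ?_) (fun p => ?_)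
    · simp only
      rw [List.take_of_length_le]
      simp
    · have := two_le p.1
      simp only
      rw [Nat.sub_add_cancel this]
      omega
  have h3 : Alg (fun p : ℕ × List ℂ => ((p.2.drop (2 ^ p.1 - 1)).take 1).prod)
      (fun _ => 2 * Kp) :=
    (((Alg.nat 1).pair (hm.drop' Alg.snd)).comp hp).congr (fun _ => rfl)
      (fun p => by simp only; omega)
  refine ⟨2 + 3 * Kp, ?_⟩
  refine (h2.mul' h3).congr (fun _ => rfl) (fun p => ?_)
  have h4 := two_le p.1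
  have h5 : Kp ≤ Kp * 2 ^ p.1 := Nat.le_mul_of_pos_right _ (by omega)
  have e : (2 + 3 * Kp) * 2 ^ p.1 = 2 * 2 ^ p.1 + Kp * 2 ^ p.1 + 2 * (Kp * 2 ^ p.1) := by ring
  rw [e]
  omega

/-- `lcl` -/
theorem clcl (hCCP : S_CCP) (hCHG : S_CHG) :
    ∃ K, Alg (fun p : ℕ × List (ℂ × ℂ) × ℂ => lcl p.1 p.2.1 p.2.2)
    (fun p => K * (p.1 + 1) ^ 2 * 2 ^ p.1) := by
  obtain ⟨Kc, hc⟩ := hCCP
  obtain ⟨Kh, hh⟩ := hCHG
  -- the two characteristic polynomials
  have h1 : Alg (fun p : ℕ × List (ℂ × ℂ) × ℂ => cpC p.1 p.2.1 (Complex.I * p.2.2))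
      (fun p => 2 + Kc * (p.1 + 1) ^ 2 * 2 ^ p.1) :=
    ((Alg.fst.pair ((fst' Alg.snd).pair (im'.mul' (snd' Alg.snd)))).comp hc).congr
      (fun _ => rfl) (fun p => by simp)
  have h2 : Alg (fun p : ℕ × List (ℂ × ℂ) × ℂ => cpC p.1 p.2.1 (-(Complex.I * p.2.2)))
      (fun p => 4 + Kc * (p.1 + 1) ^ 2 * 2 ^ p.1) :=
    ((Alg.fst.pair ((fst' Alg.snd).pair (neg' (im'.mul' (snd' Alg.snd))))).comp hc).congr
      (fun _ => rfl) (fun p => by simp)
  -- the remaining part, with the environment `(k, P, Q)`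
  have hk : Alg (fun q : ℕ × List ℂ × List ℂ => 2 ^ q.1) (fun _ => 0) := two_pow' Alg.fst
  have hf : Alg (fun q : ℕ × List ℂ × List ℂ => ffl q.1 q.2.1 q.2.2)
      (fun q => 5 * q.2.1.length + 1) := by
    have ha : Alg (fun q : ℕ × List ℂ × List ℂ =>
        List.zipWith (fun a b => (a + b) / 2) q.2.1 q.2.2) (fun q => 5 * q.2.1.length) :=
      (zipWithK (F := fun (_ : ℕ × List ℂ × List ℂ) (a b : ℂ) => (a + b) / 2) (K := 5)
        ((((fst' Alg.snd).add' (snd' Alg.snd)).div' (cn 2)).congr (fun _ => by norm_num)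
          (fun _ => by simp)) (fst' Alg.snd) (snd' Alg.snd)).congr (fun _ => rfl)
          (fun _ => by simp)
    exact (((hk.natAdd' (Alg.nat 1)).take' ha).reverse'.append'
      ((hk.natSub' (Alg.nat 1)).replicate' zero')).congr (fun _ => rfl) (fun q => by omega)
  have hq : Alg (fun q : ℕ × List ℂ × List ℂ => ggl q.1 q.2.1 q.2.2)
      (fun q => 7 * q.2.1.length + 1) := by
    have ha : Alg (fun q : ℕ × List ℂ × List ℂ =>
        List.zipWith (fun a b => (a - b) / (2 * Complex.I)) q.2.1 q.2.2)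
        (fun q => 7 * q.2.1.length) :=
      (zipWithK (F := fun (_ : ℕ × List ℂ × List ℂ) (a b : ℂ) => (a - b) / (2 * Complex.I))
        (K := 7)
        ((((fst' Alg.snd).sub' (snd' Alg.snd)).div' ((cn 2).mul' im')).congr
          (fun _ => by norm_num) (fun _ => by simp)) (fst' Alg.snd) (snd' Alg.snd)).congr
          (fun _ => rfl) (fun _ => by simp)
    exact ((hk.take' ha).reverse'.append' (hk.replicate' zero')).congr (fun _ => rfl)
      (fun q => by omega)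
  have hgg : Alg (fun q : ℕ × List ℂ × List ℂ =>
      (hg q.1 (ffl q.1 q.2.1 q.2.2, ggl q.1 q.2.1 q.2.2)).2)
      (fun q => 12 * q.2.1.length + 2 + Kh * (q.1 + 1) ^ 2 * 2 ^ q.1) :=
    (snd' ((Alg.fst.pair (hf.pair hq)).comp hh)).congr (fun _ => rfl) (fun q => by simp; omega)
  have hin := (Alg.fst (α := ℕ) (β := List (ℂ × ℂ) × ℂ)).pair (h1.pair h2)
  refine ⟨32 + 2 * Kc + Kh, ?_⟩
  refine (hin.comp hgg).congr (fun _ => rfl) (fun p => ?_)
  obtain ⟨k, l, σ⟩ := p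
  simp only
  have hlen : (cpC k l (Complex.I * σ)).length ≤ 2 ^ (k + 1) := by
    unfold cpC
    rw [List.length_take]
    exact min_le_left _ _
  set u : ℕ := (k + 1) ^ 2 * 2 ^ k with hu
  have h3 : 2 ^ k ≤ u := by
    rw [hu]
    exact Nat.le_mul_of_pos_left _ (by positivity)
  have h4 := two_le k
  have e0 : 2 ^ (k + 1) = 2 * 2 ^ k := by ring
  have e1 : Kc * (k + 1) ^ 2 * 2 ^ k = Kc * u := by rw [hu]; ring
  have e2 : Kh * (k + 1) ^ 2 * 2 ^ k = Kh * u := by rw [hu]; ring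
  have e3 : (32 + 2 * Kc + Kh) * (k + 1) ^ 2 * 2 ^ k = 32 * u + 2 * (Kc * u) + Kh * u := by
    rw [hu]; ring
  rw [e1, e2, e3]
  omega

theorem main (hCCP : S_CCP) (hCHG : S_CHG) (hCPR : S_CPR) : S_CV2 := by
  obtain ⟨Kv, hv⟩ := cvof hCPR
  obtain ⟨Kl, hl⟩ := clcl hCCP hCHG
  have h1 : Alg (fun q : ℕ × List ℂ => vof q.1 q.2 * vof q.1 q.2) (fun q => Kv * 2 ^ q.1 + 1) := by
    have h2 : Alg (fun z : ℂ => z * z) (fun _ => 1) :=
      (Alg.id.mul' Alg.id).congr (fun z => rfl) (fun _ => by simp)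
    exact (hv.comp h2).congr (fun _ => rfl) (fun _ => by simp)
  refine ⟨Kl + Kv + 1, ?_⟩
  refine ((Alg.fst.pair hl).comp h1).congr (fun _ => rfl) (fun p => ?_)
  obtain ⟨k, l, σ⟩ := p
  simp only
  set u : ℕ := (k + 1) ^ 2 * 2 ^ k with hu
  have h3 : 2 ^ k ≤ u := by
    rw [hu]
    exact Nat.le_mul_of_pos_left _ (by positivity)
  have h4 := two_le k
  have e1 : Kl * (k + 1) ^ 2 * 2 ^ k = Kl * u := by rw [hu]; ring
  have e3 : (Kl + Kv + 1) * (k + 1) ^ 2 * 2 ^ k = Kl * u + Kv * u + u := by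
    rw [hu]; ring
  have h5 : Kv * 2 ^ k ≤ Kv * u := Nat.mul_le_mul_left _ h3
  rw [e1, e3]
  omega

end H94FG.CV2
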