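import Pool.Agent.H94.FG.SpecC

/-! # Project NU, stub CWZ: the cost of the potential -/

set_option autoImplicit false

noncomputable section
namespace H94FG.CWZ

open H94FG.Alg

/-- natural numbers as constants, with explicit cost -/
theorem cn {α : Type} (n : ℕ) : Alg (fun _ : α => (n : ℂ)) (fun _ => n + 1) := by
  induction n with
  | zero => exact zero'.congr (fun _ => by simp) (fun _ => le_rfl)
  | succ n ih =>
    exact (ih.add' Alg.one).congr (fun _ => by push_cast; ring) (fun _ => by simp)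

/-- squares -/
theorem sqr {α : Type} {f : α → ℂ} {c : α → ℕ} (hf : Alg f c) :
    Alg (fun x => f x ^ 2) (fun x => c x + 1) := by
  have h : Alg (fun z : ℂ => z ^ 2) (fun _ => 1) :=
    (Alg.id.mul' Alg.id).congr (fun z => by ring) (fun _ => by simp)
  exact hf.un h

/-- `z ^ (128 ^ m)` by `7 m` squarings -/
theorem pow128 : Alg (fun p : ℕ × ℂ => p.2 ^ (128 ^ p.1)) (fun p => 7 * p.1) := by
  have h : Alg (fun z : ℂ => z ^ 2) (fun _ => 1) := (sqr Alg.id).congr (fun _ => rfl) (fun _ => le_rfl)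
  refine (loopK (n := fun p : ℕ × ℂ => 7 * p.1) (i := fun p => p.2) h
    ((Alg.nat 7).natMul' Alg.fst) Alg.snd).congr (fun p => ?_) (fun p => by simp)
  obtain ⟨m, z⟩ := p
  have : ∀ r : ℕ, (fun z : ℂ => z ^ 2)^[r] z = z ^ (2 ^ r) := by
    intro r
    induction r with
    | zero => simp
    | succ r ih =>
      rw [Function.iterate_succ_apply', ih]
      show (z ^ 2 ^ r) ^ 2 = z ^ 2 ^ (r + 1)
      rw [← pow_mul, ← pow_succ]
  simp only [this]
  rw [pow_mul]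
  norm_num

/-- `16 ^ m * z` -/
theorem mul16 : Alg (fun p : ℕ × ℂ => 16 ^ p.1 * p.2) (fun p => 18 * p.1) := by
  have h : Alg (fun z : ℂ => 16 * z) (fun _ => 18) :=
    ((cn 16).mul' Alg.id).congr (fun z => by norm_num) (fun _ => by simp)
  refine (loopK (n := fun p : ℕ × ℂ => p.1) (i := fun p => p.2) h
    Alg.fst Alg.snd).congr (fun p => ?_) (fun p => by simp)
  obtain ⟨m, z⟩ := p
  show (fun z : ℂ => 16 * z)^[m] z = 16 ^ m * z
  induction m with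
  | zero => simp
  | succ m ih =>
    rw [Function.iterate_succ_apply', ih, pow_succ]
    ring

/-- `map` with a bound for the cost of the body -/
theorem mapB {α β γ : Type} {F : α → β → γ} {l : α → List β} {cF : α × β → ℕ} {cl B : α → ℕ}
    (hF : Alg (fun p : α × β => F p.1 p.2) cF) (hl : Alg l cl)
    (hB : ∀ x, ∀ b ∈ l x, cF (x, b) ≤ B x) :
    Alg (fun x => (l x).map (F x)) (fun x => cl x + B x * (l x).length) := by
  refine (map' hF hl).congr (fun _ => rfl) (fun x => ?_)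
  have h := List.sum_le_card_nsmul ((l x).map fun b => cF (x, b)) (B x) (by
    intro y hy
    rw [List.mem_map] at hy
    obtain ⟨b, hb, rfl⟩ := hy
    exact hB x b hb)
  rw [List.length_map, smul_eq_mul, mul_comm] at h
  omega

/-- the shifted sites -/
theorem sh (hCRL : S_CRL) : ∃ K, Alg (fun p : ℕ × List (ℂ × ℂ) × ℂ => shC p.1 p.2.1 p.2.2)
    (fun p => K * 2 ^ p.1) := by
  obtain ⟨K, hK⟩ := hCRL
  refine ⟨2 * K + 2, ?_⟩
  have hF : Alg (fun p : (ℕ × List (ℂ × ℂ) × ℂ) × ℂ × (ℂ × ℂ) =>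
      (p.2.2.1 + p.1.2.2 * p.2.1, p.2.2.2)) (fun _ => 2) :=
    (((fst' (snd' Alg.snd)).add' ((snd' (snd' Alg.fst)).mul' (fst' Alg.snd))).pair
      (snd' (snd' Alg.snd))).congr (fun _ => rfl) (fun _ => by simp)
  have hl : Alg (fun p : ℕ × List (ℂ × ℂ) × ℂ => rlC (2 ^ p.1)) (fun p => K * (2 ^ p.1 + 1)) :=
    ((two_pow' (Alg.fst (α := ℕ) (β := List (ℂ × ℂ) × ℂ))).comp hK).congr (fun _ => rfl)
      (fun _ => by simp)
  refine (zipWithK (F := fun (x : ℕ × List (ℂ × ℂ) × ℂ) (c : ℂ) (q : ℂ × ℂ) =>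
    (q.1 + x.2.2 * c, q.2)) hF hl (fst' Alg.snd)).congr (fun p => rfl) (fun p => ?_)
  have h1 : (rlC (2 ^ p.1)).length = 2 ^ p.1 := by simp [rlC]
  rw [h1]
  have h2 : 1 ≤ 2 ^ p.1 := Nat.one_le_two_pow
  nlinarith [Nat.mul_le_mul_left K h2]

theorem main (hCV2 : S_CV2) (hCRL : S_CRL) (hCPR : S_CPR) : S_CWZ := by
  obtain ⟨Ks, hs⟩ := sh hCRL
  obtain ⟨Kv, hv⟩ := hCV2
  obtain ⟨Kp, hp⟩ := hCPR
  -- environment: `((k, K), l', ε, t)` with the shifted list `l'`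
  -- the body, for the number `m`
  have hbody : Alg (fun q : ((ℕ × ℕ) × List (ℂ × ℂ) × ℂ) × ℕ =>
      v2 q.1.1.1 q.1.2.1 (16 ^ q.2 * q.1.2.2 / 2) ^ (128 ^ q.2))
      (fun q => (18 * q.2 + 4) + Kv * (q.1.1.1 + 1) ^ 2 * 2 ^ q.1.1.1 + 7 * q.2) := by
    have h1 : Alg (fun q : ((ℕ × ℕ) × List (ℂ × ℂ) × ℂ) × ℕ => 16 ^ q.2 * q.1.2.2 / 2)
        (fun q => 18 * q.2 + 4) := by
      have h2 : Alg (fun q : ((ℕ × ℕ) × List (ℂ × ℂ) × ℂ) × ℕ => 16 ^ q.2 * q.1.2.2)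
          (fun q => 18 * q.2) :=
        ((Alg.snd.pair (snd' (snd' Alg.fst))).comp mul16).congr (fun _ => rfl)
          (fun _ => by simp)
      exact (h2.div' (cn 2)).congr (fun _ => by norm_num) (fun _ => by simp)
    have h3 : Alg (fun q : ((ℕ × ℕ) × List (ℂ × ℂ) × ℂ) × ℕ =>
        v2 q.1.1.1 q.1.2.1 (16 ^ q.2 * q.1.2.2 / 2))
        (fun q => (18 * q.2 + 4) + Kv * (q.1.1.1 + 1) ^ 2 * 2 ^ q.1.1.1) :=
      (((fst' (fst' Alg.fst)).pair ((fst' (snd' Alg.fst)).pair h1)).comp hv).congr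
        (fun _ => rfl) (fun _ => by simp)
    exact ((Alg.snd.pair h3).comp pow128).congr (fun _ => rfl) (fun _ => by simp)
  have hmap : Alg (fun x : (ℕ × ℕ) × List (ℂ × ℂ) × ℂ =>
      (List.range (x.1.2 + 1)).map fun m => v2 x.1.1 x.2.1 (16 ^ m * x.2.2 / 2) ^ (128 ^ m))
      (fun x => (25 * x.1.2 + 4 + Kv * (x.1.1 + 1) ^ 2 * 2 ^ x.1.1) * (x.1.2 + 1)) := by
    refine (mapB (F := fun (x : (ℕ × ℕ) × List (ℂ × ℂ) × ℂ) (m : ℕ) =>
      v2 x.1.1 x.2.1 (16 ^ m * x.2.2 / 2) ^ (128 ^ m))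
      (B := fun x => 25 * x.1.2 + 4 + Kv * (x.1.1 + 1) ^ 2 * 2 ^ x.1.1) hbody
      (range' ((snd' Alg.fst).natAdd' (Alg.nat 1))) ?_).congr (fun _ => rfl) (fun x => ?_)
    · intro x b hb
      rw [List.mem_range] at hb
      simp only
      omega
    · simp
  have hprod : Alg (fun x : (ℕ × ℕ) × List (ℂ × ℂ) × ℂ =>
      ((List.range (x.1.2 + 1)).map fun m =>
        v2 x.1.1 x.2.1 (16 ^ m * x.2.2 / 2) ^ (128 ^ m)).prod)
      (fun x => (25 * x.1.2 + 4 + Kv * (x.1.1 + 1) ^ 2 * 2 ^ x.1.1) * (x.1.2 + 1) +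
        Kp * (x.1.2 + 2)) := by
    refine ((((snd' Alg.fst).natAdd' (Alg.nat 1)).pair hmap).comp hp).congr (fun x => ?_)
      (fun x => ?_)
    · simp only
      rw [List.take_of_length_le (by simp)]
    · simp
  have hin : Alg (fun p : (ℕ × ℕ) × List (ℂ × ℂ) × ℂ × ℂ =>
      (p.1, shC p.1.1 p.2.1 p.2.2.2, p.2.2.1)) (fun p => Ks * 2 ^ p.1.1) := by
    have h1 : Alg (fun p : (ℕ × ℕ) × List (ℂ × ℂ) × ℂ × ℂ => shC p.1.1 p.2.1 p.2.2.2)
        (fun p => Ks * 2 ^ p.1.1) :=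
      (((fst' Alg.fst).pair ((fst' Alg.snd).pair (snd' (snd' Alg.snd)))).comp hs).congr
        (fun _ => rfl) (fun _ => by simp)
    exact (Alg.fst.pair (h1.pair (fst' (snd' Alg.snd)))).congr (fun _ => rfl) (fun _ => by simp)
  refine ⟨Ks + 29 + Kv + 2 * Kp, ?_⟩
  refine (hin.comp hprod).congr (fun p => rfl) (fun p => ?_)
  obtain ⟨⟨k, m⟩, l, ε, t⟩ := p
  simp only
  set u : ℕ := (k + 1) ^ 2 * 2 ^ k with hu
  have h2 : 2 ^ k ≤ u := by
    rw [hu]
    exact Nat.le_mul_of_pos_left _ (by positivity)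
  have hu1 : 1 ≤ u := Nat.one_le_two_pow.trans h2
  have e1 : Kv * (k + 1) ^ 2 * 2 ^ k = Kv * u := by rw [hu]; ring
  rw [e1]
  set T : ℕ := (m + 1) * (u + m) with hT
  have hT1 : (m + 1) * u ≤ T := Nat.mul_le_mul_left _ (Nat.le_add_right _ _)
  have hT2 : m + 1 ≤ T := by
    calc m + 1 = (m + 1) * 1 := by ring
      _ ≤ (m + 1) * u := Nat.mul_le_mul_left _ hu1
      _ ≤ T := hT1
  have hT3 : u ≤ T := by
    calc u = 1 * u := by ring
      _ ≤ (m + 1) * u := Nat.mul_le_mul_right _ (by omega)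
      _ ≤ T := hT1
  have hT4 : (m + 1) * m ≤ T := Nat.mul_le_mul_left _ (Nat.le_add_left _ _)
  have e2 : (Ks + 29 + Kv + 2 * Kp) * (m + 1) * (u + m) = (Ks + 29 + Kv + 2 * Kp) * T := by
    rw [hT]; ring
  rw [e2]
  have i1 : Ks * 2 ^ k ≤ Ks * T := Nat.mul_le_mul_left _ (h2.trans hT3)
  have i2 : (25 * m + 4 + Kv * u) * (m + 1) ≤ (29 + Kv) * T := by
    calc (25 * m + 4 + Kv * u) * (m + 1) = 25 * ((m + 1) * m) + 4 * (m + 1) + Kv * ((m + 1) * u) := by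
          ring
      _ ≤ 25 * T + 4 * T + Kv * T := by
          have := Nat.mul_le_mul_left Kv hT1
          omega
      _ = (29 + Kv) * T := by ring
  have i3 : Kp * (m + 2) ≤ 2 * Kp * T := by
    calc Kp * (m + 2) ≤ Kp * (2 * T) := Nat.mul_le_mul_left _ (by omega)
      _ = 2 * Kp * T := by ring
  calc Ks * 2 ^ k + ((25 * m + 4 + Kv * u) * (m + 1) + Kp * (m + 2))
      ≤ Ks * T + ((29 + Kv) * T + 2 * Kp * T) := by omega
    _ = (Ks + 29 + Kv + 2 * Kp) * T := by ring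

end H94FG.CWZ
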