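import Pool.Agent.H94.FG.Spec

/-! FG-FFT (helper63) -/

set_option autoImplicit false

open Polynomial

noncomputable section
namespace H94FG.FFT

lemma csqrt_sq (z : ℂ) : (csqrt z) ^ 2 = z := by
  unfold csqrt
  have := Complex.cpow_nat_inv_pow z (n := 2) (by norm_num)
  rw [one_div]
  exact_mod_cast this

lemma om_pow (k : ℕ) : (om (k + 1)) ^ (2 ^ k) = -1 := by
  induction k with
  | zero => simp [om]
  | succ k ih =>
    have h : om (k + 2) = csqrt (om (k + 1)) := rfl
    rw [h, pow_succ 2 k, mul_comm, pow_mul, csqrt_sq, ih]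

lemma om_ne (k : ℕ) : om (k + 1) ≠ 0 := by
  intro h
  have := om_pow k
  rw [h, zero_pow (by positivity)] at this
  norm_num at this

@[simp] lemma length_pw (z : ℂ) (m : ℕ) : (pw z m).length = m := by simp [pw]

lemma length_take' {α : Type} (l : List α) (k : ℕ) (h : l.length = 2 ^ (k + 1)) :
    (l.take (2 ^ k)).length = 2 ^ k ∧ ((l.drop (2 ^ k)).take (2 ^ k)).length = 2 ^ k := by
  have h2 : 2 ^ (k + 1) = 2 ^ k + 2 ^ k := by ring
  simp only [List.length_take, List.length_drop]
  omega

lemma split {α : Type} (l : List α) (k : ℕ) (h : l.length = 2 ^ (k + 1)) :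
    l.take (2 ^ k) ++ (l.drop (2 ^ k)).take (2 ^ k) = l := by
  have h2 : 2 ^ (k + 1) = 2 ^ k + 2 ^ k := by ring
  have h3 : (l.drop (2 ^ k)).take (2 ^ k) = l.drop (2 ^ k) := by
    apply List.take_of_length_le
    rw [List.length_drop]; omega
  rw [h3, List.take_append_drop]

lemma V_length (k : ℕ) : ∀ a : List ℂ, a.length = 2 ^ k → (V k a).length = 2 ^ k := by
  induction k with
  | zero => intro a h; simp [V, h]
  | succ k ih =>
    intro a h
    obtain ⟨h1, h2⟩ := length_take' a k h
    simp only [V, List.length_append]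
    rw [ih, ih]
    · ring
    · simp only [List.length_zipWith, h1, h2, length_pw]; simp
    · simp only [List.length_zipWith, h1, h2]; simp

lemma WV (k : ℕ) : ∀ a : List ℂ, a.length = 2 ^ k → W k (V k a) = a := by
  induction k with
  | zero =>
    intro a h
    simp only [pow_zero] at h
    simp only [V, W]
    rw [List.take_take, min_self, List.take_of_length_le h.le]
  | succ k ih =>
    intro a h
    obtain ⟨h1, h2⟩ := length_take' a k h
    have hsp := split a k h
    set a1 := a.take (2 ^ k) with ha1
    set a2 := (a.drop (2 ^ k)).take (2 ^ k) with ha2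
    have hL1 : (List.zipWith (· + ·) a1 a2).length = 2 ^ k := by simp [h1, h2]
    have hL2 : (List.zipWith (· * ·) (List.zipWith (· - ·) a1 a2) (pw (om (k + 1)) (2 ^ k))).length
        = 2 ^ k := by simp [h1, h2]
    have hV1 := V_length k _ hL1
    have hV2 := V_length k _ hL2
    have e1 : (V (k + 1) a).take (2 ^ k) = V k (List.zipWith (· + ·) a1 a2) := by
      simp only [V]
      rw [List.take_append_of_le_length (by rw [hV1]), List.take_of_length_le (by rw [hV1])]
    have e2 : ((V (k + 1) a).drop (2 ^ k)).take (2 ^ k) =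
        V k (List.zipWith (· * ·) (List.zipWith (· - ·) a1 a2) (pw (om (k + 1)) (2 ^ k))) := by
      simp only [V]
      rw [List.drop_append_of_le_length (by rw [hV1]), List.drop_of_length_le (by rw [hV1]),
        List.nil_append, List.take_of_length_le (by rw [hV2])]
    have e0 : W (k + 1) (V (k + 1) a) =
      List.zipWith (fun a b => (a + b) / 2) (W k ((V (k + 1) a).take (2 ^ k)))
      (List.zipWith (· / ·) (W k (((V (k + 1) a).drop (2 ^ k)).take (2 ^ k))) (pw (om (k + 1)) (2 ^ k))) ++
    List.zipWith (fun a b => (a - b) / 2) (W k ((V (k + 1) a).take (2 ^ k)))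
      (List.zipWith (· / ·) (W k (((V (k + 1) a).drop (2 ^ k)).take (2 ^ k))) (pw (om (k + 1)) (2 ^ k))) := rfl
    rw [e0, e1, e2, ih _ hL1, ih _ hL2]
    have hpw : ∀ (i : ℕ) (hi : i < (pw (om (k + 1)) (2 ^ k)).length),
        (pw (om (k + 1)) (2 ^ k))[i] ≠ 0 := by
      intro i hi
      simp only [pw, List.getElem_map]
      exact pow_ne_zero _ (om_ne k)
    have f1 : List.zipWith (fun a b => (a + b) / 2) (List.zipWith (· + ·) a1 a2)
        (List.zipWith (· / ·) (List.zipWith (· * ·) (List.zipWith (· - ·) a1 a2)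
          (pw (om (k + 1)) (2 ^ k))) (pw (om (k + 1)) (2 ^ k))) = a1 := by
      apply List.ext_getElem
      · simp [h1, h2]
      · intro i hi1 hi2
        simp only [List.getElem_zipWith]
        rw [mul_div_assoc, div_self (hpw i (by simp; omega))]
        ring
    have f2 : List.zipWith (fun a b => (a - b) / 2) (List.zipWith (· + ·) a1 a2)
        (List.zipWith (· / ·) (List.zipWith (· * ·) (List.zipWith (· - ·) a1 a2)
          (pw (om (k + 1)) (2 ^ k))) (pw (om (k + 1)) (2 ^ k))) = a2 := by
      apply List.ext_getElem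
      · simp [h1, h2]
      · intro i hi1 hi2
        simp only [List.getElem_zipWith]
        rw [mul_div_assoc, div_self (hpw i (by simp; omega))]
        ring
    rw [f1, f2, hsp]

lemma V_le (k : ℕ) : ∀ a : List ℂ, (V k a).length ≤ 2 ^ k := by
  induction k with
  | zero => intro a; simp [V]
  | succ k ih =>
    intro a
    simp only [V, List.length_append]
    have h1 := ih (List.zipWith (· + ·) (a.take (2 ^ k)) ((a.drop (2 ^ k)).take (2 ^ k)))
    have h2 := ih (List.zipWith (· * ·)
      (List.zipWith (· - ·) (a.take (2 ^ k)) ((a.drop (2 ^ k)).take (2 ^ k)))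
      (pw (om (k + 1)) (2 ^ k)))
    have h3 : 2 ^ (k + 1) = 2 ^ k + 2 ^ k := by ring
    omega

lemma W_le (k : ℕ) : ∀ a : List ℂ, (W k a).length ≤ 2 ^ k := by
  induction k with
  | zero => intro a; simp [W]
  | succ k ih =>
    intro a
    simp only [W, List.length_append, List.length_zipWith]
    have h1 := ih (a.take (2 ^ k))
    have h3 : 2 ^ (k + 1) = 2 ^ k + 2 ^ k := by ring
    omega

/-- the value of a list -/
def vl (l : List ℂ) (z : ℂ) : ℂ := (toPoly l).eval z

lemma vl_eq (l : List ℂ) (z : ℂ) : vl l z = ∑ i ∈ Finset.range l.length, l.getD i 0 * z ^ i := by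
  induction l with
  | nil => simp [vl, toPoly]
  | cons a l ih =>
    have h1 : vl (a :: l) z = a + z * vl l z := by simp [vl, toPoly]
    rw [h1, ih, List.length_cons, Finset.sum_range_succ']
    simp only [List.getD_cons_succ, List.getD_cons_zero, pow_zero, mul_one]
    rw [Finset.mul_sum, add_comm]
    congr 1
    apply Finset.sum_congr rfl
    intro i _
    ring

lemma vl_append (a b : List ℂ) (z : ℂ) : vl (a ++ b) z = vl a z + z ^ a.length * vl b z := by
  induction a with
  | nil => simp [vl, toPoly]
  | cons x a ih =>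
    have h1 : vl (x :: (a ++ b)) z = x + z * vl (a ++ b) z := by simp [vl, toPoly]
    have h2 : vl (x :: a) z = x + z * vl a z := by simp [vl, toPoly]
    rw [List.cons_append, h1, ih, h2, List.length_cons]
    ring

lemma vl_add (a b : List ℂ) (h : a.length = b.length) (z : ℂ) :
    vl (List.zipWith (· + ·) a b) z = vl a z + vl b z := by
  rw [vl_eq, vl_eq, vl_eq, List.length_zipWith, ← h, min_self, ← Finset.sum_add_distrib]
  apply Finset.sum_congr rfl
  intro i hi
  rw [Finset.mem_range] at hi
  rw [List.getD_eq_getElem _ _ (by simp [← h, hi]), List.getD_eq_getElem _ _ hi,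
    List.getD_eq_getElem _ _ (by omega), List.getElem_zipWith]
  ring

lemma vl_sub (a b : List ℂ) (h : a.length = b.length) (z : ℂ) :
    vl (List.zipWith (· - ·) a b) z = vl a z - vl b z := by
  rw [vl_eq, vl_eq, vl_eq, List.length_zipWith, ← h, min_self, ← Finset.sum_sub_distrib]
  apply Finset.sum_congr rfl
  intro i hi
  rw [Finset.mem_range] at hi
  rw [List.getD_eq_getElem _ _ (by simp [← h, hi]), List.getD_eq_getElem _ _ hi,
    List.getD_eq_getElem _ _ (by omega), List.getElem_zipWith]
  ring

lemma vl_pw (a : List ℂ) (w z : ℂ) (m : ℕ) (h : a.length = m) :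
    vl (List.zipWith (· * ·) a (pw w m)) z = vl a (w * z) := by
  rw [vl_eq, vl_eq, List.length_zipWith, length_pw, h, min_self]
  apply Finset.sum_congr rfl
  intro i hi
  rw [Finset.mem_range] at hi
  rw [List.getD_eq_getElem _ _ (by simp [h, hi]), List.getD_eq_getElem _ _ (by omega),
    List.getElem_zipWith]
  simp only [pw, List.getElem_map, List.getElem_range]
  ring

/-- the points -/
def pts : ℕ → List ℂ
  | 0 => [1]
  | k + 1 => pts k ++ (pts k).map fun z => om (k + 1) * z

lemma pts_pow (k : ℕ) : ∀ z ∈ pts k, z ^ (2 ^ k) = 1 := by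
  induction k with
  | zero => intro z hz; simp [pts] at hz; simp [hz]
  | succ k ih =>
    intro z hz
    simp only [pts, List.mem_append, List.mem_map] at hz
    rcases hz with hz | ⟨y, hy, rfl⟩
    · rw [pow_succ 2 k, pow_mul, ih z hz, one_pow]
    · rw [pow_succ 2 k, pow_mul, mul_pow, om_pow, ih y hy]
      norm_num

lemma V_eq (k : ℕ) : ∀ a : List ℂ, a.length = 2 ^ k → V k a = (pts k).map (vl a) := by
  induction k with
  | zero =>
    intro a h
    simp only [pow_zero] at h
    obtain ⟨x, rfl⟩ := List.length_eq_one_iff.1 h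
    simp [V, pts, vl, toPoly]
  | succ k ih =>
    intro a h
    obtain ⟨h1, h2⟩ := length_take' a k h
    have hsp := split a k h
    simp only [V, pts]
    set a1 := a.take (2 ^ k) with ha1
    set a2 := (a.drop (2 ^ k)).take (2 ^ k) with ha2
    have hL1 : (List.zipWith (· + ·) a1 a2).length = 2 ^ k := by simp [h1, h2]
    have hL3 : (List.zipWith (· - ·) a1 a2).length = 2 ^ k := by simp [h1, h2]
    have hL2 : (List.zipWith (· * ·) (List.zipWith (· - ·) a1 a2) (pw (om (k + 1)) (2 ^ k))).length
        = 2 ^ k := by simp [h1, h2]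
    rw [ih _ hL1, ih _ hL2, List.map_append, List.map_map]
    congr 1
    · apply List.map_congr_left
      intro z hz
      rw [vl_add _ _ (h1.trans h2.symm), ← hsp, vl_append, h1, pts_pow k z hz, one_mul]
    · apply List.map_congr_left
      intro z hz
      rw [vl_pw _ _ _ _ hL3, vl_sub _ _ (h1.trans h2.symm), Function.comp_apply]
      conv_rhs => rw [← hsp]
      rw [vl_append, h1, mul_pow, om_pow, pts_pow k z hz]
      ring

theorem main : S_FFT := by
  refine ⟨fun k a h => ⟨V_length k a h, WV k a h⟩, fun k y => ⟨W_le k y, V_le k y⟩, ?_⟩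
  intro k a b c ha hb hc h
  rw [V_eq k a ha, V_eq k b hb, V_eq k c hc]
  apply List.ext_getElem
  · simp
  · intro i h1 h2
    simp only [List.getElem_map, List.getElem_zipWith, vl, h, eval_mul]

end H94FG.FFT
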