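import Pool.Agent.H94.FG.SpecC
import Pool.Agent.H94.FG.PL

set_option autoImplicit false

/-!
# Project NU, stub HG: the continued fraction algorithm by divide and conquer
-/

open Polynomial Pool.Agent.H22.NL

noncomputable section
namespace H94FG.HG

/-- all entries have length `m` -/
def Len (m : ℕ) (A : MC) : Prop :=
  A.1.length = m ∧ A.2.1.length = m ∧ A.2.2.1.length = m ∧ A.2.2.2.length = m

theorem mmC_spec (hM : S_MULC) (k : ℕ) (A B : MC) (hA : Len (2 ^ k) A) (hB : Len (2 ^ k) B) :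
    Len (2 ^ (k + 1)) (mmC k A B) ∧
      toPoly (mmC k A B).1 = toPoly A.1 * toPoly B.1 + toPoly A.2.1 * toPoly B.2.2.1 ∧
      toPoly (mmC k A B).2.1 = toPoly A.1 * toPoly B.2.1 + toPoly A.2.1 * toPoly B.2.2.2 ∧
      toPoly (mmC k A B).2.2.1 = toPoly A.2.2.1 * toPoly B.1 + toPoly A.2.2.2 * toPoly B.2.2.1 ∧
      toPoly (mmC k A B).2.2.2 =
        toPoly A.2.2.1 * toPoly B.2.1 + toPoly A.2.2.2 * toPoly B.2.2.2 := by
  obtain ⟨a1, a2, a3, a4⟩ := A
  obtain ⟨b1, b2, b3, b4⟩ := B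
  obtain ⟨ha1, ha2, ha3, ha4⟩ := hA
  obtain ⟨hb1, hb2, hb3, hb4⟩ := hB
  simp only at ha1 ha2 ha3 ha4 hb1 hb2 hb3 hb4
  have h11 := hM.2 k a1 b1 ha1 hb1
  have h23 := hM.2 k a2 b3 ha2 hb3
  have h12 := hM.2 k a1 b2 ha1 hb2
  have h24 := hM.2 k a2 b4 ha2 hb4
  have h31 := hM.2 k a3 b1 ha3 hb1
  have h43 := hM.2 k a4 b3 ha4 hb3
  have h32 := hM.2 k a3 b2 ha3 hb2
  have h44 := hM.2 k a4 b4 ha4 hb4
  refine ⟨⟨?_, ?_, ?_, ?_⟩, ?_, ?_, ?_, ?_⟩
  · simp [mmC, h11.1, h23.1]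
  · simp [mmC, h12.1, h24.1]
  · simp [mmC, h31.1, h43.1]
  · simp [mmC, h32.1, h44.1]
  · simp only [mmC]
    rw [toPoly_zipWith_add (by rw [h11.1, h23.1]), h11.2, h23.2]
  · simp only [mmC]
    rw [toPoly_zipWith_add (by rw [h12.1, h24.1]), h12.2, h24.2]
  · simp only [mmC]
    rw [toPoly_zipWith_add (by rw [h31.1, h43.1]), h31.2, h43.2]
  · simp only [mmC]
    rw [toPoly_zipWith_add (by rw [h32.1, h44.1]), h32.2, h44.2]

/-- the matrix `A` maps `(F, G)` to `X ^ m (F', G')` -/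
def Act (A : MC) (m : ℕ) (F G F' G' : ℕ → ℂ) : Prop :=
  ((toPoly A.1 : ℂ[X]) : PowerSeries ℂ) * PowerSeries.mk F +
      ((toPoly A.2.1 : ℂ[X]) : PowerSeries ℂ) * PowerSeries.mk G =
    PowerSeries.X ^ m * PowerSeries.mk F' ∧
  ((toPoly A.2.2.1 : ℂ[X]) : PowerSeries ℂ) * PowerSeries.mk F +
      ((toPoly A.2.2.2 : ℂ[X]) : PowerSeries ℂ) * PowerSeries.mk G =
    PowerSeries.X ^ m * PowerSeries.mk G'

theorem act_comp (hM : S_MULC) (k : ℕ) {A B : MC} (hA : Len (2 ^ k) A) (hB : Len (2 ^ k) B)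
    {m : ℕ} {F G F' G' F'' G'' : ℕ → ℂ} (h1 : Act A m F G F' G') (h2 : Act B m F' G' F'' G'') :
    Act (mmC k B A) (m + m) F G F'' G'' := by
  obtain ⟨-, e1, e2, e3, e4⟩ := mmC_spec hM k B A hB hA
  obtain ⟨a1, a2⟩ := h1
  obtain ⟨b1, b2⟩ := h2
  unfold Act
  rw [e1, e2, e3, e4]
  simp only [Polynomial.coe_add, Polynomial.coe_mul]
  constructor
  · linear_combination (toPoly B.1 : PowerSeries ℂ) * a1 + (toPoly B.2.1 : PowerSeries ℂ) * a2 +
      PowerSeries.X ^ m * b1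
  · linear_combination (toPoly B.2.2.1 : PowerSeries ℂ) * a1 +
      (toPoly B.2.2.2 : PowerSeries ℂ) * a2 + PowerSeries.X ^ m * b2

@[simp] theorem length_sq (F : ℕ → ℂ) (m : ℕ) : (sq F m).length = m := by simp [sq]

theorem coeff_sq (F : ℕ → ℂ) (m i : ℕ) : (toPoly (sq F m)).coeff i = if i < m then F i else 0 := by
  rw [coeff_toPoly, sq]
  split_ifs with h
  · rw [List.getD_eq_getElem _ _ (by simpa using h)]
    simp
  · rw [List.getD_eq_default _ _ (by simpa using h)]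

theorem take_sq (F : ℕ → ℂ) {m n : ℕ} (h : m ≤ n) : (sq F n).take m = sq F m := by
  unfold sq
  rw [← List.map_take, List.take_range, min_eq_left h]

theorem sq_add (F : ℕ → ℂ) (m n : ℕ) : sq F (m + n) = sq F m ++ sq (fun k => F (m + k)) n := by
  unfold sq
  rw [List.range_add, List.map_append, List.map_map]
  rfl

theorem coeff_mul_sq (P : ℂ[X]) (F : ℕ → ℂ) {M j : ℕ} (hj : j < M) :
    (P * toPoly (sq F M)).coeff j = PowerSeries.coeff j ((P : PowerSeries ℂ) * PowerSeries.mk F) := by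
  rw [Polynomial.coeff_mul, PowerSeries.coeff_mul]
  apply Finset.sum_congr rfl
  intro x hx
  have hx' := Finset.HasAntidiagonal.mem_antidiagonal.mp hx
  rw [coeff_sq, if_pos (by omega), PowerSeries.coeff_mk, Polynomial.coeff_coe]

theorem adv_aux {c : List ℂ} {m n M : ℕ} (hc : c.length = n) (hmM : m + m = M) (hMn : M ≤ n)
    {P Q : ℂ[X]} {F G F' : ℕ → ℂ} (hp : toPoly c = P * toPoly (sq F M) + Q * toPoly (sq G M))
    (h : (P : PowerSeries ℂ) * PowerSeries.mk F + (Q : PowerSeries ℂ) * PowerSeries.mk G =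
      PowerSeries.X ^ m * PowerSeries.mk F') :
    (c.drop m).take m = sq F' m := by
  apply List.ext_getElem
  · simp [hc]
    omega
  · intro i h1 h2
    have hi : i < m := by simpa using h2
    rw [← List.getD_eq_getElem _ 0 h1]
    have e1 : ((c.drop m).take m).getD i 0 = (toPoly c).coeff (m + i) := by
      rw [coeff_toPoly]
      simp [List.getD_eq_getElem?_getD, List.getElem?_drop, hi]
    rw [e1, hp, Polynomial.coeff_add, coeff_mul_sq P F (by omega), coeff_mul_sq Q G (by omega),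
      ← map_add, h, PowerSeries.coeff_X_pow_mul', if_pos (by omega), PowerSeries.coeff_mk]
    simp [sq]

theorem adv_spec (hM : S_MULC) (l : ℕ) {A : MC} (hA : Len (2 ^ (l + 2)) A) {F G F' G' : ℕ → ℂ}
    (h : Act A (2 ^ (l + 1)) F G F' G') :
    adv l A (sq F (2 ^ (l + 2)), sq G (2 ^ (l + 2))) =
      (sq F' (2 ^ (l + 1)), sq G' (2 ^ (l + 1))) := by
  obtain ⟨ha1, ha2, ha3, ha4⟩ := hA
  have m1 := hM.2 (l + 2) A.1 (sq F (2 ^ (l + 2))) ha1 (by simp)
  have m2 := hM.2 (l + 2) A.2.1 (sq G (2 ^ (l + 2))) ha2 (by simp)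
  have m3 := hM.2 (l + 2) A.2.2.1 (sq F (2 ^ (l + 2))) ha3 (by simp)
  have m4 := hM.2 (l + 2) A.2.2.2 (sq G (2 ^ (l + 2))) ha4 (by simp)
  have e : 2 ^ (l + 1) + 2 ^ (l + 1) = 2 ^ (l + 2) := by ring
  have e' : 2 ^ (l + 2) ≤ 2 ^ (l + 2 + 1) := Nat.pow_le_pow_right (by norm_num) (by omega)
  unfold adv
  refine Prod.ext ?_ ?_
  · apply adv_aux (n := 2 ^ (l + 2 + 1)) (M := 2 ^ (l + 2)) (P := toPoly A.1)
      (Q := toPoly A.2.1) (F := F) (G := G) _ e e' _ h.1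
    · simp [m1.1, m2.1]
    · rw [toPoly_zipWith_add (by rw [m1.1, m2.1]), m1.2, m2.2]
  · apply adv_aux (n := 2 ^ (l + 2 + 1)) (M := 2 ^ (l + 2)) (P := toPoly A.2.2.1)
      (Q := toPoly A.2.2.2) (F := F) (G := G) _ e e' _ h.2
    · simp [m3.1, m4.1]
    · rw [toPoly_zipWith_add (by rw [m3.1, m4.1]), m3.2, m4.2]

theorem eu_add (F G : ℕ → ℂ) (m k : ℕ) :
    eu F G (m + k) = eu (eu F G m).1 (eu F G m).2 k := by
  induction k with
  | zero => rfl
  | succ k ih =>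
    rw [← add_assoc]
    simp only [eu, ih]

theorem base (F G : ℕ → ℂ) (h : G 0 ≠ 0) :
    Act (hgb (sq F 2, sq G 2)).1 2 F G G (nxt F G) := by
  have e1 : sq F 2 = [F 0, F 1] := by simp [sq, List.range_succ]
  have e2 : sq G 2 = [G 0, G 1] := by simp [sq, List.range_succ]
  rw [e1, e2]
  unfold Act hgb
  simp only [List.headD_cons, List.drop_succ_cons, List.drop_zero, toPoly_cons, toPoly_nil]
  constructor
  · have e3 : ((C (0 : ℂ) + X * (C 0 + X * (C 0 + X * (C 0 + X * 0))) : ℂ[X]) : PowerSeries ℂ) =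
        0 := by simp
    have e4 : ((C (0 : ℂ) + X * (C 0 + X * (C 1 + X * (C 0 + X * 0))) : ℂ[X]) : PowerSeries ℂ) =
        PowerSeries.X ^ 2 := by
      simp
      ring
    rw [e3, e4]
    ring
  · ext i
    rw [PowerSeries.coeff_X_pow_mul']
    have e3 : ((C (-1 : ℂ) + X * (C 0 + X * (C 0 + X * (C 0 + X * 0))) : ℂ[X]) : PowerSeries ℂ) =
        PowerSeries.C (-1 : ℂ) := by simp
    have e4 : ((C (F 0 / G 0) + X * (C ((F 1 - F 0 / G 0 * G 1) / G 0) +
        X * (C 0 + X * (C 0 + X * 0))) : ℂ[X]) : PowerSeries ℂ) =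
        PowerSeries.C (F 0 / G 0) + PowerSeries.X * PowerSeries.C ((F 1 - F 0 / G 0 * G 1) / G 0) := by
      simp
      ring
    rw [e3, e4, add_mul, mul_assoc, map_add, map_add, PowerSeries.coeff_C_mul,
      PowerSeries.coeff_C_mul, PowerSeries.coeff_mk, PowerSeries.coeff_mk]
    rcases i with _ | _ | i
    · rw [if_neg (by omega)]
      rw [PowerSeries.coeff_zero_X_mul]
      field_simp
      ring
    · rw [if_neg (by omega)]
      rw [PowerSeries.coeff_succ_X_mul, PowerSeries.coeff_C_mul, PowerSeries.coeff_mk]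
      simp only [zero_add]
      field_simp
      ring
    · rw [if_pos (by omega)]
      rw [PowerSeries.coeff_succ_X_mul, PowerSeries.coeff_C_mul, PowerSeries.coeff_mk,
        PowerSeries.coeff_mk]
      have : i + 1 + 1 - 2 = i := by omega
      rw [this]
      unfold nxt
      ring

theorem key (hM : S_MULC) (l : ℕ) : ∀ F G : ℕ → ℂ, (∀ k < 2 ^ l, lc F G k ≠ 0) →
    Len (2 ^ (l + 2)) (hg l (sq F (2 ^ (l + 1)), sq G (2 ^ (l + 1)))).1 ∧
    Act (hg l (sq F (2 ^ (l + 1)), sq G (2 ^ (l + 1)))).1 (2 ^ (l + 1)) F G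
      (eu F G (2 ^ l)).1 (eu F G (2 ^ l)).2 ∧
    (hg l (sq F (2 ^ (l + 1)), sq G (2 ^ (l + 1)))).2 = sq (lc F G) (2 ^ l) := by
  induction l with
  | zero =>
    intro F G h
    have h0 := h 0 (by norm_num)
    have hb := base F G h0
    refine ⟨?_, ?_, ?_⟩
    · simp [hg, hgb, Len]
    · simpa [hg, eu] using hb
    · simp [hg, hgb, sq, lc, eu, List.range_succ]
  | succ l ih =>
    intro F G h
    have e : 2 ^ l + 2 ^ l = 2 ^ (l + 1) := by ring
    have ele : 2 ^ (l + 1) ≤ 2 ^ (l + 1 + 1) := Nat.pow_le_pow_right (by norm_num) (by omega)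
    obtain ⟨i1, i2, i3⟩ := ih F G (fun k hk => h k (by omega))
    obtain ⟨j1, j2, j3⟩ := ih (eu F G (2 ^ l)).1 (eu F G (2 ^ l)).2 (fun k hk => by
      have := h (2 ^ l + k) (by omega)
      unfold lc at this ⊢
      rwa [eu_add] at this)
    have hadv := adv_spec hM l i1 i2
    have htF : (sq F (2 ^ (l + 1 + 1))).take (2 ^ (l + 1)) = sq F (2 ^ (l + 1)) := take_sq F ele
    have htG : (sq G (2 ^ (l + 1 + 1))).take (2 ^ (l + 1)) = sq G (2 ^ (l + 1)) := take_sq G ele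
    simp only [hg]
    rw [htF, htG, hadv]
    refine ⟨(mmC_spec hM (l + 2) _ _ j1 i1).1, ?_, ?_⟩
    · have := act_comp hM (l + 2) i1 j1 i2 j2
      rw [← eu_add, e] at this
      have e' : 2 ^ (l + 1) + 2 ^ (l + 1) = 2 ^ (l + 1 + 1) := by ring
      rw [e'] at this
      exact this
    · rw [i3, j3, ← e, sq_add]
      congr 2
      funext k
      unfold lc
      rw [eu_add]

theorem main : S_MULC → S_HG := fun hM l F G h => (key hM l F G h).2.2

end H94FG.HG
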