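import Pool.Agent.H94.FG.SpecC

set_option autoImplicit false

/-!
# Project NU, stub KKN: the exponent of the padded size
-/

noncomputable section
namespace H94FG.KKN

/-- the state after `i` steps -/
theorem iter (n : ℕ) : ∀ i : ℕ,
    (fun s : ℕ × ℕ => if (n + 1) - s.1 = 0 then s else (2 * s.1, s.2 + 1))^[i] (1, 0) =
      (2 ^ min i (Nat.clog 2 (n + 1)), min i (Nat.clog 2 (n + 1))) := by
  intro i
  induction i with
  | zero => simp
  | succ i ih =>
    rw [Function.iterate_succ_apply', ih]
    simp only
    rcases le_or_gt (Nat.clog 2 (n + 1)) i with h | h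
    · have h1 : n + 1 ≤ 2 ^ min i (Nat.clog 2 (n + 1)) := by
        rw [min_eq_right h]
        exact Nat.le_pow_clog (by norm_num) _
      rw [if_pos (by omega), min_eq_right h, min_eq_right (by omega)]
    · have h1 : 2 ^ min i (Nat.clog 2 (n + 1)) < n + 1 := by
        rw [min_eq_left h.le]
        by_contra h2
        have := Nat.clog_le_of_le_pow (not_lt.mp h2)
        omega
      rw [if_neg (by omega), min_eq_left h.le, min_eq_left (by omega)]
      simp [pow_succ, mul_comm]

theorem main : S_KKN := by
  intro n hn
  unfold kk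
  rw [iter (n - 1) (n - 1 + 1)]
  have h : n - 1 + 1 = n := by omega
  rw [h]
  simp only
  apply min_eq_right
  have h2 : n ≤ 2 ^ n := Nat.lt_two_pow_self.le
  exact Nat.clog_le_of_le_pow h2

end H94FG.KKN
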