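import Pool.Agent.H94.FG.SpecC
import Pool.Agent.H94.FG.PL

set_option autoImplicit false

/-!
# Project NU, stub MULC: product of complex polynomials by the fast Fourier transform
-/

open Polynomial

noncomputable section
namespace H94FG.MULC

theorem main : S_FFT → S_MULC := by
  intro h
  obtain ⟨h1, h2, h3⟩ := h
  constructor
  · intro k a b
    unfold mulC
    exact (h2 (k + 1) _).1
  · intro k a b ha hb
    have hk : 1 ≤ 2 ^ k := Nat.one_le_two_pow
    have hext : ∀ a : List ℂ, a.length = 2 ^ k → (a.take (2 ^ k) ++ zc (2 ^ k)).length = 2 ^ (k + 1) ∧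
        toPoly (a.take (2 ^ k) ++ zc (2 ^ k)) = toPoly a := by
      intro a ha
      have e1 : a.take (2 ^ k) = a := List.take_of_length_le ha.le
      rw [e1]
      constructor
      · simp [zc, ha, pow_succ]
        omega
      · rw [zc, toPoly_append_zero]
    obtain ⟨la, pa⟩ := hext a ha
    obtain ⟨lb, pb⟩ := hext b hb
    obtain ⟨c, hc⟩ : ∃ c : List ℂ, c = cf (2 ^ (k + 1)) (toPoly a * toPoly b) := ⟨_, rfl⟩
    have hcl : c.length = 2 ^ (k + 1) := by simp [hc]
    have hcp : toPoly c = toPoly a * toPoly b := by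
      rw [hc]
      apply toPoly_cf
      intro i hi
      have hda : (toPoly a).natDegree ≤ 2 ^ k - 1 := natDegree_toPoly_le (by omega)
      have hdb : (toPoly b).natDegree ≤ 2 ^ k - 1 := natDegree_toPoly_le (by omega)
      apply coeff_eq_zero_of_natDegree_lt
      have := natDegree_mul_le (p := toPoly a) (q := toPoly b)
      rw [pow_succ] at hi
      omega
    have hcc : toPoly c = toPoly (a.take (2 ^ k) ++ zc (2 ^ k)) *
        toPoly (b.take (2 ^ k) ++ zc (2 ^ k)) := by
      rw [pa, pb, hcp]
    have hV := h3 (k + 1) (a.take (2 ^ k) ++ zc (2 ^ k)) (b.take (2 ^ k) ++ zc (2 ^ k)) c la lb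
      hcl hcc
    have hW := (h1 (k + 1) c hcl).2
    have hm : mulC k a b = c := by
      unfold mulC
      rw [← hV, hW]
    rw [hm]
    exact ⟨hcl, hcp⟩

end H94FG.MULC
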