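import Pool.Agent.H94.FG.SpecC

set_option autoImplicit false

/-!
# OM: the roots of unity
-/

open Polynomial Pool.Agent.H22.NL

noncomputable section
namespace H94FG.OM

theorem step (k : ℕ) :
    csqrt (Complex.exp (2 * Real.pi * Complex.I / 2 ^ (k + 1))) =
      Complex.exp (2 * Real.pi * Complex.I / 2 ^ (k + 2)) := by
  have him : (2 * (Real.pi : ℂ) * Complex.I / 2 ^ (k + 1)) =
      ((Real.pi / 2 ^ k : ℝ) : ℂ) * Complex.I := by
    push_cast
    field_simp
    ring
  have hpos : 0 < Real.pi / 2 ^ k := div_pos Real.pi_pos (by positivity)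
  have hle : Real.pi / 2 ^ k ≤ Real.pi := by
    refine div_le_self Real.pi_pos.le ?_
    exact one_le_pow₀ (by norm_num)
  unfold csqrt
  rw [Complex.cpow_def_of_ne_zero (Complex.exp_ne_zero _), him, Complex.log_exp]
  · congr 1
    push_cast
    field_simp
    ring
  · simp only [Complex.re_ofReal_mul, Complex.im_ofReal_mul, Complex.I_im, mul_one]
    linarith [Real.pi_pos]
  · simp only [Complex.re_ofReal_mul, Complex.im_ofReal_mul, Complex.I_im, mul_one]
    exact hle

theorem main : S_OM := by
  intro k
  match k with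
  | 0 =>
    simp only [om, pow_zero, div_one]
    exact Complex.exp_two_pi_mul_I.symm
  | 1 =>
    have : 2 * (Real.pi : ℂ) * Complex.I / 2 ^ 1 = Real.pi * Complex.I := by ring
    rw [this, Complex.exp_pi_mul_I]
    rfl
  | k + 2 =>
    have ih := main (k + 1)
    show csqrt (om (k + 1)) = _
    rw [ih]
    exact step k

end H94FG.OM
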