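import Pool.Agent.H94.FG.SpecC

set_option autoImplicit false

open Polynomial Pool.Agent.H22.NL

noncomputable section
namespace H94FG.STE

theorem main : S_STE := by
  intro n j A hn
  have hlen : (encode A).length = n := by simp [encode]
  have hp : 1 ≤ 2 ^ j := Nat.one_le_two_pow
  have htk : (encode A).take (2 ^ j) = encode A := List.take_of_length_le (by omega)
  rw [stC, htk]
  apply List.ext_getElem
  · simp [sts, zc, hlen]
    omega
  · intro i h1 h2
    have hi : i < 2 ^ j := by simpa [sts] using h2
    simp only [List.getElem_zip, sts, List.getElem_map, List.getElem_range, List.getElem_take]
    refine Prod.ext ?_ ?_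
    · simp only
      by_cases hin : i < n
      · rw [List.getElem_append_left (by simpa [hlen] using hin)]
        simp [encode]
      · rw [List.getElem_append_right (by simpa [hlen] using hin)]
        simp [zc, entry, hin]
    · simp only
      cases i with
      | zero => simp
      | succ i =>
        simp only [List.getElem_cons_succ, Nat.add_sub_cancel]
        rw [if_neg (by omega)]
        by_cases hin : i < n
        · rw [List.getElem_append_left (by simpa [hlen] using hin)]
          simp [encode]
        · rw [List.getElem_append_right (by simpa [hlen] using hin)]
          simp [zc, entry, hin]

end H94FG.STE
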