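import Pool.Agent.H94.FG.SpecC

set_option autoImplicit false

open Polynomial Pool.Agent.H22.NL

noncomputable section
namespace H94FG.TSO

section srch

theorem pos_real (t h : ℝ) (i : ℕ) : ∃ r : ℝ, posC (t : ℂ) h i = r ∧ pos (t : ℂ) h i = r :=
  ⟨t + ((i : ℝ) - 4) * (h / 4), by simp [posC], by simp [pos]⟩

variable {W W' : ℂ → ℂ} (hW : ∀ t : ℝ, W t = W' t)
include hW

theorem cand_eq (t h : ℝ) (i : ℕ) : candC W t h i = cand W' t h i := by
  obtain ⟨a, ha, ha'⟩ := pos_real t h i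
  obtain ⟨b, hb, hb'⟩ := pos_real t h (i + 1)
  obtain ⟨c, hc, hc'⟩ := pos_real t h (i + 2)
  rw [candC, cand, ha, ha', hb, hb', hc, hc', hW, hW, hW]

theorem best_eq (t h : ℝ) (m : ℕ) :
    bestC W t h m = best W' t h m ∧ ∃ r : ℝ, (best W' t h m).2 = r := by
  induction m with
  | zero =>
    obtain ⟨b, hb, hb'⟩ := pos_real t h 1
    exact ⟨by rw [bestC, best, cand_eq hW, hb, hb'], b, by rw [best, hb']⟩
  | succ m ih =>
    obtain ⟨ih1, r, ih2⟩ := ih
    obtain ⟨b, hb, hb'⟩ := pos_real t h (m + 2)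
    constructor
    · rw [bestC, best, ih1, cand_eq hW, hb, hb']
      by_cases hc : (cand W' t h (m + 1)).re ≤ (best W' t h m).1.re
      · rw [if_pos (by rw [Complex.sub_re]; linarith), if_pos hc, if_pos hc]
      · rw [if_neg (by rw [Complex.sub_re]; intro h'; exact hc (by linarith)), if_neg hc,
          if_neg hc]
    · rw [best]
      simp only
      split_ifs
      · exact ⟨b, hb'⟩
      · exact ⟨r, ih2⟩

theorem srch_eq (t0 h0 : ℝ) (n : ℕ) :
    srchC W t0 h0 n = srch W' t0 h0 n ∧ ∃ r : ℝ, srch W' t0 h0 n = r := by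
  induction n with
  | zero => exact ⟨rfl, t0, rfl⟩
  | succ n ih =>
    obtain ⟨ih1, r, ih2⟩ := ih
    have e : ((h0 : ℂ) / 4 ^ n) = ((h0 / 4 ^ n : ℝ) : ℂ) := by push_cast; rfl
    rw [srchC, srch, ih1, ih2, e]
    obtain ⟨h1, h2⟩ := best_eq hW r (h0 / 4 ^ n) 6
    exact ⟨by rw [h1], h2⟩

end srch

theorem HT_pert {a : ℕ → ℕ → ℂ} (ha : HT a) (t : ℝ) : HT (pert a t) := by
  constructor
  · intro i j
    simp only [pert]
    rw [ha.herm i j]
    by_cases h : i = j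
    · subst h; simp
    · rw [if_neg h, if_neg (Ne.symm h)]; simp
  · intro i j h
    simp only [pert]
    rw [ha.tri i j h, if_neg (by omega)]; simp

theorem main : S_B → S_WZ → S_TSO := by
  intro hB hWZ a ha j δ hδ
  have e1 : (δ : ℂ) / (2 * 2 ^ j) = ((δ / (2 * 2 ^ j) : ℝ) : ℂ) := by push_cast; rfl
  have e2 : (δ : ℂ) / (2 * 2 ^ j) / 4 ^ (11 + 21 * j) / (4 * (2 ^ j) ^ 5) =
      ((δ / (2 * 2 ^ j) / 4 ^ (11 + 21 * j) / (4 * (2 ^ j) ^ 5) : ℝ) : ℂ) := by push_cast; rfl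
  have hpos : 0 < δ / (2 * 2 ^ j) / 4 ^ (11 + 21 * j) / (4 * (2 ^ j) ^ 5) := by positivity
  rw [tsolC, tsol, e2, e1]
  generalize δ / (2 * 2 ^ j) / 4 ^ (11 + 21 * j) / (4 * (2 ^ j) ^ 5) = ε at hpos
  refine (srch_eq (fun t => ?_) _ _ _).1
  refine hWZ j (5 + 12 * j) _ _ ε t fun m _ i hi => ?_
  have h1 := (hB (pert a t) (HT_pert ha t) (2 ^ j) (16 ^ m * ε / 2) Nat.one_le_two_pow
    (by positivity)).1 i hi
  have f1 : (fun i => pert a t i i) = fun i => a i i + (t : ℂ) * ((i : ℂ) + 1) := by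
    funext i; simp [pert]
  have f2 : (fun i => pert a t i (i + 1) * pert a t (i + 1) i) =
      fun i => a i (i + 1) * a (i + 1) i := by
    funext i; simp [pert]
  rw [f1, f2] at h1
  push_cast at h1
  exact h1

end H94FG.TSO
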