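import Pool.Agent.H94.FG.SpecC
import Pool.Agent.H94.FG.PL

set_option autoImplicit false

/-!
# Project NU, stub V2: the regularised discriminant
-/

open Polynomial Pool.Agent.H22.NL

noncomputable section
namespace H94FG.V2

theorem take_sq (F : ℕ → ℂ) {m n : ℕ} (h : m ≤ n) : (sq F n).take m = sq F m := by
  unfold sq
  rw [← List.map_take, List.take_range, min_eq_left h]

theorem getD_sq (F : ℕ → ℂ) (m i : ℕ) : (sq F m).getD i 0 = if i < m then F i else 0 := by
  rw [sq]
  split_ifs with h
  · rw [List.getD_eq_getElem _ _ (by simpa using h)]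
    simp
  · rw [List.getD_eq_default _ _ (by simpa using h)]

theorem ext_getD {l l' : List ℂ} (h : l.length = l'.length)
    (h' : ∀ i < l.length, l.getD i 0 = l'.getD i 0) : l = l' := by
  apply List.ext_getElem h
  intro i h1 h2
  have := h' i h1
  rwa [List.getD_eq_getElem l 0 h1, List.getD_eq_getElem l' 0 h2] at this

theorem prod_map_range (f : ℕ → ℂ) (n : ℕ) :
    ((List.range n).map f).prod = ∏ i ∈ Finset.range n, f i := by
  induction n with
  | zero => simp
  | succ n ih => rw [List.range_succ, List.map_append, List.prod_append, ih,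
      Finset.prod_range_succ]; simp

theorem vof_sq (k : ℕ) (F G : ℕ → ℂ) : vof k (sq (lc F G) (2 ^ k)) = Vof (2 ^ k) F G := by
  have h1 : 1 ≤ 2 ^ k := Nat.one_le_two_pow
  have h2 : (sq (lc F G) (2 ^ k)).drop (2 ^ k - 1) = [lc F G (2 ^ k - 1)] := by
    obtain ⟨n, hn⟩ : ∃ n, 2 ^ k = n + 1 := ⟨2 ^ k - 1, by omega⟩
    rw [hn]
    simp [sq, List.range_succ]
  unfold vof Vof
  rw [h2, take_sq _ (Nat.sub_le _ _)]
  simp only [List.take_succ_cons, List.take_zero, List.prod_cons, List.prod_nil, mul_one]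
  congr 1
  unfold sq
  rw [List.map_map, prod_map_range]
  apply Finset.prod_congr rfl
  intro i _
  simp only [Function.comp]
  ring

/-- lists of coefficients from the top -/
theorem list_eq {n N : ℕ} (hn : n ≤ N) (l : List ℂ) (hl : n ≤ l.length) (P : ℂ[X])
    (hP : ∀ i < n, l.getD i 0 = P.coeff i) (m : ℕ) (hm : n + m = N) (hn1 : 1 ≤ n) :
    (l.take n).reverse ++ zc m = sq (revc (n - 1) P) N := by
  have hlt : (l.take n).length = n := by simp [hl]
  apply ext_getD
  · simp [sq, zc, hl, hm]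
  · intro i hi
    have hi' : i < N := by
      simp [zc, hl] at hi
      omega
    rw [getD_sq, if_pos hi']
    rcases lt_or_ge i n with h | h
    · have e1 : ((l.take n).reverse ++ zc m).getD i 0 = l.getD (n - 1 - i) 0 := by
        rw [List.getD_append _ _ _ _ (by simp [hl, h]), List.getD_eq_getElem _ _ (by simp [hl, h]),
          List.getElem_reverse, List.getD_eq_getElem _ _ (by omega)]
        simp [hlt]
      rw [e1, hP _ (by omega)]
      unfold revc
      rw [if_pos (by omega)]
    · rw [List.getD_append_right _ _ _ _ (by simp [hl, h])]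
      unfold revc
      rw [if_neg (by omega)]
      unfold zc
      rw [List.getD_eq_getElem?_getD, List.getElem?_replicate]
      split_ifs <;> rfl

theorem main : S_CPC → S_HG → S_V2 := by
  intro hC hH k α γ σ h
  have hp := hC k α γ (Complex.I * σ)
  have hq := hC k α γ (-(Complex.I * σ))
  have h1 : 1 ≤ 2 ^ k := Nat.one_le_two_pow
  have h2 : 2 ^ (k + 1) = 2 ^ k + 2 ^ k := by ring
  obtain ⟨p, ep⟩ : ∃ p, p = cpC k (sts α γ (2 ^ k)) (Complex.I * σ) := ⟨_, rfl⟩
  obtain ⟨q, eq⟩ : ∃ q, q = cpC k (sts α γ (2 ^ k)) (-(Complex.I * σ)) := ⟨_, rfl⟩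
  rw [← ep] at hp
  rw [← eq] at hq
  have hfun : (fun i => α i - -(Complex.I * σ)) = fun i => α i + Complex.I * σ := by
    funext i
    ring
  rw [hfun] at hq
  -- the coefficients
  have hcp : ∀ i, p.getD i 0 = (cont (fun i => α i - Complex.I * σ) γ (2 ^ k)).1.coeff i := by
    intro i
    rw [← hp.2, coeff_toPoly]
  have hcq : ∀ i, q.getD i 0 = (cont (fun i => α i + Complex.I * σ) γ (2 ^ k)).1.coeff i := by
    intro i
    rw [← hq.2, coeff_toPoly]
  have hzip : ∀ (f : ℂ → ℂ → ℂ) (i : ℕ), i < 2 ^ (k + 1) →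
      (List.zipWith f p q).getD i 0 = f (p.getD i 0) (q.getD i 0) := by
    intro f i hi
    rw [List.getD_eq_getElem _ _ (by simp [hp.1, hq.1, hi]),
      List.getD_eq_getElem _ _ (by simp [hp.1, hi]), List.getD_eq_getElem _ _ (by simp [hq.1, hi])]
    simp
  have hF : ffl k p q = sq (FF (2 ^ k) α γ σ) (2 ^ (k + 1)) := by
    unfold ffl FF
    have := list_eq (n := 2 ^ k + 1) (N := 2 ^ (k + 1)) (by omega)
      (List.zipWith (fun a b => (a + b) / 2) p q) (by simp [hp.1, hq.1]; omega) (PP (2 ^ k) α γ σ)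
      (by
        intro i hi
        rw [hzip _ _ (by omega), hcp, hcq]
        unfold PP
        rw [coeff_C_mul, coeff_add]
        ring) (2 ^ k - 1) (by omega) (by omega)
    rw [this]
    simp
  have hG : ggl k p q = sq (GG (2 ^ k) α γ σ) (2 ^ (k + 1)) := by
    unfold ggl GG
    exact list_eq (n := 2 ^ k) (N := 2 ^ (k + 1)) (by omega)
      (List.zipWith (fun a b => (a - b) / (2 * Complex.I)) p q) (by simp [hp.1, hq.1]; omega)
      (QQ (2 ^ k) α γ σ)
      (by
        intro i hi
        rw [hzip _ _ (by omega), hcp, hcq]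
        unfold QQ
        rw [coeff_C_mul, coeff_sub]
        ring) (2 ^ k) (by omega) (by omega)
  have hl : lcl k (sts α γ (2 ^ k)) σ = sq (lc (FF (2 ^ k) α γ σ) (GG (2 ^ k) α γ σ)) (2 ^ k) := by
    unfold lcl
    rw [← ep, ← eq, hF, hG]
    exact hH k _ _ h
  unfold v2 Pool.Agent.H22.NL.V2
  rw [hl, vof_sq, pow_two]

end H94FG.V2
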