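import Pool.Agent.H94.FG.SpecC

set_option autoImplicit false

open Polynomial Pool.Agent.H22.NL

noncomputable section
namespace H94FG.WZ

theorem prod_range_list (f : ℕ → ℂ) (K : ℕ) :
    ((List.range K).map f).prod = ∏ m ∈ Finset.range K, f m := by
  induction K with
  | zero => simp
  | succ K ih => simp [List.range_succ, Finset.prod_range_succ, ih]

theorem rlC_eq (m : ℕ) : rlC m = (List.range m).map fun i : ℕ => ((i : ℂ) + 1) := rfl

theorem shC_sts (k : ℕ) (α γ : ℕ → ℂ) (t : ℂ) :
    shC k (sts α γ (2 ^ k)) t = sts (fun i => α i + t * ((i : ℂ) + 1)) γ (2 ^ k) := by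
  rw [shC, sts, rlC_eq, List.zipWith_map, List.zipWith_self]
  rfl

theorem main : S_V2 → S_WZ := by
  intro hV2 k K α γ ε t h
  rw [wz, Wz, prod_range_list]
  refine Finset.prod_congr rfl fun m hm => ?_
  rw [shC_sts, hV2 k _ γ _ (h m (Nat.lt_succ_iff.1 (Finset.mem_range.1 hm)))]

end H94FG.WZ
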