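import Pool.Agent.H94.FG.FinC
import Pool.Agent.H22.NL.Correct
import Pool.Agent.H94.FG.FFT
import Pool.Agent.H94.FG.OM
import Pool.Agent.H94.FG.MULC
import Pool.Agent.H94.FG.CPC
import Pool.Agent.H94.FG.HG
import Pool.Agent.H94.FG.V2
import Pool.Agent.H94.FG.WZ
import Pool.Agent.H94.FG.TSO
import Pool.Agent.H94.FG.KKN
import Pool.Agent.H94.FG.STE
import Pool.Agent.H94.FG.CPW
import Pool.Agent.H94.FG.CRL
import Pool.Agent.H94.FG.CV
import Pool.Agent.H94.FG.CW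
import Pool.Agent.H94.FG.CMUL
import Pool.Agent.H94.FG.CMM
import Pool.Agent.H94.FG.CCP
import Pool.Agent.H94.FG.CHG
import Pool.Agent.H94.FG.CPR
import Pool.Agent.H94.FG.CV2
import Pool.Agent.H94.FG.CWZ
import Pool.Agent.H94.FG.CSR
import Pool.Agent.H94.FG.CTS
import Pool.Agent.H94.FG.CKK
import Pool.Agent.H94.FG.CST
import Pool.Agent.H94.FG.CALG

set_option autoImplicit false

open Pool.Agent.H22.NL

noncomputable section
namespace H94FG

theorem pMULC : S_MULC := MULC.main FFT.main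

theorem pWZ : S_WZ := WZ.main (V2.main (CPC.main pMULC) (HG.main pMULC))

theorem pCMUL : S_CMUL :=
  CMUL.main (CV.main OM.main CPW.main) (CW.main OM.main CPW.main FFT.main)

theorem pCMM : S_CMM := CMM.main pCMUL pMULC

theorem pCV2 : S_CV2 := CV2.main (CCP.main pCMM) (CHG.main pCMUL pCMM pMULC) CPR.main

theorem pCALG : S_CALG :=
  CALG.main (CTS.main (CWZ.main pCV2 CRL.main CPR.main) CSR.main) CKK.main CST.main CRL.main

theorem final_all :
    ∃ (f : ℕ × ℂ × List (ℂ × ℂ × ℂ) → List ℂ) (cost : ℕ × ℂ × List (ℂ × ℂ × ℂ) → ℕ) (C : ℕ),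
      Alg f cost ∧ ∀ n : ℕ, 1 ≤ n → ∀ A : Matrix (Fin n) (Fin n) ℂ, A.IsHermitian →
        (∀ i j : Fin n, (i : ℕ) + 1 < j ∨ (j : ℕ) + 1 < i → A i j = 0) → ∀ δ : ℝ, 0 < δ →
          cost (n, (δ : ℂ), encode A) ≤ C * n * (Nat.log 2 n + 1) ^ 4 ∧
          ∃ e : Fin n → ℝ, f (n, (δ : ℂ), encode A) = (List.ofFn fun i => (e i : ℂ)) ∧
            (∀ i, |e i| ≤ 1) ∧
            ∃ hM : (A + (δ : ℂ) • Matrix.diagonal fun i => ((e i : ℝ) : ℂ)).IsHermitian,
              ∀ i j, i ≠ j → 1 / 2 ^ 73 * δ / (n : ℝ) ^ 46 ≤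
                |hM.eigenvalues i - hM.eigenvalues j| :=
  final KKN.main STE.main (TSO.main all_B pWZ) pCALG all_A9 E.main all_D1

end H94FG
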