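import Pool.Agent.H94.FG.SpecC

set_option autoImplicit false

open Polynomial Pool.Agent.H22.NL

noncomputable section
namespace H94FG.CW

/-- the root of unity -/
theorem om_alg (hOM : S_OM) {α : Type} {f : α → ℕ} {c : α → ℕ} (hf : Alg f c) :
    Alg (fun x => om (f x)) (fun x => c x + 1) :=
  (hf.un Alg.unity).congr (fun x => (hOM (f x)).symm) (fun _ => le_rfl)

/-- combination step of the inverse transform -/
def cmb (p : ℕ × List ℂ × List ℂ × List ℂ) : List ℂ :=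
  List.zipWith (fun a b => (a + b) / 2) (p.2.2.1.take (2 ^ p.1))
      (List.zipWith (· / ·) (p.2.2.2.take (2 ^ p.1)) (pw (om (p.1 + 1)) (2 ^ p.1))) ++
    List.zipWith (fun a b => (a - b) / 2) (p.2.2.1.take (2 ^ p.1))
      (List.zipWith (· / ·) (p.2.2.2.take (2 ^ p.1)) (pw (om (p.1 + 1)) (2 ^ p.1)))

theorem main : S_OM → S_CPW → S_FFT → S_CW := by
  intro hOM hPW hFFT
  obtain ⟨K, hK⟩ := hPW
  obtain ⟨T, hT⟩ := Alg.cnat (α := (ℕ × List ℂ × List ℂ × List ℂ) × ℂ × ℂ) 2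
  have hf1 : Alg (fun p : ℕ × List ℂ => p.2.take (2 ^ p.1)) (fun _ => 0) :=
    ((Alg.two_pow' Alg.fst).take' Alg.snd).congr (fun _ => rfl) (fun _ => by simp)
  have hf2 : Alg (fun p : ℕ × List ℂ => (p.2.drop (2 ^ p.1)).take (2 ^ p.1)) (fun _ => 0) :=
    ((Alg.two_pow' Alg.fst).take' ((Alg.two_pow' Alg.fst).drop' Alg.snd)).congr
      (fun _ => rfl) (fun _ => by simp)
  have hadd : Alg (fun p : (ℕ × List ℂ × List ℂ × List ℂ) × ℂ × ℂ => (p.2.1 + p.2.2) / 2)
      (fun _ => 2 + T) :=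
    (((Alg.fst' Alg.snd).add' (Alg.snd' Alg.snd)).div' hT).congr (fun _ => by simp)
      (fun _ => by simp <;> omega)
  have hsub : Alg (fun p : (ℕ × List ℂ × List ℂ × List ℂ) × ℂ × ℂ => (p.2.1 - p.2.2) / 2)
      (fun _ => 2 + T) :=
    (((Alg.fst' Alg.snd).sub' (Alg.snd' Alg.snd)).div' hT).congr (fun _ => by simp)
      (fun _ => by simp <;> omega)
  have hdiv : Alg (fun p : (ℕ × List ℂ × List ℂ × List ℂ) × ℂ × ℂ => p.2.1 / p.2.2)
      (fun _ => 1) :=
    ((Alg.fst' Alg.snd).div' (Alg.snd' Alg.snd)).congr (fun _ => rfl) (fun _ => by simp)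
  have hpw : Alg (fun p : ℕ × List ℂ × List ℂ × List ℂ => pw (om (p.1 + 1)) (2 ^ p.1))
      (fun p => 1 + K * (2 ^ p.1 + 1)) := by
    refine (Alg.call hK ((om_alg hOM (Alg.fst.natAdd' (Alg.nat 1))).pair
      (Alg.two_pow' Alg.fst))).congr (fun _ => rfl) (fun _ => by simp)
  have hu : Alg (fun p : ℕ × List ℂ × List ℂ × List ℂ => p.2.2.1.take (2 ^ p.1))
      (fun _ => 0) :=
    ((Alg.two_pow' Alg.fst).take' ((Alg.snd.snd').fst')).congr (fun _ => rfl) (fun _ => by simp)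
  have hv : Alg (fun p : ℕ × List ℂ × List ℂ × List ℂ => p.2.2.2.take (2 ^ p.1))
      (fun _ => 0) :=
    ((Alg.two_pow' Alg.fst).take' ((Alg.snd.snd').snd')).congr (fun _ => rfl) (fun _ => by simp)
  have hq : Alg (fun p : ℕ × List ℂ × List ℂ × List ℂ =>
      List.zipWith (· / ·) (p.2.2.2.take (2 ^ p.1)) (pw (om (p.1 + 1)) (2 ^ p.1)))
      (fun p => 2 ^ p.1 + (1 + K * (2 ^ p.1 + 1))) := by
    refine (Alg.zipWithK (F := fun _ a b => a / b) hdiv hv hpw).congr (fun _ => rfl) (fun x => ?_)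
    have : (x.2.2.2.take (2 ^ x.1)).length ≤ 2 ^ x.1 := List.length_take_le _ _
    omega
  have hh : Alg cmb (fun p => 2 * ((2 + T) * 2 ^ p.1) +
      2 * (2 ^ p.1 + (1 + K * (2 ^ p.1 + 1)))) := by
    refine ((Alg.zipWithK (F := fun _ a b => (a + b) / 2) hadd hu hq).append'
      (Alg.zipWithK (F := fun _ a b => (a - b) / 2) hsub hu hq)).congr (fun _ => rfl)
      (fun x => ?_)
    have : (x.2.2.1.take (2 ^ x.1)).length ≤ 2 ^ x.1 := List.length_take_le _ _
    have := Nat.mul_le_mul_left (2 + T) this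
    omega
  have hg : Alg (fun a : List ℂ => a.take 1) (fun _ => 0) :=
    ((Alg.nat 1).take' Alg.id).congr (fun _ => rfl) (fun _ => by simp)
  have key := Alg.rec2 (F := W) (G := 0) (cl := fun _ => 0) (cr := fun _ => 0)
    (ch := fun k => 2 * ((2 + T) * 2 ^ k) + 2 * (2 ^ k + (1 + K * (2 ^ k + 1))))
    hg hf1 hf2 hh (fun _ => rfl) (fun k y => by
      have h1 : (W k (y.take (2 ^ k))).take (2 ^ k) = W k (y.take (2 ^ k)) :=
        List.take_of_length_le (hFFT.2.1 k _).1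
      have h2 : (W k ((y.drop (2 ^ k)).take (2 ^ k))).take (2 ^ k) =
          W k ((y.drop (2 ^ k)).take (2 ^ k)) :=
        List.take_of_length_le (hFFT.2.1 k _).1
      simp only [cmb]
      rw [h1, h2, W])
  refine ⟨8 + 2 * T + 4 * K, key.congr (fun _ => rfl) (fun p => ?_)⟩
  have := Alg.S2_le (G := 0) (K := 8 + 2 * T + 4 * K) (j := 0)
    (e := fun k => 0 + 0 + (2 * ((2 + T) * 2 ^ k) + 2 * (2 ^ k + (1 + K * (2 ^ k + 1)))))
    (Nat.zero_le _)
    (fun k => by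
      have h1 : 1 ≤ 2 ^ k := Nat.one_le_two_pow
      have h2 : K * 1 ≤ K * 2 ^ k := Nat.mul_le_mul_left _ h1
      simp only [pow_zero, mul_one]
      nlinarith) p.1
  simpa using this

end H94FG.CW
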