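import Pool.Agent.H94.FG.SpecC
import Pool.Agent.H22.NL.Fin

set_option autoImplicit false

open Polynomial Pool.Agent.H22.NL

noncomputable section
namespace H94FG

theorem length_sts (α γ : ℕ → ℂ) (n : ℕ) : (sts α γ n).length = n := by simp [sts]

theorem algo_eq (hK : S_KKN) (hS : S_STE) (hT : S_TSO) (n : ℕ) (hn : 1 ≤ n) (x : Inp n) :
    algo (n, (x.δ : ℂ), encode x.A) = List.ofFn fun i : Fin n => outE n i x := by
  unfold algo
  simp only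
  rw [hK n hn, hS n (Nat.clog 2 n) x.A (Nat.le_pow_clog (by norm_num) n)]
  have h := hT (ent x.A) (HT_ent x) (Nat.clog 2 n) x.δ x.pos
  have e1 : (fun k => entry x.A k k) = fun i => ent x.A i i := rfl
  have e2 : (fun k => entry x.A k (k + 1) * entry x.A (k + 1) k) =
      fun i => ent x.A i (i + 1) * ent x.A (i + 1) i := rfl
  rw [e1, e2, h]
  apply List.ext_getElem
  · simp [rlC]
  · intro i h1 h2
    have h3 : ∀ h : i < (rlC n).length, (rlC n)[i] = (i : ℂ) + 1 := by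
      intro h
      unfold rlC
      rw [List.getElem_map, List.getElem_range]
    rw [List.getElem_map, h3, List.getElem_ofFn]
    rfl

theorem cost_le (K n : ℕ) (hn : 1 ≤ n) :
    K * ((Nat.clog 2 n + 1) ^ 4 * 2 ^ Nat.clog 2 n + n + 1) ≤
      (34 * K) * n * (Nat.log 2 n + 1) ^ 4 := by
  have h1 : 2 ^ Nat.clog 2 n ≤ 2 * n := two_pow_clog_le n hn
  have h2 : Nat.clog 2 n + 1 ≤ 2 * (Nat.log 2 n + 1) := by
    have := clog_le n hn
    omega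
  have h3 : (Nat.clog 2 n + 1) ^ 4 ≤ 16 * (Nat.log 2 n + 1) ^ 4 := by
    calc (Nat.clog 2 n + 1) ^ 4 ≤ (2 * (Nat.log 2 n + 1)) ^ 4 := Nat.pow_le_pow_left h2 4
      _ = _ := by ring
  have h5 : 1 ≤ (Nat.log 2 n + 1) ^ 4 := Nat.one_le_pow _ _ (by omega)
  have h6 : (Nat.clog 2 n + 1) ^ 4 * 2 ^ Nat.clog 2 n ≤
      (16 * (Nat.log 2 n + 1) ^ 4) * (2 * n) := Nat.mul_le_mul h3 h1
  have h7 : n * 1 ≤ n * (Nat.log 2 n + 1) ^ 4 := Nat.mul_le_mul_left _ h5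
  calc K * ((Nat.clog 2 n + 1) ^ 4 * 2 ^ Nat.clog 2 n + n + 1)
      ≤ K * (34 * (n * (Nat.log 2 n + 1) ^ 4)) := by
        apply Nat.mul_le_mul_left
        have h8 : (Nat.clog 2 n + 1) ^ 4 * 2 ^ Nat.clog 2 n ≤
          32 * (n * (Nat.log 2 n + 1) ^ 4) := h6.trans (le_of_eq (by ring))
        omega
    _ = (34 * K) * n * (Nat.log 2 n + 1) ^ 4 := by ring

theorem final (hK : S_KKN) (hS : S_STE) (hT : S_TSO) (hC : S_CALG) (hA9 : S_A9) (hE : S_E)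
    (hD1 : S_D1) :
    ∃ (f : ℕ × ℂ × List (ℂ × ℂ × ℂ) → List ℂ) (cost : ℕ × ℂ × List (ℂ × ℂ × ℂ) → ℕ) (C : ℕ),
      Alg f cost ∧ ∀ n : ℕ, 1 ≤ n → ∀ A : Matrix (Fin n) (Fin n) ℂ, A.IsHermitian →
        (∀ i j : Fin n, (i : ℕ) + 1 < j ∨ (j : ℕ) + 1 < i → A i j = 0) → ∀ δ : ℝ, 0 < δ →
          cost (n, (δ : ℂ), encode A) ≤ C * n * (Nat.log 2 n + 1) ^ 4 ∧
          ∃ e : Fin n → ℝ, f (n, (δ : ℂ), encode A) = (List.ofFn fun i => (e i : ℂ)) ∧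
            (∀ i, |e i| ≤ 1) ∧
            ∃ hM : (A + (δ : ℂ) • Matrix.diagonal fun i => ((e i : ℝ) : ℂ)).IsHermitian,
              ∀ i j, i ≠ j → 1 / 2 ^ 73 * δ / (n : ℝ) ^ 46 ≤
                |hM.eigenvalues i - hM.eigenvalues j| := by
  obtain ⟨K, hKc⟩ := hC
  refine ⟨algo, _, 34 * K, hKc, fun n hn A hA hA3 δ hδ => ⟨?_, ?_⟩⟩
  · simp only
    rw [hK n hn]
    exact cost_le K n hn
  · obtain ⟨e, h1, h2, h3⟩ := correct_final hA9 hE hD1 n hn ⟨A, δ, hA, hA3, hδ⟩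
    refine ⟨e, ?_, h2, h3⟩
    have := algo_eq hK hS hT n hn ⟨A, δ, hA, hA3, hδ⟩
    simp only at this
    rw [this]
    congr 1
    funext i
    exact h1 i

end H94FG
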