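import Pool.Agent.H22.NL.Correct
import Pool.Agent.H94.FG.FinC
import Pool.Agent.H94.FG.OM
import Pool.Agent.H94.FG.FFT
import Pool.Agent.H94.FG.MULC
import Pool.Agent.H94.FG.CPC
import Pool.Agent.H94.FG.HG
import Pool.Agent.H94.FG.V2
import Pool.Agent.H94.FG.WZ
import Pool.Agent.H94.FG.TSO
import Pool.Agent.H94.FG.KKN
import Pool.Agent.H94.FG.STE
import Pool.Agent.H94.FG.CPW
import Pool.Agent.H94.FG.CRL
import Pool.Agent.H94.FG.CV
import Pool.Agent.H94.FG.CW
import Pool.Agent.H94.FG.CMUL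
import Pool.Agent.H94.FG.CMM
import Pool.Agent.H94.FG.CCP
import Pool.Agent.H94.FG.CHG
import Pool.Agent.H94.FG.CPR
import Pool.Agent.H94.FG.CV2
import Pool.Agent.H94.FG.CWZ
import Pool.Agent.H94.FG.CSR
import Pool.Agent.H94.FG.CTS
import Pool.Agent.H94.FG.CKK
import Pool.Agent.H94.FG.CST
import Pool.Agent.H94.FG.CALG

set_option autoImplicit false

/-!
# Project NU: all parts together
-/

noncomputable section
namespace H94FG

open Pool.Agent.H22.NL

theorem all_MULC : S_MULC := MULC.main FFT.main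

theorem all_V2 : S_V2 := V2.main (CPC.main all_MULC) (HG.main all_MULC)

theorem all_TSO : S_TSO := TSO.main all_B (WZ.main all_V2)

theorem all_CMUL : S_CMUL := CMUL.main (CV.main OM.main CPW.main) (CW.main OM.main CPW.main FFT.main)

theorem all_CMM : S_CMM := CMM.main all_CMUL all_MULC

theorem all_CV2 : S_CV2 :=
  CV2.main (CCP.main all_CMM) (CHG.main all_CMUL all_CMM all_MULC) CPR.main

theorem all_CALG : S_CALG :=
  CALG.main (CTS.main (CWZ.main all_CV2 CRL.main CPR.main) CSR.main) CKK.main CST.main CRL.main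

theorem final_all :
    ∃ (f : ℕ × ℂ × List (ℂ × ℂ × ℂ) → List ℂ) (cost : ℕ × ℂ × List (ℂ × ℂ × ℂ) → ℕ) (C : ℕ),
      Alg f cost ∧ ∀ n : ℕ, 1 ≤ n → ∀ A : Matrix (Fin n) (Fin n) ℂ, A.IsHermitian →
        (∀ i j : Fin n, (i : ℕ) + 1 < j ∨ (j : ℕ) + 1 < i → A i j = 0) → ∀ δ : ℝ, 0 < δ →
          cost (n, (δ : ℂ), encode A) ≤ C * n * (Nat.log 2 n + 1) ^ 4 ∧
          ∃ e : Fin n → ℝ, f (n, (δ : ℂ), encode A) = (List.ofFn fun i => (e i : ℂ)) ∧
            (∀ i, |e i| ≤ 1) ∧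
            ∃ hM : (A + (δ : ℂ) • Matrix.diagonal fun i => ((e i : ℝ) : ℂ)).IsHermitian,
              ∀ i j, i ≠ j → 1 / 2 ^ 73 * δ / (n : ℝ) ^ 46 ≤
                |hM.eigenvalues i - hM.eigenvalues j| :=
  final KKN.main STE.main all_TSO all_CALG all_A9 E.main all_D1

end H94FG
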