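import Pool.Agent.H94.FG.Spec

set_option autoImplicit false

/-!
# The simultaneous bisection (project FG, stub BIS)
-/

noncomputable section
namespace H94FG.BIS

theorem getD_zipWith {α β γ : Type} (f : α → β → γ) (l : List α) (m : List β) (i : ℕ)
    (a : α) (b : β) (c : γ) (h1 : i < l.length) (h2 : i < m.length) :
    (List.zipWith f l m).getD i c = f (l.getD i a) (m.getD i b) := by
  rw [List.getD_eq_getElem _ _ (by rw [List.length_zipWith]; exact lt_min h1 h2),
    List.getD_eq_getElem _ _ h1, List.getD_eq_getElem _ _ h2, List.getElem_zipWith]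

theorem getD_zip {α β : Type} (l : List α) (m : List β) (i : ℕ)
    (a : α) (b : β) (h1 : i < l.length) (h2 : i < m.length) :
    (l.zip m).getD i (a, b) = (l.getD i a, m.getD i b) := by
  rw [List.getD_eq_getElem _ _ (by rw [List.length_zip]; exact lt_min h1 h2),
    List.getD_eq_getElem _ _ h1, List.getD_eq_getElem _ _ h2, List.getElem_zip]

/-- one step -/
theorem bstep_spec (k : ℕ) (p L U : List ℝ) (hL : L.length = 2 ^ k - 1)
    (hU : U.length = 2 ^ k - 1) :
    let mid := List.zipWith (fun a b => (a + b) / 2) L U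
    (mpe k p (mid ++ [0])).length = 2 ^ k →
    (bstep k p (L, U)).1.length = 2 ^ k - 1 ∧ (bstep k p (L, U)).2.length = 2 ^ k - 1 ∧
    ∀ i < 2 ^ k - 1,
      (bstep k p (L, U)).1.getD i 0 = (if 0 ≤ (-1) ^ i * (mpe k p (mid ++ [0])).getD i 0 then
        L.getD i 0 else (L.getD i 0 + U.getD i 0) / 2) ∧
      (bstep k p (L, U)).2.getD i 0 = (if 0 ≤ (-1) ^ i * (mpe k p (mid ++ [0])).getD i 0 then
        (L.getD i 0 + U.getD i 0) / 2 else U.getD i 0) := by
  intro mid hm
  have hmid : mid.length = 2 ^ k - 1 := by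
    simp only [mid, List.length_zipWith, hL, hU, min_self]
  set v := List.zipWith (fun (i : ℕ) (y : ℝ) => (-1) ^ i * y) (List.range (2 ^ k - 1))
    (mpe k p (mid ++ [0])) with hv
  have hvl : v.length = 2 ^ k - 1 := by
    rw [hv, List.length_zipWith, List.length_range, hm]; omega
  have h1 : (bstep k p (L, U)).1 =
      List.zipWith (fun (y : ℝ) (q : ℝ × ℝ) => if 0 ≤ y then q.1 else q.2) v (L.zip mid) := rfl
  have h2 : (bstep k p (L, U)).2 =
      List.zipWith (fun (y : ℝ) (q : ℝ × ℝ) => if 0 ≤ y then q.1 else q.2) v (mid.zip U) := rfl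
  refine ⟨?_, ?_, ?_⟩
  · rw [h1, List.length_zipWith, List.length_zip, hvl, hmid, hL, min_self, min_self]
  · rw [h2, List.length_zipWith, List.length_zip, hvl, hmid, hU, min_self, min_self]
  · intro i hi
    have hvi : v.getD i 0 = (-1) ^ i * (mpe k p (mid ++ [0])).getD i 0 := by
      rw [hv, getD_zipWith _ _ _ i 0 0 0 (by rw [List.length_range]; exact hi) (by rw [hm]; omega)]
      rw [List.getD_eq_getElem _ _ (by rw [List.length_range]; exact hi), List.getElem_range]
    have hmi : mid.getD i 0 = (L.getD i 0 + U.getD i 0) / 2 :=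
      getD_zipWith _ _ _ i 0 0 0 (by rw [hL]; exact hi) (by rw [hU]; exact hi)
    constructor
    · rw [h1, getD_zipWith _ _ _ i 0 (0, 0) 0 (by rw [hvl]; exact hi)
        (by rw [List.length_zip, hL, hmid, min_self]; exact hi),
        getD_zip _ _ i 0 0 (by rw [hL]; exact hi) (by rw [hmid]; exact hi), hvi, hmi]
    · rw [h2, getD_zipWith _ _ _ i 0 (0, 0) 0 (by rw [hvl]; exact hi)
        (by rw [List.length_zip, hU, hmid, min_self]; exact hi),
        getD_zip _ _ i 0 0 (by rw [hmid]; exact hi) (by rw [hU]; exact hi), hvi, hmi]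

theorem main : S_BIS := by
  intro k J p lo hi lam hlo hhi hle htest
  have hpow : 0 < 2 ^ k := by positivity
  have inv : ((bstep k p)^[J] (lo, hi)).1.length = 2 ^ k - 1 ∧
      ((bstep k p)^[J] (lo, hi)).2.length = 2 ^ k - 1 ∧
      ∀ i < 2 ^ k - 1,
        lo.getD i 0 ≤ ((bstep k p)^[J] (lo, hi)).1.getD i 0 ∧
        ((bstep k p)^[J] (lo, hi)).2.getD i 0 ≤ hi.getD i 0 ∧
        ((bstep k p)^[J] (lo, hi)).2.getD i 0 - ((bstep k p)^[J] (lo, hi)).1.getD i 0 =
          (hi.getD i 0 - lo.getD i 0) / 2 ^ J ∧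
        (((bstep k p)^[J] (lo, hi)).1.getD i 0 ≤ lam i ∨
          ((bstep k p)^[J] (lo, hi)).1.getD i 0 = lo.getD i 0) ∧
        (lam i ≤ ((bstep k p)^[J] (lo, hi)).2.getD i 0 ∨
          ((bstep k p)^[J] (lo, hi)).2.getD i 0 = hi.getD i 0) := by
    induction J with
    | zero =>
      refine ⟨hlo, hhi, fun i _ => ⟨le_rfl, le_rfl, by simp, Or.inr rfl, Or.inr rfl⟩⟩
    | succ J ih =>
      rw [Function.iterate_succ_apply']
      generalize (bstep k p)^[J] (lo, hi) = LU at ih ⊢
      obtain ⟨L, U⟩ := LU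
      simp only at ih
      obtain ⟨hL, hU, hinv⟩ := ih
      set mid := List.zipWith (fun a b : ℝ => (a + b) / 2) L U with hmiddef
      have hmid : mid.length = 2 ^ k - 1 := by
        rw [hmiddef, List.length_zipWith, hL, hU, min_self]
      have hmi : ∀ i < 2 ^ k - 1, mid.getD i 0 = (L.getD i 0 + U.getD i 0) / 2 := fun i hi =>
        getD_zipWith _ _ _ i 0 0 0 (by rw [hL]; exact hi) (by rw [hU]; exact hi)
      have hmi' : ∀ i < 2 ^ k - 1, (mid ++ [0]).getD i 0 = (L.getD i 0 + U.getD i 0) / 2 := by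
        intro i hi
        rw [← hmi i hi, List.getD_append _ _ _ _ (by rw [hmid]; exact hi)]
      have hLU : ∀ i < 2 ^ k - 1, L.getD i 0 ≤ U.getD i 0 := by
        intro i hi'
        have h1 := (hinv i hi').2.2.1
        have h2 : 0 ≤ (hi.getD i 0 - lo.getD i 0) / 2 ^ J :=
          div_nonneg (sub_nonneg.mpr (hle i hi')) (by positivity)
        linarith
      have ht := htest (mid ++ [0]) (by rw [List.length_append, hmid, List.length_singleton]; omega)
        (by
          intro i hi'
          rw [hmi' i hi']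
          have h1 := hinv i hi'
          have h2 := hLU i hi'
          constructor <;> linarith [h1.1, h1.2.1])
      have hs := bstep_spec k p L U hL hU ht.1
      refine ⟨hs.1, hs.2.1, fun i hi' => ?_⟩
      obtain ⟨e1, e2⟩ := hs.2.2 i hi'
      obtain ⟨g1, g2, g3, g4, g5⟩ := hinv i hi'
      have hLUi := hLU i hi'
      rw [e1, e2]
      have hpw : (hi.getD i 0 - lo.getD i 0) / 2 ^ (J + 1) = (U.getD i 0 - L.getD i 0) / 2 := by
        rw [g3, pow_succ]; field_simp
      rw [hpw]
      rcases lt_or_eq_of_le (hle i hi') with hlt | heq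
      · have hiff := ht.2 i hi' hlt
        rw [hmi' i hi'] at hiff
        by_cases hc : 0 ≤ (-1) ^ i * (mpe k p (mid ++ [0])).getD i 0
        · rw [if_pos hc, if_pos hc]
          have := hiff.mp hc
          refine ⟨g1, by linarith, by ring, g4, Or.inl this⟩
        · rw [if_neg hc, if_neg hc]
          have : (L.getD i 0 + U.getD i 0) / 2 < lam i := by
            by_contra hcon
            exact hc (hiff.mpr (not_lt.mp hcon))
          refine ⟨by linarith, g2, by ring, Or.inl this.le, g5⟩
      · have hz : (hi.getD i 0 - lo.getD i 0) / 2 ^ J = 0 := by rw [heq]; simp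
        rw [hz] at g3
        have hL' : L.getD i 0 = lo.getD i 0 := by linarith
        have hU' : U.getD i 0 = hi.getD i 0 := by linarith
        rw [hL', hU', heq]
        split_ifs
        · exact ⟨le_rfl, by linarith, by ring, Or.inr rfl, Or.inr (by ring)⟩
        · exact ⟨by linarith, le_rfl, by ring, Or.inr (by ring), Or.inr rfl⟩
  refine ⟨inv.1, fun i hi' => ?_⟩
  obtain ⟨g1, g2, g3, g4, g5⟩ := inv.2.2 i hi'
  have h0 : 0 ≤ (hi.getD i 0 - lo.getD i 0) / 2 ^ J :=
    div_nonneg (sub_nonneg.mpr (hle i hi')) (by positivity)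
  refine ⟨g1, by linarith, ?_, ?_, ?_⟩
  · intro h1 h2
    have h3 : ((bstep k p)^[J] (lo, hi)).1.getD i 0 ≤ lam i := by
      rcases g4 with h | h
      · exact h
      · rw [h]; exact h1
    have h4 : lam i ≤ ((bstep k p)^[J] (lo, hi)).2.getD i 0 := by
      rcases g5 with h | h
      · exact h
      · rw [h]; exact h2
    rw [abs_le]
    constructor <;> linarith
  · intro h1
    rcases g4 with h | h
    · linarith
    · exact h
  · intro h1
    rcases g5 with h | h
    · linarith
    · rw [h] at g3; linarith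

end H94FG.BIS
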