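import Pool.Agent.H94.FG.ITL

set_option autoImplicit false

/-!
Gershgorin's bound (stub FG-BND).
-/

noncomputable section
namespace H94FG.BND

open Matrix H94FG.LA

theorem T_le (a c : ℕ → ℝ) (i j : ℕ) : |T a c i j| ≤ (if j = i then |a i| else 0) +
    (if j = i + 1 then √(c (i + 1)) else 0) + (if j + 1 = i then √(c i) else 0) := by
  unfold T
  by_cases h1 : i = j
  · subst h1
    simp
  · by_cases h2 : i + 1 = j
    · subst h2
      rw [if_neg h1, if_pos rfl, if_neg (by omega), if_pos rfl, if_neg (by omega),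
        abs_of_nonneg (Real.sqrt_nonneg _)]
      simp
    · by_cases h3 : j + 1 = i
      · subst h3
        rw [if_neg h1, if_neg h2, if_pos rfl, if_neg (by omega), if_neg (by omega),
          abs_of_nonneg (Real.sqrt_nonneg _)]
        simp
      · rw [if_neg h1, if_neg h2, if_neg h3, if_neg (Ne.symm h1), if_neg (Ne.symm h2)]
        simp

theorem ind_sum (m : ℕ) (v : ℝ) (hv : 0 ≤ v) (P : ℕ → Prop) [DecidablePred P]
    (hP : ∀ i j, P i → P j → i = j) : ∑ j : Fin m, (if P j then v else 0) ≤ v := by
  by_cases h : ∃ j : Fin m, P j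
  · obtain ⟨j, hj⟩ := h
    rw [Finset.sum_eq_single j]
    · rw [if_pos hj]
    · intro i _ hij
      rw [if_neg]
      intro hi
      exact hij (Fin.ext (hP _ _ hi hj))
    · simp
  · push Not at h
    rw [Finset.sum_eq_zero]
    · exact hv
    · intro j _
      rw [if_neg (h j)]

theorem row (a c : ℕ → ℝ) (s m : ℕ) (i : Fin m) :
    ∑ j, |blk a c s m i j| ≤ |a (s + i)| + √(c (s + i)) + √(c (s + i + 1)) := by
  calc ∑ j, |blk a c s m i j|
      ≤ ∑ j : Fin m, ((if s + (j : ℕ) = s + i then |a (s + i)| else 0) +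
        (if s + (j : ℕ) = s + i + 1 then √(c (s + i + 1)) else 0) +
        (if s + (j : ℕ) + 1 = s + i then √(c (s + i)) else 0)) :=
        Finset.sum_le_sum fun j _ => T_le a c (s + i) (s + j)
    _ = ∑ j : Fin m, (if s + (j : ℕ) = s + i then |a (s + i)| else 0) +
        ∑ j : Fin m, (if s + (j : ℕ) = s + i + 1 then √(c (s + i + 1)) else 0) +
        ∑ j : Fin m, (if s + (j : ℕ) + 1 = s + i then √(c (s + i)) else 0) := by
        rw [Finset.sum_add_distrib, Finset.sum_add_distrib]
    _ ≤ |a (s + i)| + √(c (s + i + 1)) + √(c (s + i)) := by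
        refine add_le_add (add_le_add ?_ ?_) ?_
        · exact ind_sum m _ (abs_nonneg _) (fun j => s + j = s + i) (fun i j hi hj => by omega)
        · exact ind_sum m _ (Real.sqrt_nonneg _) (fun j => s + j = s + i + 1)
            (fun i j hi hj => by omega)
        · exact ind_sum m _ (Real.sqrt_nonneg _) (fun j => s + j + 1 = s + i)
            (fun i j hi hj => by omega)
    _ = _ := by ring

theorem main : S_EVB → S_BND := by
  intro hEVB a c s m B hB i hi
  obtain ⟨-, -, w, hw, he⟩ := hEVB m (blk a c s m) (ITL.blk_herm a c s m)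
  set v := w ⟨i, hi⟩ with hv
  set lam := ev (blk a c s m) i with hlam
  have hev : (blk a c s m).mulVec v = lam • v := he ⟨i, hi⟩
  have hv1 : v ⬝ᵥ v = 1 := by rw [hv, hw, if_pos rfl]
  have : Nonempty (Fin m) := ⟨⟨i, hi⟩⟩
  obtain ⟨k, hk⟩ := Finite.exists_max fun j => |v j|
  have hpos : 0 < |v k| := by
    by_contra hcon
    have h0 : |v k| = 0 := le_antisymm (not_lt.1 hcon) (abs_nonneg _)
    have h1 : v = 0 := by
      ext j
      have := hk j
      rw [h0] at this
      exact abs_eq_zero.1 (le_antisymm this (abs_nonneg _))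
    rw [h1] at hv1
    simp at hv1
  have h1 : lam * v k = ∑ j, blk a c s m k j * v j := by
    have := congrFun hev k
    rw [Pi.smul_apply, smul_eq_mul] at this
    rw [← this]
    rfl
  have h2 : |lam| * |v k| ≤ B * |v k| := by
    rw [← abs_mul, h1]
    calc |∑ j, blk a c s m k j * v j| ≤ ∑ j, |blk a c s m k j * v j| :=
          Finset.abs_sum_le_sum_abs _ _
      _ ≤ ∑ j, |blk a c s m k j| * |v k| := Finset.sum_le_sum fun j _ => by
          rw [abs_mul]
          exact mul_le_mul_of_nonneg_left (hk j) (abs_nonneg _)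
      _ = (∑ j, |blk a c s m k j|) * |v k| := by rw [Finset.sum_mul]
      _ ≤ B * |v k| := mul_le_mul_of_nonneg_right ((row a c s m k).trans (hB _)) (abs_nonneg _)
  exact le_of_mul_le_mul_right h2 hpos

end H94FG.BND
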