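import Pool.Agent.H94.FG.Spec

set_option autoImplicit false

/-!
The search by bisection (stub FG-BSR).
-/

noncomputable section
namespace H94FG.BSR

theorem half (K : ℕ) (A B : ℝ) (h : 2 * A ≤ B) : A / 2 ^ K ≤ B / 2 ^ (K + 1) := by
  have hp : (0 : ℝ) < 2 ^ K := by positivity
  rw [pow_succ, div_le_div_iff₀ hp (by positivity)]
  nlinarith

theorem aux (h : ℝ → ℝ) (t : ℝ) : ∀ (K : ℕ) (x : ℝ), ∃ L : ℕ, L < 2 ^ K ∧
    bsr h t K x (2 ^ K * t) = x + L * t ∧
    (h (x + L * t + t + t) - h (x + L * t + t)) - (h (x + L * t + t) - h (x + L * t)) ≤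
      ((h (x + 2 ^ K * t + t) - h (x + 2 ^ K * t)) - (h (x + t) - h x)) / 2 ^ K := by
  intro K
  induction K with
  | zero =>
    intro x
    refine ⟨0, by norm_num, ?_, ?_⟩
    · simp [bsr]
    · simp
  | succ K ih =>
    intro x
    have hy : (2 : ℝ) ^ (K + 1) * t / 2 = 2 ^ K * t := by
      rw [pow_succ]; ring
    have hp : (0 : ℝ) < 2 ^ K := by positivity
    unfold bsr
    rw [hy]
    split_ifs with hc
    · obtain ⟨L, h1, h2, h3⟩ := ih x
      exact ⟨L, by rw [pow_succ]; omega, h2, h3.trans (half K _ _ (by linarith))⟩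
    · obtain ⟨L, h1, h2, h3⟩ := ih (x + 2 ^ K * t)
      refine ⟨2 ^ K + L, by rw [pow_succ]; omega, ?_, ?_⟩
      · rw [h2]; push_cast; ring
      · have e1 : x + ((2 ^ K + L : ℕ) : ℝ) * t = x + 2 ^ K * t + L * t := by push_cast; ring
        have e2 : x + 2 ^ (K + 1) * t = x + 2 ^ K * t + 2 ^ K * t := by rw [pow_succ]; ring
        rw [e1, e2]
        rw [e2] at hc
        exact h3.trans (half K _ _ (by linarith))

theorem main : S_BSR := by
  intro h t K
  obtain ⟨L, h1, h2, h3⟩ := aux h t K 0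
  refine ⟨L, h1, ?_, ?_⟩
  · rw [h2, zero_add]
  · simpa only [zero_add] using h3

end H94FG.BSR
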