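import Pool.Agent.H94.FG.Spec

set_option autoImplicit false

/-!
# Characteristic polynomial of a block by transfer matrices (project FG, stub CPL)
-/

open Polynomial Matrix

noncomputable section
namespace H94FG.CPL

theorem coeff_toPoly (l : List ℝ) (i : ℕ) : (toPoly l).coeff i = l.getD i 0 := by
  induction l generalizing i with
  | nil => simp [toPoly]
  | cons a l ih =>
    rw [toPoly]
    cases i with
    | zero => simp
    | succ i => simp [coeff_C_succ, coeff_X_mul, ih]

theorem toPoly_take (l : List ℝ) (m : ℕ) (h : (toPoly l).natDegree < m) :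
    toPoly (l.take m) = toPoly l := by
  ext i
  rw [coeff_toPoly, coeff_toPoly]
  by_cases hi : i < m
  · simp [List.getD_eq_getElem?_getD, List.getElem?_take, hi]
  · have h1 : (toPoly l).coeff i = 0 := coeff_eq_zero_of_natDegree_lt (by omega)
    rw [coeff_toPoly] at h1
    rw [h1]
    simp [List.getD_eq_getElem?_getD, List.getElem?_take, hi]

theorem toPoly_add (a b : List ℝ) (h : a.length = b.length) :
    toPoly (List.zipWith (· + ·) a b) = toPoly a + toPoly b := by
  ext i
  rw [coeff_add, coeff_toPoly, coeff_toPoly, coeff_toPoly]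
  simp only [List.getD_eq_getElem?_getD, List.getElem?_zipWith]
  rcases lt_or_ge i a.length with hi | hi
  · have hi' : i < b.length := h ▸ hi
    simp [hi, hi']
  · have hi' : b.length ≤ i := h ▸ hi
    simp [hi, hi']

/-- the matrix of polynomials -/
def toM (A : M4) : Matrix (Fin 2) (Fin 2) ℝ[X] :=
  !![toPoly A.1, toPoly A.2.1; toPoly A.2.2.1, toPoly A.2.2.2]

/-- all entries have length `m` -/
def Len (m : ℕ) (A : M4) : Prop :=
  A.1.length = m ∧ A.2.1.length = m ∧ A.2.2.1.length = m ∧ A.2.2.2.length = m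

theorem mmul_spec (hM : S_MUL) (k : ℕ) (A B : M4) (hA : Len (2 ^ k) A) (hB : Len (2 ^ k) B) :
    Len (2 ^ (k + 1)) (mmul k A B) ∧ toM (mmul k A B) = toM A * toM B := by
  obtain ⟨a1, a2, a3, a4⟩ := A
  obtain ⟨b1, b2, b3, b4⟩ := B
  obtain ⟨ha1, ha2, ha3, ha4⟩ := hA
  obtain ⟨hb1, hb2, hb3, hb4⟩ := hB
  simp only at ha1 ha2 ha3 ha4 hb1 hb2 hb3 hb4
  have h11 := hM.2 k a1 b1 ha1 hb1
  have h23 := hM.2 k a2 b3 ha2 hb3
  have h12 := hM.2 k a1 b2 ha1 hb2
  have h24 := hM.2 k a2 b4 ha2 hb4
  have h31 := hM.2 k a3 b1 ha3 hb1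
  have h43 := hM.2 k a4 b3 ha4 hb3
  have h32 := hM.2 k a3 b2 ha3 hb2
  have h44 := hM.2 k a4 b4 ha4 hb4
  refine ⟨⟨?_, ?_, ?_, ?_⟩, ?_⟩
  · simp [mmul, h11.1, h23.1]
  · simp [mmul, h12.1, h24.1]
  · simp [mmul, h31.1, h43.1]
  · simp [mmul, h32.1, h44.1]
  · simp only [mmul, toM]
    rw [toPoly_add _ _ (by rw [h11.1, h23.1]), toPoly_add _ _ (by rw [h12.1, h24.1]),
      toPoly_add _ _ (by rw [h31.1, h43.1]), toPoly_add _ _ (by rw [h32.1, h44.1]),
      h11.2, h23.2, h12.2, h24.2, h31.2, h43.2, h32.2, h44.2, Matrix.mul_fin_two]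

theorem tm_spec (hM : S_MUL) (k : ℕ) (L : List M4) (hL : L.length = 2 ^ k)
    (h2 : ∀ A ∈ L, Len 2 A) :
    Len (2 ^ (k + 1)) (tm k L) ∧ toM (tm k L) = (L.reverse.map toM).prod := by
  induction k generalizing L with
  | zero =>
    obtain ⟨A, rfl⟩ := List.length_eq_one_iff.mp (by simpa using hL)
    simp only [tm, List.headD_cons]
    refine ⟨by simpa using h2 A (by simp), by simp⟩
  | succ k ih =>
    have hd : ((L.drop (2 ^ k)).take (2 ^ k)) = L.drop (2 ^ k) := by
      apply List.take_of_length_le
      rw [List.length_drop, hL, pow_succ]; omega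
    have h1 := ih (L.take (2 ^ k)) (by rw [List.length_take, hL, pow_succ]; omega)
      (fun A hA => h2 A (List.mem_of_mem_take hA))
    have h3 := ih (L.drop (2 ^ k)) (by rw [List.length_drop, hL, pow_succ]; omega)
      (fun A hA => h2 A (List.mem_of_mem_drop hA))
    have h4 := mmul_spec hM (k + 1) (tm k (L.drop (2 ^ k))) (tm k (L.take (2 ^ k))) h3.1 h1.1
    simp only [tm, hd]
    refine ⟨h4.1, ?_⟩
    rw [h4.2, h1.2, h3.2, ← List.prod_append, ← List.map_append, ← List.reverse_append,
      List.take_append_drop]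

/-- the characteristic polynomial of the block satisfies the three term recurrence -/
theorem rec2 (a c : ℕ → ℝ) (hc : ∀ i, 0 ≤ c i) (s m : ℕ) :
    (blk a c s (m + 2)).charpoly =
      (X - C (a s)) * (blk a c (s + 1) (m + 1)).charpoly -
        C (c (s + 1)) * (blk a c (s + 2) m).charpoly := by
  have hsub : (charmatrix (blk a c s (m + 2))).submatrix Fin.succ Fin.succ =
      charmatrix (blk a c (s + 1) (m + 1)) := by
    refine Matrix.ext fun i j => ?_
    simp only [submatrix_apply, charmatrix_apply, blk, of_apply, Fin.val_succ]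
    have e1 : s + ((i : ℕ) + 1) = s + 1 + i := by omega
    have e2 : s + ((j : ℕ) + 1) = s + 1 + j := by omega
    simp only [e1, e2]
    by_cases h : i = j
    · subst h; simp
    · have h' : i.succ ≠ j.succ := fun h' => h (Fin.succ_injective _ h')
      simp [diagonal_apply_ne _ h, diagonal_apply_ne _ h']
  have hsub2 : (charmatrix (blk a c (s + 1) (m + 1))).submatrix Fin.succ Fin.succ =
      charmatrix (blk a c (s + 2) m) := by
    refine Matrix.ext fun i j => ?_
    simp only [submatrix_apply, charmatrix_apply, blk, of_apply, Fin.val_succ]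
    have e1 : s + 1 + ((i : ℕ) + 1) = s + 2 + i := by omega
    have e2 : s + 1 + ((j : ℕ) + 1) = s + 2 + j := by omega
    simp only [e1, e2]
    by_cases h : i = j
    · subst h; simp
    · have h' : i.succ ≠ j.succ := fun h' => h (Fin.succ_injective _ h')
      simp [diagonal_apply_ne _ h, diagonal_apply_ne _ h']
  unfold Matrix.charpoly
  rw [det_succ_row_zero, Fin.sum_univ_succ, Fin.sum_univ_succ]
  rw [Finset.sum_eq_zero]
  rotate_left
  · intro j _
    have : charmatrix (blk a c s (m + 2)) 0 j.succ.succ = 0 := by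
      rw [charmatrix_apply_ne _ _ _ (by simp [Fin.ext_iff])]
      simp only [blk, of_apply, T, Fin.val_zero, Fin.val_succ]
      rw [if_neg (by omega), if_neg (by omega), if_neg (by omega)]
      simp
    rw [this]; simp
  have h00 : charmatrix (blk a c s (m + 2)) 0 0 = X - C (a s) := by
    rw [charmatrix_apply_eq]
    simp [blk, T]
  have h01 : charmatrix (blk a c s (m + 2)) 0 (Fin.succ 0) = - C (√(c (s + 1))) := by
    rw [charmatrix_apply_ne _ _ _ (by simp [Fin.ext_iff])]
    simp [blk, T]
  have h10 : charmatrix (blk a c s (m + 2)) (Fin.succ 0) 0 = - C (√(c (s + 1))) := by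
    rw [charmatrix_apply_ne _ _ _ (by simp [Fin.ext_iff])]
    have : s + 1 + 1 ≠ s := by omega
    simp [blk, T, this]
  rw [h00, h01]
  have hsa : (Fin.succAbove (0 : Fin (m + 2))) = Fin.succ := by
    funext i; simp
  have hminor : ((charmatrix (blk a c s (m + 2))).submatrix Fin.succ
      (Fin.succAbove (Fin.succ (0 : Fin (m + 1))))).det =
        - C (√(c (s + 1))) * (charmatrix (blk a c (s + 2) m)).det := by
    rw [det_succ_column_zero, Fin.sum_univ_succ]
    rw [Finset.sum_eq_zero]
    rotate_left
    · intro i _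
      have : (charmatrix (blk a c s (m + 2))).submatrix Fin.succ
          (Fin.succAbove (Fin.succ (0 : Fin (m + 1)))) i.succ 0 = 0 := by
        rw [submatrix_apply]
        have e : Fin.succAbove (Fin.succ (0 : Fin (m + 1))) 0 = 0 := by
          rw [Fin.succAbove_of_castSucc_lt]
          · simp
          · simp [Fin.lt_def]
        rw [e, charmatrix_apply_ne _ _ _ (by simp [Fin.ext_iff])]
        simp only [blk, of_apply, T, Fin.val_zero, Fin.val_succ]
        rw [if_neg (by omega), if_neg (by omega), if_neg (by omega)]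
        simp
      rw [this]; simp
    have e : Fin.succAbove (Fin.succ (0 : Fin (m + 1))) 0 = 0 := by
      rw [Fin.succAbove_of_castSucc_lt]
      · simp
      · simp [Fin.lt_def]
    rw [submatrix_apply, e, h10, submatrix_submatrix]
    have e2 : ((charmatrix (blk a c s (m + 2))).submatrix
        (Fin.succ ∘ Fin.succAbove 0)
        (Fin.succAbove (Fin.succ (0 : Fin (m + 1))) ∘ Fin.succ)) =
        charmatrix (blk a c (s + 2) m) := by
      rw [← hsub2, ← hsub, submatrix_submatrix]
      congr 1
    rw [e2]; simp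
  rw [hminor, hsa, hsub]
  have hsq : C (√(c (s + 1))) * C (√(c (s + 1))) = C (c (s + 1)) := by
    rw [← C_mul, Real.mul_self_sqrt (hc _)]
  simp only [Fin.val_zero, pow_zero, one_mul, Fin.val_succ, zero_add, pow_one, add_zero]
  linear_combination (-(charmatrix (blk a c (s + 2) m)).det) * hsq

theorem rec1 (a c : ℕ → ℝ) (s : ℕ) : (blk a c s 1).charpoly = X - C (a s) := by
  unfold Matrix.charpoly
  rw [det_fin_one, charmatrix_apply_eq]
  simp [blk, T]

theorem rec0 (a c : ℕ → ℝ) (s : ℕ) : (blk a c s 0).charpoly = 1 := by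
  unfold Matrix.charpoly
  rw [det_fin_zero]

theorem toM_smat (x y : ℝ) : toM (smat (x, y)) = !![X - C x, - C y; 1, 0] := by
  simp only [toM, smat, toPoly]
  congr 1
  ext i j
  fin_cases i <;> fin_cases j <;> simp <;> ring

/-- the product of the transfer matrices -/
def P (a c : ℕ → ℝ) (s m : ℕ) : Matrix (Fin 2) (Fin 2) ℝ[X] :=
  (((sit a c s m).map smat).reverse.map toM).prod

theorem P_succ (a c : ℕ → ℝ) (s m : ℕ) :
    P a c s (m + 1) = P a c (s + 1) m * !![X - C (a s), - C (c s); 1, 0] := by
  unfold P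
  have : sit a c s (m + 1) = (a s, c s) :: sit a c (s + 1) m := by
    unfold sit
    rw [List.range_succ_eq_map, List.map_cons, List.map_map]
    congr 1
    apply List.map_congr_left
    intro i _
    simp only [Function.comp, Nat.succ_eq_add_one]
    have : s + (i + 1) = s + 1 + i := by omega
    rw [this]
  rw [this, List.map_cons, List.reverse_cons, List.map_append, List.prod_append]
  simp [toM_smat]

theorem P_spec (a c : ℕ → ℝ) (hc : ∀ i, 0 ≤ c i) (m : ℕ) : ∀ s,
    P a c s m 0 0 = (blk a c s m).charpoly ∧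
    P a c s (m + 1) 0 0 = (blk a c s (m + 1)).charpoly ∧
    P a c s (m + 1) 0 1 = - C (c s) * (blk a c (s + 1) m).charpoly := by
  induction m with
  | zero =>
    intro s
    rw [P_succ, rec0, rec1, rec0]
    simp [P, sit, Matrix.mul_apply, Fin.sum_univ_two]
  | succ m ih =>
    intro s
    refine ⟨(ih s).2.1, ?_, ?_⟩
    · rw [P_succ]
      simp only [Matrix.mul_apply, Fin.sum_univ_two]
      rw [(ih (s + 1)).2.1, (ih (s + 1)).2.2, rec2 a c hc s m]
      simp
      ring
    · rw [P_succ]
      simp only [Matrix.mul_apply, Fin.sum_univ_two]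
      rw [(ih (s + 1)).2.1]
      simp
      ring

theorem main : S_MUL → S_CPL := by
  intro hM a c hc k s
  have hpos : 0 < 2 ^ k := by positivity
  have hlen : (sit a c s (2 ^ k - 1)).length = 2 ^ k - 1 := by simp [sit]
  have htake : (sit a c s (2 ^ k - 1)).take (2 ^ k - 1) = sit a c s (2 ^ k - 1) :=
    List.take_of_length_le hlen.le
  have hspec := tm_spec hM k ((sit a c s (2 ^ k - 1)).map smat ++ [idm])
    (by rw [List.length_append, List.length_map, hlen, List.length_singleton]; omega)
    (by
      intro A hA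
      rcases List.mem_append.mp hA with h | h
      · obtain ⟨q, _, rfl⟩ := List.mem_map.mp h
        simp [Len, smat]
      · rw [List.mem_singleton] at h
        subst h
        simp [Len, idm])
  have hidm : toM idm = 1 := by
    simp only [toM, idm, toPoly]
    ext i j
    fin_cases i <;> fin_cases j <;> simp
  have hprod : toM (tm k ((sit a c s (2 ^ k - 1)).map smat ++ [idm])) =
      P a c s (2 ^ k - 1) := by
    rw [hspec.2, List.reverse_append, List.map_append, List.prod_append]
    simp [hidm, P]
  have hpoly : toPoly (tm k ((sit a c s (2 ^ k - 1)).map smat ++ [idm])).1 =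
      (blk a c s (2 ^ k - 1)).charpoly := by
    rw [← (P_spec a c hc (2 ^ k - 1) s).1, ← hprod]
    simp [toM]
  constructor
  · rw [cpl, htake, List.length_take, hspec.1.1, pow_succ]
    omega
  · rw [cpl, htake, toPoly_take, hpoly]
    rw [hpoly, charpoly_natDegree_eq_dim, Fintype.card_fin]
    omega

end H94FG.CPL
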