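import Pool.Agent.H94.FG.Spec

set_option autoImplicit false

/-!
# CVX (project FG): the kink of the potential
-/

open Matrix

noncomputable section
namespace H94FG.CVX

variable {n : ℕ}

theorem dot_sq_le (x y : Fin n → ℝ) : (x ⬝ᵥ y) ^ 2 ≤ (x ⬝ᵥ x) * (y ⬝ᵥ y) := by
  have h := Finset.sum_mul_sq_le_sq_mul_sq Finset.univ x y
  have e1 : x ⬝ᵥ x = ∑ i, x i ^ 2 := by
    unfold dotProduct; exact Finset.sum_congr rfl fun i _ => (sq (x i)).symm
  have e2 : y ⬝ᵥ y = ∑ i, y i ^ 2 := by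
    unfold dotProduct; exact Finset.sum_congr rfl fun i _ => (sq (y i)).symm
  rw [e1, e2]
  exact h

theorem dot_self_nonneg (x : Fin n → ℝ) : 0 ≤ x ⬝ᵥ x :=
  Finset.sum_nonneg fun i _ => mul_self_nonneg (x i)

theorem Xm_mulVec (x : Fin n → ℝ) (i : Fin n) : (Xm n).mulVec x i = ((i : ℝ) + 1) * x i := by
  unfold Xm
  rw [Matrix.mulVec_diagonal]

theorem Xm_dot (x y : Fin n → ℝ) : x ⬝ᵥ (Xm n).mulVec y = ∑ i, x i * (((i : ℝ) + 1) * y i) := by
  unfold dotProduct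
  exact Finset.sum_congr rfl fun i _ => by rw [Xm_mulVec]

theorem pos_le (i : Fin n) : ((i : ℝ) + 1) ≤ n := by
  have : (i : ℕ) + 1 ≤ n := i.isLt
  exact_mod_cast this

theorem Xm_nonneg (x : Fin n → ℝ) : 0 ≤ x ⬝ᵥ (Xm n).mulVec x := by
  rw [Xm_dot]
  refine Finset.sum_nonneg fun i _ => ?_
  have h : (0 : ℝ) ≤ (i : ℝ) + 1 := by positivity
  nlinarith [mul_nonneg h (mul_self_nonneg (x i))]

theorem Xm_le (x : Fin n → ℝ) : x ⬝ᵥ (Xm n).mulVec x ≤ n * (x ⬝ᵥ x) := by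
  rw [Xm_dot]
  unfold dotProduct
  rw [Finset.mul_sum]
  refine Finset.sum_le_sum fun i _ => ?_
  have h := mul_le_mul_of_nonneg_right (pos_le i) (mul_self_nonneg (x i))
  nlinarith

theorem Xm_sq_le (x : Fin n → ℝ) :
    (Xm n).mulVec x ⬝ᵥ (Xm n).mulVec x ≤ (n : ℝ) ^ 2 * (x ⬝ᵥ x) := by
  unfold dotProduct
  rw [Finset.mul_sum]
  refine Finset.sum_le_sum fun i _ => ?_
  rw [Xm_mulVec]
  have h1 := pos_le i
  have h0 : (0 : ℝ) ≤ (i : ℝ) + 1 := by positivity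
  have h2 : ((i : ℝ) + 1) ^ 2 ≤ (n : ℝ) ^ 2 := pow_le_pow_left₀ h0 h1 2
  have h := mul_le_mul_of_nonneg_right h2 (mul_self_nonneg (x i))
  nlinarith

theorem Xm_symm (x y : Fin n → ℝ) : x ⬝ᵥ (Xm n).mulVec y = y ⬝ᵥ (Xm n).mulVec x := by
  rw [Xm_dot, Xm_dot]
  exact Finset.sum_congr rfl fun i _ => by ring

theorem M_symm {M : Matrix (Fin n) (Fin n) ℝ} (hM : M.IsHermitian) (x y : Fin n → ℝ) :
    x ⬝ᵥ M.mulVec y = M.mulVec x ⬝ᵥ y := by
  rw [Matrix.dotProduct_mulVec, ← Matrix.mulVec_transpose]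
  have : Mᵀ = M := by
    have h := hM
    unfold Matrix.IsHermitian at h
    rwa [Matrix.conjTranspose_eq_transpose_of_trivial] at h
  rw [this]

/-- the projection -/
def pr (w : Fin n → Fin n → ℝ) (A : Finset (Fin n)) (x : Fin n → ℝ) : Fin n → ℝ :=
  ∑ i ∈ A, (w i ⬝ᵥ x) • w i

theorem dot_pr {w : Fin n → Fin n → ℝ} (A : Finset (Fin n)) (x y : Fin n → ℝ) :
    y ⬝ᵥ pr w A x = ∑ i ∈ A, (w i ⬝ᵥ x) * (y ⬝ᵥ w i) := by
  unfold pr
  rw [dotProduct_sum]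
  exact Finset.sum_congr rfl fun i _ => by rw [dotProduct_smul, smul_eq_mul]

theorem w_dot_pr {w : Fin n → Fin n → ℝ} (hw : ∀ i j, w i ⬝ᵥ w j = if i = j then 1 else 0)
    (A : Finset (Fin n)) (x : Fin n → ℝ) {i : Fin n} (hi : i ∈ A) : w i ⬝ᵥ pr w A x = w i ⬝ᵥ x := by
  rw [dot_pr]
  rw [Finset.sum_eq_single i]
  · rw [hw, if_pos rfl, mul_one]
  · intro j _ hj
    rw [hw, if_neg (fun h => hj h.symm), mul_zero]
  · intro h; exact absurd hi h

theorem pr_dot_pr {w : Fin n → Fin n → ℝ} (hw : ∀ i j, w i ⬝ᵥ w j = if i = j then 1 else 0)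
    (A : Finset (Fin n)) (x : Fin n → ℝ) : pr w A x ⬝ᵥ pr w A x = ∑ i ∈ A, (w i ⬝ᵥ x) ^ 2 := by
  rw [dot_pr]
  refine Finset.sum_congr rfl fun i hi => ?_
  rw [dotProduct_comm (pr w A x), w_dot_pr hw A x hi, sq]

theorem x_dot_pr {w : Fin n → Fin n → ℝ} (A : Finset (Fin n)) (x : Fin n → ℝ) :
    x ⬝ᵥ pr w A x = ∑ i ∈ A, (w i ⬝ᵥ x) ^ 2 := by
  rw [dot_pr]
  refine Finset.sum_congr rfl fun i _ => ?_
  rw [dotProduct_comm x, sq]

theorem bessel {w : Fin n → Fin n → ℝ} (hw : ∀ i j, w i ⬝ᵥ w j = if i = j then 1 else 0)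
    (A : Finset (Fin n)) (x : Fin n → ℝ) :
    (x - pr w A x) ⬝ᵥ (x - pr w A x) = x ⬝ᵥ x - ∑ i ∈ A, (w i ⬝ᵥ x) ^ 2 := by
  rw [sub_dotProduct, dotProduct_sub, dotProduct_sub, pr_dot_pr hw, x_dot_pr,
    dotProduct_comm (pr w A x) x, x_dot_pr]
  ring

/-- The truncation. -/
theorem trunc {M : Matrix (Fin n) (Fin n) ℝ} (hn : 1 ≤ n) (hM : M.IsHermitian) {w : Fin n → Fin n → ℝ}
    {e : Fin n → ℝ}
    (hw : ∀ i j, w i ⬝ᵥ w j = if i = j then 1 else 0) (hw2 : ∀ i, M.mulVec (w i) = e i • w i)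
    {A : Finset (Fin n)} {lam om r : ℝ} (hom : 0 < om) (hr : 0 ≤ r) (hrom : r ≤ om / (64 * n))
    (hA : ∀ i ∈ A, lam + om < e i) {x : Fin n → ℝ} (hx : x ⬝ᵥ x = 1)
    (hx2 : (M.mulVec x - lam • x) ⬝ᵥ (M.mulVec x - lam • x) ≤ r ^ 2) :
    ∃ y : Fin n → ℝ, y ⬝ᵥ y = 1 ∧ (∀ i ∈ A, w i ⬝ᵥ y = 0) ∧ lam - 2 * r ≤ y ⬝ᵥ M.mulVec y ∧
      |y ⬝ᵥ (Xm n).mulVec y - x ⬝ᵥ (Xm n).mulVec x| ≤ 1 / 16 := by
  have hnR : (1 : ℝ) ≤ n := by exact_mod_cast hn
  have hn0 : (0 : ℝ) < n := by linarith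
  set q := M.mulVec x - lam • x with hq
  set p := pr w A x with hp
  set z := x - p with hz
  set s := ∑ i ∈ A, (w i ⬝ᵥ x) ^ 2 with hs
  have hs0 : 0 ≤ s := Finset.sum_nonneg fun i _ => sq_nonneg _
  -- `s` is small
  have hqi : ∀ i, w i ⬝ᵥ q = (e i - lam) * (w i ⬝ᵥ x) := by
    intro i
    rw [hq, dotProduct_sub, M_symm hM, hw2, smul_dotProduct, dotProduct_smul, smul_eq_mul, smul_eq_mul]
    ring
  have hbq := bessel hw A q
  have hbq0 := dot_self_nonneg (q - pr w A q)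
  have hs1 : om ^ 2 * s ≤ r ^ 2 := by
    have h1 : om ^ 2 * s ≤ ∑ i ∈ A, (w i ⬝ᵥ q) ^ 2 := by
      rw [hs, Finset.mul_sum]
      refine Finset.sum_le_sum fun i hi => ?_
      rw [hqi, mul_pow]
      apply mul_le_mul_of_nonneg_right _ (sq_nonneg _)
      have := hA i hi
      nlinarith
    linarith
  have hs2 : s ≤ 1 / (64 * n) ^ 2 := by
    have h1 : r ^ 2 ≤ (om / (64 * n)) ^ 2 := pow_le_pow_left₀ hr hrom 2
    have h2 : om ^ 2 * s ≤ om ^ 2 * (1 / (64 * n) ^ 2) := by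
      calc om ^ 2 * s ≤ (om / (64 * n)) ^ 2 := hs1.trans h1
        _ = om ^ 2 * (1 / (64 * n) ^ 2) := by rw [div_pow]; ring
    exact le_of_mul_le_mul_left h2 (by positivity)
  have hs3 : s ≤ 1 / 4096 := by
    refine hs2.trans ?_
    rw [div_le_div_iff₀ (by positivity) (by norm_num)]
    nlinarith
  have hns : n * s ≤ 1 / 4096 := by
    have : (n : ℝ) * s ≤ n * (1 / (64 * n) ^ 2) := mul_le_mul_of_nonneg_left hs2 hn0.le
    refine this.trans ?_
    rw [mul_one_div, div_le_div_iff₀ (by positivity) (by norm_num)]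
    nlinarith
  have hpp : p ⬝ᵥ p = s := pr_dot_pr hw A x
  have hzz : z ⬝ᵥ z = 1 - s := by
    have := bessel hw A x
    rw [hx] at this
    exact this
  have hzz0 : 0 < z ⬝ᵥ z := by rw [hzz]; linarith
  have hwz : ∀ i ∈ A, w i ⬝ᵥ z = 0 := by
    intro i hi
    rw [hz, dotProduct_sub, hp, w_dot_pr hw A x hi, sub_self]
  have hxz : x = z + p := by rw [hz]; abel
  have hzp : z ⬝ᵥ p = 0 := by
    rw [hp, dot_pr]
    refine Finset.sum_eq_zero fun i hi => ?_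
    rw [dotProduct_comm z, hwz i hi, mul_zero]
  have hzMp : z ⬝ᵥ M.mulVec p = 0 := by
    rw [M_symm hM, hp, dot_pr]
    refine Finset.sum_eq_zero fun i hi => ?_
    rw [← M_symm hM, hw2, dotProduct_smul, dotProduct_comm z, hwz i hi, smul_zero, mul_zero]
  have hzx : z ⬝ᵥ x = z ⬝ᵥ z := by
    calc z ⬝ᵥ x = z ⬝ᵥ (z + p) := by rw [← hxz]
      _ = z ⬝ᵥ z := by rw [dotProduct_add, hzp, add_zero]
  have hzMz : z ⬝ᵥ M.mulVec z = lam * (z ⬝ᵥ z) + z ⬝ᵥ q := by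
    have h1 : z ⬝ᵥ M.mulVec z = z ⬝ᵥ M.mulVec x := by
      have : M.mulVec x = M.mulVec z + M.mulVec p := by rw [← Matrix.mulVec_add, ← hxz]
      rw [this, dotProduct_add, hzMp, add_zero]
    have h2 : z ⬝ᵥ q = z ⬝ᵥ M.mulVec x - lam * (z ⬝ᵥ x) := by
      rw [hq, dotProduct_sub z (M.mulVec x) (lam • x), dotProduct_smul, smul_eq_mul]
    rw [h1, h2, hzx]
    ring
  set c := √(z ⬝ᵥ z) with hc
  have hc0 : 0 < c := Real.sqrt_pos.mpr hzz0
  have hcc : c * c = z ⬝ᵥ z := Real.mul_self_sqrt hzz0.le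
  have hc1 : 1 / 2 ≤ c := by
    by_contra h
    push Not at h
    nlinarith
  refine ⟨c⁻¹ • z, ?_, ?_, ?_, ?_⟩
  · rw [smul_dotProduct, dotProduct_smul, ← hcc, smul_eq_mul, smul_eq_mul]
    field_simp
  · intro i hi
    rw [dotProduct_smul, hwz i hi, smul_zero]
  · rw [Matrix.mulVec_smul, smul_dotProduct, dotProduct_smul, smul_eq_mul, smul_eq_mul, hzMz, ← hcc]
    have h1 : (z ⬝ᵥ q) ^ 2 ≤ (c * r) ^ 2 := by
      refine (dot_sq_le z q).trans ?_
      rw [← hcc, mul_pow, sq c]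
      exact mul_le_mul_of_nonneg_left hx2 (by positivity)
    have h2 : -(c * r) ≤ z ⬝ᵥ q := (abs_le_of_sq_le_sq' h1 (by positivity)).1
    have h3 : c⁻¹ * (c⁻¹ * (lam * (c * c) + z ⬝ᵥ q)) = lam + c⁻¹ * c⁻¹ * (z ⬝ᵥ q) := by
      field_simp
    rw [h3]
    have h4 : c⁻¹ * c⁻¹ * (-(c * r)) ≤ c⁻¹ * c⁻¹ * (z ⬝ᵥ q) := mul_le_mul_of_nonneg_left h2 (by positivity)
    have h5 : c⁻¹ * c⁻¹ * (-(c * r)) = -(c⁻¹ * r) := by field_simp
    have h6 : c⁻¹ ≤ 2 := by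
      rw [inv_le_comm₀ hc0 (by norm_num)]
      linarith
    have h7 : c⁻¹ * r ≤ 2 * r := mul_le_mul_of_nonneg_right h6 hr
    linarith
  · rw [Matrix.mulVec_smul, smul_dotProduct, dotProduct_smul, smul_eq_mul, smul_eq_mul]
    have e1 : x ⬝ᵥ (Xm n).mulVec x = z ⬝ᵥ (Xm n).mulVec z + 2 * (p ⬝ᵥ (Xm n).mulVec x) - p ⬝ᵥ (Xm n).mulVec p := by
      have h1 : z ⬝ᵥ (Xm n).mulVec z = x ⬝ᵥ (Xm n).mulVec x - x ⬝ᵥ (Xm n).mulVec p -
          p ⬝ᵥ (Xm n).mulVec x + p ⬝ᵥ (Xm n).mulVec p := by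
        rw [hz, Matrix.mulVec_sub, sub_dotProduct, dotProduct_sub, dotProduct_sub]
        ring
      rw [h1, Xm_symm x p]
      ring
    have h1 : (p ⬝ᵥ (Xm n).mulVec x) ^ 2 ≤ (1 / 64) ^ 2 := by
      refine (dot_sq_le _ _).trans ?_
      have h2 := Xm_sq_le x
      rw [hx, mul_one] at h2
      rw [hpp]
      calc s * ((Xm n).mulVec x ⬝ᵥ (Xm n).mulVec x) ≤ s * (n : ℝ) ^ 2 := mul_le_mul_of_nonneg_left h2 hs0
        _ ≤ (1 / (64 * n) ^ 2) * (n : ℝ) ^ 2 := mul_le_mul_of_nonneg_right hs2 (by positivity)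
        _ = (1 / 64) ^ 2 := by field_simp
    obtain ⟨h2, h3⟩ := abs_le_of_sq_le_sq' h1 (by norm_num)
    have h4 := Xm_nonneg p
    have h5 := Xm_le p
    rw [hpp] at h5
    have h6 := Xm_nonneg z
    have h7 := Xm_le z
    set Z := z ⬝ᵥ (Xm n).mulVec z with hZ
    have h8 : c⁻¹ * (c⁻¹ * Z) = Z + s * (c⁻¹ * (c⁻¹ * Z)) := by
      have : c * c = 1 - s := by rw [hcc, hzz]
      have h9 : Z = (c * c) * (c⁻¹ * (c⁻¹ * Z)) := by field_simp
      rw [this] at h9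
      linarith
    have h9 : 0 ≤ c⁻¹ * (c⁻¹ * Z) := by positivity
    have h10 : c⁻¹ * (c⁻¹ * Z) ≤ n := by
      have : c⁻¹ * (c⁻¹ * Z) ≤ c⁻¹ * (c⁻¹ * (n * (c * c))) := by
        rw [hcc]
        apply mul_le_mul_of_nonneg_left _ (by positivity)
        exact mul_le_mul_of_nonneg_left h7 (by positivity)
      refine this.trans (le_of_eq ?_)
      field_simp
    have h11 : s * (c⁻¹ * (c⁻¹ * Z)) ≤ 1 / 4096 := by
      calc s * (c⁻¹ * (c⁻¹ * Z)) ≤ s * n := mul_le_mul_of_nonneg_left h10 hs0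
        _ = n * s := mul_comm _ _
        _ ≤ 1 / 4096 := hns
    have h12 : 0 ≤ s * (c⁻¹ * (c⁻¹ * Z)) := mul_nonneg hs0 h9
    rw [abs_le]
    constructor
    · linarith
    · linarith

/-- The sum of the `m` largest eigenvalues. -/
def S (M : Matrix (Fin n) (Fin n) ℝ) (m : ℕ) : ℝ := ∑ i ∈ Finset.range m, ev M (n - 1 - i)

theorem sum_tri (f : ℕ → ℝ) (N : ℕ) :
    ∑ m ∈ Finset.range N, ∑ i ∈ Finset.range (m + 1), f i = ∑ i ∈ Finset.range N, ((N : ℝ) - i) * f i := by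
  induction N with
  | zero => simp
  | succ N ih =>
    rw [Finset.sum_range_succ, ih, Finset.sum_range_succ, Finset.sum_range_succ, ← add_assoc,
      ← Finset.sum_add_distrib]
    congr 1
    · refine Finset.sum_congr rfl fun i _ => ?_
      push_cast; ring
    · push_cast; ring

theorem H_eq (M : Matrix (Fin n) (Fin n) ℝ) : H M = ∑ m ∈ Finset.range n, S M (m + 1) := by
  unfold S H
  rw [sum_tri, ← Finset.sum_range_reflect]
  refine Finset.sum_congr rfl fun i hi => ?_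
  have hi' : i < n := Finset.mem_range.mp hi
  congr 1
  have : ((n - 1 - i : ℕ) : ℝ) = (n : ℝ) - 1 - i := by
    rw [Nat.cast_sub (by omega), Nat.cast_sub (by omega)]
    push_cast; ring
  rw [this]; ring

theorem herm_add {M : Matrix (Fin n) (Fin n) ℝ} (hM : M.IsHermitian) (t : ℝ) :
    (M + t • Xm n).IsHermitian := by
  have hX : (Xm n).IsHermitian := Matrix.isHermitian_diagonal _
  unfold Matrix.IsHermitian at *
  rw [Matrix.conjTranspose_add, Matrix.conjTranspose_smul, hM, hX]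
  simp

theorem herm_sub {M : Matrix (Fin n) (Fin n) ℝ} (hM : M.IsHermitian) (t : ℝ) :
    (M - t • Xm n).IsHermitian := by
  have := herm_add hM (-t)
  rwa [neg_smul, ← sub_eq_add_neg] at this

theorem quad_add (M : Matrix (Fin n) (Fin n) ℝ) (t : ℝ) (x : Fin n → ℝ) :
    x ⬝ᵥ (M + t • Xm n).mulVec x = x ⬝ᵥ M.mulVec x + t * (x ⬝ᵥ (Xm n).mulVec x) := by
  rw [Matrix.add_mulVec, dotProduct_add, Matrix.smul_mulVec, dotProduct_smul, smul_eq_mul]

theorem quad_sub (M : Matrix (Fin n) (Fin n) ℝ) (t : ℝ) (x : Fin n → ℝ) :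
    x ⬝ᵥ (M - t • Xm n).mulVec x = x ⬝ᵥ M.mulVec x - t * (x ⬝ᵥ (Xm n).mulVec x) := by
  rw [Matrix.sub_mulVec, dotProduct_sub, Matrix.smul_mulVec, dotProduct_smul, smul_eq_mul]

theorem exists_cut {e : ℕ → ℝ} {n : ℕ} (hmono : ∀ i j, i ≤ j → j < n → e i ≤ e j) {k : ℕ} (hk : k < n) {b : ℝ}
    (hb : e k ≤ b) : ∃ A : ℕ, A + 1 ≤ n ∧ (∀ i, i < A → b < e (n - 1 - i)) ∧ e (n - 1 - A) ≤ b := by
  classical
  have hex : ∃ A, A < n ∧ e (n - 1 - A) ≤ b := ⟨n - 1 - k, by omega, by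
    have : n - 1 - (n - 1 - k) = k := by omega
    rw [this]; exact hb⟩
  refine ⟨Nat.find hex, ?_, ?_, (Nat.find_spec hex).2⟩
  · have := (Nat.find_spec hex).1
    omega
  · intro i hi
    have h := Nat.find_min hex hi
    have h2 := (Nat.find_spec hex).1
    by_contra hc
    exact h ⟨by omega, by linarith⟩

theorem main : S_EVB → S_KYF → S_CVX := by
  intro hEVB hKYF n M hn hM k t r lam phi psi hk hlam ht hr hrt hphi hpsi hphi2 hpsi2 hX
  have hnR : (1 : ℝ) ≤ n := by exact_mod_cast hn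
  have hn0 : (0 : ℝ) < n := by linarith
  obtain ⟨-, hmono, w, hw, hw2⟩ := hEVB n M hM
  have hp := herm_add hM t
  have hm := herm_sub hM t
  -- convexity of each `S`
  have hconv : ∀ m, m ≤ n → 0 ≤ S (M + t • Xm n) m + S (M - t • Xm n) m - 2 * S M m := by
    intro m hmn
    let v : Fin m → Fin n → ℝ := fun i => w ⟨n - 1 - i, by have := i.isLt; omega⟩
    have hv : ∀ i j, v i ⬝ᵥ v j = if i = j then 1 else 0 := by
      intro i j
      show w _ ⬝ᵥ w _ = _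
      rw [hw]
      have hi := i.isLt
      have hj := j.isLt
      by_cases hij : i = j
      · subst hij; simp
      · rw [if_neg hij, if_neg]
        intro h
        apply hij
        have h' := congrArg Fin.val h
        simp only at h'
        apply Fin.ext
        omega
    have h1 := hKYF n m _ hp hmn v hv
    have h2 := hKYF n m _ hm hmn v hv
    have h3 : ∑ i, v i ⬝ᵥ M.mulVec (v i) = S M m := by
      unfold S
      rw [← Fin.sum_univ_eq_sum_range (fun i => ev M (n - 1 - i)) m]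
      refine Finset.sum_congr rfl fun i _ => ?_
      show w _ ⬝ᵥ M.mulVec (w _) = _
      rw [hw2, dotProduct_smul, hw, if_pos rfl, smul_eq_mul, mul_one]
    simp only [quad_add, quad_sub] at h1 h2
    rw [Finset.sum_add_distrib] at h1
    rw [Finset.sum_sub_distrib] at h2
    rw [h3] at h1 h2
    rw [← Finset.mul_sum] at h1 h2
    unfold S at h1 h2 ⊢
    linarith
  -- the cut
  set om := t / 16 with hom
  have hom0 : 0 < om := by rw [hom]; positivity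
  have hrom : r ≤ om / (64 * n) := by
    refine hrt.trans (le_of_eq ?_)
    rw [hom]; field_simp; norm_num
  obtain ⟨A, hA1, hA2, hA3⟩ := exists_cut (e := ev M) hmono hk (b := lam + om) (by rw [hlam]; linarith)
  let ix : Fin A → Fin n := fun i => ⟨n - 1 - i, by omega⟩
  have hix : Function.Injective ix := by
    intro i j h
    have h' := congrArg Fin.val h
    have hi := i.isLt
    have hj := j.isLt
    simp only [ix] at h'
    apply Fin.ext
    omega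
  let AA : Finset (Fin n) := Finset.univ.image ix
  have hAA : ∀ i ∈ AA, lam + om < ev M i := by
    intro i hi
    obtain ⟨j, -, rfl⟩ := Finset.mem_image.mp hi
    exact hA2 j j.isLt
  obtain ⟨y, y1, y2, y3, y4⟩ := trunc hn hM (e := fun i => ev M i) hw hw2 hom0 hr hrom hAA hpsi hpsi2
  obtain ⟨x, x1, x2, x3, x4⟩ := trunc hn hM (e := fun i => ev M i) hw hw2 hom0 hr hrom hAA hphi hphi2
  -- the families
  have hfam : ∀ y : Fin n → ℝ, y ⬝ᵥ y = 1 → (∀ i ∈ AA, w i ⬝ᵥ y = 0) →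
      ∀ i j, (Fin.cons (α := fun _ => Fin n → ℝ) y (fun i => w (ix i)) : Fin (A + 1) → Fin n → ℝ) i ⬝ᵥ
        (Fin.cons (α := fun _ => Fin n → ℝ) y (fun i => w (ix i)) : Fin (A + 1) → Fin n → ℝ) j =
        if i = j then 1 else 0 := by
    intro y h1 h2 i j
    have h3 : ∀ i : Fin A, w (ix i) ⬝ᵥ y = 0 := fun i => h2 _ (Finset.mem_image.mpr ⟨i, Finset.mem_univ _, rfl⟩)
    refine Fin.cases ?_ (fun i => ?_) i <;> refine Fin.cases ?_ (fun j => ?_) j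
    · simp only [Fin.cons_zero, if_true]; exact h1
    · simp only [Fin.cons_zero, Fin.cons_succ]
      rw [dotProduct_comm, h3, if_neg (Fin.succ_ne_zero j).symm]
    · simp only [Fin.cons_zero, Fin.cons_succ]
      rw [h3, if_neg (Fin.succ_ne_zero i)]
    · simp only [Fin.cons_succ, Fin.succ_inj]
      rw [hw]
      simp only [hix.eq_iff]
  have hsumfam : ∀ (N : Matrix (Fin n) (Fin n) ℝ) (y : Fin n → ℝ),
      ∑ i, (Fin.cons (α := fun _ => Fin n → ℝ) y (fun i => w (ix i)) : Fin (A + 1) → Fin n → ℝ) i ⬝ᵥ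
        N.mulVec ((Fin.cons (α := fun _ => Fin n → ℝ) y (fun i => w (ix i)) : Fin (A + 1) → Fin n → ℝ) i) =
      y ⬝ᵥ N.mulVec y + ∑ i : Fin A, w (ix i) ⬝ᵥ N.mulVec (w (ix i)) := by
    intro N y
    rw [Fin.sum_univ_succ]
    simp only [Fin.cons_zero, Fin.cons_succ]
  have k1 := hKYF n (A + 1) _ hp hA1 _ (hfam y y1 y2)
  have k2 := hKYF n (A + 1) _ hm hA1 _ (hfam x x1 x2)
  rw [hsumfam] at k1 k2
  simp only [quad_add, quad_sub] at k1 k2
  rw [Finset.sum_add_distrib] at k1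
  rw [Finset.sum_sub_distrib] at k2
  rw [← Finset.mul_sum] at k1 k2
  have hSM : S M (A + 1) ≤ ∑ i : Fin A, w (ix i) ⬝ᵥ M.mulVec (w (ix i)) + (lam + om) := by
    unfold S
    rw [Finset.sum_range_succ]
    have h3 : ∑ i : Fin A, w (ix i) ⬝ᵥ M.mulVec (w (ix i)) = ∑ i ∈ Finset.range A, ev M (n - 1 - i) := by
      rw [← Fin.sum_univ_eq_sum_range (fun i => ev M (n - 1 - i)) A]
      refine Finset.sum_congr rfl fun i _ => ?_
      rw [hw2, dotProduct_smul, hw, if_pos rfl, smul_eq_mul, mul_one]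
    rw [h3]
    linarith
  have hy := abs_le.mp y4
  have hx := abs_le.mp x4
  have hXd : 7 / 8 ≤ y ⬝ᵥ (Xm n).mulVec y - x ⬝ᵥ (Xm n).mulVec x := by linarith [hy.1, hx.2]
  have hr2 : r ≤ t / 1024 := by
    refine hrt.trans ?_
    apply div_le_div_of_nonneg_left ht.le (by norm_num)
    linarith
  have hkey : t / 2 ≤ S (M + t • Xm n) (A + 1) + S (M - t • Xm n) (A + 1) - 2 * S M (A + 1) := by
    have e1 : S (M + t • Xm n) (A + 1) = ∑ i ∈ Finset.range (A + 1), ev (M + t • Xm n) (n - 1 - i) := rfl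
    have e2 : S (M - t • Xm n) (A + 1) = ∑ i ∈ Finset.range (A + 1), ev (M - t • Xm n) (n - 1 - i) := rfl
    rw [← e1] at k1
    rw [← e2] at k2
    have h1 : t * (7 / 8) ≤ t * (y ⬝ᵥ (Xm n).mulVec y - x ⬝ᵥ (Xm n).mulVec x) :=
      mul_le_mul_of_nonneg_left hXd ht.le
    have h2 : t * (y ⬝ᵥ (Xm n).mulVec y - x ⬝ᵥ (Xm n).mulVec x) =
      t * (y ⬝ᵥ (Xm n).mulVec y) - t * (x ⬝ᵥ (Xm n).mulVec x) := by ring
    linarith
  rw [H_eq, H_eq, H_eq, ← Finset.sum_add_distrib, Finset.mul_sum, ← Finset.sum_sub_distrib]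
  refine hkey.trans ?_
  refine Finset.single_le_sum (f := fun m => S (M + t • Xm n) (m + 1) + S (M - t • Xm n) (m + 1) -
    2 * S M (m + 1)) (fun m hm' => ?_) (Finset.mem_range.mpr (by omega : A < n))
  exact hconv (m + 1) (by have := Finset.mem_range.mp hm'; omega)

end H94FG.CVX
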