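import Pool.Agent.H94.FG.Model

set_option autoImplicit false

/-!
# The algorithm (project FG, MP_26b317_lc, Q2), as pure functions
-/

open Polynomial

noncomputable section
namespace H94FG

/-- The principal square root of a complex number. -/
def csqrt (z : ℂ) : ℂ := z ^ ((1 : ℂ) / 2)

/-! ## Polynomial arithmetic on lists of coefficients (constant term first) -/

/-- the polynomial with the given list of coefficients, constant term first -/
def toPoly {R : Type} [Semiring R] : List R → R[X]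
  | [] => 0
  | a :: l => C a + X * toPoly l

/-- `om k` is a primitive `2 ^ k`-th root of unity -/
def om : ℕ → ℂ
  | 0 => 1
  | 1 => -1
  | k + 2 => csqrt (om (k + 1))

/-- list of powers `1, z, ..., z ^ (m - 1)` -/
def pw (z : ℂ) (m : ℕ) : List ℂ := (List.range m).map fun i => z ^ i

/-- fast Fourier transform of a list of length `2 ^ k` -/
def V : ℕ → List ℂ → List ℂ
  | 0, a => a.take 1
  | k + 1, a =>
    V k (List.zipWith (· + ·) (a.take (2 ^ k)) ((a.drop (2 ^ k)).take (2 ^ k))) ++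
    V k (List.zipWith (· * ·)
      (List.zipWith (· - ·) (a.take (2 ^ k)) ((a.drop (2 ^ k)).take (2 ^ k)))
      (pw (om (k + 1)) (2 ^ k)))

/-- inverse of `V` -/
def W : ℕ → List ℂ → List ℂ
  | 0, y => y.take 1
  | k + 1, y =>
    List.zipWith (fun a b => (a + b) / 2) (W k (y.take (2 ^ k)))
      (List.zipWith (· / ·) (W k ((y.drop (2 ^ k)).take (2 ^ k))) (pw (om (k + 1)) (2 ^ k))) ++
    List.zipWith (fun a b => (a - b) / 2) (W k (y.take (2 ^ k)))
      (List.zipWith (· / ·) (W k ((y.drop (2 ^ k)).take (2 ^ k))) (pw (om (k + 1)) (2 ^ k)))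

/-- zeros -/
def zr (m : ℕ) : List ℝ := List.replicate m 0

/-- extend a real list of length `2 ^ k` to a complex one of length `2 ^ (k + 1)` -/
def ext (k : ℕ) (a : List ℝ) : List ℂ := ((a.take (2 ^ k) ++ zr (2 ^ k))).map Complex.ofReal

/-- product of polynomials given by lists of length `2 ^ k`; the result has length
`2 ^ (k + 1)` -/
def mulR (k : ℕ) (a b : List ℝ) : List ℝ :=
  (W (k + 1) (List.zipWith (· * ·) (V (k + 1) (ext k a)) (V (k + 1) (ext k b)))).map Complex.re

/-- inverse of the power series `f` (with constant term `1`) modulo `X ^ (2 ^ j)`; Newton -/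
def inv : ℕ → List ℝ → List ℝ
  | 0, _ => [1]
  | j + 1, f =>
    (mulR (j + 1) (inv j f ++ zr (2 ^ j))
      (List.zipWith (· - ·) (2 :: zr (2 ^ (j + 1) - 1))
        ((mulR (j + 1) (f.take (2 ^ (j + 1))) (inv j f ++ zr (2 ^ j))).take (2 ^ (j + 1))))).take
      (2 ^ (j + 1))

/-- quotient of `f` (length `2 ^ (k + 1)`) by the monic polynomial `X ^ (2 ^ k) + toPoly g`
(`g` of length `2 ^ k`) -/
def quo (k : ℕ) (f g : List ℝ) : List ℝ :=
  ((mulR k ((f.drop (2 ^ k)).take (2 ^ k)).reverse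
    (inv k ((1 :: g.reverse).take (2 ^ k)))).take (2 ^ k)).reverse

/-- remainder of the same division -/
def rem (k : ℕ) (f g : List ℝ) : List ℝ :=
  List.zipWith (· - ·) (f.take (2 ^ k)) ((mulR k (quo k f g) g).take (2 ^ k))

/-- `X ^ (2 ^ k) + toPoly (nodal k x)` is the product of the `X - x i` -/
def nodal : ℕ → List ℝ → List ℝ
  | 0, x => (x.take 1).map fun a => -a
  | k + 1, x =>
    List.zipWith (· + ·)
      (mulR k (nodal k (x.take (2 ^ k))) (nodal k ((x.drop (2 ^ k)).take (2 ^ k))))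
      (zr (2 ^ k) ++
        List.zipWith (· + ·) (nodal k (x.take (2 ^ k))) (nodal k ((x.drop (2 ^ k)).take (2 ^ k))))

/-- values of the polynomial `f` (length `2 ^ k`) at the `2 ^ k` points of the list `x` -/
def mpe : ℕ → List ℝ → List ℝ → List ℝ
  | 0, f, _ => f.take 1
  | k + 1, f, x =>
    mpe k (rem k f (nodal k (x.take (2 ^ k)))) (x.take (2 ^ k)) ++
    mpe k (rem k f (nodal k ((x.drop (2 ^ k)).take (2 ^ k)))) ((x.drop (2 ^ k)).take (2 ^ k))

/-- 2x2 matrices of polynomials (rows `(a, b)`, `(c, d)`) -/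
abbrev M4 := List ℝ × List ℝ × List ℝ × List ℝ

/-- product of matrices whose entries are lists of length `2 ^ k` -/
def mmul (k : ℕ) (A B : M4) : M4 :=
  (List.zipWith (· + ·) (mulR k A.1 B.1) (mulR k A.2.1 B.2.2.1),
   List.zipWith (· + ·) (mulR k A.1 B.2.1) (mulR k A.2.1 B.2.2.2),
   List.zipWith (· + ·) (mulR k A.2.2.1 B.1) (mulR k A.2.2.2 B.2.2.1),
   List.zipWith (· + ·) (mulR k A.2.2.1 B.2.1) (mulR k A.2.2.2 B.2.2.2))

/-- identity matrix, entries of length `2` -/
def idm : M4 := ([1, 0], [0, 0], [0, 0], [1, 0])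

/-- transfer matrix `(X - a, -c; 1, 0)` of the site `(a, c)` -/
def smat (s : ℝ × ℝ) : M4 := ([-s.1, 1], [-s.2, 0], [1, 0], [0, 0])

/-- product `l[2^k - 1] * ... * l[1] * l[0]` of `2 ^ k` matrices; entries of length
`2 ^ (k + 1)` -/
def tm : ℕ → List M4 → M4
  | 0, l => l.headD idm
  | k + 1, l => mmul (k + 1) (tm k ((l.drop (2 ^ k)).take (2 ^ k))) (tm k (l.take (2 ^ k)))

/-- coefficients of the characteristic polynomial of the chain with the list of sites `l`, of
length `2 ^ k - 1` -/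
def cpl (k : ℕ) (l : List (ℝ × ℝ)) : List ℝ :=
  ((tm k ((l.take (2 ^ k - 1)).map smat ++ [idm])).1).take (2 ^ k)

/-! ## Approximation of all eigenvalues -/

/-- merge of two sorted lists -/
def mrg (a b : List ℝ) : List ℝ := List.merge a b (fun x y => decide (x ≤ y))

/-- one step of the simultaneous bisection -/
def bstep (k : ℕ) (p : List ℝ) (s : List ℝ × List ℝ) : List ℝ × List ℝ :=
  let mid := List.zipWith (fun a b => (a + b) / 2) s.1 s.2
  let v := List.zipWith (fun (i : ℕ) (y : ℝ) => (-1) ^ i * y) (List.range (2 ^ k - 1))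
    (mpe k p (mid ++ [0]))
  (List.zipWith (fun (y : ℝ) (q : ℝ × ℝ) => if 0 ≤ y then q.1 else q.2) v (s.1.zip mid),
   List.zipWith (fun (y : ℝ) (q : ℝ × ℝ) => if 0 ≤ y then q.1 else q.2) v (mid.zip s.2))

/-- initial intervals, from the merged approximations `d` of the eigenvalues of the two parts -/
def ilo (e : ℝ) (d : List ℝ) : List ℝ := (-4) :: d.map fun x => x + e

def ihi (e : ℝ) (d : List ℝ) : List ℝ :=
  List.zipWith max (ilo e d) ((d.map fun x => x - e) ++ [4])

/-- approximations of the eigenvalues of the chain with the list of sites `l`, of length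
`2 ^ k - 1`, with `J` rounds of bisection in each step; `w = 8 / 2 ^ J` -/
def eig (J : ℕ) (w : ℝ) : ℕ → List (ℝ × ℝ) → List ℝ
  | 0, _ => []
  | k + 1, l =>
    let d := mrg (eig J w k (l.take (2 ^ k - 1))) (eig J w k ((l.drop (2 ^ k)).take (2 ^ k - 1)))
    let e := 2 * 4 ^ k * w
    ((bstep (k + 1) (cpl (k + 1) l))^[J] (ilo e d, ihi e d)).1

/-! ## The search -/

/-- chain of length `2 ^ k - 1` obtained from `l` (length `n`) by the shift `s * (i + 1)` and
by adding decoupled sites `(4, 0)` -/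
def shf (n k : ℕ) (l : List (ℝ × ℝ)) (s : ℝ) : List (ℝ × ℝ) :=
  (List.zipWith (fun (i : ℕ) (q : ℝ × ℝ) => (q.1 + s * ((i : ℝ) + 1), q.2)) (List.range n) l ++
    List.replicate (2 ^ k - 1 - n) (4, 0))

/-- the potential `∑ (i + 1) λ_i` -/
def hval (n : ℕ) (x : List ℝ) : ℝ :=
  (List.zipWith (fun (i : ℕ) (y : ℝ) => ((i : ℝ) + 1) * y) (List.range n) x).sum

def hs (n k J : ℕ) (w : ℝ) (l : List (ℝ × ℝ)) (s : ℝ) : ℝ := hval n (eig J w k (shf n k l s))

/-- bisection for the second difference of the function `h` with step `t` -/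
def bsr (h : ℝ → ℝ) (t : ℝ) : ℕ → ℝ → ℝ → ℝ
  | 0, x, _ => x
  | k + 1, x, y =>
    if 0 ≤ ((h (x + y + t) - h (x + y)) - (h (x + y / 2 + t) - h (x + y / 2))) -
        ((h (x + y / 2 + t) - h (x + y / 2)) - (h (x + t) - h x))
    then bsr h t k x (y / 2) else bsr h t k (x + y / 2) (y / 2)

end H94FG
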