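import Pool.Agent.H94.FG.Defs

set_option autoImplicit false

/-!
# The algorithm over the complex numbers, as pure functions (MP_26b317_lc, Q2)
-/

open Polynomial

noncomputable section
namespace H94FG

/-! ## Multiplication of polynomials -/

/-- zeros -/
def zc (m : ℕ) : List ℂ := List.replicate m 0

/-- product of polynomials given by lists of length `2 ^ k`; the result has length
`2 ^ (k + 1)` -/
def mulC (k : ℕ) (a b : List ℂ) : List ℂ :=
  W (k + 1) (List.zipWith (· * ·) (V (k + 1) (a.take (2 ^ k) ++ zc (2 ^ k)))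
    (V (k + 1) (b.take (2 ^ k) ++ zc (2 ^ k))))

/-! ## Characteristic polynomials by a product tree of transfer matrices -/

/-- 2x2 matrices of polynomials (rows `(a, b)`, `(c, d)`) -/
abbrev MC := List ℂ × List ℂ × List ℂ × List ℂ

/-- product of matrices whose entries are lists of length `2 ^ k` -/
def mmC (k : ℕ) (A B : MC) : MC :=
  (List.zipWith (· + ·) (mulC k A.1 B.1) (mulC k A.2.1 B.2.2.1),
   List.zipWith (· + ·) (mulC k A.1 B.2.1) (mulC k A.2.1 B.2.2.2),
   List.zipWith (· + ·) (mulC k A.2.2.1 B.1) (mulC k A.2.2.2 B.2.2.1),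
   List.zipWith (· + ·) (mulC k A.2.2.1 B.2.1) (mulC k A.2.2.2 B.2.2.2))

/-- identity matrix, entries of length `2` -/
def idC : MC := ([1, 0], [0, 0], [0, 0], [1, 0])

/-- transfer matrix `(X - a, -c; 1, 0)` of the site `(a, c)` -/
def smC (s : ℂ × ℂ) : MC := ([-s.1, 1], [-s.2, 0], [1, 0], [0, 0])

/-- product `l[2^k - 1] * ... * l[1] * l[0]` of `2 ^ k` matrices; entries of length
`2 ^ (k + 1)` -/
def tmC : ℕ → List MC → MC
  | 0, l => l.headD idC
  | k + 1, l => mmC (k + 1) (tmC k ((l.drop (2 ^ k)).take (2 ^ k))) (tmC k (l.take (2 ^ k)))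

/-- coefficients (constant term first) of `det (x + τ - T)` for the list `l` of the `2 ^ k` sites
`(α i, γ (i - 1))`; length `2 ^ (k + 1)` -/
def cpC (k : ℕ) (l : List (ℂ × ℂ)) (τ : ℂ) : List ℂ :=
  ((tmC k ((l.take (2 ^ k)).map fun q => smC (q.1 - τ, q.2))).1).take (2 ^ (k + 1))

/-! ## The continued fraction algorithm by divide and conquer -/

/-- one step -/
def hgb (p : List ℂ × List ℂ) : MC × List ℂ :=
  (([0, 0, 0, 0], [0, 0, 1, 0], [-1, 0, 0, 0],
    [p.1.headD 0 / p.2.headD 0,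
      ((p.1.drop 1).headD 0 - p.1.headD 0 / p.2.headD 0 * (p.2.drop 1).headD 0) / p.2.headD 0,
      0, 0]), [p.2.headD 0])

/-- the first `2 ^ (l + 1)` coefficients of the two sequences after the `2 ^ l` steps with the
matrix `A`, from the first `2 ^ (l + 2)` coefficients before these steps -/
def adv (l : ℕ) (A : MC) (p : List ℂ × List ℂ) : List ℂ × List ℂ :=
  (((List.zipWith (· + ·) (mulC (l + 2) A.1 p.1) (mulC (l + 2) A.2.1 p.2)).drop
      (2 ^ (l + 1))).take (2 ^ (l + 1)),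
   ((List.zipWith (· + ·) (mulC (l + 2) A.2.2.1 p.1) (mulC (l + 2) A.2.2.2 p.2)).drop
      (2 ^ (l + 1))).take (2 ^ (l + 1)))

/-- `2 ^ l` steps for two lists of length `2 ^ (l + 1)`: the product of the matrices (entries of
length `2 ^ (l + 2)`) and the list of the leading coefficients -/
def hg : ℕ → List ℂ × List ℂ → MC × List ℂ
  | 0, p => hgb p
  | l + 1, p =>
    (mmC (l + 2)
        (hg l (adv l (hg l (p.1.take (2 ^ (l + 1)), p.2.take (2 ^ (l + 1)))).1 p)).1
        (hg l (p.1.take (2 ^ (l + 1)), p.2.take (2 ^ (l + 1)))).1,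
      (hg l (p.1.take (2 ^ (l + 1)), p.2.take (2 ^ (l + 1)))).2 ++
        (hg l (adv l (hg l (p.1.take (2 ^ (l + 1)), p.2.take (2 ^ (l + 1)))).1 p)).2)

/-! ## The regularised discriminant and the potential -/

/-- reversed coefficients of `(p + q) / 2`; length `2 ^ (k + 1)` -/
def ffl (k : ℕ) (p q : List ℂ) : List ℂ :=
  ((List.zipWith (fun a b => (a + b) / 2) p q).take (2 ^ k + 1)).reverse ++ zc (2 ^ k - 1)

/-- reversed coefficients of `(p - q) / (2 i)` (without the leading one, which is `0`); length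
`2 ^ (k + 1)` -/
def ggl (k : ℕ) (p q : List ℂ) : List ℂ :=
  ((List.zipWith (fun a b => (a - b) / (2 * Complex.I)) p q).take (2 ^ k)).reverse ++ zc (2 ^ k)

/-- `L₀² ⋯ L_{n-2}² L_{n-1}` for `n = 2 ^ k` -/
def vof (k : ℕ) (L : List ℂ) : ℂ :=
  ((L.take (2 ^ k - 1)).map fun x => x * x).prod * ((L.drop (2 ^ k - 1)).take 1).prod

/-- the leading coefficients of the continued fraction algorithm for the list `l` of sites -/
def lcl (k : ℕ) (l : List (ℂ × ℂ)) (σ : ℂ) : List ℂ :=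
  (hg k (ffl k (cpC k l (Complex.I * σ)) (cpC k l (-(Complex.I * σ))),
    ggl k (cpC k l (Complex.I * σ)) (cpC k l (-(Complex.I * σ))))).2

/-- the regularised discriminant for the list `l` of sites -/
def v2 (k : ℕ) (l : List (ℂ × ℂ)) (σ : ℂ) : ℂ := vof k (lcl k l σ) * vof k (lcl k l σ)

/-- `1, 2, ..., m` -/
def rlC (m : ℕ) : List ℂ := (List.range m).map fun i : ℕ => (i : ℂ) + 1

/-- sites after the shift `t * (i + 1)` -/
def shC (k : ℕ) (l : List (ℂ × ℂ)) (t : ℂ) : List (ℂ × ℂ) :=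
  List.zipWith (fun (c : ℂ) (q : ℂ × ℂ) => (q.1 + t * c, q.2)) (rlC (2 ^ k)) l

/-- exponential of the potential for the shift `t` -/
def wz (k K : ℕ) (l : List (ℂ × ℂ)) (ε t : ℂ) : ℂ :=
  ((List.range (K + 1)).map fun m : ℕ => v2 k (shC k l t) (16 ^ m * ε / 2) ^ (128 ^ m)).prod

/-! ## The search and the complete algorithm -/

/-- the point number `i` of the subdivision of `[t - h, t + h]` in eight parts -/
def posC (t h : ℂ) (i : ℕ) : ℂ := t + ((i : ℂ) - 4) * (h / 4)

/-- exponential of the second difference centered at the point `i + 1` -/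
def candC (W : ℂ → ℂ) (t h : ℂ) (i : ℕ) : ℂ :=
  W (posC t h i) * W (posC t h (i + 2)) / W (posC t h (i + 1)) ^ 2

/-- smallest candidate among the first `m + 1`, with its position -/
def bestC (W : ℂ → ℂ) (t h : ℂ) : ℕ → ℂ × ℂ
  | 0 => (candC W t h 0, posC t h 1)
  | m + 1 =>
    if 0 ≤ ((bestC W t h m).1 - candC W t h (m + 1)).re then
      (candC W t h (m + 1), posC t h (m + 2))
    else bestC W t h m

/-- the search: `r` rounds -/
def srchC (W : ℂ → ℂ) (t0 h0 : ℂ) : ℕ → ℂ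
  | 0 => t0
  | r + 1 => (bestC W (srchC W t0 h0 r) (h0 / 4 ^ r) 6).2

/-- the shift found by the algorithm for `2 ^ j` sites -/
def tsolC (j : ℕ) (l : List (ℂ × ℂ)) (δ : ℂ) : ℂ :=
  srchC (wz j (5 + 12 * j) l (δ / (2 * 2 ^ j) / 4 ^ (11 + 21 * j) / (4 * (2 ^ j) ^ 5)))
    (δ / (2 * 2 ^ j)) (δ / (2 * 2 ^ j)) (11 + 21 * j)

/-- smallest `k` with `n + 1 ≤ 2 ^ k` -/
def kk (n : ℕ) : ℕ :=
  ((fun s : ℕ × ℕ => if (n + 1) - s.1 = 0 then s else (2 * s.1, s.2 + 1))^[n + 1] (1, 0)).2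

/-- the list of the `2 ^ j` sites `(A_{i,i}, A_{i-1,i} A_{i,i-1})`, from the list of the
`(A_{i,i}, A_{i,i+1}, A_{i+1,i})`, extended by zeros -/
def stC (j : ℕ) (l : List (ℂ × ℂ × ℂ)) : List (ℂ × ℂ) :=
  (((l.take (2 ^ j)).map fun q => q.1) ++ zc (2 ^ j)).zip
    ((0 :: (((l.take (2 ^ j)).map fun q => q.2.1 * q.2.2) ++ zc (2 ^ j))).take (2 ^ j))

/-- **The algorithm.** Input: `n`, `δ` and the list of the `(A_{i,i}, A_{i,i+1}, A_{i+1,i})`,
`i = 0, ..., n - 1`. Output: the list of the diagonal entries of `E`. -/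
def algo (p : ℕ × ℂ × List (ℂ × ℂ × ℂ)) : List ℂ :=
  (rlC p.1).map fun c =>
    tsolC (kk (p.1 - 1)) (stC (kk (p.1 - 1)) p.2.2) p.2.1 / p.2.1 * c

end H94FG
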