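import Pool.Agent.H94.FG.Spec

/-! FG-EIG (helper63) -/

set_option autoImplicit false

open Polynomial

noncomputable section
namespace H94FG.EIG

lemma T_symm (a c : ℕ → ℝ) (i j : ℕ) : T a c i j = T a c j i := by
  unfold T
  by_cases h1 : i = j
  · subst h1; simp
  · have h1' : ¬ j = i := fun h => h1 h.symm
    by_cases h2 : i + 1 = j
    · have h3 : ¬ j + 1 = i := by omega
      simp only [h1, h1', h2, h3, if_true, if_false]
    · by_cases h3 : j + 1 = i
      · simp only [h1, h1', h2, h3, if_true, if_false]
      · simp only [h1, h1', h2, h3, if_false]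

lemma blk_herm (a c : ℕ → ℝ) (s m : ℕ) : (blk a c s m).IsHermitian := by
  ext i j
  simp only [blk, Matrix.conjTranspose_apply, Matrix.of_apply, star_trivial]
  exact T_symm a c _ _

lemma sit_take (a c : ℕ → ℝ) (s m r : ℕ) (h : m ≤ r) : (sit a c s r).take m = sit a c s m := by
  unfold sit
  apply List.ext_getElem
  · simp [h]
  · intro i h1 h2
    simp

lemma sit_drop (a c : ℕ → ℝ) (s m t r : ℕ) (h : t + m ≤ r) :
    ((sit a c s r).drop t).take m = sit a c (s + t) m := by
  unfold sit
  apply List.ext_getElem
  · simp; omega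
  · intro i h1 h2
    simp [add_assoc]

lemma sorted_getD (l : List ℝ) (h : l.Pairwise (· ≤ ·)) (i j : ℕ) (hij : i ≤ j)
    (hj : j < l.length) : l.getD i 0 ≤ l.getD j 0 := by
  rcases Nat.eq_or_lt_of_le hij with rfl | hlt
  · exact le_rfl
  · rw [List.getD_eq_getElem _ _ (by omega), List.getD_eq_getElem _ _ hj]
    exact List.pairwise_iff_getElem.1 h i j (by omega) hj hlt

lemma mu_bound (hE : S_EVB) (hB : S_BND) (a c : ℕ → ℝ) (hc : ∀ i, |a i| + √(c i) + √(c (i + 1)) ≤ 4)
    (s m : ℕ) (hl : (mu a c s m).length = 2 * m) (i : ℕ) (hi : i < 2 * m) :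
    |(mu a c s m).getD i 0| ≤ 4 := by
  have hmem : (mu a c s m).getD i 0 ∈ mu a c s m := by
    rw [List.getD_eq_getElem _ _ (by omega)]
    exact List.getElem_mem _
  have key : ∀ s' : ℕ, ∀ x ∈ evs (blk a c s' m), |x| ≤ 4 := by
    intro s' x hx
    obtain ⟨j, hj, rfl⟩ := List.mem_iff_getElem.1 hx
    have hlen := (hE m (blk a c s' m) (blk_herm _ _ _ _)).1
    have h1 := hB a c s' m 4 hc j (by omega)
    unfold ev at h1
    rwa [List.getD_eq_getElem _ _ hj] at h1
  unfold mu at hmem
  rw [Multiset.mem_sort, Multiset.mem_add, Multiset.mem_coe, Multiset.mem_coe] at hmem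
  rcases hmem with h | h
  · exact key s _ h
  · exact key _ _ h

theorem main : S_EVB → S_MPE → S_CPL → S_ITL → S_PAR → S_MRG → S_BIS → S_BND → S_EIG := by
  intro hE hMPE hCPL hITL hPAR hMRG hBIS hBND a c J hc0 hc
  set w : ℝ := 8 / 2 ^ J with hw
  have hwpos : 0 < w := by positivity
  intro k
  induction k with
  | zero =>
    intro s
    refine ⟨by simp [eig], by simp [eig], ?_⟩
    intro i hi
    simp at hi
  | succ k ih =>
    intro s
    set m := 2 ^ k - 1 with hm
    have hk1 : 1 ≤ 2 ^ k := Nat.one_le_two_pow
    have h2k : 2 ^ (k + 1) = 2 ^ k + 2 ^ k := by ring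
    have hm1 : 2 ^ k = m + 1 := by omega
    have hn : 2 ^ (k + 1) - 1 = 2 * m + 1 := by omega
    set l := sit a c s (2 ^ (k + 1) - 1) with hl
    have hl1 : l.take m = sit a c s m := sit_take a c s m _ (by omega)
    have hl2 : (l.drop (2 ^ k)).take m = sit a c (s + m + 1) m := by
      rw [hl, sit_drop a c s m (2 ^ k) _ (by omega), hm1]
      rfl
    obtain ⟨hx1, hx2, hx3⟩ := ih s
    obtain ⟨hy1, hy2, hy3⟩ := ih (s + m + 1)
    set x := eig J w k (sit a c s m) with hx
    set y := eig J w k (sit a c (s + m + 1) m) with hy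
    set d := mrg x y with hd
    set E : ℝ := 4 ^ k * w with hEdef
    have hEpos : 0 < E := by positivity
    have hwE : w ≤ E := by
      rw [hEdef]
      have : (1 : ℝ) ≤ 4 ^ k := one_le_pow₀ (by norm_num)
      nlinarith
    set e : ℝ := 2 * 4 ^ k * w with he
    have heE : e = 2 * E := by rw [he, hEdef]; ring
    have heig : eig J w (k + 1) l =
        ((bstep (k + 1) (cpl (k + 1) l))^[J] (ilo e d, ihi e d)).1 := by
      rw [hd, hx, hy, ← hl1, ← hl2]
      rfl
    rw [heig, hn]
    -- eigenvalue lists
    obtain ⟨hevl, _, _⟩ := hE m (blk a c s m) (blk_herm _ _ _ _)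
    obtain ⟨hevr, _, _⟩ := hE m (blk a c (s + m + 1) m) (blk_herm _ _ _ _)
    obtain ⟨hevt, hevmono, _⟩ := hE (2 * m + 1) (blk a c s (2 * m + 1)) (blk_herm _ _ _ _)
    obtain ⟨hd1, hd2, hd3⟩ := hMRG x y (evs (blk a c s m)) (evs (blk a c (s + m + 1) m)) E
      hx2 hy2 (Multiset.pairwise_sort _ _) (Multiset.pairwise_sort _ _)
      (by rw [hx1, hevl]) (by rw [hy1, hevr])
      (by intro i hi; exact hx3 i (by omega)) (by intro i hi; exact hy3 i (by omega))
    rw [hx1, hy1] at hd2 hd3
    have hdl : d.length = 2 * m := by rw [hd2]; ring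
    have hdm : ∀ i < 2 * m, |d.getD i 0 - (mu a c s m).getD i 0| ≤ E := by
      intro i hi
      exact hd3 i (by omega)
    obtain ⟨hmul, hItl⟩ := hITL a c s m
    have hmub := mu_bound hE hBND a c hc s m hmul
    have hlamb : ∀ i < 2 * m + 1, |ev (blk a c s (2 * m + 1)) i| ≤ 4 :=
      fun i hi => hBND a c s (2 * m + 1) 4 hc i hi
    set lam := ev (blk a c s (2 * m + 1)) with hlam
    -- the lists lo, hi
    set lo := ilo e d with hlo
    set hi' := ihi e d with hhi
    have hlol : lo.length = 2 * m + 1 := by simp [hlo, ilo, hdl]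
    have hhil : hi'.length = 2 * m + 1 := by
      rw [hhi]
      unfold ihi
      rw [List.length_zipWith, ← hlo, hlol]
      simp [hdl]
    have hlo0 : lo.getD 0 0 = -4 := by simp [hlo, ilo]
    have hlos : ∀ i < 2 * m, lo.getD (i + 1) 0 = d.getD i 0 + e := by
      intro i hi
      rw [hlo]
      unfold ilo
      rw [List.getD_cons_succ, List.getD_eq_getElem _ _ (by simpa [hdl] using hi),
        List.getElem_map, List.getD_eq_getElem _ _ (by omega)]
    have hhii : ∀ i < 2 * m, hi'.getD i 0 = max (lo.getD i 0) (d.getD i 0 - e) := by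
      intro i hi
      rw [List.getD_eq_getElem _ _ (by omega), List.getD_eq_getElem _ _ (by omega),
        List.getD_eq_getElem _ _ (by omega)]
      simp only [hhi, ihi]
      rw [List.getElem_zipWith, List.getElem_append_left (by simpa [hdl] using hi),
        List.getElem_map]
    have hhil2 : hi'.getD (2 * m) 0 = max (lo.getD (2 * m) 0) 4 := by
      rw [List.getD_eq_getElem _ _ (by omega), List.getD_eq_getElem _ _ (by omega)]
      simp only [hhi, ihi]
      rw [List.getElem_zipWith, List.getElem_append_right (by simp [hdl])]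
      simp only [List.length_map, hdl, Nat.sub_self, List.getElem_cons_zero]
      rfl
    -- generalised bounds: A i = mu (i-1) or -4, B i = mu i or 4
    set A : ℕ → ℝ := fun i => if i = 0 then -4 else (mu a c s m).getD (i - 1) 0 with hA
    set B : ℕ → ℝ := fun i => if i = 2 * m then 4 else (mu a c s m).getD i 0 with hB
    set U : ℕ → ℝ := fun i => if i = 2 * m then 4 else d.getD i 0 - e with hU
    have hAlo : ∀ i < 2 * m + 1, A i ≤ lo.getD i 0 ∧ lo.getD i 0 ≤ A i + 3 * E ∧ -4 ≤ A i ∧
        (i ≠ 0 → A i < lo.getD i 0) ∧ A i ≤ lam i := by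
      intro i hi
      rcases Nat.eq_zero_or_pos i with h0 | h0
      · subst h0
        simp only [hA, if_true]
        rw [hlo0]
        refine ⟨le_rfl, by linarith, le_rfl, fun h => absurd rfl h, ?_⟩
        have := hlamb 0 (by omega)
        rw [abs_le] at this
        exact this.1
      · obtain ⟨j, rfl⟩ : ∃ j, i = j + 1 := ⟨i - 1, by omega⟩
        simp only [hA, Nat.succ_ne_zero, if_false, Nat.add_sub_cancel]
        rw [hlos j (by omega), heE]
        have h1 := hdm j (by omega)
        have h2 := hmub j (by omega)
        have h3 := (hItl j (by omega)).2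
        rw [abs_le] at h1 h2
        refine ⟨by linarith, by linarith, h2.1, fun _ => by linarith, h3⟩
    have hBU : ∀ i < 2 * m + 1, B i - 3 * E ≤ U i ∧ U i ≤ B i ∧ B i ≤ 4 ∧ lam i ≤ B i ∧
        (i ≠ 2 * m → U i < B i) := by
      intro i hi
      by_cases h0 : i = 2 * m
      · simp only [hB, hU, h0, if_true]
        refine ⟨by linarith, le_rfl, le_rfl, ?_, fun h => absurd rfl h⟩
        have := hlamb (2 * m) (by omega)
        rw [abs_le] at this
        exact this.2
      · simp only [hB, hU, h0, if_false]
        have h1 := hdm i (by omega)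
        have h2 := hmub i (by omega)
        have h3 := (hItl i (by omega)).1
        rw [abs_le] at h1 h2
        rw [heE]
        refine ⟨by linarith, by linarith, h2.2, h3, fun _ => by linarith⟩
    have hhiU : ∀ i < 2 * m + 1, hi'.getD i 0 = max (lo.getD i 0) (U i) := by
      intro i hi
      by_cases h0 : i = 2 * m
      · simp only [hU, h0, if_true]
        exact hhil2
      · simp only [hU, h0, if_false]
        exact hhii i (by omega)
    have hdiff : ∀ i < 2 * m + 1, hi'.getD i 0 - lo.getD i 0 ≤ 8 := by
      intro i hi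
      obtain ⟨a1, a2, a3, _, _⟩ := hAlo i hi
      obtain ⟨b1, b2, b3, _, _⟩ := hBU i hi
      rw [hhiU i hi]
      rcases max_cases (lo.getD i 0) (U i) with ⟨h, _⟩ | ⟨h, _⟩ <;> rw [h] <;> linarith
    have hle : ∀ i < 2 * m + 1, lo.getD i 0 ≤ hi'.getD i 0 := by
      intro i hi
      rw [hhiU i hi]
      exact le_max_left _ _
    -- the bisection
    obtain ⟨hcl, hcp⟩ := hCPL a c hc0 (k + 1) s
    rw [← hl] at hcl hcp
    obtain ⟨hf1, hf2⟩ := hBIS (k + 1) J (cpl (k + 1) l) lo hi' lam (by rw [hn, hlol])
      (by rw [hn, hhil]) (by rw [hn]; exact hle) (by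
        intro z hz hzb
        rw [hn] at hzb
        rw [hMPE (k + 1) _ z hcl hz]
        refine ⟨by simp [hz], ?_⟩
        intro i hi hlt
        rw [hn] at hi
        have hg : (z.map fun z => (toPoly (cpl (k + 1) l)).eval z).getD i 0 =
            (toPoly (cpl (k + 1) l)).eval (z.getD i 0) := by
          rw [List.getD_eq_getElem _ _ (by rw [List.length_map, hz]; omega), List.getElem_map,
            List.getD_eq_getElem _ _ (by omega)]
        rw [hg, hcp, hn]
        obtain ⟨a1, a2, a3, a4, _⟩ := hAlo i hi
        obtain ⟨b1, b2, b3, _, b5⟩ := hBU i hi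
        obtain ⟨z1, z2⟩ := hzb i hi
        apply hPAR a c s m i _ (by omega)
        · by_cases h0 : i = 0
          · exact Or.inl h0
          · right
            have := a4 h0
            simp only [hA, h0, if_false] at this
            linarith
        · by_cases h0 : i = 2 * m
          · exact Or.inl h0
          · right
            have h5 := b5 h0
            simp only [hB, h0, if_false] at h5
            rw [hhiU i hi] at hlt z2
            have h6 : max (lo.getD i 0) (U i) = U i := by
              apply max_eq_right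
              by_contra hcon
              push Not at hcon
              rw [max_eq_left hcon.le] at hlt
              exact lt_irrefl _ hlt
            rw [h6] at z2
            linarith)
    rw [hn] at hf1 hf2
    set f := ((bstep (k + 1) (cpl (k + 1) l))^[J] (lo, hi')).1 with hf
    have hpowJ : (0 : ℝ) < 2 ^ J := by positivity
    have hw8 : ∀ i < 2 * m + 1, (hi'.getD i 0 - lo.getD i 0) / 2 ^ J ≤ w := by
      intro i hi
      rw [hw]
      exact div_le_div_of_nonneg_right (hdiff i hi) hpowJ.le
    refine ⟨hf1, ?_, ?_⟩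
    · rw [List.pairwise_iff_getElem]
      -- enough: consecutive
      have hcons : ∀ i, i + 1 < 2 * m + 1 → f.getD i 0 ≤ f.getD (i + 1) 0 := by
        intro i hi
        obtain ⟨f1, f2, _⟩ := hf2 i (by omega)
        obtain ⟨g1, g2, _⟩ := hf2 (i + 1) hi
        have h1 : hi'.getD i 0 ≤ lo.getD (i + 1) 0 := by
          rw [hhii i (by omega), hlos i (by omega)]
          apply max_le
          · rcases Nat.eq_zero_or_pos i with h0 | h0
            · subst h0
              rw [hlo0]
              have h1 := hdm 0 (by omega)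
              have h2 := hmub 0 (by omega)
              rw [abs_le] at h1 h2
              rw [heE]
              linarith
            · obtain ⟨j, rfl⟩ : ∃ j, i = j + 1 := ⟨i - 1, by omega⟩
              rw [hlos j (by omega)]
              have := sorted_getD d hd1 j (j + 1) (by omega) (by omega)
              linarith
          · rw [heE]; linarith
        linarith
      have hmono : ∀ j i, i ≤ j → j < 2 * m + 1 → f.getD i 0 ≤ f.getD j 0 := by
        intro j
        induction j with
        | zero => intro i hi _; have : i = 0 := by omega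
                  subst this; exact le_rfl
        | succ j ihj =>
          intro i hi hj
          rcases Nat.eq_or_lt_of_le hi with h | h
          · rw [h]
          · exact (ihj i (by omega) (by omega)).trans (hcons j hj)
      intro i j hi hj hij
      have := hmono j i hij.le (by omega)
      rwa [List.getD_eq_getElem _ _ hi, List.getD_eq_getElem _ _ hj] at this
    · intro i hi
      obtain ⟨f1, f2, f3, f4, f5⟩ := hf2 i hi
      obtain ⟨a1, a2, a3, a4, a5⟩ := hAlo i hi
      obtain ⟨b1, b2, b3, b4, b5⟩ := hBU i hi
      have h8 := hw8 i hi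
      have hgoal : (4 : ℝ) ^ (k + 1) * w = 4 * E := by rw [hEdef]; ring
      rw [hgoal]
      by_cases c1 : lam i < lo.getD i 0
      · rw [f4 c1, abs_le]
        constructor <;> linarith
      · push Not at c1
        by_cases c2 : hi'.getD i 0 < lam i
        · have h9 := f5 c2
          have h10 : U i ≤ hi'.getD i 0 := by rw [hhiU i hi]; exact le_max_right _ _
          rw [abs_le]
          constructor <;> linarith
        · push Not at c2
          have h9 := f3 c1 c2
          exact h9.trans (h8.trans (by linarith))

end H94FG.EIG
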