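import Pool.Agent.H94.FG.Spec

set_option autoImplicit false

/-!
Sorted eigenvalues and an orthonormal eigenbasis of a real symmetric matrix (stub FG-EVB).
-/

noncomputable section
namespace H94FG.EVB

open Matrix

theorem sort_map_univ {n : ℕ} (f : Fin n → ℝ) (hf : Monotone f) :
    (Multiset.map f Finset.univ.val).sort (· ≤ ·) = List.ofFn f := by
  rw [Fin.univ_val_map, Multiset.coe_sort]
  apply List.mergeSort_of_pairwise
  simp only [decide_eq_true_eq]
  rw [← List.sortedLE_iff_pairwise]
  exact hf.sortedLE_ofFn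

theorem getD_ofFn {n : ℕ} (f : Fin n → ℝ) (i : ℕ) (hi : i < n) :
    (List.ofFn f).getD i 0 = f ⟨i, hi⟩ := by
  rw [List.getD_eq_getElem _ _ (by simpa using hi), List.getElem_ofFn]

theorem map_comp_perm {n : ℕ} (f : Fin n → ℝ) (σ : Equiv.Perm (Fin n)) :
    Multiset.map (f ∘ σ) Finset.univ.val = Multiset.map f Finset.univ.val := by
  rw [← Multiset.map_map, Multiset.map_univ_val_equiv]

theorem evs_eq {n : ℕ} (M : Matrix (Fin n) (Fin n) ℝ) (hM : M.IsHermitian) :
    evs M = List.ofFn (hM.eigenvalues ∘ Tuple.sort hM.eigenvalues) := by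
  unfold evs
  have hroots : M.charpoly.roots =
      Multiset.map (hM.eigenvalues ∘ Tuple.sort hM.eigenvalues) Finset.univ.val := by
    rw [map_comp_perm, hM.roots_charpoly_eq_eigenvalues]
    rfl
  rw [hroots]
  exact sort_map_univ _ (Tuple.monotone_sort _)

theorem main : S_EVB := by
  intro n M hM
  have he := evs_eq M hM
  set g : Fin n → ℝ := hM.eigenvalues ∘ Tuple.sort hM.eigenvalues with hg
  have hev : ∀ i, (hi : i < n) → ev M i = g ⟨i, hi⟩ := by
    intro i hi
    unfold ev
    rw [he, getD_ofFn g i hi]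
  refine ⟨by rw [he, List.length_ofFn], ?_, ?_⟩
  · intro i j hij hj
    rw [hev i (by omega), hev j hj]
    exact Tuple.monotone_sort hM.eigenvalues hij
  · refine ⟨fun i => ⇑(hM.eigenvectorBasis (Tuple.sort hM.eigenvalues i)), ?_, ?_⟩
    · intro i j
      have h1 := orthonormal_iff_ite.1 hM.eigenvectorBasis.orthonormal
        (Tuple.sort hM.eigenvalues j) (Tuple.sort hM.eigenvalues i)
      rw [EuclideanSpace.inner_eq_star_dotProduct] at h1
      simp only [star_trivial] at h1
      refine h1.trans ?_
      by_cases hij : i = j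
      · subst hij; simp
      · rw [if_neg hij, if_neg]
        intro h2
        exact hij ((Tuple.sort hM.eigenvalues).injective h2).symm
    · intro i
      rw [hev i.1 i.2]
      exact hM.mulVec_eigenvectorBasis _

end H94FG.EVB
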