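import Pool.Agent.H94.FG.Spec

set_option autoImplicit false

noncomputable section
namespace H94FG.GAP

lemma T_symm (a c : ℕ → ℝ) (i j : ℕ) : T a c i j = T a c j i := by
  unfold T
  rcases lt_trichotomy i j with h | h | h
  · rw [if_neg (by omega), if_neg (by omega : ¬ j = i)]
    by_cases h1 : i + 1 = j
    · rw [if_pos h1, if_neg (by omega), if_pos h1]
    · rw [if_neg h1, if_neg (by omega), if_neg (by omega), if_neg h1]
  · subst h
    rfl
  · rw [if_neg (by omega), if_neg (by omega : ¬ j = i)]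
    by_cases h1 : j + 1 = i
    · rw [if_neg (by omega), if_pos h1, if_pos h1]
    · rw [if_neg (by omega), if_neg h1, if_neg h1, if_neg (by omega)]

lemma blk_herm (a c : ℕ → ℝ) (s m : ℕ) : (blk a c s m).IsHermitian := by
  ext i j
  simp only [Matrix.conjTranspose_apply, blk, Matrix.of_apply, star_trivial]
  exact T_symm a c _ _

theorem main : S_EVB → S_CVX → S_WRO → S_GAP := by
  intro hEVB hCVX hWRO n a c t hn ht hH i hi
  by_contra hcon
  rw [not_lt] at hcon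
  have hM : (blk a c 0 n).IsHermitian := blk_herm a c 0 n
  have hn1 : (1 : ℝ) ≤ n := by exact_mod_cast hn
  have hn0 : (0 : ℝ) < n := by linarith
  obtain ⟨_, hmono, w, how, hew⟩ := hEVB n (blk a c 0 n) hM
  have h1 : w ⟨i, by omega⟩ ⬝ᵥ w ⟨i, by omega⟩ = 1 := by rw [how, if_pos rfl]
  have h2 : w ⟨i + 1, hi⟩ ⬝ᵥ w ⟨i + 1, hi⟩ = 1 := by rw [how, if_pos rfl]
  have h3 : w ⟨i, by omega⟩ ⬝ᵥ w ⟨i + 1, hi⟩ = 0 := by
    rw [how, if_neg]
    intro h
    rw [Fin.mk.injEq] at h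
    omega
  obtain ⟨phi, psi, hp1, hq1, hp2, hq2, h4⟩ := hWRO n a c hn _ _ (ev (blk a c 0 n) i)
    (ev (blk a c 0 n) (i + 1)) (t / (2 ^ 14 * n ^ 2)) h1 h2 h3 (hew ⟨i, by omega⟩)
    (hew ⟨i + 1, hi⟩) (hmono i (i + 1) (by omega) hi) (by positivity)
    (hcon.trans (le_of_eq (by field_simp; norm_num)))
  have h5 : 144 * (n : ℝ) * (t / (2 ^ 14 * n ^ 2)) ^ 2 ≤ (t / (1024 * n)) ^ 2 := by
    have h6 : 144 * (n : ℝ) * (t / (2 ^ 14 * n ^ 2)) ^ 2 =
        (t / (1024 * n)) ^ 2 * (144 / (256 * n)) := by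
      field_simp
      norm_num
    rw [h6]
    apply mul_le_of_le_one_right (sq_nonneg _)
    rw [div_le_one (by positivity)]
    linarith
  have h7 := hCVX n (blk a c 0 n) hn hM i t (t / (1024 * n)) (ev (blk a c 0 n) i) phi psi
    (by omega) rfl ht (by positivity) le_rfl hp1 hq1 (hp2.trans h5) (hq2.trans h5) h4
  linarith

end H94FG.GAP
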