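import Pool.Agent.H94.FG.CVX

set_option autoImplicit false

/-!
# INC (project FG): monotonicity and growth of the potential
-/

open Matrix

noncomputable section
namespace H94FG.INC

open H94FG.CVX

variable {n : ℕ}

theorem top (hEVB : S_EVB) {N : Matrix (Fin n) (Fin n) ℝ} (hN : N.IsHermitian) {m : ℕ} (hmn : m ≤ n) :
    ∃ v : Fin m → Fin n → ℝ, (∀ i j, v i ⬝ᵥ v j = if i = j then 1 else 0) ∧
      ∑ i, v i ⬝ᵥ N.mulVec (v i) = S N m := by
  obtain ⟨-, -, w, hw, hw2⟩ := hEVB n N hN
  refine ⟨fun i => w ⟨n - 1 - i, by have := i.isLt; omega⟩, ?_, ?_⟩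
  · intro i j
    show w _ ⬝ᵥ w _ = _
    rw [hw]
    have hi := i.isLt
    have hj := j.isLt
    by_cases hij : i = j
    · subst hij; simp
    · rw [if_neg hij, if_neg]
      intro h
      apply hij
      have h' := congrArg Fin.val h
      simp only at h'
      apply Fin.ext
      omega
  · unfold S
    rw [← Fin.sum_univ_eq_sum_range (fun i => ev N (n - 1 - i)) m]
    refine Finset.sum_congr rfl fun i _ => ?_
    show w _ ⬝ᵥ N.mulVec (w _) = _
    rw [hw2, dotProduct_smul, hw, if_pos rfl, smul_eq_mul, mul_one]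

theorem main : S_EVB → S_KYF → S_INC := by
  intro hEVB hKYF n M hM t ht
  have hp := herm_add hM t
  have hone : ∀ m, m ≤ n → 0 ≤ S (M + t • Xm n) m - S M m ∧ S (M + t • Xm n) m - S M m ≤ t * (m * n) := by
    intro m hmn
    constructor
    · obtain ⟨v, hv, hv2⟩ := top hEVB hM hmn
      have h1 := hKYF n m _ hp hmn v hv
      simp only [quad_add] at h1
      rw [Finset.sum_add_distrib, hv2, ← Finset.mul_sum] at h1
      have h2 : 0 ≤ ∑ i, v i ⬝ᵥ (Xm n).mulVec (v i) := Finset.sum_nonneg fun i _ => Xm_nonneg _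
      have h3 : 0 ≤ t * ∑ i, v i ⬝ᵥ (Xm n).mulVec (v i) := mul_nonneg ht h2
      have h4 : S (M + t • Xm n) m = ∑ i ∈ Finset.range m, ev (M + t • Xm n) (n - 1 - i) := rfl
      rw [← h4] at h1
      linarith
    · obtain ⟨v, hv, hv2⟩ := top hEVB hp hmn
      have h1 := hKYF n m _ hM hmn v hv
      simp only [quad_add] at hv2
      rw [Finset.sum_add_distrib, ← Finset.mul_sum] at hv2
      have h2 : ∑ i, v i ⬝ᵥ (Xm n).mulVec (v i) ≤ ∑ _i : Fin m, (n : ℝ) := by
        refine Finset.sum_le_sum fun i _ => ?_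
        have := Xm_le (v i)
        rwa [hv, if_pos rfl, mul_one] at this
      have h3 : ∑ _i : Fin m, (n : ℝ) = m * n := by simp
      rw [h3] at h2
      have h4 := mul_le_mul_of_nonneg_left h2 ht
      have h5 : S M m = ∑ i ∈ Finset.range m, ev M (n - 1 - i) := rfl
      rw [← h5] at h1
      linarith
  rw [H_eq, H_eq, ← Finset.sum_sub_distrib]
  constructor
  · exact Finset.sum_nonneg fun m hm => (hone (m + 1) (by have := Finset.mem_range.mp hm; omega)).1
  · calc ∑ m ∈ Finset.range n, (S (M + t • Xm n) (m + 1) - S M (m + 1)) ≤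
        ∑ m ∈ Finset.range n, t * (n * n) := by
          refine Finset.sum_le_sum fun m hm => ?_
          have hm' : m + 1 ≤ n := by have := Finset.mem_range.mp hm; omega
          refine (hone (m + 1) hm').2.trans ?_
          apply mul_le_mul_of_nonneg_left _ ht
          apply mul_le_mul_of_nonneg_right _ (by positivity)
          exact_mod_cast hm'
      _ = t * n ^ 3 := by rw [Finset.sum_const, Finset.card_range, nsmul_eq_mul]; ring

end H94FG.INC
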