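import Pool.Agent.H94.FG.PL

set_option autoImplicit false

/-!
# FG-INV: Newton inversion of power series
-/

open Polynomial

noncomputable section
namespace H94FG.INV

theorem main (h : S_MUL) : S_INV := by
  intro j
  induction j with
  | zero =>
    intro f _ hf
    refine ⟨by simp [inv], ?_⟩
    rw [pow_zero, pow_one, X_dvd_iff]
    have : toPoly (inv 0 f) = 1 := by simp [inv]
    rw [this, mul_one, coeff_sub, hf]
    simp
  | succ j ih =>
    intro f hl hf
    have hj : 2 ^ (j + 1) = 2 ^ j + 2 ^ j := by rw [pow_succ]; omega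
    have hj1 : 1 ≤ 2 ^ j := Nat.one_le_two_pow
    obtain ⟨ih1, ih2⟩ := ih f (by omega) hf
    set q := inv j f with hq
    set h0 := q ++ zr (2 ^ j) with hh0
    have h0l : h0.length = 2 ^ (j + 1) := by simp [hh0, zr, ih1, hj]
    have h0p : toPoly h0 = toPoly q := by rw [hh0, zr, toPoly_append_zero]
    set f1 := f.take (2 ^ (j + 1)) with hf1
    have f1l : f1.length = 2 ^ (j + 1) := by simp [hf1, hl]
    obtain ⟨p1l, p1p⟩ := h.2 (j + 1) f1 h0 f1l h0l
    set P := mulR (j + 1) f1 h0 with hP
    have hPt : (P.take (2 ^ (j + 1))).length = 2 ^ (j + 1) := by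
      rw [List.length_take, p1l]
      apply min_eq_left
      exact Nat.pow_le_pow_right (by norm_num) (by omega)
    set T2 : List ℝ := 2 :: zr (2 ^ (j + 1) - 1) with hT2
    have T2l : T2.length = 2 ^ (j + 1) := by
      simp only [hT2, zr, List.length_cons, List.length_replicate]
      omega
    have T2p : toPoly T2 = 2 := by
      simp only [hT2, zr, toPoly_cons, toPoly_replicate_zero, mul_zero, add_zero]
      rfl
    set e := List.zipWith (· - ·) T2 (P.take (2 ^ (j + 1))) with he
    have hel : e.length = 2 ^ (j + 1) := by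
      rw [he, List.length_zipWith, T2l, hPt, min_self]
    have hep : toPoly e = 2 - toPoly (P.take (2 ^ (j + 1))) := by
      rw [he, toPoly_zipWith_sub (by rw [T2l, hPt]), T2p]
    obtain ⟨r1l, r1p⟩ := h.2 (j + 1) h0 e h0l hel
    have hinv : inv (j + 1) f = (mulR (j + 1) h0 e).take (2 ^ (j + 1)) := rfl
    rw [hinv]
    constructor
    · rw [List.length_take, r1l]
      apply min_eq_left
      exact Nat.pow_le_pow_right (by norm_num) (by omega)
    · -- congruences modulo `X ^ (2 ^ (j + 1))`
      obtain ⟨u1, hu1⟩ := X_pow_dvd_sub_take (mulR (j + 1) h0 e) (2 ^ (j + 1))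
      obtain ⟨u2, hu2⟩ := X_pow_dvd_sub_take P (2 ^ (j + 1))
      obtain ⟨u3, hu3⟩ := X_pow_dvd_sub_take f (2 ^ (j + 1))
      obtain ⟨u4, hu4⟩ := ih2
      rw [r1p, h0p, hep] at hu1
      rw [p1p, h0p] at hu2
      have hM : (X : ℝ[X]) ^ (2 ^ (j + 1)) = X ^ (2 ^ j) * X ^ (2 ^ j) := by
        rw [← pow_add, hj]
      set M := (X : ℝ[X]) ^ (2 ^ (j + 1)) with hMdef
      set M0 := (X : ℝ[X]) ^ (2 ^ j) with hM0
      set F := toPoly f with hF
      set Q := toPoly q with hQ
      set A := toPoly ((mulR (j + 1) h0 e).take (2 ^ (j + 1))) with hA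
      set B := toPoly (P.take (2 ^ (j + 1))) with hB
      set F1 := toPoly f1 with hF1
      -- A = Q (2 - B) - M u1, B = F1 Q - M u2, F1 = F - M u3, F Q - 1 = M0 u4
      have eA : A = Q * (2 - B) - M * u1 := by rw [← hu1]; ring
      have eB : B = F1 * Q - M * u2 := by rw [← hu2]; ring
      have eF : F1 = F - M * u3 := by rw [← hu3]; ring
      have key : F * A - 1 = M * (F * Q * u3 * Q + F * Q * u2 - F * u1 - u4 ^ 2) := by
        have h1 : F * A - 1 = F * Q * (2 - ((F - M * u3) * Q - M * u2)) - F * M * u1 - 1 := by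
          rw [eA, eB, eF]; ring
        have h2 : F * Q = 1 + M0 * u4 := by rw [← hu4]; ring
        have h3 : F * A - 1 = -(F * Q - 1) ^ 2 + M * (F * Q * u3 * Q + F * Q * u2 - F * u1) := by
          rw [h1]; ring
        rw [h3, hu4, hM]
        ring
      rw [key]
      exact Dvd.intro _ rfl

end H94FG.INV
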