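import Pool.Agent.H94.FG.LA
import Pool.Agent.H94.FG.EVB

set_option autoImplicit false

/-!
Cauchy interlacing after removing the middle site (stub FG-ITL).
-/

noncomputable section
namespace H94FG.ITL

open Matrix H94FG.LA

/-- a nonzero combination of the `z l`, `l ∈ A`, orthogonal to the `w j`, `j ∈ B` -/
theorem exists_comb {n : ℕ} {k : Type} [Fintype k] [DecidableEq k] (z : k → Fin n → ℝ)
    (w : Fin n → Fin n → ℝ) (A : Finset k) (B : Finset (Fin n)) (hAB : B.card < A.card) :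
    ∃ d : k → ℝ, d ≠ 0 ∧ (∀ l, l ∉ A → d l = 0) ∧ ∀ j ∈ B, w j ⬝ᵥ (∑ l, d l • z l) = 0 := by
  let f : (A → ℝ) →ₗ[ℝ] (B → ℝ) :=
    Matrix.mulVecLin (Matrix.of fun (j : B) (l : A) => w j.1 ⬝ᵥ z l.1)
  have hlt : Module.finrank ℝ (B → ℝ) < Module.finrank ℝ (A → ℝ) := by
    rw [Module.finrank_fintype_fun_eq_card, Module.finrank_fintype_fun_eq_card,
      Fintype.card_coe, Fintype.card_coe]
    exact hAB
  have hker : LinearMap.ker f ≠ ⊥ := LinearMap.ker_ne_bot_of_finrank_lt hlt
  obtain ⟨c, hc, hc0⟩ := (Submodule.ne_bot_iff _).1 hker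
  rw [LinearMap.mem_ker] at hc
  refine ⟨fun l => if h : l ∈ A then c ⟨l, h⟩ else 0, ?_, ?_, ?_⟩
  · intro h
    apply hc0
    ext ⟨l, hl⟩
    have := congrFun h l
    simpa [hl] using this
  · intro l hl
    simp [hl]
  · intro j hj
    have h1 := congrFun hc ⟨j, hj⟩
    have h2 : f c ⟨j, hj⟩ = ∑ l : A, (w j ⬝ᵥ z l.1) * c l := rfl
    rw [h2, Pi.zero_apply] at h1
    rw [dotProduct_sum]
    have h3 : ∀ l : k, w j ⬝ᵥ ((if h : l ∈ A then c ⟨l, h⟩ else 0) • z l) =
        if h : l ∈ A then (w j ⬝ᵥ z l) * c ⟨l, h⟩ else 0 := by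
      intro l
      rw [dotProduct_smul, smul_eq_mul]
      split_ifs with h
      · ring
      · ring
    simp only [h3]
    refine Eq.trans ?_ h1
    rw [← Finset.sum_subset (Finset.subset_univ A), ← Finset.sum_coe_sort A]
    · refine Finset.sum_congr rfl fun l _ => ?_
      simp
    · intro l _ hl
      simp [hl]

/-- the form on a combination of the `z l` -/
theorem form_comb {n : ℕ} {k : Type} [Fintype k] [DecidableEq k] (M : Matrix (Fin n) (Fin n) ℝ)
    (z : k → Fin n → ℝ) (μ : k → ℝ)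
    (hz2 : ∀ i j, z i ⬝ᵥ M.mulVec (z j) = if i = j then μ i else 0) (d : k → ℝ) :
    (∑ l, d l • z l) ⬝ᵥ M.mulVec (∑ l, d l • z l) = ∑ l, μ l * d l ^ 2 := by
  rw [sum_dotProduct]
  refine Finset.sum_congr rfl fun i _ => ?_
  rw [Matrix.mulVec_sum, dotProduct_sum]
  simp only [Matrix.mulVec_smul, smul_dotProduct, dotProduct_smul, hz2, smul_eq_mul, mul_ite,
    mul_zero]
  rw [Finset.sum_ite_eq]
  simp only [Finset.mem_univ, if_true]
  ring

/-- the comparison -/
theorem key {n : ℕ} {k : Type} [Fintype k] [DecidableEq k] {M : Matrix (Fin n) (Fin n) ℝ}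
    (hM : Mᵀ = M) {w : Fin n → Fin n → ℝ} {lam : Fin n → ℝ}
    (hw : ∀ i j, w i ⬝ᵥ w j = if i = j then 1 else 0) (he : ∀ i, M.mulVec (w i) = lam i • w i)
    {z : k → Fin n → ℝ} {μ : k → ℝ} (hz : ∀ i j, z i ⬝ᵥ z j = if i = j then 1 else 0)
    (hz2 : ∀ i j, z i ⬝ᵥ M.mulVec (z j) = if i = j then μ i else 0)
    (A : Finset k) (B : Finset (Fin n)) (hAB : B.card < A.card) (α β : ℝ) (s : ℝ)
    (hA : ∀ l ∈ A, s * μ l ≤ s * α) (hB : ∀ j, j ∉ B → s * β ≤ s * lam j) : s * β ≤ s * α := by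
  obtain ⟨d, hd0, hdA, hdB⟩ := exists_comb z w A B hAB
  set x : Fin n → ℝ := ∑ l, d l • z l with hx
  have hxx : x ⬝ᵥ x = ∑ l, d l * d l := comb hz d d
  have hpos : 0 < x ⬝ᵥ x := by
    rw [hxx]
    obtain ⟨l, hl⟩ : ∃ l, d l ≠ 0 := by
      by_contra h
      push Not at h
      exact hd0 (funext h)
    exact Finset.sum_pos' (fun i _ => mul_self_nonneg _) ⟨l, Finset.mem_univ _, mul_self_pos.2 hl⟩
  have h1 : x ⬝ᵥ M.mulVec x = ∑ l, μ l * d l ^ 2 := form_comb M z μ hz2 d
  have h2 : x ⬝ᵥ M.mulVec x = ∑ j, lam j * (w j ⬝ᵥ x) ^ 2 := quad hM hw he x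
  have h3 : s * (x ⬝ᵥ M.mulVec x) ≤ s * α * (x ⬝ᵥ x) := by
    rw [h1, hxx, Finset.mul_sum, Finset.mul_sum]
    refine Finset.sum_le_sum fun l _ => ?_
    by_cases hl : l ∈ A
    · have := mul_le_mul_of_nonneg_right (hA l hl) (mul_self_nonneg (d l))
      nlinarith [this]
    · rw [hdA l hl]
      simp
  have h4 : s * β * (x ⬝ᵥ x) ≤ s * (x ⬝ᵥ M.mulVec x) := by
    rw [h2, parseval hw x x, Finset.mul_sum, Finset.mul_sum]
    refine Finset.sum_le_sum fun j _ => ?_
    by_cases hj : j ∈ B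
    · rw [hdB j hj]
      simp
    · have := mul_le_mul_of_nonneg_right (hB j hj) (mul_self_nonneg (w j ⬝ᵥ x))
      nlinarith [this]
  exact le_of_mul_le_mul_right (h4.trans h3) hpos

/-- Cauchy interlacing for an orthonormal family which diagonalises the compression -/
theorem cauchy (hEVB : S_EVB) {n k : ℕ} (hk : k ≤ n) (M : Matrix (Fin n) (Fin n) ℝ)
    (hM : M.IsHermitian) (z : Fin k → Fin n → ℝ) (μ : Fin k → ℝ) (hμ : Monotone μ)
    (hz : ∀ i j, z i ⬝ᵥ z j = if i = j then 1 else 0)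
    (hz2 : ∀ i j, z i ⬝ᵥ M.mulVec (z j) = if i = j then μ i else 0) (i : Fin k) :
    ev M i ≤ μ i ∧ μ i ≤ ev M (i + (n - k)) := by
  obtain ⟨-, hmono, w, hw, he⟩ := hEVB n M hM
  have hT := symm_of_herm hM
  have hi := i.2
  constructor
  · have := key hT hw he hz hz2 (Finset.univ.filter fun l : Fin k => l ≤ i)
      (Finset.univ.filter fun j : Fin n => (j : ℕ) < i) ?_ (μ i) (ev M i) 1 ?_ ?_
    · simpa using this
    · have h1 : (Finset.univ.filter fun l : Fin k => l ≤ i) = Finset.Iic i := by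
        ext l; simp
      have h2 : (Finset.univ.filter fun j : Fin n => (j : ℕ) < i) =
          Finset.Iio (⟨i, by omega⟩ : Fin n) := by
        ext l; simp [Fin.lt_def]
      rw [h1, h2, Fin.card_Iic, Fin.card_Iio]
      simp
    · intro l hl
      simp only [Finset.mem_filter, Finset.mem_univ, true_and] at hl
      simpa using hμ hl
    · intro j hj
      simp only [Finset.mem_filter, Finset.mem_univ, true_and, not_lt] at hj
      simpa using hmono _ _ hj j.2
  · have := key hT hw he hz hz2 (Finset.univ.filter fun l : Fin k => i ≤ l)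
      (Finset.univ.filter fun j : Fin n => (i : ℕ) + (n - k) < j) ?_ (μ i) (ev M (i + (n - k))) (-1)
      ?_ ?_
    · linarith
    · have h1 : (Finset.univ.filter fun l : Fin k => i ≤ l) = Finset.Ici i := by
        ext l; simp
      have h2 : (Finset.univ.filter fun j : Fin n => (i : ℕ) + (n - k) < j) =
          Finset.Ioi (⟨i + (n - k), by omega⟩ : Fin n) := by
        ext l; simp [Fin.lt_def]
      rw [h1, h2, Fin.card_Ici, Fin.card_Ioi]
      simp only
      omega
    · intro l hl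
      simp only [Finset.mem_filter, Finset.mem_univ, true_and] at hl
      have := hμ hl
      linarith
    · intro j hj
      simp only [Finset.mem_filter, Finset.mem_univ, true_and, not_lt] at hj
      have := hmono j _ hj (by omega)
      linarith

/-! ## the block matrix -/

theorem T_symm (a c : ℕ → ℝ) (i j : ℕ) : T a c i j = T a c j i := by
  unfold T
  by_cases h1 : i = j
  · subst h1; rfl
  · by_cases h2 : i + 1 = j
    · rw [if_neg h1, if_pos h2, if_neg (Ne.symm h1), if_neg (by omega), if_pos h2]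
    · by_cases h3 : j + 1 = i
      · rw [if_neg h1, if_neg h2, if_pos h3, if_neg (Ne.symm h1), if_pos h3]
      · rw [if_neg h1, if_neg h2, if_neg h3, if_neg (Ne.symm h1), if_neg h3, if_neg h2]

theorem blk_herm (a c : ℕ → ℝ) (s m : ℕ) : (blk a c s m).IsHermitian := by
  unfold Matrix.IsHermitian
  rw [Matrix.conjTranspose_eq_transpose_of_trivial]
  ext i j
  exact T_symm a c _ _

/-- the embedding of the two parts -/
def iota (m : ℕ) : Fin m ⊕ Fin m → Fin (2 * m + 1) :=
  Sum.elim (fun i => ⟨i, by omega⟩) (fun i => ⟨m + 1 + i, by omega⟩)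

theorem iota_inj (m : ℕ) : Function.Injective (iota m) := by
  rintro (i | i) (j | j) h
  · simp only [iota, Sum.elim_inl, Fin.mk.injEq] at h
    exact congrArg Sum.inl (Fin.ext h)
  · simp only [iota, Sum.elim_inl, Sum.elim_inr, Fin.mk.injEq] at h
    omega
  · simp only [iota, Sum.elim_inl, Sum.elim_inr, Fin.mk.injEq] at h
    omega
  · simp only [iota, Sum.elim_inr, Fin.mk.injEq] at h
    exact congrArg Sum.inr (Fin.ext (by omega))

theorem sub_blk (a c : ℕ → ℝ) (s m : ℕ) :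
    (blk a c s (2 * m + 1)).submatrix (iota m) (iota m) =
      Matrix.fromBlocks (blk a c s m) 0 0 (blk a c (s + m + 1) m) := by
  ext i j
  rcases i with i | i <;> rcases j with j | j
  · rfl
  · have h1 : T a c (s + (i : ℕ)) (s + (m + 1 + (j : ℕ))) = 0 := by
      unfold T
      rw [if_neg (by omega), if_neg (by omega), if_neg (by omega)]
    exact h1
  · have h1 : T a c (s + (m + 1 + (i : ℕ))) (s + (j : ℕ)) = 0 := by
      unfold T
      rw [if_neg (by omega), if_neg (by omega), if_neg (by omega)]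
    exact h1
  · have h1 : T a c (s + (m + 1 + (i : ℕ))) (s + (m + 1 + (j : ℕ))) =
        T a c (s + m + 1 + (i : ℕ)) (s + m + 1 + (j : ℕ)) := by
      congr 1 <;> ring
    exact h1

/-- extension by zero -/
def ez (m : ℕ) (y : Fin m ⊕ Fin m → ℝ) : Fin (2 * m + 1) → ℝ := Function.extend (iota m) y 0

theorem ez_dot (m : ℕ) (y : Fin m ⊕ Fin m → ℝ) (x : Fin (2 * m + 1) → ℝ) :
    ez m y ⬝ᵥ x = y ⬝ᵥ (x ∘ iota m) := by
  symm
  refine Fintype.sum_of_injective (iota m) (iota_inj m) _ _ ?_ ?_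
  · intro i hi
    unfold ez
    rw [Function.extend_apply' _ _ _ (by simpa using hi)]
    simp
  · intro i
    unfold ez
    rw [(iota_inj m).extend_apply]
    rfl

theorem ez_comp (m : ℕ) (y : Fin m ⊕ Fin m → ℝ) : ez m y ∘ iota m = y := by
  unfold ez
  exact Function.extend_comp (iota_inj m) y 0

theorem ez_mulVec (m : ℕ) (M : Matrix (Fin (2 * m + 1)) (Fin (2 * m + 1)) ℝ)
    (y : Fin m ⊕ Fin m → ℝ) :
    (M.mulVec (ez m y)) ∘ iota m = (M.submatrix (iota m) (iota m)).mulVec y := by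
  ext i
  show M (iota m i) ⬝ᵥ ez m y = (M.submatrix (iota m) (iota m)) i ⬝ᵥ y
  rw [dotProduct_comm, ez_dot, dotProduct_comm]
  rfl

/-- vectors on the two parts -/
def yy {m : ℕ} (u u' : Fin m → Fin m → ℝ) : Fin m ⊕ Fin m → Fin m ⊕ Fin m → ℝ :=
  Sum.elim (fun i => Sum.elim (u i) 0) (fun i => Sum.elim 0 (u' i))

theorem yy_dot {m : ℕ} {u u' : Fin m → Fin m → ℝ}
    (hu : ∀ i j, u i ⬝ᵥ u j = if i = j then 1 else 0)
    (hu' : ∀ i j, u' i ⬝ᵥ u' j = if i = j then 1 else 0) (p q : Fin m ⊕ Fin m) :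
    yy u u' p ⬝ᵥ yy u u' q = if p = q then 1 else 0 := by
  rcases p with i | i <;> rcases q with j | j
  · simp only [yy, Sum.elim_inl, Sum.inl.injEq]
    rw [sumElim_dotProduct_sumElim, hu]
    simp
  · simp only [yy, Sum.elim_inl, Sum.elim_inr, reduceCtorEq, if_false]
    rw [sumElim_dotProduct_sumElim]
    simp
  · simp only [yy, Sum.elim_inl, Sum.elim_inr, reduceCtorEq, if_false]
    rw [sumElim_dotProduct_sumElim]
    simp
  · simp only [yy, Sum.elim_inr, Sum.inr.injEq]
    rw [sumElim_dotProduct_sumElim, hu']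
    simp

theorem yy_mulVec {m : ℕ} {u u' : Fin m → Fin m → ℝ} {B B' : Matrix (Fin m) (Fin m) ℝ}
    {l l' : Fin m → ℝ} (hu : ∀ i, B.mulVec (u i) = l i • u i)
    (hu' : ∀ i, B'.mulVec (u' i) = l' i • u' i) (q : Fin m ⊕ Fin m) :
    (Matrix.fromBlocks B 0 0 B').mulVec (yy u u' q) = (Sum.elim l l' q) • yy u u' q := by
  rcases q with i | i
  · simp only [yy, Sum.elim_inl]
    rw [Matrix.fromBlocks_mulVec]
    ext (j | j)
    · simp [Function.comp_def, hu]
    · simp [Function.comp_def]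
      exact congrFun (Matrix.mulVec_zero B') j
  · simp only [yy, Sum.elim_inr]
    rw [Matrix.fromBlocks_mulVec]
    ext (j | j)
    · simp [Function.comp_def]
      exact congrFun (Matrix.mulVec_zero B) j
    · simp [Function.comp_def, hu']

theorem evs_ofFn (hEVB : S_EVB) {m : ℕ} (B : Matrix (Fin m) (Fin m) ℝ) (hB : B.IsHermitian) :
    evs B = List.ofFn fun i : Fin m => ev B i := by
  obtain ⟨hl, -, -⟩ := hEVB m B hB
  apply List.ext_getElem
  · rw [hl, List.length_ofFn]
  · intro i h1 h2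
    rw [List.getElem_ofFn]
    unfold ev
    rw [List.getD_eq_getElem _ _ h1]

theorem main : S_EVB → S_KYF → S_ITL := by
  intro hEVB _ a c s m
  set M := blk a c s (2 * m + 1) with hM
  set B := blk a c s m with hB
  set B' := blk a c (s + m + 1) m with hB'
  obtain ⟨-, -, u, hu, hue⟩ := hEVB m B (blk_herm _ _ _ _)
  obtain ⟨-, -, u', hu', hue'⟩ := hEVB m B' (blk_herm _ _ _ _)
  -- the sorted union
  set g : Fin m ⊕ Fin m → ℝ := Sum.elim (fun i => ev B i) (fun i => ev B' i) with hg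
  let e : Fin (2 * m) ≃ Fin m ⊕ Fin m := (finCongr (two_mul m)).trans finSumFinEquiv.symm
  let σ : Equiv.Perm (Fin (2 * m)) := Tuple.sort (g ∘ e)
  set μ : Fin (2 * m) → ℝ := (g ∘ e) ∘ σ with hμd
  have hμ : Monotone μ := Tuple.monotone_sort (g ∘ e)
  have hmu : mu a c s m = List.ofFn μ := by
    unfold mu
    rw [← EVB.sort_map_univ μ hμ]
    congr 1
    rw [evs_ofFn hEVB B (blk_herm _ _ _ _), evs_ofFn hEVB B' (blk_herm _ _ _ _)]
    rw [hμd, EVB.map_comp_perm, ← Multiset.map_map, Multiset.map_univ_val_equiv]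
    rw [← Finset.univ_disjSum_univ, Finset.val_disjSum, Multiset.disjSum, Multiset.map_add,
      Multiset.map_map, Multiset.map_map, ← Fin.univ_val_map, ← Fin.univ_val_map]
    rfl
  have hlen : (mu a c s m).length = 2 * m := by rw [hmu, List.length_ofFn]
  refine ⟨hlen, fun i hi => ?_⟩
  -- the vectors
  let z : Fin (2 * m) → Fin (2 * m + 1) → ℝ := fun l => ez m (yy u u' (e (σ l)))
  have hz : ∀ i j, z i ⬝ᵥ z j = if i = j then 1 else 0 := by
    intro i j
    show ez m _ ⬝ᵥ ez m _ = _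
    rw [ez_dot, ez_comp, yy_dot hu hu']
    by_cases h : i = j
    · subst h; simp
    · rw [if_neg h, if_neg]
      intro h2
      exact h (σ.injective (e.injective h2))
  have hz2 : ∀ i j, z i ⬝ᵥ M.mulVec (z j) = if i = j then μ i else 0 := by
    intro i j
    show ez m _ ⬝ᵥ M.mulVec (ez m _) = _
    rw [ez_dot, ez_mulVec, hM, sub_blk, yy_mulVec hue hue', dotProduct_smul, yy_dot hu hu']
    by_cases h : i = j
    · subst h
      simp only [if_true, smul_eq_mul, mul_one]
      rfl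
    · rw [if_neg h, if_neg]
      · simp
      · intro h2
        exact h (σ.injective (e.injective h2))
  have hc := cauchy hEVB (by omega) M (blk_herm _ _ _ _) z μ hμ hz hz2 ⟨i, hi⟩
  rw [hmu, EVB.getD_ofFn μ i hi]
  have h1 : 2 * m + 1 - 2 * m = 1 := by omega
  rw [h1] at hc
  exact hc

end H94FG.ITL
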