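import Pool.Agent.H94.FG.LA

set_option autoImplicit false

/-!
Ky Fan's inequality (stub FG-KYF).
-/

noncomputable section
namespace H94FG.KYF

open Matrix H94FG.LA

theorem main : S_EVB → S_KYF := by
  intro hEVB n m M hM hmn v hv
  obtain ⟨-, hmono, w, hw, he⟩ := hEVB n M hM
  have hT := symm_of_herm hM
  rcases Nat.eq_zero_or_pos m with hm | hm
  · subst hm; simp
  have hq : ∀ i, v i ⬝ᵥ M.mulVec (v i) = ∑ j : Fin n, ev M j * (w j ⬝ᵥ v i) ^ 2 := fun i =>
    quad hT hw he (v i)
  set p : Fin n → ℝ := fun j => ∑ i, (w j ⬝ᵥ v i) ^ 2 with hp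
  have hp0 : ∀ j, 0 ≤ p j := fun j => Finset.sum_nonneg fun i _ => sq_nonneg _
  have hp1 : ∀ j, p j ≤ 1 := by
    intro j
    have := bessel hv (w j)
    rw [hw, if_pos rfl] at this
    exact this
  have hps : ∑ j, p j = m := by
    rw [hp]
    simp only
    rw [Finset.sum_comm]
    have : ∀ i : Fin m, ∑ j, (w j ⬝ᵥ v i) ^ 2 = 1 := by
      intro i
      have h1 := parseval hw (v i) (v i)
      rw [hv, if_pos rfl] at h1
      rw [h1]
      exact Finset.sum_congr rfl fun j _ => sq _
    simp [this]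
  have hL : ∑ i, v i ⬝ᵥ M.mulVec (v i) = ∑ j : Fin n, ev M j * p j := by
    simp only [hq]
    rw [Finset.sum_comm]
    refine Finset.sum_congr rfl fun j _ => ?_
    rw [hp]
    simp only
    rw [Finset.mul_sum]
  set τ : ℝ := ev M (n - m) with hτ
  have hterm : ∀ j : Fin n, (ev M j - τ) * p j ≤ if n - m ≤ (j : ℕ) then ev M j - τ else 0 := by
    intro j
    split_ifs with h
    · have h1 : τ ≤ ev M j := hmono _ _ h j.2
      nlinarith [hp1 j, hp0 j]
    · have h1 : ev M j ≤ τ := hmono _ _ (by omega) (by omega)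
      nlinarith [hp0 j]
  have hsum : ∑ j : Fin n, (ev M j - τ) * p j ≤
      ∑ j : Fin n, if n - m ≤ (j : ℕ) then ev M j - τ else 0 :=
    Finset.sum_le_sum fun j _ => hterm j
  have hl : ∑ j : Fin n, (ev M j - τ) * p j = ∑ j : Fin n, ev M j * p j - τ * m := by
    simp only [sub_mul]
    rw [Finset.sum_sub_distrib, ← Finset.mul_sum, hps]
  have hr : (∑ j : Fin n, if n - m ≤ (j : ℕ) then ev M j - τ else 0) =
      ∑ i ∈ Finset.range m, ev M (n - 1 - i) - τ * m := by
    rw [← Finset.sum_range (fun j => if n - m ≤ j then ev M j - τ else 0), Finset.range_eq_Ico,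
      ← Finset.sum_Ico_consecutive _ (Nat.zero_le (n - m)) (Nat.sub_le n m)]
    have h1 : ∑ j ∈ Finset.Ico 0 (n - m), (if n - m ≤ j then ev M j - τ else 0) = 0 := by
      refine Finset.sum_eq_zero fun j hj => ?_
      rw [Finset.mem_Ico] at hj
      rw [if_neg (by omega)]
    have h2 : ∑ j ∈ Finset.Ico (n - m) n, (if n - m ≤ j then ev M j - τ else 0) =
        ∑ j ∈ Finset.Ico (n - m) n, (ev M j - τ) := by
      refine Finset.sum_congr rfl fun j hj => ?_
      rw [Finset.mem_Ico] at hj
      rw [if_pos hj.1]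
    rw [h1, h2, zero_add, Finset.sum_Ico_eq_sum_range, Nat.sub_sub_self hmn,
      ← Finset.sum_range_reflect, Finset.sum_sub_distrib, Finset.sum_const, Finset.card_range,
      nsmul_eq_mul]
    congr 1
    · refine Finset.sum_congr rfl fun j hj => ?_
      rw [Finset.mem_range] at hj
      congr 1
      omega
    · ring
  rw [hL]
  rw [hl, hr] at hsum
  linarith

end H94FG.KYF
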