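import Pool.Agent.H94.FG.Spec

set_option autoImplicit false

/-!
Linear algebra with an orthonormal eigenbasis of a real symmetric matrix, in the language of
`dotProduct` and `mulVec` (used in FG-KYF, FG-ITL).
-/

noncomputable section
namespace H94FG.LA

open Matrix

variable {n : ℕ}

theorem symm_of_herm {M : Matrix (Fin n) (Fin n) ℝ} (hM : M.IsHermitian) : Mᵀ = M := by
  rw [← Matrix.conjTranspose_eq_transpose_of_trivial]
  exact hM

theorem dot_mulVec_symm {M : Matrix (Fin n) (Fin n) ℝ} (hM : Mᵀ = M) (x y : Fin n → ℝ) :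
    x ⬝ᵥ M.mulVec y = M.mulVec x ⬝ᵥ y := by
  rw [Matrix.dotProduct_mulVec, ← Matrix.vecMul_transpose, hM]

/-- Parseval -/
theorem parseval {w : Fin n → Fin n → ℝ} (hw : ∀ i j, w i ⬝ᵥ w j = if i = j then 1 else 0)
    (x y : Fin n → ℝ) : x ⬝ᵥ y = ∑ j, (w j ⬝ᵥ x) * (w j ⬝ᵥ y) := by
  have h1 : (Matrix.of w) * (Matrix.of w)ᵀ = 1 := by
    ext i j
    rw [Matrix.mul_apply, Matrix.one_apply]
    exact hw i j
  have h2 : (Matrix.of w)ᵀ * (Matrix.of w) = 1 := mul_eq_one_comm.1 h1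
  calc x ⬝ᵥ y = x ⬝ᵥ (((Matrix.of w)ᵀ * (Matrix.of w)).mulVec y) := by
        rw [h2, Matrix.one_mulVec]
    _ = ((Matrix.of w).mulVec x) ⬝ᵥ ((Matrix.of w).mulVec y) := by
        rw [← Matrix.mulVec_mulVec, Matrix.dotProduct_mulVec, Matrix.vecMul_transpose]
    _ = _ := rfl

/-- the quadratic form in an eigenbasis -/
theorem quad {M : Matrix (Fin n) (Fin n) ℝ} (hM : Mᵀ = M) {w : Fin n → Fin n → ℝ} {l : Fin n → ℝ}
    (hw : ∀ i j, w i ⬝ᵥ w j = if i = j then 1 else 0) (he : ∀ i, M.mulVec (w i) = l i • w i)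
    (x : Fin n → ℝ) : x ⬝ᵥ M.mulVec x = ∑ j, l j * (w j ⬝ᵥ x) ^ 2 := by
  rw [parseval hw]
  refine Finset.sum_congr rfl fun j _ => ?_
  rw [dot_mulVec_symm hM, he, smul_dotProduct, smul_eq_mul]
  ring

/-- squared length -/
theorem self_nonneg {m : Type*} [Fintype m] (x : m → ℝ) : 0 ≤ x ⬝ᵥ x :=
  Finset.sum_nonneg fun i _ => mul_self_nonneg (x i)

/-- the length of a combination of orthonormal vectors -/
theorem comb {m : Type*} [Fintype m] [DecidableEq m] {v : m → Fin n → ℝ}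
    (hv : ∀ i j, v i ⬝ᵥ v j = if i = j then 1 else 0) (c d : m → ℝ) :
    (∑ i, c i • v i) ⬝ᵥ (∑ i, d i • v i) = ∑ i, c i * d i := by
  rw [sum_dotProduct]
  refine Finset.sum_congr rfl fun i _ => ?_
  rw [dotProduct_sum]
  simp only [smul_dotProduct, dotProduct_smul, hv, smul_eq_mul, mul_ite, mul_one, mul_zero]
  rw [Finset.sum_ite_eq]
  simp [mul_comm]

/-- Bessel -/
theorem bessel {m : Type*} [Fintype m] [DecidableEq m] {v : m → Fin n → ℝ}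
    (hv : ∀ i j, v i ⬝ᵥ v j = if i = j then 1 else 0) (x : Fin n → ℝ) :
    ∑ i, (x ⬝ᵥ v i) ^ 2 ≤ x ⬝ᵥ x := by
  have h1 := self_nonneg (x - ∑ i, (x ⬝ᵥ v i) • v i)
  have h2 : x ⬝ᵥ (∑ i, (x ⬝ᵥ v i) • v i) = ∑ i, (x ⬝ᵥ v i) ^ 2 := by
    rw [dotProduct_sum]
    refine Finset.sum_congr rfl fun i _ => ?_
    rw [dotProduct_smul, smul_eq_mul, sq]
  rw [sub_dotProduct, dotProduct_sub, dotProduct_sub, comb hv,
    dotProduct_comm (∑ i, (x ⬝ᵥ v i) • v i) x, h2] at h1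
  have h3 : ∑ i, (x ⬝ᵥ v i) * (x ⬝ᵥ v i) = ∑ i, (x ⬝ᵥ v i) ^ 2 :=
    Finset.sum_congr rfl fun i _ => (sq _).symm
  rw [h3] at h1
  linarith

end H94FG.LA
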