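import Pool.Agent.H94.FG.PL

set_option autoImplicit false

/-!
# FG-MPE: multipoint evaluation
-/

open Polynomial

noncomputable section
namespace H94FG.MPE

theorem main (hrem : S_REM) (hnod : S_NOD) : S_MPE := by
  intro k
  induction k with
  | zero =>
    intro f x hf hx
    rw [pow_zero] at hx hf
    obtain ⟨a, rfl⟩ := List.length_eq_one_iff.mp hx
    obtain ⟨b, rfl⟩ := List.length_eq_one_iff.mp hf
    simp [mpe]
  | succ k ih =>
    intro f x hf hx
    have hk2 : 2 ^ (k + 1) = 2 ^ k + 2 ^ k := by rw [pow_succ]; omega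
    have aux : ∀ y : List ℝ, y.length = 2 ^ k →
        mpe k (rem k f (nodal k y)) y = y.map fun z => (toPoly f).eval z := by
      intro y hy
      obtain ⟨nl, np⟩ := hnod k y hy
      obtain ⟨rl, rp⟩ := hrem k f (nodal k y) hf nl
      rw [ih _ _ rl hy]
      apply List.map_congr_left
      intro z hz
      rw [rp, np]
      have h0 : ((y.map fun a => X - C a).prod).eval z = 0 := by
        obtain ⟨s, t, rfl⟩ := List.append_of_mem hz
        simp
      rw [eval_add, eval_mul, h0, mul_zero, zero_add]
    have hx12 : x = x.take (2 ^ k) ++ (x.drop (2 ^ k)).take (2 ^ k) := by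
      have : (x.drop (2 ^ k)).take (2 ^ k) = x.drop (2 ^ k) :=
        List.take_of_length_le (by simp [hx, hk2])
      rw [this, List.take_append_drop]
    conv_rhs => rw [hx12]
    rw [List.map_append, ← aux _ (by simp [hx, hk2]), ← aux _ (by simp [hx, hk2])]
    rfl

end H94FG.MPE
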