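import Pool.Agent.H94.FG.Spec

/-! FG-MRG (helper63) -/

set_option autoImplicit false

open Polynomial

noncomputable section
namespace H94FG.MRG

/-- number of members at most `t` -/
def cnt (l : List ℝ) (t : ℝ) : ℕ := l.countP (fun x => decide (x ≤ t))

lemma cnt_cons (a : ℝ) (l : List ℝ) (t : ℝ) : cnt (a :: l) t = cnt l t + if a ≤ t then 1 else 0 := by
  unfold cnt
  rw [List.countP_cons]
  by_cases h : a ≤ t <;> simp [h]

lemma cnt_zero (l : List ℝ) (t : ℝ) (h : ∀ x ∈ l, t < x) : cnt l t = 0 := by
  unfold cnt
  rw [List.countP_eq_zero]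
  intro x hx
  simp [h x hx]

lemma getD_le_iff (l : List ℝ) (hl : l.Pairwise (· ≤ ·)) :
    ∀ (i : ℕ) (t : ℝ), i < l.length → (l.getD i 0 ≤ t ↔ i < cnt l t) := by
  induction l with
  | nil => intro i t hi; simp at hi
  | cons a l ih =>
    intro i t hi
    rw [List.pairwise_cons] at hl
    by_cases hat : a ≤ t
    · rw [cnt_cons, if_pos hat]
      cases i with
      | zero => simp [hat]
      | succ i =>
        rw [List.getD_cons_succ, ih hl.2 i t (by simpa using hi)]
        omega
    · have h0 : cnt (a :: l) t = 0 := by
        apply cnt_zero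
        intro x hx
        rcases List.mem_cons.1 hx with rfl | hx
        · exact lt_of_not_ge hat
        · exact lt_of_lt_of_le (lt_of_not_ge hat) (hl.1 x hx)
      rw [h0]
      constructor
      · intro h
        exfalso
        cases i with
        | zero => exact hat (by simpa using h)
        | succ i =>
          rw [List.getD_cons_succ] at h
          have hi' : i < l.length := by simpa using hi
          rw [List.getD_eq_getElem _ _ hi'] at h
          have := hl.1 l[i] (List.getElem_mem hi')
          exact hat (this.trans h)
      · intro h; omega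

lemma cnt_append (l l' : List ℝ) (t : ℝ) : cnt (l ++ l') t = cnt l t + cnt l' t := by
  unfold cnt
  rw [List.countP_append]

lemma cnt_perm {l l' : List ℝ} (h : l.Perm l') (t : ℝ) : cnt l t = cnt l' t := by
  unfold cnt
  exact h.countP_eq _

lemma cnt_mono (x : List ℝ) : ∀ (x' : List ℝ) (e t : ℝ), x.length = x'.length →
    (∀ i < x.length, |x.getD i 0 - x'.getD i 0| ≤ e) →
    cnt x t ≤ cnt x' (t + e) ∧ cnt x' t ≤ cnt x (t + e) := by
  induction x with
  | nil =>
    intro x' e t h _
    have : x' = [] := by
      apply List.eq_nil_of_length_eq_zero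
      simpa using h.symm
    subst this
    simp [cnt]
  | cons a x ih =>
    intro x' e t h h2
    cases x' with
    | nil => simp at h
    | cons a' x' =>
      have h3 := ih x' e t (by simpa using h) (by
        intro i hi
        have := h2 (i + 1) (by simpa using hi)
        simpa using this)
      have h4 := h2 0 (by simp)
      simp only [List.getD_cons_zero] at h4
      rw [abs_le] at h4
      rw [cnt_cons, cnt_cons, cnt_cons, cnt_cons]
      constructor
      · have : (if a ≤ t then 1 else 0) ≤ (if a' ≤ t + e then 1 else 0) := by
          split_ifs <;> first | omega | (exfalso; linarith)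
        omega
      · have : (if a' ≤ t then 1 else 0) ≤ (if a ≤ t + e then 1 else 0) := by
          split_ifs <;> first | omega | (exfalso; linarith)
        omega

theorem main : S_MRG := by
  intro x y x' y' e hx hy _ _ hlx hly hex hey
  have hperm : (mrg x y).Perm (x ++ y) := List.merge_perm_append _
  have hsort : (mrg x y).Pairwise (· ≤ ·) := by
    have := List.pairwise_merge (le := fun x y : ℝ => decide (x ≤ y))
      (by intro a b c h1 h2; simp at h1 h2 ⊢; exact h1.trans h2)
      (by intro a b; simp; exact le_total a b) x y (by simpa using hx) (by simpa using hy)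
    simpa [mrg] using this
  have hlen : (mrg x y).length = x.length + y.length := by rw [hperm.length_eq, List.length_append]
  refine ⟨hsort, hlen, ?_⟩
  intro i hi
  set z := ((x' : Multiset ℝ) + (y' : Multiset ℝ)).sort (· ≤ ·) with hz
  have hzs : z.Pairwise (· ≤ ·) := Multiset.pairwise_sort _ _
  have hzp : z.Perm (x' ++ y') := by
    rw [← Multiset.coe_eq_coe, hz, Multiset.sort_eq, Multiset.coe_add]
  have hzl : z.length = x.length + y.length := by
    rw [hzp.length_eq, List.length_append, hlx, hly]
  have c1 : ∀ t, cnt (mrg x y) t = cnt x t + cnt y t := by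
    intro t; rw [cnt_perm hperm, cnt_append]
  have c2 : ∀ t, cnt z t = cnt x' t + cnt y' t := by
    intro t; rw [cnt_perm hzp, cnt_append]
  have k1 : z.getD i 0 ≤ (mrg x y).getD i 0 + e := by
    rw [getD_le_iff z hzs i _ (by omega), c2]
    have h1 := (getD_le_iff (mrg x y) hsort i ((mrg x y).getD i 0) (by omega)).1 le_rfl
    rw [c1] at h1
    have h2 := (cnt_mono x x' e ((mrg x y).getD i 0) hlx hex).1
    have h3 := (cnt_mono y y' e ((mrg x y).getD i 0) hly hey).1
    omega
  have k2 : (mrg x y).getD i 0 ≤ z.getD i 0 + e := by
    rw [getD_le_iff (mrg x y) hsort i _ (by omega), c1]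
    have h1 := (getD_le_iff z hzs i (z.getD i 0) (by omega)).1 le_rfl
    rw [c2] at h1
    have h2 := (cnt_mono x x' e (z.getD i 0) hlx hex).2
    have h3 := (cnt_mono y y' e (z.getD i 0) hly hey).2
    omega
  rw [abs_le]
  constructor <;> linarith

end H94FG.MRG
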