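import Pool.Agent.H94.FG.PL

set_option autoImplicit false

/-!
# FG-MUL: product of real polynomials by the fast Fourier transform
-/

open Polynomial

noncomputable section
namespace H94FG.MUL

theorem ext_len {k : ℕ} {a : List ℝ} (ha : a.length = 2 ^ k) :
    (ext k a).length = 2 ^ (k + 1) := by
  simp [ext, zr, ha, pow_succ]
  omega

theorem ext_poly {k : ℕ} {a : List ℝ} (ha : a.length = 2 ^ k) :
    toPoly (ext k a) = (toPoly a).map Complex.ofRealHom := by
  have h1 : a.take (2 ^ k) = a := List.take_of_length_le ha.le
  unfold ext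
  rw [h1]
  rw [show (Complex.ofReal : ℝ → ℂ) = ⇑Complex.ofRealHom from rfl, toPoly_map]
  rw [zr, toPoly_append_zero]

theorem main (h : S_FFT) : S_MUL := by
  obtain ⟨h1, h2, h3⟩ := h
  constructor
  · intro k a b
    unfold mulR
    rw [List.length_map]
    exact (h2 (k + 1) _).1
  · intro k a b ha hb
    have hk : 1 ≤ 2 ^ k := Nat.one_le_two_pow
    set c : List ℝ := cf (2 ^ (k + 1)) (toPoly a * toPoly b) with hc
    have hcl : c.length = 2 ^ (k + 1) := by simp [hc]
    have hcp : toPoly c = toPoly a * toPoly b := by
      rw [hc]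
      apply toPoly_cf
      intro i hi
      have hda : (toPoly a).natDegree ≤ 2 ^ k - 1 := natDegree_toPoly_le (by omega)
      have hdb : (toPoly b).natDegree ≤ 2 ^ k - 1 := natDegree_toPoly_le (by omega)
      apply coeff_eq_zero_of_natDegree_lt
      have := natDegree_mul_le (p := toPoly a) (q := toPoly b)
      rw [pow_succ] at hi
      omega
    have hcc : toPoly (c.map Complex.ofReal) = toPoly (ext k a) * toPoly (ext k b) := by
      rw [ext_poly ha, ext_poly hb, ← Polynomial.map_mul, ← hcp]
      exact toPoly_map Complex.ofRealHom c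
    have hV := h3 (k + 1) (ext k a) (ext k b) (c.map Complex.ofReal) (ext_len ha) (ext_len hb)
      (by simp [hcl]) hcc
    have hW := (h1 (k + 1) (c.map Complex.ofReal) (by simp [hcl])).2
    have hm : mulR k a b = c := by
      unfold mulR
      rw [← hV, hW, List.map_map]
      have : (Complex.re ∘ Complex.ofReal) = (id : ℝ → ℝ) := by
        funext x
        simp
      rw [this, List.map_id]
    rw [hm]
    exact ⟨hcl, hcp⟩

end H94FG.MUL
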