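import Mathlib

set_option autoImplicit false

/-!
# The model of computation (MP_26b317_lc, Q2)
-/

noncomputable section
namespace H94FG

/-- Case distinction on a list (empty or not). -/
def caseList {β γ : Type} (l : List β) (g : γ) (h : β → List β → γ) : γ :=
  match l with
  | [] => g
  | b :: t => h b t

@[simp] theorem caseList_nil {β γ : Type} (g : γ) (h : β → List β → γ) :
    caseList [] g h = g := rfl

@[simp] theorem caseList_cons {β γ : Type} (b : β) (t : List β) (g : γ) (h : β → List β → γ) :
    caseList (b :: t) g h = h b t := rfl

/-- Recursion of depth `k` with two successive recursive calls: `rcr g s t h 0 x = g x`, and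
`rcr g s t h (k + 1) x = h (k, x, y, z)`, where `y` is the result of the first recursive call, for
the instance `s (k, x)`, and `z` is the result of the second one, for the instance
`t (k, x, y)`. -/
def rcr {α β : Type} (g : α → β) (s : ℕ × α → α) (t : ℕ × α × β → α)
    (h : ℕ × α × β × β → β) : ℕ → α → β
  | 0, x => g x
  | k + 1, x =>
    h (k, x, rcr g s t h k (s (k, x)), rcr g s t h k (t (k, x, rcr g s t h k (s (k, x)))))

/-- The number of operations of `rcr g s t h k x`, if those of `g`, `s`, `t`, `h` are `cg`, `cs`,
`ct`, `ch`: every recursive call is counted (and made) once. -/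
def rcrCost {α β : Type} (g : α → β) (s : ℕ × α → α) (t : ℕ × α × β → α)
    (h : ℕ × α × β × β → β) (cg : α → ℕ) (cs : ℕ × α → ℕ) (ct : ℕ × α × β → ℕ)
    (ch : ℕ × α × β × β → ℕ) : ℕ → α → ℕ
  | 0, x => cg x
  | k + 1, x =>
    cs (k, x) + rcrCost g s t h cg cs ct ch k (s (k, x))
      + ct (k, x, rcr g s t h k (s (k, x)))
      + rcrCost g s t h cg cs ct ch k (t (k, x, rcr g s t h k (s (k, x))))
      + ch (k, x, rcr g s t h k (s (k, x)), rcr g s t h k (t (k, x, rcr g s t h k (s (k, x)))))

/-- **The model of computation.**  `Alg f c` says that some (uniform, finite) program computes the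
function `f`, and that on input `x` it performs at most `c x` arithmetic operations and comparisons
with exact complex numbers.

The programs are the terms of a small first-order language with exact complex numbers, natural
numbers (used as sizes, indices and loop counters), pairs and lists as data.

* Cost `1`: each of the operations `+`, `-`, `*`, `/` on complex numbers, each comparison
  `sel (z, a, b) = (if 0 ≤ Re z then a else b)` of a real part with selection of one of two complex
  numbers, and each use of a constant `exp (2 π i / 2 ^ k)` (a root of unity).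
* Cost `0` (no arithmetic with complex numbers): the constant `1`, pairing and projections,
  arithmetic with natural numbers and the test `k = 0`, and the handling of lists (`cons`, case
  distinction, `++`, `reverse`, `take`, `drop`, `zip`).
* `map` applies a program to all members of a list, `loop` executes a program `k` times, `recur` is
  recursion of depth `k` with two successive recursive calls (see `rcr`); the cost is the sum of
  the costs of everything that is executed.

`Alg.le` only allows to overestimate the number of operations.

No operation turns complex numbers into natural numbers or lists: the result of a comparison is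
again a complex number.  So the natural numbers, the lengths of all lists and the sequence of the
operations performed depend only on the natural numbers and the lengths of the lists in the input:
for every input size, a program is an arithmetic circuit with selection gates, and the free
operations with natural numbers and lists only describe this circuit (uniformly for all sizes). -/
inductive Alg : {α β : Type} → (α → β) → (α → ℕ) → Prop
  | id {α : Type} : Alg (fun x : α => x) (fun _ => 0)
  | comp {α β γ : Type} {f : α → β} {g : β → γ} {c : α → ℕ} {d : β → ℕ} :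
      Alg f c → Alg g d → Alg (fun x => g (f x)) (fun x => c x + d (f x))
  | pair {α β γ : Type} {f : α → β} {g : α → γ} {c d : α → ℕ} :
      Alg f c → Alg g d → Alg (fun x => (f x, g x)) (fun x => c x + d x)
  | fst {α β : Type} : Alg (fun p : α × β => p.1) (fun _ => 0)
  | snd {α β : Type} : Alg (fun p : α × β => p.2) (fun _ => 0)
  | nat {α : Type} (k : ℕ) : Alg (fun _ : α => k) (fun _ => 0)
  | natAdd : Alg (fun p : ℕ × ℕ => p.1 + p.2) (fun _ => 0)
  | natSub : Alg (fun p : ℕ × ℕ => p.1 - p.2) (fun _ => 0)
  | natMul : Alg (fun p : ℕ × ℕ => p.1 * p.2) (fun _ => 0)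
  | natIf {α β : Type} {h : α → ℕ} {f g : α → β} {ch cf cg : α → ℕ} :
      Alg h ch → Alg f cf → Alg g cg →
      Alg (fun x => if h x = 0 then f x else g x)
        (fun x => ch x + if h x = 0 then cf x else cg x)
  | one {α : Type} : Alg (fun _ : α => (1 : ℂ)) (fun _ => 0)
  | unity : Alg (fun k : ℕ => Complex.exp (2 * Real.pi * Complex.I / 2 ^ k)) (fun _ => 1)
  | add : Alg (fun p : ℂ × ℂ => p.1 + p.2) (fun _ => 1)
  | sub : Alg (fun p : ℂ × ℂ => p.1 - p.2) (fun _ => 1)
  | mul : Alg (fun p : ℂ × ℂ => p.1 * p.2) (fun _ => 1)
  | div : Alg (fun p : ℂ × ℂ => p.1 / p.2) (fun _ => 1)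
  | sel : Alg (fun p : ℂ × ℂ × ℂ => if 0 ≤ p.1.re then p.2.1 else p.2.2) (fun _ => 1)
  | nil {α β : Type} : Alg (fun _ : α => ([] : List β)) (fun _ => 0)
  | cons {β : Type} : Alg (fun p : β × List β => p.1 :: p.2) (fun _ => 0)
  | caseList {α β γ : Type} {g : α → γ} {h : α × β × List β → γ} {cg : α → ℕ}
      {ch : α × β × List β → ℕ} :
      Alg g cg → Alg h ch →
      Alg (fun p : α × List β => caseList p.2 (g p.1) (fun b t => h (p.1, b, t)))
        (fun p => caseList p.2 (cg p.1) (fun b t => ch (p.1, b, t)))
  | append {β : Type} : Alg (fun p : List β × List β => p.1 ++ p.2) (fun _ => 0)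
  | reverse {β : Type} : Alg (fun l : List β => l.reverse) (fun _ => 0)
  | take {β : Type} : Alg (fun p : ℕ × List β => p.2.take p.1) (fun _ => 0)
  | drop {β : Type} : Alg (fun p : ℕ × List β => p.2.drop p.1) (fun _ => 0)
  | zip {β γ : Type} : Alg (fun p : List β × List γ => p.1.zip p.2) (fun _ => 0)
  | map {γ α β : Type} {f : γ × α → β} {c : γ × α → ℕ} :
      Alg f c →
      Alg (fun p : γ × List α => p.2.map fun a => f (p.1, a))
        (fun p => (p.2.map fun a => c (p.1, a)).sum)
  | loop {α : Type} {s : α → α} {c : α → ℕ} :
      Alg s c →
      Alg (fun p : ℕ × α => s^[p.1] p.2) (fun p => ∑ i ∈ Finset.range p.1, c (s^[i] p.2))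
  | recur {α β : Type} {g : α → β} {s : ℕ × α → α} {t : ℕ × α × β → α}
      {h : ℕ × α × β × β → β} {cg : α → ℕ} {cs : ℕ × α → ℕ} {ct : ℕ × α × β → ℕ}
      {ch : ℕ × α × β × β → ℕ} :
      Alg g cg → Alg s cs → Alg t ct → Alg h ch →
      Alg (fun p : ℕ × α => rcr g s t h p.1 p.2)
        (fun p => rcrCost g s t h cg cs ct ch p.1 p.2)
  | le {α β : Type} {f : α → β} {c d : α → ℕ} :
      Alg f c → (∀ x, c x ≤ d x) → Alg f d

end H94FG
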