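import Pool.Agent.H94.FG.PL

set_option autoImplicit false

/-!
# FG-NOD: the product of the `X - x i`
-/

open Polynomial

noncomputable section
namespace H94FG.NOD

theorem main (hmul : S_MUL) : S_NOD := by
  intro k
  induction k with
  | zero =>
    intro x hx
    rw [pow_zero] at hx
    obtain ⟨a, rfl⟩ := List.length_eq_one_iff.mp hx
    refine ⟨by simp [nodal], ?_⟩
    simp [nodal, sub_eq_add_neg]
  | succ k ih =>
    intro x hx
    have hk2 : 2 ^ (k + 1) = 2 ^ k + 2 ^ k := by rw [pow_succ]; omega
    set x1 := x.take (2 ^ k) with hx1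
    set x2 := (x.drop (2 ^ k)).take (2 ^ k) with hx2
    have hx12 : x = x1 ++ x2 := by
      rw [hx1, hx2]
      have : (x.drop (2 ^ k)).take (2 ^ k) = x.drop (2 ^ k) :=
        List.take_of_length_le (by simp [hx, hk2])
      rw [this, List.take_append_drop]
    obtain ⟨l1, p1⟩ := ih x1 (by simp [hx1, hx, hk2])
    obtain ⟨l2, p2⟩ := ih x2 (by simp [hx2, hx, hk2])
    set n1 := nodal k x1 with hn1
    set n2 := nodal k x2 with hn2
    obtain ⟨ml, mp⟩ := hmul.2 k n1 n2 l1 l2
    have hz : (List.zipWith (· + ·) n1 n2).length = 2 ^ k := by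
      rw [List.length_zipWith, l1, l2, min_self]
    have hzp : toPoly (List.zipWith (· + ·) n1 n2) = toPoly n1 + toPoly n2 :=
      toPoly_zipWith_add (by rw [l1, l2])
    have hzz : (zr (2 ^ k) ++ List.zipWith (· + ·) n1 n2).length = 2 ^ (k + 1) := by
      rw [List.length_append, hz, zr, List.length_replicate, hk2]
    have hzzp : toPoly (zr (2 ^ k) ++ List.zipWith (· + ·) n1 n2) =
        X ^ (2 ^ k) * (toPoly n1 + toPoly n2) := by
      rw [toPoly_append, hzp, zr, toPoly_replicate_zero, List.length_replicate, zero_add]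
    have hnod : nodal (k + 1) x = List.zipWith (· + ·) (mulR k n1 n2)
        (zr (2 ^ k) ++ List.zipWith (· + ·) n1 n2) := rfl
    rw [hnod]
    constructor
    · rw [List.length_zipWith, ml, hzz, min_self]
    · rw [toPoly_zipWith_add (by rw [ml, hzz]), mp, hzzp]
      conv_rhs => rw [hx12]
      rw [List.map_append, List.prod_append, ← p1, ← p2, hk2, pow_add]
      ring

end H94FG.NOD
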