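import Pool.Agent.H94.FG.Spec

/-! FG-PAR (helper63) -/

set_option autoImplicit false

open Polynomial

noncomputable section
namespace H94FG.PAR

lemma T_symm (a c : ℕ → ℝ) (i j : ℕ) : T a c i j = T a c j i := by
  unfold T
  by_cases h1 : i = j
  · subst h1; simp
  · have h1' : ¬ j = i := fun h => h1 h.symm
    by_cases h2 : i + 1 = j
    · have h3 : ¬ j + 1 = i := by omega
      simp only [h1, h1', h2, h3, if_true, if_false]
    · by_cases h3 : j + 1 = i
      · simp only [h1, h1', h2, h3, if_true, if_false]
      · simp only [h1, h1', h2, h3, if_false]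

lemma blk_herm (a c : ℕ → ℝ) (s m : ℕ) : (blk a c s m).IsHermitian := by
  ext i j
  simp only [blk, Matrix.conjTranspose_apply, Matrix.of_apply, star_trivial]
  exact T_symm a c _ _

lemma prod_range' (n : ℕ) (f : ℕ → ℝ) :
    ((List.range n).map f).prod = ∏ i ∈ Finset.range n, f i := by
  induction n with
  | zero => simp
  | succ n ih => rw [List.prod_range_succ, Finset.prod_range_succ, ih]

lemma prod_list {n : ℕ} (M : Matrix (Fin n) (Fin n) ℝ) (h : (evs M).length = n) (x : ℝ) :
    M.charpoly.eval x = ∏ i ∈ Finset.range n, (x - ev M i) := by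
  have h1 : Multiset.card M.charpoly.roots = M.charpoly.natDegree := by
    rw [Matrix.charpoly_natDegree_eq_dim, Fintype.card_fin]
    have h0 : (evs M).length = Multiset.card M.charpoly.roots := by
      unfold evs
      rw [Multiset.length_sort]
    rw [← h0, h]
  have h2 := Polynomial.prod_multiset_X_sub_C_of_monic_of_roots_card_eq (Matrix.charpoly_monic M) h1
  have h3 : (evs M : Multiset ℝ) = M.charpoly.roots := Multiset.sort_eq _ _
  rw [← h3, Multiset.map_coe, Multiset.prod_coe] at h2
  conv_lhs => rw [← h2]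
  rw [eval_list_prod, List.map_map]
  have h4 : (List.map ((fun p => eval x p) ∘ fun a => X - C a) (evs M)) =
      (List.range n).map (fun i => x - ev M i) := by
    apply List.ext_getElem
    · simp [h]
    · intro i h1 h2
      simp only [List.getElem_map, Function.comp_apply, eval_sub, eval_X, eval_C,
        List.getElem_range]
      unfold ev
      rw [List.getD_eq_getElem]
  rw [h4]
  exact prod_range' n _

theorem main : S_EVB → S_ITL → S_PAR := by
  intro hE hI a c s m i x hi h1 h2
  obtain ⟨hlen, hmono, _⟩ := hE (2 * m + 1) (blk a c s (2 * m + 1)) (blk_herm _ _ _ _)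
  obtain ⟨_, hI2⟩ := hI a c s m
  set M := blk a c s (2 * m + 1) with hM
  rw [prod_list M hlen x]
  -- split the product
  have hA : 0 < ∏ j ∈ Finset.range i, (x - ev M j) := by
    apply Finset.prod_pos
    intro j hj
    rw [Finset.mem_range] at hj
    have h3 : (mu a c s m).getD (i - 1) 0 < x := h1.resolve_left (by omega)
    have h4 := hmono j (i - 1) (by omega) (by omega)
    have h5 := (hI2 (i - 1) (by omega)).1
    linarith
  obtain ⟨r, hr⟩ : ∃ r, 2 * m = i + r := ⟨2 * m - i, by omega⟩
  have hB : 0 < ∏ j ∈ Finset.range r, (ev M (i + 1 + j) - x) := by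
    apply Finset.prod_pos
    intro j hj
    rw [Finset.mem_range] at hj
    have h3 : x < (mu a c s m).getD i 0 := h2.resolve_left (by omega)
    have h4 := hmono (i + 1) (i + 1 + j) (by omega) (by omega)
    have h5 := (hI2 i (by omega)).2
    linarith
  have hsplit0 : ∀ f : ℕ → ℝ, ∏ j ∈ Finset.range (2 * m + 1), f j =
      (∏ j ∈ Finset.range i, f j) * f i * ∏ j ∈ Finset.range r, f (i + 1 + j) := by
    intro f
    rw [hr, show i + r + 1 = (i + 1) + r by ring, Finset.prod_range_add, Finset.prod_range_succ]
  have hsplit := hsplit0 (fun j => x - ev M j)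
  have hneg : ∏ j ∈ Finset.range r, (x - ev M (i + 1 + j)) =
      (-1) ^ r * ∏ j ∈ Finset.range r, (ev M (i + 1 + j) - x) := by
    have h3 : ∀ j ∈ Finset.range r, (x - ev M (i + 1 + j)) = (-1) * (ev M (i + 1 + j) - x) := by
      intro j _; ring
    rw [Finset.prod_congr rfl h3, Finset.prod_mul_distrib]
    simp
  have hsign : ((-1 : ℝ)) ^ i * (-1) ^ r = 1 := by
    rw [← pow_add, ← hr, pow_mul]; norm_num
  have hfin : (-1) ^ i * ∏ j ∈ Finset.range (2 * m + 1), (x - ev M j) =
      ((∏ j ∈ Finset.range i, (x - ev M j)) * ∏ j ∈ Finset.range r, (ev M (i + 1 + j) - x)) *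
        (x - ev M i) := by
    rw [hsplit, hneg]
    linear_combination ((∏ j ∈ Finset.range i, (x - ev M j)) *
      (∏ j ∈ Finset.range r, (ev M (i + 1 + j) - x)) * (x - ev M i)) * hsign
  rw [hfin]
  rw [mul_nonneg_iff_of_pos_left (mul_pos hA hB), sub_nonneg]

end H94FG.PAR
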