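import Pool.Agent.H94.FG.PL

set_option autoImplicit false

/-!
# FG-REM: division with remainder
-/

open Polynomial

noncomputable section
namespace H94FG.REM

theorem rev_getD (f : List ℝ) (m i : ℕ) (hf : f.length = m + m) (h1 : m ≤ i) (h2 : i < m + m) :
    ((f.drop m).take m).reverse.getD (m + m - 1 - i) 0 = f.getD i 0 := by
  have hl : ((f.drop m).take m).length = m := by simp [hf]
  rw [List.getD_eq_getElem _ _ (by rw [List.length_reverse, hl]; omega),
    List.getD_eq_getElem _ _ (by omega), List.getElem_reverse]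
  rw [List.getElem_take, List.getElem_drop]
  congr 1
  rw [hl]
  omega

theorem main (hmul : S_MUL) (hinv : S_INV) : S_REM := by
  intro k f g hf hg
  have hk1 : 1 ≤ 2 ^ k := Nat.one_le_two_pow
  obtain ⟨n, hn⟩ : ∃ n, 2 ^ k = n + 1 := ⟨2 ^ k - 1, by omega⟩
  have hk2 : 2 ^ (k + 1) = 2 ^ k + 2 ^ k := by rw [pow_succ]; omega
  -- the lists
  set fh := (f.drop (2 ^ k)).take (2 ^ k) with hfh
  have fhl : fh.length = 2 ^ k := by simp [hfh, hf, hk2]
  set gr := (1 :: g.reverse).take (2 ^ k) with hgr
  have grl : gr.length = 2 ^ k := by simp [hgr, hg]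
  have gr0 : (toPoly gr).coeff 0 = 1 := by
    rw [coeff_toPoly, hgr, hn]
    simp
  obtain ⟨gil, gip⟩ := hinv k gr grl.ge gr0
  set gi := inv k gr with hgi
  obtain ⟨ml, mp⟩ := hmul.2 k fh.reverse gi (by simp [fhl]) gil
  set q' := (mulR k fh.reverse gi).take (2 ^ k) with hq'
  have q'l : q'.length = 2 ^ k := by
    rw [hq', List.length_take, ml]
    exact min_eq_left (by omega)
  have hquo : quo k f g = q'.reverse := rfl
  set q := quo k f g with hq
  have ql : q.length = 2 ^ k := by rw [hquo, List.length_reverse, q'l]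
  obtain ⟨wl, wp⟩ := hmul.2 k q g ql hg
  set w := (mulR k q g).take (2 ^ k) with hw
  have wl' : w.length = 2 ^ k := by
    rw [hw, List.length_take, wl]
    exact min_eq_left (by omega)
  have ftl : (f.take (2 ^ k)).length = 2 ^ k := by simp [hf, hk2]
  have hrem : rem k f g = List.zipWith (· - ·) (f.take (2 ^ k)) w := rfl
  have hreml : (rem k f g).length = 2 ^ k := by
    rw [hrem, List.length_zipWith, ftl, wl', min_self]
  have hremp : toPoly (rem k f g) = toPoly (f.take (2 ^ k)) - toPoly w := by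
    rw [hrem, toPoly_zipWith_sub (by rw [ftl, wl'])]
  refine ⟨hreml, ?_⟩
  -- congruence of the reversed polynomials
  have hG : toPoly (g ++ [1]) = X ^ (2 ^ k) + toPoly g := by
    rw [toPoly_append, hg]; simp; ring
  have hcong : (X : ℝ[X]) ^ (2 ^ k) ∣ toPoly q' * toPoly (g ++ [1]).reverse - toPoly fh.reverse := by
    obtain ⟨u1, hu1⟩ := X_pow_dvd_sub_take (mulR k fh.reverse gi) (2 ^ k)
    obtain ⟨u2, hu2⟩ := X_pow_dvd_sub_take (1 :: g.reverse) (2 ^ k)
    obtain ⟨u3, hu3⟩ := gip
    rw [mp] at hu1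
    have e1 : (g ++ [1]).reverse = 1 :: g.reverse := by simp
    rw [e1]
    set M := (X : ℝ[X]) ^ (2 ^ k) with hM
    have eq1 : toPoly q' = toPoly fh.reverse * toPoly gi - M * u1 := by rw [← hu1]; ring
    have eq2 : toPoly (1 :: g.reverse) = toPoly gr + M * u2 := by rw [← hu2]; ring
    refine ⟨toPoly fh.reverse * u3 + toPoly fh.reverse * toPoly gi * u2
      - u1 * (toPoly gr + M * u2), ?_⟩
    rw [eq1, eq2]
    have : toPoly fh.reverse * (toPoly gr * toPoly gi - 1) = toPoly fh.reverse * (M * u3) := by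
      rw [hu3]
    linear_combination this
  -- coefficients of `q * (X ^ m + g)` in the degrees `m, ..., 2 m - 1`
  have hrefl : reflect (n + (n + 1)) (toPoly q * toPoly (g ++ [1])) =
      toPoly q' * toPoly (g ++ [1]).reverse := by
    rw [reflect_mul _ _ (natDegree_toPoly_le (by omega))
      (natDegree_toPoly_le (by simp; omega)), ← toPoly_reverse (by omega),
      ← toPoly_reverse (by simp; omega)]
    rw [hquo, List.reverse_reverse]
  have hdeg : (toPoly q * toPoly (g ++ [1])).natDegree ≤ n + (n + 1) := by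
    refine natDegree_mul_le.trans (Nat.add_le_add (natDegree_toPoly_le (by omega))
      (natDegree_toPoly_le (by simp; omega)))
  have hhigh : ∀ i, 2 ^ k ≤ i →
      (toPoly q * toPoly (g ++ [1])).coeff i = (toPoly f).coeff i := by
    intro i hi
    rcases le_or_gt i (n + (n + 1)) with h | h
    · have h1 : (toPoly q * toPoly (g ++ [1])).coeff i =
          (reflect (n + (n + 1)) (toPoly q * toPoly (g ++ [1]))).coeff (n + (n + 1) - i) := by
        rw [coeff_reflect, revAt_le (by omega)]
        congr 1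
        omega
      rw [h1, hrefl]
      rw [X_pow_dvd_iff] at hcong
      have h2 := hcong (n + (n + 1) - i) (by omega)
      rw [coeff_sub, sub_eq_zero] at h2
      rw [h2, coeff_toPoly, coeff_toPoly]
      have h3 := rev_getD f (2 ^ k) i (by rw [hf, hk2]) hi (by omega)
      rw [← h3]
      congr 1
      omega
    · rw [coeff_eq_zero_of_natDegree_lt (by omega), coeff_toPoly_of_le (by omega)]
  -- the low coefficients
  have hlow : (X : ℝ[X]) ^ (2 ^ k) ∣
      (toPoly f - toPoly q * toPoly (g ++ [1])) - toPoly (rem k f g) := by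
    obtain ⟨u1, hu1⟩ := X_pow_dvd_sub_take f (2 ^ k)
    obtain ⟨u2, hu2⟩ := X_pow_dvd_sub_take (mulR k q g) (2 ^ k)
    rw [wp] at hu2
    refine ⟨u1 - u2 - toPoly q, ?_⟩
    rw [hremp, hG]
    linear_combination hu1 - hu2
  have := eq_of_X_pow_dvd (p := toPoly f - toPoly q * toPoly (g ++ [1]))
    (q := toPoly (rem k f g)) (m := 2 ^ k)
    (fun i hi => by rw [coeff_sub, hhigh i hi, sub_self])
    (fun i hi => coeff_toPoly_of_le (by omega)) hlow
  rw [← this, hG]
  ring

end H94FG.REM
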