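import Pool.Agent.H94.FG.ITL

set_option autoImplicit false

/-!
Decoupled sites of value `4` at the end (stub FG-SPL).
-/

noncomputable section
namespace H94FG.SPL

open Matrix H94FG.LA

/-- extension by zero -/
def ex {n : ℕ} (m : ℕ) (u : Fin n → ℝ) : Fin m → ℝ :=
  fun k => if h : (k : ℕ) < n then u ⟨k, h⟩ else 0

theorem sum_ex {n m : ℕ} (hnm : n ≤ m) (u : Fin n → ℝ) (x : Fin m → ℝ) :
    ∑ k, x k * ex m u k = ∑ k : Fin n, x (Fin.castLE hnm k) * u k := by
  symm
  refine Fintype.sum_of_injective (Fin.castLE hnm) (Fin.castLE_injective hnm) _ _ ?_ ?_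
  · intro k hk
    unfold ex
    rw [dif_neg, mul_zero]
    intro h
    exact hk ⟨⟨k, h⟩, rfl⟩
  · intro k
    unfold ex
    rw [dif_pos (show ((Fin.castLE hnm k : Fin m) : ℕ) < n from k.2)]
    rfl

theorem main : S_EVB → S_BND → S_SPL := by
  intro hEVB hBND a c n m hnm hB hz i hi
  obtain ⟨-, hmono, u, hu, hue⟩ := hEVB n (blk a c 0 n) (ITL.blk_herm a c 0 n)
  have hbd : ∀ i < n, ev (blk a c 0 n) i ≤ 4 := fun i hi =>
    (le_abs_self _).trans (hBND a c 0 n 4 hB i hi)
  let z : Fin m → Fin m → ℝ := fun l => if h : (l : ℕ) < n then ex m (u ⟨l, h⟩) else Pi.single l 1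
  let μ : Fin m → ℝ := fun l => if (l : ℕ) < n then ev (blk a c 0 n) l else 4
  have hμ : Monotone μ := by
    intro l l' hll
    have hll' : (l : ℕ) ≤ l' := hll
    show (if (l : ℕ) < n then ev (blk a c 0 n) l else 4) ≤
      if (l' : ℕ) < n then ev (blk a c 0 n) l' else 4
    by_cases h1 : (l' : ℕ) < n
    · rw [if_pos h1, if_pos (by omega)]
      exact hmono _ _ hll' h1
    · rw [if_neg h1]
      split_ifs with h2
      · exact hbd _ h2
      · exact le_rfl
  have hzz : ∀ l l', z l ⬝ᵥ z l' = if l = l' then 1 else 0 := by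
    intro l l'
    show (if h : (l : ℕ) < n then ex m (u ⟨l, h⟩) else Pi.single l 1) ⬝ᵥ
      (if h : (l' : ℕ) < n then ex m (u ⟨l', h⟩) else Pi.single l' 1) = _
    by_cases h1 : (l : ℕ) < n
    · by_cases h2 : (l' : ℕ) < n
      · rw [dif_pos h1, dif_pos h2]
        have h3 : ex m (u ⟨l, h1⟩) ⬝ᵥ ex m (u ⟨l', h2⟩) = u ⟨l, h1⟩ ⬝ᵥ u ⟨l', h2⟩ := by
          refine (sum_ex hnm (u ⟨l', h2⟩) (ex m (u ⟨l, h1⟩))).trans ?_
          refine Finset.sum_congr rfl fun k _ => ?_
          unfold ex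
          rw [dif_pos (show ((Fin.castLE hnm k : Fin m) : ℕ) < n from k.2)]
          rfl
        rw [h3, hu]
        simp only [Fin.mk.injEq, Fin.ext_iff]
      · rw [dif_pos h1, dif_neg h2, dotProduct_single_one]
        unfold ex
        rw [dif_neg h2, if_neg]
        rintro rfl
        exact h2 h1
    · by_cases h2 : (l' : ℕ) < n
      · rw [dif_neg h1, dif_pos h2, single_one_dotProduct]
        unfold ex
        rw [dif_neg h1, if_neg]
        rintro rfl
        exact h1 h2
      · rw [dif_neg h1, dif_neg h2, single_one_dotProduct, Pi.single_apply]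
  have hT0 : ∀ i j : ℕ, n ≤ i → j < i → T a c i j = 0 := by
    intro i j h1 h2
    unfold T
    rw [if_neg (by omega), if_neg (by omega), (hz i h1).2, Real.sqrt_zero]
    simp
  have hze : ∀ l, (blk a c 0 m).mulVec (z l) = μ l • z l := by
    intro l
    show (blk a c 0 m).mulVec (if h : (l : ℕ) < n then ex m (u ⟨l, h⟩) else Pi.single l 1) =
      (if (l : ℕ) < n then ev (blk a c 0 n) l else 4) •
        (if h : (l : ℕ) < n then ex m (u ⟨l, h⟩) else Pi.single l 1)
    by_cases h1 : (l : ℕ) < n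
    · rw [dif_pos h1, if_pos h1]
      ext k
      have h2 : ((blk a c 0 m).mulVec (ex m (u ⟨l, h1⟩))) k =
          ∑ j : Fin n, blk a c 0 m k (Fin.castLE hnm j) * u ⟨l, h1⟩ j :=
        sum_ex hnm (u ⟨l, h1⟩) (blk a c 0 m k)
      rw [h2, Pi.smul_apply, smul_eq_mul]
      by_cases h3 : (k : ℕ) < n
      · have h4 := congrFun (hue ⟨l, h1⟩) ⟨k, h3⟩
        rw [Pi.smul_apply, smul_eq_mul] at h4
        unfold ex
        rw [dif_pos h3, ← h4]
        rfl
      · unfold ex
        rw [dif_neg h3, mul_zero]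
        refine Finset.sum_eq_zero fun j _ => ?_
        have h4 : blk a c 0 m k (Fin.castLE hnm j) = 0 := by
          show T a c (0 + k) (0 + j) = 0
          exact hT0 _ _ (by omega) (by omega)
        rw [h4, zero_mul]
    · rw [dif_neg h1, if_neg h1, Matrix.mulVec_single_one]
      ext k
      show T a c (0 + k) (0 + l) = (4 : ℝ) * (Pi.single l (1 : ℝ) : Fin m → ℝ) k
      rw [zero_add, zero_add, Pi.single_apply]
      by_cases h2 : k = l
      · subst h2
        rw [if_pos rfl]
        unfold T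
        rw [if_pos rfl, (hz _ (by omega)).1, mul_one]
      · rw [if_neg h2, mul_zero]
        rcases Nat.lt_or_ge l k with h3 | h3
        · exact hT0 _ _ (by omega) h3
        · rw [ITL.T_symm]
          exact hT0 _ _ (by omega) (lt_of_le_of_ne h3 (fun h => h2 (Fin.ext h)))
  have hz2 : ∀ l l', z l ⬝ᵥ (blk a c 0 m).mulVec (z l') = if l = l' then μ l else 0 := by
    intro l l'
    rw [hze, dotProduct_smul, hzz, smul_eq_mul]
    by_cases h : l = l'
    · subst h; simp
    · simp [h]
  have hc := ITL.cauchy hEVB le_rfl (blk a c 0 m) (ITL.blk_herm a c 0 m) z μ hμ hzz hz2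
    ⟨i, by omega⟩
  have hμi : μ ⟨i, by omega⟩ = ev (blk a c 0 n) i := by
    show (if i < n then ev (blk a c 0 n) i else 4) = _
    rw [if_pos hi]
  rw [hμi, Nat.sub_self, add_zero] at hc
  exact le_antisymm hc.1 hc.2

end H94FG.SPL
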