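import Pool.Agent.H94.FG.Defs

set_option autoImplicit false

/-!
# Statements (project FG, MP_26b317_lc, Q2)

Each stub is a proposition `S_XXX`. A stub file proves `theorem main : S_A → S_B → S_XXX`, where
`S_A, S_B` are the stubs it may use (listed in the comment).
-/

open Polynomial

noncomputable section
namespace H94FG

/-! ## Part B: correctness of the polynomial arithmetic -/

/-- FFT-1 (no hypotheses). `W k` is the inverse of `V k`, `V k` is multiplicative. -/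
def S_FFT : Prop :=
  (∀ k (a : List ℂ), a.length = 2 ^ k → (V k a).length = 2 ^ k ∧ W k (V k a) = a) ∧
  (∀ k (y : List ℂ), (W k y).length ≤ 2 ^ k ∧ (V k y).length ≤ 2 ^ k) ∧
  (∀ k (a b c : List ℂ), a.length = 2 ^ k → b.length = 2 ^ k → c.length = 2 ^ k →
    toPoly c = toPoly a * toPoly b → V k c = List.zipWith (· * ·) (V k a) (V k b))

/-- MUL (uses S_FFT). -/
def S_MUL : Prop :=
  (∀ k (a b : List ℝ), (mulR k a b).length ≤ 2 ^ (k + 1)) ∧
  ∀ k (a b : List ℝ), a.length = 2 ^ k → b.length = 2 ^ k →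
    (mulR k a b).length = 2 ^ (k + 1) ∧ toPoly (mulR k a b) = toPoly a * toPoly b

/-- INV (uses S_MUL). Newton inversion of power series. -/
def S_INV : Prop :=
  ∀ j (f : List ℝ), 2 ^ j ≤ f.length → (toPoly f).coeff 0 = 1 →
    (inv j f).length = 2 ^ j ∧ (X : ℝ[X]) ^ (2 ^ j) ∣ toPoly f * toPoly (inv j f) - 1

/-- REM (uses S_MUL, S_INV). Division with remainder. -/
def S_REM : Prop :=
  ∀ k (f g : List ℝ), f.length = 2 ^ (k + 1) → g.length = 2 ^ k →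
    (rem k f g).length = 2 ^ k ∧
    toPoly f = toPoly (quo k f g) * (X ^ (2 ^ k) + toPoly g) + toPoly (rem k f g)

/-- NOD (uses S_MUL). -/
def S_NOD : Prop :=
  ∀ k (x : List ℝ), x.length = 2 ^ k →
    (nodal k x).length = 2 ^ k ∧
    X ^ (2 ^ k) + toPoly (nodal k x) = (x.map fun a => X - C a).prod

/-- MPE (uses S_REM, S_NOD). Multipoint evaluation. -/
def S_MPE : Prop :=
  ∀ k (f x : List ℝ), f.length = 2 ^ k → x.length = 2 ^ k →
    mpe k f x = x.map fun z => (toPoly f).eval z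

/-- the infinite tridiagonal array with diagonal entries `a i` and entries `√(c (i + 1))` at
`(i, i + 1)` and `(i + 1, i)` -/
def T (a c : ℕ → ℝ) (i j : ℕ) : ℝ :=
  if i = j then a i else if i + 1 = j then √(c j) else if j + 1 = i then √(c i) else 0

/-- block: rows and columns `s, ..., s + m - 1` -/
def blk (a c : ℕ → ℝ) (s m : ℕ) : Matrix (Fin m) (Fin m) ℝ :=
  Matrix.of fun i j => T a c (s + i) (s + j)

/-- the list of sites of the block -/
def sit (a c : ℕ → ℝ) (s m : ℕ) : List (ℝ × ℝ) := (List.range m).map fun i => (a (s + i), c (s + i))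

/-- CPL (uses S_MUL). Characteristic polynomial of a block by transfer matrices. -/
def S_CPL : Prop :=
  ∀ (a c : ℕ → ℝ), (∀ i, 0 ≤ c i) → ∀ k s,
    (cpl k (sit a c s (2 ^ k - 1))).length = 2 ^ k ∧
    toPoly (cpl k (sit a c s (2 ^ k - 1))) = (blk a c s (2 ^ k - 1)).charpoly

/-! ## Part A: sorted eigenvalues, Ky Fan, the convex potential -/

/-- the list of the real eigenvalues (with multiplicity) in increasing order -/
def evs {n : ℕ} (M : Matrix (Fin n) (Fin n) ℝ) : List ℝ := M.charpoly.roots.sort (· ≤ ·)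

/-- the `i`-th eigenvalue in increasing order, `i = 0, ..., n - 1` -/
def ev {n : ℕ} (M : Matrix (Fin n) (Fin n) ℝ) (i : ℕ) : ℝ := (evs M).getD i 0

/-- the potential -/
def H {n : ℕ} (M : Matrix (Fin n) (Fin n) ℝ) : ℝ := ∑ i ∈ Finset.range n, ((i : ℝ) + 1) * ev M i

/-- EVB. The sorted eigenvalues of a real symmetric matrix have an orthonormal basis of
eigenvectors. -/
def S_EVB : Prop :=
  ∀ (n : ℕ) (M : Matrix (Fin n) (Fin n) ℝ), M.IsHermitian →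
    (evs M).length = n ∧
    (∀ i j, i ≤ j → j < n → ev M i ≤ ev M j) ∧
    ∃ w : Fin n → Fin n → ℝ,
      (∀ i j, w i ⬝ᵥ w j = if i = j then 1 else 0) ∧
      (∀ i, M.mulVec (w i) = ev M i • w i)

/-- KYF (uses S_EVB). Ky Fan's inequality: for `m` orthonormal vectors. -/
def S_KYF : Prop :=
  ∀ (n m : ℕ) (M : Matrix (Fin n) (Fin n) ℝ), M.IsHermitian → m ≤ n →
    ∀ v : Fin m → Fin n → ℝ, (∀ i j, v i ⬝ᵥ v j = if i = j then 1 else 0) →
      ∑ i, v i ⬝ᵥ M.mulVec (v i) ≤ ∑ i ∈ Finset.range m, ev M (n - 1 - i)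

/-- position operator `diag (1, ..., n)` -/
def Xm (n : ℕ) : Matrix (Fin n) (Fin n) ℝ := Matrix.diagonal fun i => (i : ℝ) + 1

/-- CVX (uses S_EVB, S_KYF). If there are two approximate eigenvectors for `lam` with different
positions, then `H` has a kink at `M`. -/
def S_CVX : Prop :=
  ∀ (n : ℕ) (M : Matrix (Fin n) (Fin n) ℝ), 1 ≤ n → M.IsHermitian →
    ∀ (k : ℕ) (t r lam : ℝ) (phi psi : Fin n → ℝ), k < n → lam = ev M k → 0 < t → 0 ≤ r →
      r ≤ t / (1024 * n) →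
      phi ⬝ᵥ phi = 1 → psi ⬝ᵥ psi = 1 →
      (M.mulVec phi - lam • phi) ⬝ᵥ (M.mulVec phi - lam • phi) ≤ r ^ 2 →
      (M.mulVec psi - lam • psi) ⬝ᵥ (M.mulVec psi - lam • psi) ≤ r ^ 2 →
      1 ≤ psi ⬝ᵥ (Xm n).mulVec psi - phi ⬝ᵥ (Xm n).mulVec phi →
      t / 2 ≤ H (M + t • Xm n) + H (M - t • Xm n) - 2 * H M

/-- INC (uses S_EVB, S_KYF). -/
def S_INC : Prop :=
  ∀ (n : ℕ) (M : Matrix (Fin n) (Fin n) ℝ), M.IsHermitian → ∀ t : ℝ, 0 ≤ t →
    0 ≤ H (M + t • Xm n) - H M ∧ H (M + t • Xm n) - H M ≤ t * n ^ 3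

/-- WRO (no hypotheses). Two orthonormal eigenvectors with close eigenvalues of a real symmetric
tridiagonal matrix give two approximate eigenvectors with different positions. -/
def S_WRO : Prop :=
  ∀ (n : ℕ) (a c : ℕ → ℝ), 1 ≤ n →
    ∀ (u v : Fin n → ℝ) (lam lam' r : ℝ),
      u ⬝ᵥ u = 1 → v ⬝ᵥ v = 1 → u ⬝ᵥ v = 0 →
      (blk a c 0 n).mulVec u = lam • u → (blk a c 0 n).mulVec v = lam' • v →
      lam ≤ lam' → 0 < r → lam' - lam ≤ r / (1024 * n ^ 2) →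
      ∃ phi psi : Fin n → ℝ, phi ⬝ᵥ phi = 1 ∧ psi ⬝ᵥ psi = 1 ∧
        ((blk a c 0 n).mulVec phi - lam • phi) ⬝ᵥ ((blk a c 0 n).mulVec phi - lam • phi)
          ≤ 144 * n * r ^ 2 ∧
        ((blk a c 0 n).mulVec psi - lam • psi) ⬝ᵥ ((blk a c 0 n).mulVec psi - lam • psi)
          ≤ 144 * n * r ^ 2 ∧
        1 ≤ psi ⬝ᵥ (Xm n).mulVec psi - phi ⬝ᵥ (Xm n).mulVec phi

/-- GAP (uses S_EVB, S_CVX, S_WRO). No kink, no small gap. -/
def S_GAP : Prop :=
  ∀ (n : ℕ) (a c : ℕ → ℝ) (t : ℝ), 1 ≤ n → 0 < t →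
    H (blk a c 0 n + t • Xm n) + H (blk a c 0 n - t • Xm n) - 2 * H (blk a c 0 n) < t / 2 →
    ∀ i, i + 1 < n → t / (2 ^ 24 * n ^ 4) < ev (blk a c 0 n) (i + 1) - ev (blk a c 0 n) i

/-! ## Part C: approximation of the eigenvalues -/

/-- sorted eigenvalues of the two parts after removing the middle site of a block of length
`2 * m + 1` -/
def mu (a c : ℕ → ℝ) (s m : ℕ) : List ℝ :=
  ((evs (blk a c s m) : Multiset ℝ) + (evs (blk a c (s + m + 1) m) : Multiset ℝ)).sort (· ≤ ·)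

/-- ITL (uses S_EVB, S_KYF if useful). Cauchy interlacing. -/
def S_ITL : Prop :=
  ∀ (a c : ℕ → ℝ) (s m : ℕ),
    (mu a c s m).length = 2 * m ∧
    ∀ i, i < 2 * m →
      ev (blk a c s (2 * m + 1)) i ≤ (mu a c s m).getD i 0 ∧
      (mu a c s m).getD i 0 ≤ ev (blk a c s (2 * m + 1)) (i + 1)

/-- PAR (uses S_EVB, S_ITL). Parity of the characteristic polynomial decides the position of a
point between two consecutive eigenvalues of the two parts. -/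
def S_PAR : Prop :=
  ∀ (a c : ℕ → ℝ) (s m i : ℕ) (x : ℝ), i ≤ 2 * m →
    (i = 0 ∨ (mu a c s m).getD (i - 1) 0 < x) → (i = 2 * m ∨ x < (mu a c s m).getD i 0) →
    (0 ≤ (-1) ^ i * (blk a c s (2 * m + 1)).charpoly.eval x ↔
      ev (blk a c s (2 * m + 1)) i ≤ x)

/-- MRG (no hypotheses). The merge of sorted approximations approximates the sorted union. -/
def S_MRG : Prop :=
  ∀ (x y x' y' : List ℝ) (e : ℝ), x.Pairwise (· ≤ ·) → y.Pairwise (· ≤ ·) →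
    x'.Pairwise (· ≤ ·) → y'.Pairwise (· ≤ ·) → x.length = x'.length → y.length = y'.length →
    (∀ i < x.length, |x.getD i 0 - x'.getD i 0| ≤ e) →
    (∀ i < y.length, |y.getD i 0 - y'.getD i 0| ≤ e) →
    (mrg x y).Pairwise (· ≤ ·) ∧ (mrg x y).length = x.length + y.length ∧
    ∀ i < x.length + y.length,
      |(mrg x y).getD i 0 - (((x' : Multiset ℝ) + (y' : Multiset ℝ)).sort (· ≤ ·)).getD i 0| ≤ e

/-- BIS (no hypotheses). The simultaneous bisection, if all tests are given by `ok i x` (the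
eigenvalue number `i` is at most `x`), monotone in `x`. Here `lo, hi` are the initial lists. -/
def S_BIS : Prop :=
  ∀ (k J : ℕ) (p lo hi : List ℝ) (lam : ℕ → ℝ), lo.length = 2 ^ k - 1 → hi.length = 2 ^ k - 1 →
    (∀ i < 2 ^ k - 1, lo.getD i 0 ≤ hi.getD i 0) →
    (∀ (x : List ℝ), x.length = 2 ^ k → (∀ i < 2 ^ k - 1, lo.getD i 0 ≤ x.getD i 0 ∧
        x.getD i 0 ≤ hi.getD i 0) → (mpe k p x).length = 2 ^ k ∧
      ∀ i < 2 ^ k - 1, lo.getD i 0 < hi.getD i 0 →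
        (0 ≤ (-1) ^ i * (mpe k p x).getD i 0 ↔ lam i ≤ x.getD i 0)) →
    ((bstep k p)^[J] (lo, hi)).1.length = 2 ^ k - 1 ∧
    ∀ i < 2 ^ k - 1,
      lo.getD i 0 ≤ ((bstep k p)^[J] (lo, hi)).1.getD i 0 ∧
      ((bstep k p)^[J] (lo, hi)).1.getD i 0 ≤ hi.getD i 0 ∧
      (lo.getD i 0 ≤ lam i → lam i ≤ hi.getD i 0 →
        |((bstep k p)^[J] (lo, hi)).1.getD i 0 - lam i| ≤ (hi.getD i 0 - lo.getD i 0) / 2 ^ J) ∧
      (lam i < lo.getD i 0 →
        ((bstep k p)^[J] (lo, hi)).1.getD i 0 = lo.getD i 0) ∧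
      (hi.getD i 0 < lam i →
        hi.getD i 0 - ((bstep k p)^[J] (lo, hi)).1.getD i 0
          ≤ (hi.getD i 0 - lo.getD i 0) / 2 ^ J)

/-- EIG (uses S_EVB, S_MPE, S_CPL, S_PAR, S_MRG, S_BIS, S_BND). -/
def S_EIG : Prop :=
  ∀ (a c : ℕ → ℝ) (J : ℕ), (∀ i, 0 ≤ c i) → (∀ i, |a i| + √(c i) + √(c (i + 1)) ≤ 4) → ∀ k s,
    (eig J (8 / 2 ^ J) k (sit a c s (2 ^ k - 1))).length = 2 ^ k - 1 ∧
    (eig J (8 / 2 ^ J) k (sit a c s (2 ^ k - 1))).Pairwise (· ≤ ·) ∧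
    ∀ i < 2 ^ k - 1,
      |(eig J (8 / 2 ^ J) k (sit a c s (2 ^ k - 1))).getD i 0 - ev (blk a c s (2 ^ k - 1)) i|
        ≤ 4 ^ k * (8 / 2 ^ J)

/-- BND (uses S_EVB). Gershgorin. -/
def S_BND : Prop :=
  ∀ (a c : ℕ → ℝ) (s m : ℕ) (B : ℝ), (∀ i, |a i| + √(c i) + √(c (i + 1)) ≤ B) →
    ∀ i < m, |ev (blk a c s m) i| ≤ B

/-- SPL (uses S_EVB, S_BND). Decoupled sites of value `4` at the end. -/
def S_SPL : Prop :=
  ∀ (a c : ℕ → ℝ) (n m : ℕ), n ≤ m → (∀ i, |a i| + √(c i) + √(c (i + 1)) ≤ 4) →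
    (∀ i, n ≤ i → a i = 4 ∧ c i = 0) →
    ∀ i < n, ev (blk a c 0 m) i = ev (blk a c 0 n) i

/-- BSR (no hypotheses). The search. -/
def S_BSR : Prop :=
  ∀ (h : ℝ → ℝ) (t : ℝ) (K : ℕ), ∃ L : ℕ, L < 2 ^ K ∧
    bsr h t K 0 (2 ^ K * t) = L * t ∧
    (h (L * t + t + t) - h (L * t + t)) - (h (L * t + t) - h (L * t)) ≤
      ((h (2 ^ K * t + t) - h (2 ^ K * t)) - (h (0 + t) - h 0)) / 2 ^ K

end H94FG
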