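import Pool.Agent.H94.FG.Defs

set_option autoImplicit false

/-!
# Tools for the construction of programs

Environment style: all functions have the same argument `x : α`.
-/

noncomputable section
namespace H94FG.Alg

variable {α β γ ε : Type}

theorem congr {f g : α → β} {c d : α → ℕ} (h : Alg f c) (hf : ∀ x, f x = g x)
    (hc : ∀ x, c x ≤ d x) : Alg g d := by
  have : f = g := funext hf
  subst this
  exact h.le hc

theorem un {f : α → β} {op : β → γ} {c : α → ℕ} {K : ℕ} (hf : Alg f c)
    (hop : Alg op (fun _ => K)) : Alg (fun x => op (f x)) (fun x => c x + K) := hf.comp hop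

theorem bin {f : α → β} {g : α → γ} {op : β × γ → ε} {c d : α → ℕ} {K : ℕ} (hf : Alg f c)
    (hg : Alg g d) (hop : Alg op (fun _ => K)) :
    Alg (fun x => op (f x, g x)) (fun x => c x + d x + K) := (hf.pair hg).comp hop

theorem fst' {f : α → β × γ} {c : α → ℕ} (hf : Alg f c) : Alg (fun x => (f x).1) c :=
  (hf.comp Alg.fst).congr (fun _ => rfl) (fun _ => le_rfl)

theorem snd' {f : α → β × γ} {c : α → ℕ} (hf : Alg f c) : Alg (fun x => (f x).2) c :=
  (hf.comp Alg.snd).congr (fun _ => rfl) (fun _ => le_rfl)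

section arith
variable {f g : α → ℂ} {c d : α → ℕ}

theorem add' (hf : Alg f c) (hg : Alg g d) : Alg (fun x => f x + g x) (fun x => c x + d x + 1) :=
  hf.bin hg Alg.add

theorem sub' (hf : Alg f c) (hg : Alg g d) : Alg (fun x => f x - g x) (fun x => c x + d x + 1) :=
  hf.bin hg Alg.sub

theorem mul' (hf : Alg f c) (hg : Alg g d) : Alg (fun x => f x * g x) (fun x => c x + d x + 1) :=
  hf.bin hg Alg.mul

theorem div' (hf : Alg f c) (hg : Alg g d) : Alg (fun x => f x / g x) (fun x => c x + d x + 1) :=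
  hf.bin hg Alg.div

theorem zero' : Alg (fun _ : α => (0 : ℂ)) (fun _ => 1) :=
  (Alg.one.sub' Alg.one).congr (fun _ => by simp) (fun _ => by simp)

theorem neg' (hf : Alg f c) : Alg (fun x => - f x) (fun x => c x + 2) :=
  (zero'.sub' hf).congr (fun _ => by simp) (fun _ => by omega)

/-- every natural number is a constant complex function -/
theorem cnat (n : ℕ) : ∃ K : ℕ, Alg (fun _ : α => (n : ℂ)) (fun _ => K) := by
  induction n with
  | zero => exact ⟨1, zero'.congr (fun _ => by simp) (fun _ => le_rfl)⟩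
  | succ n ih =>
    obtain ⟨K, hK⟩ := ih
    exact ⟨K + 1, (hK.add' Alg.one).congr (fun _ => by push_cast; ring) (fun _ => by simp)⟩

/-- comparison -/
theorem sel' {h : α → ℂ} {e : α → ℕ} (hh : Alg h e) (hf : Alg f c) (hg : Alg g d) :
    Alg (fun x => if 0 ≤ (h x).re then f x else g x) (fun x => e x + (c x + d x) + 1) :=
  (hh.bin (hf.pair hg) Alg.sel).congr (fun _ => rfl) (fun _ => by simp)

/-- the imaginary unit -/
theorem im' : Alg (fun _ : α => Complex.I) (fun _ => 1) := by
  refine ((Alg.nat 2).comp Alg.unity).congr (fun _ => ?_) (fun _ => by simp)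
  have : 2 * (Real.pi : ℂ) * Complex.I / 2 ^ 2 = Real.pi / 2 * Complex.I := by ring
  rw [this, Complex.exp_pi_div_two_mul_I]

end arith

/-- local definitions -/
theorem letIn {g : α → β} {h : α → β → γ} {cg : α → ℕ} {ch : α × β → ℕ} (hg : Alg g cg)
    (hh : Alg (fun p : α × β => h p.1 p.2) ch) :
    Alg (fun x => h x (g x)) (fun x => cg x + ch (x, g x)) :=
  ((Alg.id.pair hg).comp hh).congr (fun _ => rfl) (fun _ => by simp)

/-- call of a program -/
theorem call {f : α → β} {g : β → γ} {c : α → ℕ} {d : β → ℕ} (hg : Alg g d) (hf : Alg f c) :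
    Alg (fun x => g (f x)) (fun x => c x + d (f x)) := hf.comp hg

theorem natAdd' {f g : α → ℕ} {c d : α → ℕ} (hf : Alg f c) (hg : Alg g d) :
    Alg (fun x => f x + g x) (fun x => c x + d x) :=
  (hf.bin hg Alg.natAdd).congr (fun _ => rfl) (fun _ => le_rfl)

theorem natSub' {f g : α → ℕ} {c d : α → ℕ} (hf : Alg f c) (hg : Alg g d) :
    Alg (fun x => f x - g x) (fun x => c x + d x) :=
  (hf.bin hg Alg.natSub).congr (fun _ => rfl) (fun _ => le_rfl)

theorem natMul' {f g : α → ℕ} {c d : α → ℕ} (hf : Alg f c) (hg : Alg g d) :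
    Alg (fun x => f x * g x) (fun x => c x + d x) :=
  (hf.bin hg Alg.natMul).congr (fun _ => rfl) (fun _ => le_rfl)

theorem cons' {f : α → β} {g : α → List β} {c d : α → ℕ} (hf : Alg f c) (hg : Alg g d) :
    Alg (fun x => f x :: g x) (fun x => c x + d x) :=
  (hf.bin hg Alg.cons).congr (fun _ => rfl) (fun _ => le_rfl)

theorem append' {f g : α → List β} {c d : α → ℕ} (hf : Alg f c) (hg : Alg g d) :
    Alg (fun x => f x ++ g x) (fun x => c x + d x) :=
  (hf.bin hg Alg.append).congr (fun _ => rfl) (fun _ => le_rfl)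

theorem reverse' {f : α → List β} {c : α → ℕ} (hf : Alg f c) :
    Alg (fun x => (f x).reverse) c :=
  (hf.un Alg.reverse).congr (fun _ => rfl) (fun _ => le_rfl)

theorem take' {f : α → ℕ} {g : α → List β} {c d : α → ℕ} (hf : Alg f c) (hg : Alg g d) :
    Alg (fun x => (g x).take (f x)) (fun x => c x + d x) :=
  (hf.bin hg Alg.take).congr (fun _ => rfl) (fun _ => le_rfl)

theorem drop' {f : α → ℕ} {g : α → List β} {c d : α → ℕ} (hf : Alg f c) (hg : Alg g d) :
    Alg (fun x => (g x).drop (f x)) (fun x => c x + d x) :=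
  (hf.bin hg Alg.drop).congr (fun _ => rfl) (fun _ => le_rfl)

theorem zip' {f : α → List β} {g : α → List γ} {c d : α → ℕ} (hf : Alg f c) (hg : Alg g d) :
    Alg (fun x => (f x).zip (g x)) (fun x => c x + d x) :=
  (hf.bin hg Alg.zip).congr (fun _ => rfl) (fun _ => le_rfl)

/-- `map` with a body which may use the environment -/
theorem map' {F : α → β → γ} {l : α → List β} {cF : α × β → ℕ} {cl : α → ℕ}
    (hF : Alg (fun p : α × β => F p.1 p.2) cF) (hl : Alg l cl) :
    Alg (fun x => (l x).map (F x)) (fun x => cl x + ((l x).map fun b => cF (x, b)).sum) :=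
  ((Alg.id.pair hl).comp (Alg.map hF)).congr (fun _ => rfl) (fun _ => by simp)

theorem sum_map_const (l : List β) (K : ℕ) : (l.map fun _ => K).sum = K * l.length := by
  induction l with
  | nil => simp
  | cons a l ih => simp [ih]; ring

/-- `map` with a body of constant cost -/
theorem mapK {F : α → β → γ} {l : α → List β} {K : ℕ} {cl : α → ℕ}
    (hF : Alg (fun p : α × β => F p.1 p.2) (fun _ => K)) (hl : Alg l cl) :
    Alg (fun x => (l x).map (F x)) (fun x => cl x + K * (l x).length) :=
  (map' hF hl).congr (fun _ => rfl) (fun x => by rw [sum_map_const])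

/-- `zipWith` with a body of constant cost -/
theorem zipWithK {F : α → β → γ → ε} {l : α → List β} {m : α → List γ} {K : ℕ} {cl cm : α → ℕ}
    (hF : Alg (fun p : α × β × γ => F p.1 p.2.1 p.2.2) (fun _ => K)) (hl : Alg l cl)
    (hm : Alg m cm) :
    Alg (fun x => List.zipWith (F x) (l x) (m x)) (fun x => cl x + cm x + K * (l x).length) := by
  refine (mapK (F := fun x (q : β × γ) => F x q.1 q.2) hF (hl.zip' hm)).congr (fun x => ?_)
    (fun x => ?_)
  · rw [List.zip_eq_zipWith, List.map_zipWith]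
  · have : ((l x).zip (m x)).length ≤ (l x).length := by
      rw [List.length_zip]; exact min_le_left _ _
    have := Nat.mul_le_mul_left K this
    omega

/-- loop with a body of constant cost -/
theorem loopK {s : α → α} {K : ℕ} {n : ε → ℕ} {i : ε → α} {cn ci : ε → ℕ}
    (hs : Alg s (fun _ => K)) (hn : Alg n cn) (hi : Alg i ci) :
    Alg (fun x => s^[n x] (i x)) (fun x => cn x + ci x + K * n x) :=
  ((hn.pair hi).comp (Alg.loop hs)).congr (fun _ => rfl) (fun x => by simp [mul_comm])

/-- `2 ^ k` -/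
theorem two_pow : Alg (fun k : ℕ => 2 ^ k) (fun _ => 0) := by
  refine (loopK (s := fun m : ℕ => 2 * m) (n := fun k : ℕ => k) (i := fun _ => 1) (K := 0)
    ((Alg.nat 2).natMul' Alg.id) Alg.id (Alg.nat 1)).congr (fun k => ?_) (fun _ => by simp)
  induction k with
  | zero => simp
  | succ k ih => rw [Function.iterate_succ_apply', ih, pow_succ]; ring

theorem two_pow' {f : α → ℕ} {c : α → ℕ} (hf : Alg f c) : Alg (fun x => 2 ^ f x) c :=
  (hf.un two_pow).congr (fun _ => rfl) (fun _ => le_rfl)

/-- `List.replicate` -/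
theorem replicate' {f : α → ℕ} {g : α → β} {c d : α → ℕ} (hf : Alg f c) (hg : Alg g d) :
    Alg (fun x => List.replicate (f x) (g x)) (fun x => c x + d x) := by
  have h : Alg (fun p : ℕ × β => List.replicate p.1 p.2) (fun _ => 0) := by
    have h1 : Alg (fun q : β × List β => (q.1, q.1 :: q.2)) (fun _ => 0) :=
      (Alg.fst.pair (Alg.fst.cons' Alg.snd)).congr (fun _ => rfl) (fun _ => le_rfl)
    refine (snd' (loopK (n := fun p : ℕ × β => p.1) (i := fun p => (p.2, [])) h1 Alg.fst
      (Alg.snd.pair Alg.nil))).congr (fun p => ?_) (fun _ => by simp)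
    obtain ⟨n, b⟩ := p
    have : ∀ n : ℕ, (fun q : β × List β => (q.1, q.1 :: q.2))^[n] (b, []) =
        (b, List.replicate n b) := by
      intro n
      induction n with
      | zero => rfl
      | succ n ih => rw [Function.iterate_succ_apply', ih]; rfl
    simp only [this]
  exact (hf.bin hg h).congr (fun _ => rfl) (fun _ => by simp)

/-- `List.range` -/
theorem range' {f : α → ℕ} {c : α → ℕ} (hf : Alg f c) : Alg (fun x => List.range (f x)) c := by
  have h : Alg (fun n : ℕ => List.range n) (fun _ => 0) := by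
    have h1 : Alg (fun q : ℕ × List ℕ => (q.1 + 1, q.1 :: q.2)) (fun _ => 0) :=
      ((Alg.fst.natAdd' (Alg.nat 1)).pair (Alg.fst.cons' Alg.snd)).congr (fun _ => rfl)
        (fun _ => by simp)
    refine ((snd' (loopK (n := fun n : ℕ => n) (i := fun _ => (0, [])) h1 Alg.id
      ((Alg.nat 0).pair Alg.nil))).reverse').congr (fun n => ?_) (fun _ => by simp)
    have : ∀ n : ℕ, (fun q : ℕ × List ℕ => (q.1 + 1, q.1 :: q.2))^[n] (0, []) =
        (n, (List.range n).reverse) := by
      intro n
      induction n with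
      | zero => simp
      | succ n ih => rw [Function.iterate_succ_apply', ih]; simp [List.range_succ]
    simp only [this, List.reverse_reverse]
  exact (hf.un h).congr (fun _ => rfl) (fun _ => by simp)

/-- `List.headD` -/
theorem headD' {f : α → List β} {g : α → β} {c d : α → ℕ} (hf : Alg f c) (hg : Alg g d) :
    Alg (fun x => (f x).headD (g x)) (fun x => c x + d x) := by
  refine ((Alg.id.pair hf).comp (Alg.caseList (g := g) (h := fun q : α × β × List β => q.2.1) hg
    (fst' Alg.snd))).congr (fun x => ?_) (fun x => ?_)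
  · cases f x <;> simp
  · cases f x <;> simp

/-- two recursive calls (divide and conquer) -/
def S2 (G : ℕ) (e : ℕ → ℕ) : ℕ → ℕ
  | 0 => G
  | k + 1 => 2 * S2 G e k + e k

/-- recursion with two successive recursive calls -/
theorem recS {F : ℕ → α → β} {g : α → β} {s : ℕ × α → α} {t : ℕ × α × β → α}
    {h : ℕ × α × β × β → β} {G : ℕ} {cs ct ch : ℕ → ℕ}
    (hg : Alg g (fun _ => G)) (hs : Alg s (fun p => cs p.1)) (ht : Alg t (fun p => ct p.1))
    (hh : Alg h (fun p => ch p.1))
    (h0 : ∀ x, F 0 x = g x)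
    (h1 : ∀ k x, F (k + 1) x =
      h (k, x, F k (s (k, x)), F k (t (k, x, F k (s (k, x)))))) :
    Alg (fun p : ℕ × α => F p.1 p.2) (fun p => S2 G (fun k => cs k + ct k + ch k) p.1) := by
  refine (Alg.recur hg hs ht hh).congr (fun p => ?_) (fun p => ?_)
  · obtain ⟨k, x⟩ := p
    show rcr g s t h k x = F k x
    induction k generalizing x with
    | zero => rw [h0]; rfl
    | succ k ih =>
      rw [h1]
      show h (k, x, rcr g s t h k (s (k, x)), rcr g s t h k (t (k, x, rcr g s t h k (s (k, x))))) = _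
      rw [ih, ih]
  · obtain ⟨k, x⟩ := p
    show rcrCost g s t h _ _ _ _ k x ≤ S2 G _ k
    induction k generalizing x with
    | zero => exact le_rfl
    | succ k ih =>
      have ih1 := ih (s (k, x))
      have ih2 := ih (t (k, x, rcr g s t h k (s (k, x))))
      simp only [rcrCost, S2]
      omega

/-- recursion with two independent recursive calls -/
theorem rec2 {F : ℕ → α → β} {g : α → β} {l r : ℕ × α → α} {h : ℕ × α × β × β → β} {G : ℕ}
    {cl cr ch : ℕ → ℕ}
    (hg : Alg g (fun _ => G)) (hl : Alg l (fun p => cl p.1)) (hr : Alg r (fun p => cr p.1))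
    (hh : Alg h (fun p => ch p.1))
    (h0 : ∀ x, F 0 x = g x) (h1 : ∀ k x, F (k + 1) x = h (k, x, F k (l (k, x)), F k (r (k, x)))) :
    Alg (fun p : ℕ × α => F p.1 p.2) (fun p => S2 G (fun k => cl k + cr k + ch k) p.1) := by
  have hr' : Alg (fun p : ℕ × α × β => r (p.1, p.2.1)) (fun p => cr p.1) :=
    ((Alg.fst.pair (fst' Alg.snd)).comp hr).congr (fun _ => rfl) (fun _ => by simp)
  exact recS hg hl hr' hh h0 h1

/-- bound for the divide and conquer recursion -/
theorem S2_le {G K j : ℕ} {e : ℕ → ℕ} (hG : G ≤ K) (he : ∀ k, e k ≤ K * (k + 1) ^ j * 2 ^ k) :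
    ∀ k, S2 G e k ≤ K * (k + 1) ^ (j + 1) * 2 ^ k := by
  intro k
  induction k with
  | zero => simpa [S2] using hG
  | succ k ih =>
    have h1 := he k
    have h2 : (k + 1) ^ (j + 1) + (k + 1) ^ j ≤ (k + 2) ^ (j + 1) := by
      have : (k + 1) ^ (j + 1) + (k + 1) ^ j = (k + 1) ^ j * (k + 2) := by ring
      rw [this, pow_succ]
      exact Nat.mul_le_mul_right _ (Nat.pow_le_pow_left (by omega) _)
    calc S2 G e (k + 1) = 2 * S2 G e k + e k := rfl
      _ ≤ 2 * (K * (k + 1) ^ (j + 1) * 2 ^ k) + K * (k + 1) ^ j * 2 ^ k := by omega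
      _ ≤ K * 2 ^ (k + 1) * ((k + 1) ^ (j + 1) + (k + 1) ^ j) := by
          rw [pow_succ 2 k]
          nlinarith [Nat.zero_le (K * 2 ^ k * (k + 1) ^ j)]
      _ ≤ K * 2 ^ (k + 1) * (k + 2) ^ (j + 1) := Nat.mul_le_mul_left _ h2
      _ = K * (k + 1 + 1) ^ (j + 1) * 2 ^ (k + 1) := by ring

end H94FG.Alg
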