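import Pool.Agent.H94.FG.DefsC
import Pool.Agent.H94.FG.Spec
import Pool.Agent.H94.FG.Tools
import Pool.Agent.H22.NL.Stm

set_option autoImplicit false

/-!
# Project NU (MP_26b317_lc, Q2): statements for the uniform norm-free algorithm

The functions `cont`, `FF`, `GG`, `nxt`, `eu`, `lc`, `Vof`, `V2`, `Wz`, `srch`, `tsol` are those of
`Pool.Agent.H22.NL.Defs`. Each stub `S_XXX` is proved in `Pool/Agent/H94/FG/XXX.lean`, namespace
`H94FG.XXX`, as `theorem main : S_A → S_B → S_XXX`, with the stubs it may use as hypotheses.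
-/

open Polynomial Pool.Agent.H22.NL

noncomputable section
namespace H94FG

/-- the list of the sites `(α i, γ (i - 1))`, `i < n` (for `i = 0` the second entry is `0`) -/
def sts (α γ : ℕ → ℂ) (n : ℕ) : List (ℂ × ℂ) :=
  (List.range n).map fun i : ℕ => (α i, if i = 0 then 0 else γ (i - 1))

/-- the first `m` members of a sequence -/
def sq (F : ℕ → ℂ) (m : ℕ) : List ℂ := (List.range m).map F

/-! ## Correctness -/

/-- OM (no hypotheses). -/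
def S_OM : Prop := ∀ k, om k = Complex.exp (2 * Real.pi * Complex.I / 2 ^ k)

/-- MULC (uses S_FFT); like MUL. -/
def S_MULC : Prop :=
  (∀ k (a b : List ℂ), (mulC k a b).length ≤ 2 ^ (k + 1)) ∧
  ∀ k (a b : List ℂ), a.length = 2 ^ k → b.length = 2 ^ k →
    (mulC k a b).length = 2 ^ (k + 1) ∧ toPoly (mulC k a b) = toPoly a * toPoly b

/-- CPC (uses S_MULC); like CPL. -/
def S_CPC : Prop :=
  ∀ k (α γ : ℕ → ℂ) (τ : ℂ),
    (cpC k (sts α γ (2 ^ k)) τ).length = 2 ^ (k + 1) ∧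
    toPoly (cpC k (sts α γ (2 ^ k)) τ) = (cont (fun i => α i - τ) γ (2 ^ k)).1

/-- HG (uses S_MULC). Divide and conquer for the continued fraction algorithm. Proof by induction
on `l` of the stronger statement: the four entries of `A = (hg l _).1` have length `2 ^ (l + 2)`,
the list of the leading coefficients is right, and for every `i` the coefficient number
`i + 2 ^ (l + 1)` of `A₁₁ F + A₁₂ G` (Cauchy products with the whole sequences) is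
`(eu F G (2 ^ l)).1 i`, that of `A₂₁ F + A₂₂ G` is `(eu F G (2 ^ l)).2 i` and the coefficients with
a number `< 2 ^ (l + 1)` are `0`. -/
def S_HG : Prop :=
  ∀ (l : ℕ) (F G : ℕ → ℂ), (∀ k < 2 ^ l, lc F G k ≠ 0) →
    (hg l (sq F (2 ^ (l + 1)), sq G (2 ^ (l + 1)))).2 = sq (lc F G) (2 ^ l)

/-- V2 (uses S_CPC, S_HG). -/
def S_V2 : Prop :=
  ∀ (k : ℕ) (α γ : ℕ → ℂ) (σ : ℂ),
    (∀ i < 2 ^ k, lc (FF (2 ^ k) α γ σ) (GG (2 ^ k) α γ σ) i ≠ 0) →
    v2 k (sts α γ (2 ^ k)) σ = V2 (2 ^ k) α γ σ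

/-- WZ (uses S_V2). -/
def S_WZ : Prop :=
  ∀ (k K : ℕ) (α γ : ℕ → ℂ) (ε t : ℂ),
    (∀ m ≤ K, ∀ i < 2 ^ k,
      lc (FF (2 ^ k) (fun i => α i + t * ((i : ℂ) + 1)) γ (16 ^ m * ε / 2))
        (GG (2 ^ k) (fun i => α i + t * ((i : ℂ) + 1)) γ (16 ^ m * ε / 2)) i ≠ 0) →
    wz k K (sts α γ (2 ^ k)) ε t = Wz (2 ^ k) K α γ ε t

/-- TSO (uses S_B, S_WZ). The search only uses real parameters, where S_B gives the hypothesis of
S_WZ (for `pert a t`). -/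
def S_TSO : Prop :=
  ∀ a : ℕ → ℕ → ℂ, HT a → ∀ (j : ℕ) (δ : ℝ), 0 < δ →
    tsolC j (sts (fun i => a i i) (fun i => a i (i + 1) * a (i + 1) i) (2 ^ j)) δ =
      tsol j (fun i => a i i) (fun i => a i (i + 1) * a (i + 1) i) δ

/-- KKN (no hypotheses). -/
def S_KKN : Prop := ∀ n : ℕ, 1 ≤ n → kk (n - 1) = Nat.clog 2 n

/-- The entry of `A` with natural number indices (starting from `0`); it is `0` outside. -/
def entry {n : ℕ} (A : Matrix (Fin n) (Fin n) ℂ) (i j : ℕ) : ℂ :=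
  if h : i < n ∧ j < n then A ⟨i, h.1⟩ ⟨j, h.2⟩ else 0

/-- The input data of the algorithm: the list of the entries on the three central diagonals,
row by row (`j = 0, ..., n - 1`): `(A_{j,j}, A_{j,j+1}, A_{j+1,j})`. -/
def encode {n : ℕ} (A : Matrix (Fin n) (Fin n) ℂ) : List (ℂ × ℂ × ℂ) :=
  List.ofFn fun j : Fin n => (entry A j j, entry A j (j + 1), entry A (j + 1) j)

/-- STE (no hypotheses). -/
def S_STE : Prop :=
  ∀ (n j : ℕ) (A : Matrix (Fin n) (Fin n) ℂ), n ≤ 2 ^ j →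
    stC j (encode A) =
      sts (fun k => entry A k k) (fun k => entry A k (k + 1) * entry A (k + 1) k) (2 ^ j)

/-! ## Cost (use Pool/Agent/H94/FG/Tools.lean) -/

/-- CPW (no hypotheses): powers by successive multiplications. -/
def S_CPW : Prop := ∃ K, Alg (fun p : ℂ × ℕ => pw p.1 p.2) (fun p => K * (p.2 + 1))

/-- CRL (no hypotheses): `1, 2, ..., m` by successive additions. -/
def S_CRL : Prop := ∃ K, Alg (fun m : ℕ => rlC m) (fun m => K * (m + 1))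

/-- CV (uses S_OM, S_CPW). -/
def S_CV : Prop := ∃ K, Alg (fun p : ℕ × List ℂ => V p.1 p.2) (fun p => K * (p.1 + 1) * 2 ^ p.1)

/-- CW (uses S_OM, S_CPW, S_FFT (for the lengths)). -/
def S_CW : Prop := ∃ K, Alg (fun p : ℕ × List ℂ => W p.1 p.2) (fun p => K * (p.1 + 1) * 2 ^ p.1)

/-- CMUL (uses S_CV, S_CW, S_FFT (for the lengths)). -/
def S_CMUL : Prop :=
  ∃ K, Alg (fun p : ℕ × List ℂ × List ℂ => mulC p.1 p.2.1 p.2.2)
    (fun p => K * (p.1 + 1) * 2 ^ p.1)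

/-- CMM (uses S_CMUL, S_MULC (for the lengths)). -/
def S_CMM : Prop :=
  ∃ K, Alg (fun p : ℕ × MC × MC => mmC p.1 p.2.1 p.2.2) (fun p => K * (p.1 + 1) * 2 ^ p.1)

/-- CCP (uses S_CMM). -/
def S_CCP : Prop :=
  ∃ K, Alg (fun p : ℕ × List (ℂ × ℂ) × ℂ => cpC p.1 p.2.1 p.2.2)
    (fun p => K * (p.1 + 1) ^ 2 * 2 ^ p.1)

/-- CHG (uses S_CMUL, S_CMM, S_MULC (for the lengths)); use `Alg.recS`. -/
def S_CHG : Prop :=
  ∃ K, Alg (fun p : ℕ × List ℂ × List ℂ => hg p.1 p.2) (fun p => K * (p.1 + 1) ^ 2 * 2 ^ p.1)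

/-- CPR (no hypotheses): product of the first `m` members of a list. -/
def S_CPR : Prop :=
  ∃ K, Alg (fun p : ℕ × List ℂ => (p.2.take p.1).prod) (fun p => K * (p.1 + 1))

/-- CV2 (uses S_CCP, S_CHG, S_CPR). -/
def S_CV2 : Prop :=
  ∃ K, Alg (fun p : ℕ × List (ℂ × ℂ) × ℂ => v2 p.1 p.2.1 p.2.2)
    (fun p => K * (p.1 + 1) ^ 2 * 2 ^ p.1)

/-- CWZ (uses S_CV2, S_CRL, S_CPR). The power `128 ^ m` by `7 m` squarings. -/
def S_CWZ : Prop :=
  ∃ K, Alg (fun p : (ℕ × ℕ) × List (ℂ × ℂ) × ℂ × ℂ =>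
      wz p.1.1 p.1.2 p.2.1 p.2.2.1 p.2.2.2)
    (fun p => K * (p.1.2 + 1) * ((p.1.1 + 1) ^ 2 * 2 ^ p.1.1 + p.1.2))

/-- CSR (no hypotheses). The search; `W` may depend on an environment `α`. -/
def S_CSR : Prop :=
  ∃ K : ℕ, ∀ (α : Type) (W : α → ℂ → ℂ) (c : α → ℕ),
    Alg (fun p : α × ℂ => W p.1 p.2) (fun p => c p.1) →
    Alg (fun p : α × ℂ × ℂ × ℕ => srchC (W p.1) p.2.1 p.2.2.1 p.2.2.2)
      (fun p => (p.2.2.2 + 1) * (21 * c p.1 + K))

/-- CTS (uses S_CWZ, S_CSR). -/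
def S_CTS : Prop :=
  ∃ K, Alg (fun p : ℕ × List (ℂ × ℂ) × ℂ => tsolC p.1 p.2.1 p.2.2)
    (fun p => K * (p.1 + 1) ^ 4 * 2 ^ p.1)

/-- CKK (no hypotheses). -/
def S_CKK : Prop := Alg kk (fun _ => 0)

/-- CST (no hypotheses). -/
def S_CST : Prop :=
  ∃ K, Alg (fun p : ℕ × List (ℂ × ℂ × ℂ) => stC p.1 p.2) (fun p => K * 2 ^ p.1)

/-- CALG (uses S_CTS, S_CKK, S_CST, S_CRL). -/
def S_CALG : Prop :=
  ∃ K, Alg algo (fun p => K * ((kk (p.1 - 1) + 1) ^ 4 * 2 ^ kk (p.1 - 1) + p.1 + 1))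

end H94FG
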