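import Pool.Agent.H94.FG.Spec

set_option autoImplicit false

/-!
# WRO: two eigenvectors with close eigenvalues give two approximate eigenvectors with different
positions
-/

noncomputable section
namespace H94FG.WRO

open Finset

/-- the tridiagonal operator on sequences -/
def op (a β x : ℕ → ℝ) : ℕ → ℝ
  | 0 => a 0 * x 0 + β 1 * x 1
  | i + 1 => β (i + 1) * x i + a (i + 1) * x (i + 1) + β (i + 2) * x (i + 2)

lemma op_lin (a β x y : ℕ → ℝ) (p q : ℝ) (i : ℕ) :
    op a β (fun j => p * x j + q * y j) i = p * op a β x i + q * op a β y i := by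
  cases i with
  | zero => simp only [op]; ring
  | succ i => simp only [op]; ring

/-- the data -/
structure Dat (n : ℕ) (a β U V : ℕ → ℝ) (lam g r κ : ℝ) : Prop where
  n1 : 1 ≤ n
  β0 : ∀ i, 0 ≤ β i
  U0 : ∀ i, n ≤ i → U i = 0
  V0 : ∀ i, n ≤ i → V i = 0
  eU : ∀ i < n, op a β U i = lam * U i
  eV : ∀ i < n, op a β V i = (lam + g) * V i
  UU : ∑ i ∈ range n, U i ^ 2 = 1
  VV : ∑ i ∈ range n, V i ^ 2 = 1
  UV : ∑ i ∈ range n, U i * V i = 0
  g0 : 0 ≤ g
  r0 : 0 < r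
  κn : 32 * n * κ = 1
  gr : g ≤ κ ^ 2 * r

variable {n : ℕ} {a β U V : ℕ → ℝ} {lam g r κ : ℝ}

/-- the combination -/
def X (U V : ℕ → ℝ) (p q : ℝ) (i : ℕ) : ℝ := p * U i + q * V i

/-- partial mass -/
def Q (x : ℕ → ℝ) (k : ℕ) : ℝ := ∑ i ∈ range k, x i ^ 2

lemma Q_mono (x : ℕ → ℝ) {k l : ℕ} (h : k ≤ l) : Q x k ≤ Q x l :=
  Finset.sum_le_sum_of_subset_of_nonneg (range_subset_range.mpr h) fun _ _ _ => sq_nonneg _

lemma Q_nonneg (x : ℕ → ℝ) (k : ℕ) : 0 ≤ Q x k := Finset.sum_nonneg fun _ _ => sq_nonneg _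

lemma kap (D : Dat n a β U V lam g r κ) : 0 < κ ∧ κ ≤ 1 / 32 := by
  have h1 : (1 : ℝ) ≤ n := by exact_mod_cast D.n1
  have h2 := D.κn
  have h3 : 0 < κ := by
    by_contra h
    push Not at h
    nlinarith
  exact ⟨h3, by nlinarith⟩

/-- the norm of a combination -/
lemma mass (D : Dat n a β U V lam g r κ) (p q : ℝ) : Q (X U V p q) n = p ^ 2 + q ^ 2 := by
  have h1 : Q (X U V p q) n = p ^ 2 * ∑ i ∈ range n, U i ^ 2 + q ^ 2 * ∑ i ∈ range n, V i ^ 2 +
      2 * p * q * ∑ i ∈ range n, U i * V i := by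
    rw [mul_sum, mul_sum, mul_sum, ← sum_add_distrib, ← sum_add_distrib]
    exact sum_congr rfl fun i _ => by simp only [X]; ring
  rw [h1, D.UU, D.VV, D.UV]
  ring

/-- Bessel -/
lemma bessel (D : Dat n a β U V lam g r κ) (i : ℕ) : U i ^ 2 + V i ^ 2 ≤ 1 := by
  rcases lt_or_ge i n with hi | hi
  · have h1 := mass D (U i) (V i)
    have h2 : X U V (U i) (V i) i ^ 2 ≤ Q (X U V (U i) (V i)) n :=
      Finset.single_le_sum (f := fun j => X U V (U i) (V i) j ^ 2) (fun _ _ => sq_nonneg _)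
        (mem_range.mpr hi)
    rw [h1] at h2
    simp only [X] at h2
    by_contra h3
    push Not at h3
    nlinarith
  · rw [D.U0 i hi, D.V0 i hi]
    norm_num

lemma X_sq (p q : ℝ) (h : p ^ 2 + q ^ 2 = 1) (i : ℕ) : X U V p q i ^ 2 ≤ U i ^ 2 + V i ^ 2 := by
  simp only [X]
  have h1 : (p * U i + q * V i) ^ 2 + (p * V i - q * U i) ^ 2 =
      (p ^ 2 + q ^ 2) * (U i ^ 2 + V i ^ 2) := by ring
  rw [h, one_mul] at h1
  nlinarith [sq_nonneg (p * V i - q * U i)]

lemma X_le_one (D : Dat n a β U V lam g r κ) (p q : ℝ) (h : p ^ 2 + q ^ 2 = 1) (i : ℕ) :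
    |X U V p q i| ≤ 1 := by
  rw [← sq_le_one_iff_abs_le_one]
  exact (X_sq p q h i).trans (bessel D i)

/-- partial scalar products -/
lemma part (D : Dat n a β U V lam g r κ) {k : ℕ} (hk : k ≤ n) :
    |∑ i ∈ range k, U i * V i| ≤ 1 := by
  have h1 : ∑ i ∈ range k, U i ^ 2 ≤ 1 := by rw [← D.UU]; exact Q_mono U hk
  have h2 : ∑ i ∈ range k, V i ^ 2 ≤ 1 := by rw [← D.VV]; exact Q_mono V hk
  have h3 : ∀ e : ℝ, e ^ 2 = 1 → e * ∑ i ∈ range k, U i * V i ≤ 1 := by
    intro e he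
    have h4 : e * ∑ i ∈ range k, U i * V i ≤ ∑ i ∈ range k, (U i ^ 2 / 2 + V i ^ 2 / 2) := by
      rw [mul_sum]
      apply sum_le_sum
      intro i _
      nlinarith [sq_nonneg (U i - e * V i)]
    rw [sum_add_distrib, ← sum_div, ← sum_div] at h4
    linarith
  rw [abs_le]
  constructor
  · have := h3 (-1) (by norm_num)
    linarith
  · have := h3 1 (by norm_num)
    linarith

/-- the Wronskian -/
lemma wron (D : Dat n a β U V lam g r κ) (k : ℕ) (hk : k < n) :
    β (k + 1) * (U k * V (k + 1) - U (k + 1) * V k) = g * ∑ i ∈ range (k + 1), U i * V i := by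
  induction k with
  | zero =>
    have h1 := D.eU 0 hk
    have h2 := D.eV 0 hk
    simp only [op] at h1 h2
    rw [sum_range_one]
    linear_combination U 0 * h2 - V 0 * h1
  | succ k ih =>
    have h0 := ih (by omega)
    have h1 := D.eU (k + 1) hk
    have h2 := D.eV (k + 1) hk
    simp only [op] at h1 h2
    rw [sum_range_succ, mul_add, ← h0]
    linear_combination U (k + 1) * h2 - V (k + 1) * h1

lemma wron_le (D : Dat n a β U V lam g r κ) (k : ℕ) (hk : k < n) :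
    |β (k + 1) * (U k * V (k + 1) - U (k + 1) * V k)| ≤ g := by
  rw [wron D k hk, abs_mul, abs_of_nonneg D.g0]
  have := part D (k := k + 1) hk
  nlinarith [D.g0]

/-- admissible combinations at a cut -/
def Adm (n : ℕ) (β U V : ℕ → ℝ) (r : ℝ) (k : ℕ) (p q : ℝ) : Prop :=
  p ^ 2 + q ^ 2 = 1 ∧ (k = 0 ∨ k = n ∨
    (|β k * X U V p q (k - 1)| ≤ r ∧ |β k * X U V p q k| ≤ r))

lemma orth (A B : ℝ) : ∃ p q : ℝ, p ^ 2 + q ^ 2 = 1 ∧ p * A + q * B = 0 ∧
    ∀ A' B' : ℝ, √(A ^ 2 + B ^ 2) * |p * A' + q * B'| ≤ |A * B' - A' * B| := by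
  by_cases h : A ^ 2 + B ^ 2 = 0
  · have hA : A = 0 := by nlinarith [sq_nonneg A, sq_nonneg B]
    have hB : B = 0 := by nlinarith [sq_nonneg A, sq_nonneg B]
    refine ⟨1, 0, by norm_num, by rw [hA, hB]; norm_num, fun A' B' => ?_⟩
    rw [h, Real.sqrt_zero, zero_mul]
    exact abs_nonneg _
  · have hpos : 0 < A ^ 2 + B ^ 2 := lt_of_le_of_ne (by positivity) (Ne.symm h)
    obtain ⟨N, hN⟩ : ∃ N, N = √(A ^ 2 + B ^ 2) := ⟨_, rfl⟩
    have hN0 : 0 < N := by rw [hN]; exact Real.sqrt_pos.mpr hpos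
    have hN2 : N ^ 2 = A ^ 2 + B ^ 2 := by rw [hN]; exact Real.sq_sqrt hpos.le
    refine ⟨B / N, -A / N, ?_, ?_, fun A' B' => ?_⟩
    · rw [div_pow, div_pow, ← add_div, div_eq_one_iff_eq (by positivity), hN2]
      ring
    · field_simp
      ring
    · rw [← hN]
      have h1 : B / N * A' + -A / N * B' = -(A * B' - A' * B) / N := by
        field_simp
        ring
      rw [h1, abs_div, abs_neg, abs_of_pos hN0, mul_div_cancel₀ _ hN0.ne']

/-- the alternative at an inner cut -/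
lemma core (D : Dat n a β U V lam g r κ) (j : ℕ) (hj : j + 1 < n) :
    (∀ s, (s = j ∨ s = j + 1) → ∃ p q, Adm n β U V r (j + 1) p q ∧ |X U V p q s| ≤ κ) ∨
      (U j ^ 2 + V j ^ 2 < κ ^ 2 ∧ U (j + 1) ^ 2 + V (j + 1) ^ 2 < κ ^ 2) := by
  obtain ⟨hκ0, hκ1⟩ := kap D
  rcases le_or_gt (β (j + 1)) r with hb | hb
  · -- small coupling: everything is admissible
    left
    intro s _
    obtain ⟨p, q, hpq, h0, _⟩ := orth (U s) (V s)
    have hadm : ∀ i, |β (j + 1) * X U V p q i| ≤ r := by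
      intro i
      rw [abs_mul, abs_of_nonneg (D.β0 _)]
      have := X_le_one D p q hpq i
      nlinarith [D.β0 (j + 1), abs_nonneg (X U V p q i)]
    refine ⟨p, q, ⟨hpq, Or.inr (Or.inr ⟨hadm _, hadm _⟩)⟩, ?_⟩
    simp only [X]
    rw [h0, abs_zero]
    exact hκ0.le
  · -- a site with a large vector
    have key : ∀ s s', (s = j ∧ s' = j + 1 ∨ s = j + 1 ∧ s' = j) → κ ^ 2 ≤ U s ^ 2 + V s ^ 2 →
        ∃ p q, Adm n β U V r (j + 1) p q ∧ |X U V p q j| ≤ κ ∧ |X U V p q (j + 1)| ≤ κ := by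
      intro s s' hs hN
      obtain ⟨p, q, hpq, h0, h1⟩ := orth (U s) (V s)
      have hw := wron_le D j (by omega)
      have h2 := h1 (U s') (V s')
      have hN' : κ ≤ √(U s ^ 2 + V s ^ 2) := Real.le_sqrt_of_sq_le hN
      have habs : |U s * V s' - U s' * V s| = |U j * V (j + 1) - U (j + 1) * V j| := by
        rcases hs with ⟨rfl, rfl⟩ | ⟨rfl, rfl⟩
        · rfl
        · rw [abs_sub_comm]
      have h3 : κ * |X U V p q s'| ≤ |U j * V (j + 1) - U (j + 1) * V j| := by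
        rw [← habs]
        exact (mul_le_mul_of_nonneg_right hN' (abs_nonneg _)).trans h2
      rw [abs_mul, abs_of_nonneg (D.β0 _)] at hw
      have h4 : κ * (β (j + 1) * |X U V p q s'|) ≤ κ * (κ * r) := by
        have h5 := mul_le_mul_of_nonneg_left h3 (D.β0 (j + 1))
        have h6 := D.gr
        calc κ * (β (j + 1) * |X U V p q s'|) = β (j + 1) * (κ * |X U V p q s'|) := by ring
          _ ≤ g := h5.trans hw
          _ ≤ κ ^ 2 * r := h6
          _ = κ * (κ * r) := by ring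
      have h5 : β (j + 1) * |X U V p q s'| ≤ κ * r := le_of_mul_le_mul_left h4 hκ0
      have h6 : |X U V p q s'| ≤ κ := by
        by_contra hcon
        push Not at hcon
        nlinarith [D.r0, abs_nonneg (X U V p q s')]
      have h7 : |β (j + 1) * X U V p q s'| ≤ r := by
        rw [abs_mul, abs_of_nonneg (D.β0 _)]
        nlinarith [D.r0]
      have h8 : X U V p q s = 0 := h0
      have h9 : |X U V p q s| ≤ κ := by rw [h8, abs_zero]; exact hκ0.le
      have h10 : |β (j + 1) * X U V p q s| ≤ r := by rw [h8, mul_zero, abs_zero]; exact D.r0.le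
      refine ⟨p, q, ?_⟩
      rcases hs with ⟨rfl, rfl⟩ | ⟨rfl, rfl⟩
      · exact ⟨⟨hpq, Or.inr (Or.inr ⟨h10, h7⟩)⟩, h9, h6⟩
      · exact ⟨⟨hpq, Or.inr (Or.inr ⟨h7, h10⟩)⟩, h6, h9⟩
    rcases le_or_gt (κ ^ 2) (U j ^ 2 + V j ^ 2) with h1 | h1
    · left
      obtain ⟨p, q, h2, h3, h4⟩ := key j (j + 1) (Or.inl ⟨rfl, rfl⟩) h1
      rintro s (rfl | rfl)
      · exact ⟨p, q, h2, h3⟩
      · exact ⟨p, q, h2, h4⟩
    · rcases le_or_gt (κ ^ 2) (U (j + 1) ^ 2 + V (j + 1) ^ 2) with h5 | h5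
      · left
        obtain ⟨p, q, h2, h3, h4⟩ := key (j + 1) j (Or.inr ⟨rfl, rfl⟩) h5
        rintro s (rfl | rfl)
        · exact ⟨p, q, h2, h3⟩
        · exact ⟨p, q, h2, h4⟩
      · exact Or.inr ⟨h1, h5⟩

/-- a usable cut has an admissible combination which is small at a given adjacent site -/
lemma usable (D : Dat n a β U V lam g r κ) {k s : ℕ} (hk : k ≤ n) (hs : s = k ∨ s + 1 = k)
    (h : ∃ p q, Adm n β U V r k p q) : ∃ p q, Adm n β U V r k p q ∧ |X U V p q s| ≤ κ := by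
  obtain ⟨hκ0, _⟩ := kap D
  have hend : (k = 0 ∨ k = n) → ∃ p q, Adm n β U V r k p q ∧ |X U V p q s| ≤ κ := by
    intro h0
    obtain ⟨p, q, hpq, h1, _⟩ := orth (U s) (V s)
    refine ⟨p, q, ⟨hpq, by tauto⟩, ?_⟩
    simp only [X]
    rw [h1, abs_zero]
    exact hκ0.le
  rcases Nat.eq_zero_or_pos k with h0 | h0
  · exact hend (Or.inl h0)
  · rcases Nat.lt_or_ge k n with h1 | h1
    · obtain ⟨j, rfl⟩ : ∃ j, k = j + 1 := ⟨k - 1, by omega⟩
      rcases core D j h1 with h2 | ⟨h2, h3⟩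
      · exact h2 s (by omega)
      · obtain ⟨p, q, hpq⟩ := h
        refine ⟨p, q, hpq, ?_⟩
        have h4 : X U V p q s ^ 2 ≤ κ ^ 2 := by
          refine (X_sq p q hpq.1 s).trans ?_
          rcases hs with rfl | hs
          · exact h3.le
          · obtain rfl : s = j := by omega
            exact h2.le
        exact abs_le_of_sq_le_sq h4 hκ0.le
    · exact hend (Or.inr (by omega))

/-- at an unusable cut both adjacent sites are small -/
lemma unusable (D : Dat n a β U V lam g r κ) {k : ℕ} (hk : k ≤ n)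
    (h : ¬ ∃ p q, Adm n β U V r k p q) :
    ∃ j, k = j + 1 ∧ U j ^ 2 + V j ^ 2 < κ ^ 2 ∧ U k ^ 2 + V k ^ 2 < κ ^ 2 := by
  rcases Nat.eq_zero_or_pos k with h0 | h0
  · exact absurd ⟨1, 0, by norm_num, Or.inl h0⟩ h
  · rcases Nat.lt_or_ge k n with h1 | h1
    · obtain ⟨j, rfl⟩ : ∃ j, k = j + 1 := ⟨k - 1, by omega⟩
      rcases core D j h1 with h2 | ⟨h2, h3⟩
      · obtain ⟨p, q, h3, _⟩ := h2 j (Or.inl rfl)
        exact absurd ⟨p, q, h3⟩ h
      · exact ⟨j, rfl, h2, h3⟩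
    · exact absurd ⟨1, 0, by norm_num, Or.inr (Or.inl (by omega))⟩ h

/-- the residual of a combination -/
lemma resid (D : Dat n a β U V lam g r κ) (p q : ℝ) (i : ℕ) (hi : i < n) :
    op a β (X U V p q) i - lam * X U V p q i = q * g * V i := by
  have h1 : op a β (X U V p q) i = p * op a β U i + q * op a β V i := op_lin a β U V p q i
  rw [h1, D.eU i hi, D.eV i hi]
  simp only [X]
  ring

/-- the left part of a sequence -/
def cutL (k : ℕ) (x : ℕ → ℝ) (i : ℕ) : ℝ := if i < k then x i else 0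

/-- the right part of a sequence -/
def cutR (k : ℕ) (x : ℕ → ℝ) (i : ℕ) : ℝ := if i < k then 0 else x i

lemma op_cutL (a β x : ℕ → ℝ) (j i : ℕ) : op a β (cutL (j + 1) x) i =
    (if i < j + 1 then op a β x i else 0) + (if i = j then -(β (j + 1) * x (j + 1)) else 0) +
      (if i = j + 1 then β (j + 1) * x j else 0) := by
  rcases i with _ | i
  · rcases Nat.eq_zero_or_pos j with rfl | hj
    · simp [op, cutL]
    · simp only [op, cutL]
      rw [if_pos (by omega), if_pos (by omega), if_pos (by omega), if_neg (by omega),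
        if_neg (by omega)]
      ring
  · simp only [op, cutL]
    rcases lt_trichotomy (i + 1) j with h | h | h
    · rw [if_pos (by omega), if_pos (by omega), if_pos (by omega), if_pos (by omega),
        if_neg (by omega), if_neg (by omega)]
      ring
    · subst h
      rw [if_pos (by omega), if_pos (by omega), if_neg (by omega), if_pos (by omega),
        if_pos (by omega), if_neg (by omega)]
      ring
    · rcases Nat.lt_or_ge j i with h1 | h1
      · rw [if_neg (by omega), if_neg (by omega), if_neg (by omega), if_neg (by omega),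
          if_neg (by omega), if_neg (by omega)]
        ring
      · obtain rfl : i = j := by omega
        rw [if_pos (by omega), if_neg (by omega), if_neg (by omega), if_neg (by omega),
          if_neg (by omega), if_pos rfl]
        ring

lemma sum_ite_le (n j : ℕ) (v : ℝ) : ∑ i ∈ range n, (if i = j then v else 0) ^ 2 ≤ v ^ 2 := by
  have h1 : ∀ i, (if i = j then v else 0) ^ 2 = if i = j then v ^ 2 else 0 := by
    intro i
    split_ifs
    · rfl
    · norm_num
  simp only [h1]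
  rw [Finset.sum_ite_eq']
  split_ifs
  · exact le_rfl
  · exact sq_nonneg v

/-- the residual of a cut combination -/
lemma cut_resid (D : Dat n a β U V lam g r κ) (p q : ℝ) (j : ℕ) (hj : j + 1 < n)
    (h : Adm n β U V r (j + 1) p q) :
    ∑ i ∈ range n, (op a β (cutL (j + 1) (X U V p q)) i - lam * cutL (j + 1) (X U V p q) i) ^ 2 ≤
        9 * r ^ 2 ∧
      ∑ i ∈ range n, (op a β (cutR (j + 1) (X U V p q)) i - lam * cutR (j + 1) (X U V p q) i) ^ 2 ≤
        9 * r ^ 2 := by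
  obtain ⟨hκ0, hκ1⟩ := kap D
  obtain ⟨hpq, h0⟩ := h
  rcases h0 with h0 | h0 | ⟨hl, hr⟩
  · omega
  · omega
  obtain ⟨x, hx⟩ : ∃ x, x = X U V p q := ⟨_, rfl⟩
  rw [← hx] at hl hr ⊢
  have hres : ∀ i < n, op a β x i - lam * x i = q * g * V i := by
    intro i hi
    rw [hx]
    exact resid D p q i hi
  obtain ⟨B, hB⟩ : ∃ B : ℕ → ℝ, B = fun i => if i = j then -(β (j + 1) * x (j + 1)) else 0 := ⟨_, rfl⟩
  obtain ⟨C, hC⟩ : ∃ C : ℕ → ℝ, C = fun i => if i = j + 1 then β (j + 1) * x j else 0 := ⟨_, rfl⟩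
  have hBs : ∑ i ∈ range n, B i ^ 2 ≤ r ^ 2 := by
    rw [hB]
    refine (sum_ite_le n j _).trans ?_
    rw [neg_sq]
    exact sq_le_sq' (by linarith [(abs_le.mp hr).1]) (abs_le.mp hr).2
  have hCs : ∑ i ∈ range n, C i ^ 2 ≤ r ^ 2 := by
    rw [hC]
    refine (sum_ite_le n (j + 1) _).trans ?_
    simp only [Nat.add_sub_cancel] at hl
    exact sq_le_sq' (by linarith [(abs_le.mp hl).1]) (abs_le.mp hl).2
  have hg : g ≤ r := by
    have h1 : κ ^ 2 ≤ 1 := by nlinarith
    have h2 := mul_le_mul_of_nonneg_right h1 D.r0.le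
    linarith [D.gr]
  have hq : q ^ 2 ≤ 1 := by nlinarith [sq_nonneg p]
  have hA : ∀ A : ℕ → ℝ, (∀ i, A i = q * g * V i ∨ A i = 0) → ∑ i ∈ range n, A i ^ 2 ≤ r ^ 2 := by
    intro A hA
    calc ∑ i ∈ range n, A i ^ 2 ≤ ∑ i ∈ range n, r ^ 2 * V i ^ 2 := by
          apply sum_le_sum
          intro i _
          have h1 : (q * g) ^ 2 ≤ r ^ 2 := by
            rw [mul_pow]
            have := D.g0
            nlinarith [sq_nonneg g, sq_nonneg q]
          rcases hA i with h2 | h2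
          · rw [h2, mul_pow]
            exact mul_le_mul_of_nonneg_right h1 (sq_nonneg _)
          · rw [h2]
            have : 0 ≤ r ^ 2 * V i ^ 2 := by positivity
            linarith
      _ = r ^ 2 := by rw [← mul_sum, D.VV, mul_one]
  have hthree : ∀ (A : ℕ → ℝ) (y : ℕ → ℝ), (∀ i, A i = q * g * V i ∨ A i = 0) → ∀ e : ℝ, e ^ 2 = 1 →
      (∀ i < n, y i = A i + e * (B i + C i)) → ∑ i ∈ range n, y i ^ 2 ≤ 9 * r ^ 2 := by
    intro A y hA' e he hy
    have h1 : ∑ i ∈ range n, y i ^ 2 ≤ ∑ i ∈ range n, (3 * A i ^ 2 + 3 * B i ^ 2 + 3 * C i ^ 2) := by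
      apply sum_le_sum
      intro i hi
      rw [hy i (mem_range.mp hi)]
      have h2 : (A i + e * (B i + C i)) ^ 2 = A i ^ 2 + 2 * (e * A i) * (B i + C i) +
          e ^ 2 * (B i + C i) ^ 2 := by ring
      have h3 : (e * A i) ^ 2 = A i ^ 2 := by rw [mul_pow, he, one_mul]
      rw [h2, he]
      nlinarith [sq_nonneg (e * A i - B i), sq_nonneg (e * A i - C i), sq_nonneg (B i - C i)]
    rw [sum_add_distrib, sum_add_distrib, ← mul_sum, ← mul_sum, ← mul_sum] at h1
    linarith [hA A hA']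
  constructor
  · apply hthree (fun i => if i < j + 1 then q * g * V i else 0) _ (fun i => by
      split_ifs
      · left; rfl
      · right; rfl) 1 (by norm_num)
    intro i hi
    rw [op_cutL, hB, hC]
    simp only [cutL]
    have := hres i hi
    split_ifs <;> linarith
  · apply hthree (fun i => if i < j + 1 then 0 else q * g * V i) _ (fun i => by
      split_ifs
      · right; rfl
      · left; rfl) (-1) (by norm_num)
    intro i hi
    have h1 : op a β (cutR (j + 1) x) i = op a β x i - op a β (cutL (j + 1) x) i := by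
      have h2 := op_lin a β x (cutL (j + 1) x) 1 (-1) i
      have h3 : (fun m => 1 * x m + -1 * cutL (j + 1) x m) = cutR (j + 1) x := by
        funext m
        simp only [cutL, cutR]
        split_ifs <;> ring
      rw [h3] at h2
      rw [h2]
      ring
    rw [h1, op_cutL, hB, hC]
    simp only [cutR]
    have := hres i hi
    split_ifs <;> linarith

/-- normalisation -/
lemma normalise (y : ℕ → ℝ) (S τ R : ℝ) (hS : ∑ i ∈ range n, y i ^ 2 = S) (hτ : 0 < τ) (hτS : τ ≤ S)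
    (hR : ∑ i ∈ range n, (op a β y i - lam * y i) ^ 2 ≤ R) :
    ∃ x : ℕ → ℝ, (∀ i, y i = 0 → x i = 0) ∧ ∑ i ∈ range n, x i ^ 2 = 1 ∧
      ∑ i ∈ range n, (op a β x i - lam * x i) ^ 2 ≤ R / τ ∧
      ∑ i ∈ range n, ((i : ℝ) + 1) * x i ^ 2 = (∑ i ∈ range n, ((i : ℝ) + 1) * y i ^ 2) / S := by
  have hS0 : 0 < S := lt_of_lt_of_le hτ hτS
  obtain ⟨w, hw⟩ : ∃ w, w = √S := ⟨_, rfl⟩
  have hw0 : 0 < w := by rw [hw]; exact Real.sqrt_pos.mpr hS0
  have hw2 : w ^ 2 = S := by rw [hw]; exact Real.sq_sqrt hS0.le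
  have hR0 : 0 ≤ R := le_trans (Finset.sum_nonneg fun _ _ => sq_nonneg _) hR
  refine ⟨fun i => w⁻¹ * y i, fun i hi => by show w⁻¹ * y i = 0; rw [hi, mul_zero], ?_, ?_, ?_⟩
  · simp only [mul_pow]
    rw [← mul_sum, hS, ← hw2]
    field_simp
  · have h1 : ∀ i, op a β (fun i => w⁻¹ * y i) i - lam * (w⁻¹ * y i) =
        w⁻¹ * (op a β y i - lam * y i) := by
      intro i
      have h2 := op_lin a β y y w⁻¹ 0 i
      have h3 : (fun j => w⁻¹ * y j + 0 * y j) = fun i => w⁻¹ * y i := by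
        funext m
        ring
      rw [h3] at h2
      rw [h2]
      ring
    simp only [h1, mul_pow]
    rw [← mul_sum, inv_pow, hw2, inv_mul_eq_div]
    calc (∑ i ∈ range n, (op a β y i - lam * y i) ^ 2) / S ≤ R / S :=
          div_le_div_of_nonneg_right hR hS0.le
      _ ≤ R / τ := div_le_div_of_nonneg_left hR0 hτ hτS
  · rw [div_eq_mul_inv, sum_mul]
    apply sum_congr rfl
    intro i _
    rw [mul_pow, inv_pow, hw2]
    ring

/-- a good cut -/
lemma good (D : Dat n a β U V lam g r κ) {k : ℕ} (hk : k ≤ n) {p q p' q' τ : ℝ}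
    (hτ : 16 * n * τ = 1) (h : Adm n β U V r k p q) (h' : Adm n β U V r k p' q')
    (hQ : τ ≤ Q (X U V p q) k) (hQ' : Q (X U V p' q') k ≤ 1 - τ) :
    ∃ y z : ℕ → ℝ, (∀ i, n ≤ i → y i = 0) ∧ (∀ i, n ≤ i → z i = 0) ∧
      ∑ i ∈ range n, y i ^ 2 = 1 ∧ ∑ i ∈ range n, z i ^ 2 = 1 ∧
      ∑ i ∈ range n, (op a β y i - lam * y i) ^ 2 ≤ 144 * n * r ^ 2 ∧
      ∑ i ∈ range n, (op a β z i - lam * z i) ^ 2 ≤ 144 * n * r ^ 2 ∧
      1 ≤ ∑ i ∈ range n, ((i : ℝ) + 1) * z i ^ 2 - ∑ i ∈ range n, ((i : ℝ) + 1) * y i ^ 2 := by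
  have hn1 : (1 : ℝ) ≤ n := by exact_mod_cast D.n1
  have hτ0 : 0 < τ := by
    by_contra hcon
    push Not at hcon
    nlinarith
  have hτ' : 9 * r ^ 2 / τ = 144 * n * r ^ 2 := by
    rw [div_eq_iff hτ0.ne']
    linear_combination -9 * r ^ 2 * hτ
  have hk0 : k ≠ 0 := by
    rintro rfl
    simp only [Q, range_zero, sum_empty] at hQ
    linarith
  have hkn : k ≠ n := by
    rintro rfl
    rw [mass D p' q', h'.1] at hQ'
    linarith
  obtain ⟨j, rfl⟩ : ∃ j, k = j + 1 := ⟨k - 1, by omega⟩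
  have hj : j + 1 < n := by omega
  have hX0 : ∀ p q i, n ≤ i → X U V p q i = 0 := by
    intro p q i hi
    simp only [X]
    rw [D.U0 i hi, D.V0 i hi]
    ring
  -- masses
  have hmL : ∀ x : ℕ → ℝ, ∑ i ∈ range n, cutL (j + 1) x i ^ 2 = Q x (j + 1) := by
    intro x
    rw [Q, ← Finset.sum_subset (range_subset_range.mpr hj.le)]
    · apply sum_congr rfl
      intro i hi
      simp only [cutL]
      rw [if_pos (mem_range.mp hi)]
    · intro i _ hi
      rw [mem_range] at hi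
      simp only [cutL]
      rw [if_neg hi]
      norm_num
  have hmR : ∀ p q, p ^ 2 + q ^ 2 = 1 → ∑ i ∈ range n, cutR (j + 1) (X U V p q) i ^ 2 =
      1 - Q (X U V p q) (j + 1) := by
    intro p q hpq
    have h1 : ∑ i ∈ range n, cutR (j + 1) (X U V p q) i ^ 2 +
        ∑ i ∈ range n, cutL (j + 1) (X U V p q) i ^ 2 = Q (X U V p q) n := by
      rw [← sum_add_distrib]
      apply sum_congr rfl
      intro i _
      simp only [cutL, cutR]
      split_ifs <;> ring
    rw [hmL, mass D p q, hpq] at h1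
    linarith
  obtain ⟨y, hy0, hy1, hy2, hy3⟩ := normalise (n := n) (a := a) (β := β) (lam := lam)
    (cutL (j + 1) (X U V p q)) _ τ (9 * r ^ 2) (hmL _) hτ0 hQ (cut_resid D p q j hj h).1
  obtain ⟨z, hz0, hz1, hz2, hz3⟩ := normalise (n := n) (a := a) (β := β) (lam := lam)
    (cutR (j + 1) (X U V p' q')) _ τ (9 * r ^ 2) (hmR _ _ h'.1) hτ0 (by linarith)
    (cut_resid D p' q' j hj h').2
  rw [hτ'] at hy2 hz2
  refine ⟨y, z, fun i hi => hy0 i ?_, fun i hi => hz0 i ?_, hy1, hz1, hy2, hz2, ?_⟩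
  · simp only [cutL]
    rw [if_neg (by omega)]
  · simp only [cutR]
    rw [if_neg (by omega)]
    exact hX0 _ _ _ hi
  · have h1 : ∑ i ∈ range n, ((i : ℝ) + 1) * y i ^ 2 ≤ (j : ℝ) + 1 := by
      have hpos : 0 < Q (X U V p q) (j + 1) := by linarith
      rw [hy3, div_le_iff₀ hpos, ← hmL, mul_sum]
      apply sum_le_sum
      intro i _
      simp only [cutL]
      split_ifs with h2
      · have : (i : ℝ) ≤ j := by exact_mod_cast (by omega : i ≤ j)
        exact mul_le_mul_of_nonneg_right (by linarith) (sq_nonneg _)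
      · norm_num
    have h2 : (j : ℝ) + 2 ≤ ∑ i ∈ range n, ((i : ℝ) + 1) * z i ^ 2 := by
      have hpos : 0 < 1 - Q (X U V p' q') (j + 1) := by linarith
      rw [hz3, le_div_iff₀ hpos, ← hmR _ _ h'.1, mul_sum]
      apply sum_le_sum
      intro i _
      simp only [cutR]
      split_ifs with h2
      · norm_num
      · have : (j : ℝ) + 1 ≤ i := by exact_mod_cast (by omega : j + 1 ≤ i)
        exact mul_le_mul_of_nonneg_right (by linarith) (sq_nonneg _)
    linarith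

/-- no good cut: the pinch argument -/
lemma pinch (D : Dat n a β U V lam g r κ) {c₁ c₂ : ℕ} (hc : c₁ < c₂) (hc2 : c₂ ≤ n)
    {p q p' q' τ : ℝ} (hτ : 16 * n * τ = 1) (h : p ^ 2 + q ^ 2 = 1) (h' : p' ^ 2 + q' ^ 2 = 1)
    (hQ : Q (X U V p q) c₁ < τ) (hQ' : 1 - τ < Q (X U V p' q') c₂)
    (hs : ∀ i, c₁ ≤ i → i < c₂ → |X U V p q i| ≤ κ) (hs' : ∀ i, c₁ ≤ i → i < c₂ → |X U V p' q' i| ≤ κ) :
    ∃ y z : ℕ → ℝ, (∀ i, n ≤ i → y i = 0) ∧ (∀ i, n ≤ i → z i = 0) ∧
      ∑ i ∈ range n, y i ^ 2 = 1 ∧ ∑ i ∈ range n, z i ^ 2 = 1 ∧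
      ∑ i ∈ range n, (op a β y i - lam * y i) ^ 2 ≤ 144 * n * r ^ 2 ∧
      ∑ i ∈ range n, (op a β z i - lam * z i) ^ 2 ≤ 144 * n * r ^ 2 ∧
      1 ≤ ∑ i ∈ range n, ((i : ℝ) + 1) * z i ^ 2 - ∑ i ∈ range n, ((i : ℝ) + 1) * y i ^ 2 := by
  obtain ⟨hκ0, hκ1⟩ := kap D
  have hn1 : (1 : ℝ) ≤ n := by exact_mod_cast D.n1
  have hκn := D.κn
  have hτ0 : 0 < τ := by
    by_contra hcon
    push Not at hcon
    nlinarith
  have hX0 : ∀ p q i, n ≤ i → X U V p q i = 0 := by
    intro p q i hi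
    simp only [X]
    rw [D.U0 i hi, D.V0 i hi]
    ring
  have hres : ∀ p q, p ^ 2 + q ^ 2 = 1 →
      ∑ i ∈ range n, (op a β (X U V p q) i - lam * X U V p q i) ^ 2 ≤ 144 * n * r ^ 2 := by
    intro p q hpq
    have h1 : ∑ i ∈ range n, (op a β (X U V p q) i - lam * X U V p q i) ^ 2 =
        (q * g) ^ 2 * ∑ i ∈ range n, V i ^ 2 := by
      rw [mul_sum]
      apply sum_congr rfl
      intro i hi
      rw [resid D p q i (mem_range.mp hi)]
      ring
    rw [h1, D.VV, mul_one, mul_pow]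
    have hg : g ≤ r := by
      have h1 : κ ^ 2 ≤ 1 := by nlinarith
      have h2 := mul_le_mul_of_nonneg_right h1 D.r0.le
      linarith [D.gr]
    have hg2 : g ^ 2 ≤ r ^ 2 := by
      have := D.g0
      nlinarith
    have hq : q ^ 2 ≤ 1 := by nlinarith [sq_nonneg p]
    have h2 : q ^ 2 * g ^ 2 ≤ r ^ 2 := by nlinarith [sq_nonneg g, sq_nonneg q]
    have h3 : r ^ 2 ≤ 144 * n * r ^ 2 := by
      have : 0 ≤ r ^ 2 := sq_nonneg r
      nlinarith
    linarith
  -- the middle part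
  have hmid : ∀ x : ℕ → ℝ, (∀ i, c₁ ≤ i → i < c₂ → |x i| ≤ κ) → Q x c₂ ≤ Q x c₁ + n * κ ^ 2 := by
    intro x hx
    have h1 : Q x c₂ = Q x c₁ + ∑ i ∈ Ico c₁ c₂, x i ^ 2 := by
      simp only [Q]
      rw [Finset.sum_range_add_sum_Ico _ hc.le]
    have h2 : ∑ i ∈ Ico c₁ c₂, x i ^ 2 ≤ (Ico c₁ c₂).card • κ ^ 2 := by
      apply Finset.sum_le_card_nsmul
      intro i hi
      rw [mem_Ico] at hi
      exact sq_le_sq' (by linarith [(abs_le.mp (hx i hi.1 hi.2)).1]) (abs_le.mp (hx i hi.1 hi.2)).2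
    rw [nsmul_eq_mul, Nat.card_Ico] at h2
    have h3 : ((c₂ - c₁ : ℕ) : ℝ) ≤ n := by exact_mod_cast (by omega : c₂ - c₁ ≤ n)
    have h4 := mul_le_mul_of_nonneg_right h3 (sq_nonneg κ)
    linarith
  have e1 := hmid _ hs
  have e2 := hmid _ hs'
  have hc2n : c₂ ≠ n := by
    rintro rfl
    rw [mass D p q, h] at e1
    nlinarith
  refine ⟨X U V p' q', X U V p q, hX0 _ _, hX0 _ _, ?_, ?_, hres _ _ h', hres _ _ h, ?_⟩
  · have := mass D p' q'
    rw [h'] at this
    exact this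
  · have := mass D p q
    rw [h] at this
    exact this
  · have hn2 : (c₂ : ℝ) + 1 ≤ n := by exact_mod_cast (by omega : c₂ + 1 ≤ n)
    have hcr : (c₁ : ℝ) + 1 ≤ c₂ := by exact_mod_cast hc
    have hc0 : (0 : ℝ) ≤ c₁ := Nat.cast_nonneg _
    -- the right vector
    have f1 : ((c₂ : ℝ) + 1) * (1 - Q (X U V p q) c₂) ≤ ∑ i ∈ range n, ((i : ℝ) + 1) * X U V p q i ^ 2 := by
      have g1 : 1 - Q (X U V p q) c₂ = ∑ i ∈ Ico c₂ n, X U V p q i ^ 2 := by
        have := mass D p q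
        rw [h] at this
        rw [← this]
        simp only [Q]
        rw [← Finset.sum_range_add_sum_Ico _ hc2]
        ring
      rw [g1, mul_sum, ← Finset.sum_range_add_sum_Ico (fun i : ℕ => ((i : ℝ) + 1) * X U V p q i ^ 2) hc2]
      have g2 : 0 ≤ ∑ i ∈ range c₂, ((i : ℝ) + 1) * X U V p q i ^ 2 :=
        Finset.sum_nonneg fun i _ => by positivity
      have g3 : ∑ i ∈ Ico c₂ n, ((c₂ : ℝ) + 1) * X U V p q i ^ 2 ≤
          ∑ i ∈ Ico c₂ n, ((i : ℝ) + 1) * X U V p q i ^ 2 := by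
        apply sum_le_sum
        intro i hi
        rw [mem_Ico] at hi
        have : (c₂ : ℝ) ≤ i := by exact_mod_cast hi.1
        exact mul_le_mul_of_nonneg_right (by linarith) (sq_nonneg _)
      linarith
    -- the left vector
    have f2 : ∑ i ∈ range n, ((i : ℝ) + 1) * X U V p' q' i ^ 2 ≤
        (c₁ : ℝ) * Q (X U V p' q') c₁ + n * (1 - Q (X U V p' q') c₁) := by
      have g1 : 1 - Q (X U V p' q') c₁ = ∑ i ∈ Ico c₁ n, X U V p' q' i ^ 2 := by
        have := mass D p' q'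
        rw [h'] at this
        rw [← this]
        simp only [Q]
        rw [← Finset.sum_range_add_sum_Ico _ (hc.le.trans hc2)]
        ring
      rw [g1, mul_sum, ← Finset.sum_range_add_sum_Ico (fun i : ℕ => ((i : ℝ) + 1) * X U V p' q' i ^ 2)
        (hc.le.trans hc2), Q, mul_sum]
      apply add_le_add
      · apply sum_le_sum
        intro i hi
        rw [mem_range] at hi
        have : (i : ℝ) + 1 ≤ c₁ := by exact_mod_cast hi
        exact mul_le_mul_of_nonneg_right this (sq_nonneg _)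
      · apply sum_le_sum
        intro i hi
        rw [mem_Ico] at hi
        have : (i : ℝ) + 1 ≤ n := by exact_mod_cast hi.2
        exact mul_le_mul_of_nonneg_right this (sq_nonneg _)
    obtain ⟨A, hA⟩ : ∃ A, A = Q (X U V p q) c₂ := ⟨_, rfl⟩
    obtain ⟨B, hB⟩ : ∃ B, B = Q (X U V p' q') c₁ := ⟨_, rfl⟩
    rw [← hA] at f1 e1
    rw [← hB] at f2 e2
    have k1 : A ≤ τ + n * κ ^ 2 := by linarith
    have k2 : 1 - B ≤ τ + n * κ ^ 2 := by linarith
    have k3 : n * (τ + n * κ ^ 2) ≤ 1 / 8 := by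
      have m1 : n * τ = 1 / 16 := by linarith
      have m2 : n * κ = 1 / 32 := by linarith
      have m3 : n * (τ + n * κ ^ 2) = n * τ + (n * κ) ^ 2 := by ring
      rw [m3, m1, m2]
      norm_num
    have hB1 : B ≤ 1 := by
      rw [hB]
      have := Q_mono (X U V p' q') (hc.le.trans hc2)
      rw [mass D p' q', h'] at this
      exact this
    have k4 : ((c₂ : ℝ) + 1) * A ≤ n * (τ + n * κ ^ 2) := by
      have hA0 : 0 ≤ A := by rw [hA]; exact Q_nonneg _ _
      calc ((c₂ : ℝ) + 1) * A ≤ n * A := mul_le_mul_of_nonneg_right hn2 hA0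
        _ ≤ n * (τ + n * κ ^ 2) := mul_le_mul_of_nonneg_left k1 (by linarith)
    have k5 : n * (1 - B) ≤ n * (τ + n * κ ^ 2) := mul_le_mul_of_nonneg_left k2 (by linarith)
    have k6 : (c₁ : ℝ) * B ≤ c₁ := by
      have := mul_le_mul_of_nonneg_left hB1 hc0
      linarith
    linarith

/-- the theorem for sequences -/
lemma seq (D : Dat n a β U V lam g r κ) :
    ∃ y z : ℕ → ℝ, (∀ i, n ≤ i → y i = 0) ∧ (∀ i, n ≤ i → z i = 0) ∧
      ∑ i ∈ range n, y i ^ 2 = 1 ∧ ∑ i ∈ range n, z i ^ 2 = 1 ∧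
      ∑ i ∈ range n, (op a β y i - lam * y i) ^ 2 ≤ 144 * n * r ^ 2 ∧
      ∑ i ∈ range n, (op a β z i - lam * z i) ^ 2 ≤ 144 * n * r ^ 2 ∧
      1 ≤ ∑ i ∈ range n, ((i : ℝ) + 1) * z i ^ 2 - ∑ i ∈ range n, ((i : ℝ) + 1) * y i ^ 2 := by
  classical
  obtain ⟨hκ0, hκ1⟩ := kap D
  have hn1 : (1 : ℝ) ≤ n := by exact_mod_cast D.n1
  obtain ⟨τ, hτ⟩ : ∃ τ : ℝ, 16 * n * τ = 1 := ⟨1 / (16 * n), by field_simp⟩
  have hτ0 : 0 < τ := by
    by_contra hcon
    push Not at hcon
    nlinarith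
  have hτ1 : τ ≤ 1 / 16 := by nlinarith
  by_cases hgood : ∃ k, k ≤ n ∧ ∃ p q p' q', Adm n β U V r k p q ∧ Adm n β U V r k p' q' ∧
      τ ≤ Q (X U V p q) k ∧ Q (X U V p' q') k ≤ 1 - τ
  · obtain ⟨k, hk, p, q, p', q', h, h', hQ, hQ'⟩ := hgood
    exact good D hk hτ h h' hQ hQ'
  · push Not at hgood
    -- cuts of type R
    obtain ⟨R, hR⟩ : ∃ R : ℕ → Prop, R = fun k => (∃ p q, Adm n β U V r k p q) ∧
        ∀ p q, Adm n β U V r k p q → Q (X U V p q) k < τ := ⟨_, rfl⟩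
    have hR0 : R 0 := by
      rw [hR]
      refine ⟨⟨1, 0, by norm_num, Or.inl rfl⟩, fun p q _ => ?_⟩
      simp only [Q, range_zero, sum_empty]
      exact hτ0
    obtain ⟨c₁, hc₁⟩ : ∃ c, c = Nat.findGreatest R n := ⟨_, rfl⟩
    have hc₁R : R c₁ := by
      rw [hc₁]
      exact Nat.findGreatest_spec (Nat.zero_le n) hR0
    have hc₁n : c₁ ≤ n := by rw [hc₁]; exact Nat.findGreatest_le n
    have hc₁max : ∀ k, c₁ < k → k ≤ n → ¬ R k := by
      intro k hk hkn
      rw [hc₁] at hk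
      exact Nat.findGreatest_is_greatest hk hkn
    have hadmn : Adm n β U V r n 1 0 := ⟨by norm_num, Or.inr (Or.inl rfl)⟩
    have hc₁lt : c₁ < n := by
      rcases Nat.lt_or_ge c₁ n with h1 | h1
      · exact h1
      · exfalso
        have h2 : c₁ = n := by omega
        rw [h2, hR] at hc₁R
        have h3 := hc₁R.2 1 0 hadmn
        rw [mass D] at h3
        linarith
    have hex : ∃ k, c₁ < k ∧ k ≤ n ∧ ∃ p q, Adm n β U V r k p q := ⟨n, hc₁lt, le_rfl, 1, 0, hadmn⟩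
    obtain ⟨c₂, hc₂, hc₂min⟩ : ∃ c₂, (c₁ < c₂ ∧ c₂ ≤ n ∧ ∃ p q, Adm n β U V r c₂ p q) ∧
        ∀ k, k < c₂ → ¬ (c₁ < k ∧ k ≤ n ∧ ∃ p q, Adm n β U V r k p q) :=
      ⟨Nat.find hex, Nat.find_spec hex, fun k hk => Nat.find_min hex hk⟩
    obtain ⟨hc12, hc2n, hus2⟩ := hc₂
    rw [hR] at hc₁R
    obtain ⟨hus1, hRt⟩ := hc₁R
    have hLt : ∀ p q, Adm n β U V r c₂ p q → 1 - τ < Q (X U V p q) c₂ := by
      have h1 := hc₁max c₂ hc12 hc2n
      rw [hR] at h1
      simp only [not_and, not_forall, not_lt] at h1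
      obtain ⟨p, q, hpq, h2⟩ := h1 hus2
      intro p' q' hpq'
      exact hgood c₂ hc2n p q p' q' hpq hpq' h2
    -- unusable cuts in between
    have hun : ∀ k, c₁ < k → k < c₂ → ∃ j, k = j + 1 ∧ U j ^ 2 + V j ^ 2 < κ ^ 2 ∧
        U k ^ 2 + V k ^ 2 < κ ^ 2 := by
      intro k hk1 hk2
      apply unusable D (by omega)
      intro h
      exact hc₂min k hk2 ⟨hk1, by omega, h⟩
    -- the combinations
    have key : ∀ c, c = c₁ ∨ c = c₂ → c ≤ n → (∃ p q, Adm n β U V r c p q) →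
        ∃ p q, Adm n β U V r c p q ∧ ∀ i, c₁ ≤ i → i < c₂ → |X U V p q i| ≤ κ := by
      intro c hc hcn hus
      rcases Nat.lt_or_ge (c₁ + 1) c₂ with h1 | h1
      · obtain ⟨p, q, hpq⟩ := hus
        refine ⟨p, q, hpq, fun i hi1 hi2 => ?_⟩
        have h2 : U i ^ 2 + V i ^ 2 < κ ^ 2 := by
          rcases Nat.lt_or_ge (i + 1) c₂ with h3 | h3
          · obtain ⟨j, hj, h4, _⟩ := hun (i + 1) (by omega) h3
            obtain rfl : i = j := by omega
            exact h4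
          · obtain ⟨j, _, _, h4⟩ := hun i (by omega) hi2
            exact h4
        exact abs_le_of_sq_le_sq ((X_sq p q hpq.1 i).trans h2.le) hκ0.le
      · have h2 : c₂ = c₁ + 1 := by omega
        obtain ⟨p, q, hpq, h3⟩ := usable D (s := c₁) hcn (by omega) hus
        refine ⟨p, q, hpq, fun i hi1 hi2 => ?_⟩
        obtain rfl : i = c₁ := by omega
        exact h3
    obtain ⟨p, q, hpq, hs⟩ := key c₁ (Or.inl rfl) hc₁n hus1
    obtain ⟨p', q', hpq', hs'⟩ := key c₂ (Or.inr rfl) hc2n hus2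
    exact pinch D hc12 hc2n hτ hpq.1 hpq'.1 (hRt p q hpq) (hLt p' q' hpq') hs hs'

/-! ### matrices -/

/-- extension by zero -/
def ex {n : ℕ} (w : Fin n → ℝ) (i : ℕ) : ℝ := if h : i < n then w ⟨i, h⟩ else 0

lemma ex_fin {n : ℕ} (w : Fin n → ℝ) (i : Fin n) : ex w i = w i := by
  simp only [ex]
  rw [dif_pos i.2]

lemma ex_ge {n : ℕ} (w : Fin n → ℝ) (i : ℕ) (h : n ≤ i) : ex w i = 0 := by
  simp only [ex]
  rw [dif_neg (by omega)]

lemma ex_of {n : ℕ} (y : ℕ → ℝ) (h : ∀ i, n ≤ i → y i = 0) : ex (fun i : Fin n => y i) = y := by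
  funext i
  rcases Nat.lt_or_ge i n with hi | hi
  · simp only [ex]
    rw [dif_pos hi]
  · rw [ex_ge _ _ hi, h i hi]

lemma dot_eq {n : ℕ} (v w : Fin n → ℝ) : v ⬝ᵥ w = ∑ i ∈ range n, ex v i * ex w i := by
  rw [← Fin.sum_univ_eq_sum_range (fun i => ex v i * ex w i) n]
  simp only [dotProduct, ex_fin]

lemma mulVec_eq {n : ℕ} (a c : ℕ → ℝ) (w : Fin n → ℝ) (i : Fin n) :
    (blk a c 0 n).mulVec w i = op a (fun k => √(c k)) (ex w) i := by
  have h1 : (blk a c 0 n).mulVec w i = ∑ j ∈ range n, T a c i j * ex w j := by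
    rw [← Fin.sum_univ_eq_sum_range (fun j => T a c i j * ex w j) n]
    simp only [Matrix.mulVec, dotProduct, blk, Matrix.of_apply, Nat.zero_add, ex_fin]
  rw [h1]
  obtain ⟨m, hm⟩ : ∃ m : ℕ, m = (i : ℕ) := ⟨_, rfl⟩
  rw [← hm]
  have h2 : ∑ j ∈ range n, T a c m j * ex w j = ∑ j ∈ range (n + m + 3), T a c m j * ex w j := by
    apply Finset.sum_subset (range_subset_range.mpr (by omega))
    intro j _ hj
    rw [mem_range, not_lt] at hj
    rw [ex_ge w j hj, mul_zero]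
  rw [h2]
  rcases m with _ | m
  · have h3 : ∑ j ∈ range (n + 0 + 3), T a c 0 j * ex w j = ∑ j ∈ ({0, 1} : Finset ℕ), T a c 0 j * ex w j := by
      symm
      apply Finset.sum_subset
      · intro j hj
        rw [mem_insert, mem_singleton] at hj
        rw [mem_range]
        omega
      · intro j _ hj
        rw [mem_insert, mem_singleton, not_or] at hj
        have h4 : T a c 0 j = 0 := by
          simp only [T]
          rw [if_neg (by omega), if_neg (by omega), if_neg (by omega)]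
        rw [h4, zero_mul]
    rw [h3, Finset.sum_insert (by simp), Finset.sum_singleton]
    simp [op, T]
  · have h3 : ∑ j ∈ range (n + (m + 1) + 3), T a c (m + 1) j * ex w j =
        ∑ j ∈ ({m, m + 1, m + 2} : Finset ℕ), T a c (m + 1) j * ex w j := by
      symm
      apply Finset.sum_subset
      · intro j hj
        rw [mem_insert, mem_insert, mem_singleton] at hj
        rw [mem_range]
        omega
      · intro j _ hj
        rw [mem_insert, mem_insert, mem_singleton, not_or, not_or] at hj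
        have h4 : T a c (m + 1) j = 0 := by
          simp only [T]
          rw [if_neg (by omega), if_neg (by omega), if_neg (by omega)]
        rw [h4, zero_mul]
    have t1 : T a c (m + 1) m = √(c (m + 1)) := by
      unfold T
      rw [if_neg (by omega), if_neg (by omega), if_pos rfl]
    have t2 : T a c (m + 1) (m + 1) = a (m + 1) := by
      unfold T
      rw [if_pos rfl]
    have t3 : T a c (m + 1) (m + 2) = √(c (m + 2)) := by
      unfold T
      rw [if_neg (by omega), if_pos rfl]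
    rw [h3, Finset.sum_insert (by simp), Finset.sum_insert (by simp), Finset.sum_singleton, t1, t2, t3]
    simp only [op]
    ring

lemma res_eq {n : ℕ} (a c : ℕ → ℝ) (lam : ℝ) (y : ℕ → ℝ) (h : ∀ i, n ≤ i → y i = 0) :
    ((blk a c 0 n).mulVec (fun i : Fin n => y i) - lam • (fun i : Fin n => y i)) ⬝ᵥ
      ((blk a c 0 n).mulVec (fun i : Fin n => y i) - lam • (fun i : Fin n => y i)) =
      ∑ i ∈ range n, (op a (fun k => √(c k)) y i - lam * y i) ^ 2 := by
  rw [← Fin.sum_univ_eq_sum_range (fun i => (op a (fun k => √(c k)) y i - lam * y i) ^ 2) n]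
  simp only [dotProduct]
  apply sum_congr rfl
  intro i _
  rw [Pi.sub_apply, mulVec_eq, ex_of y h, Pi.smul_apply, smul_eq_mul]
  ring

lemma pos_eq {n : ℕ} (y : ℕ → ℝ) :
    (fun i : Fin n => y i) ⬝ᵥ (Xm n).mulVec (fun i : Fin n => y i) =
      ∑ i ∈ range n, ((i : ℝ) + 1) * y i ^ 2 := by
  rw [← Fin.sum_univ_eq_sum_range (fun i => ((i : ℝ) + 1) * y i ^ 2) n]
  simp only [dotProduct, Xm, Matrix.mulVec_diagonal]
  apply sum_congr rfl
  intro i _
  ring

theorem main : S_WRO := by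
  intro n a c hn u v lam lam' r huu hvv huv hu hv hlam hr hgap
  have hn1 : (1 : ℝ) ≤ n := by exact_mod_cast hn
  have D : Dat n a (fun k => √(c k)) (ex u) (ex v) lam (lam' - lam) r (1 / (32 * n)) := {
    n1 := hn
    β0 := fun i => Real.sqrt_nonneg _
    U0 := fun i hi => ex_ge u i hi
    V0 := fun i hi => ex_ge v i hi
    eU := by
      intro i hi
      have h1 := mulVec_eq a c u ⟨i, hi⟩
      rw [hu] at h1
      rw [← h1, Pi.smul_apply, smul_eq_mul, ← ex_fin u ⟨i, hi⟩]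
    eV := by
      intro i hi
      have h1 := mulVec_eq a c v ⟨i, hi⟩
      rw [hv] at h1
      rw [← h1, Pi.smul_apply, smul_eq_mul, ← ex_fin v ⟨i, hi⟩]
      ring
    UU := by
      rw [← huu, dot_eq]
      exact sum_congr rfl fun i _ => sq _
    VV := by
      rw [← hvv, dot_eq]
      exact sum_congr rfl fun i _ => sq _
    UV := by rw [← huv, dot_eq]
    g0 := by linarith
    r0 := hr
    κn := by field_simp
    gr := by
      refine hgap.trans (le_of_eq ?_)
      field_simp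
      norm_num }
  obtain ⟨y, z, hy0, hz0, hy1, hz1, hy2, hz2, h3⟩ := seq D
  refine ⟨fun i => y i, fun i => z i, ?_, ?_, ?_, ?_, ?_⟩
  · rw [dot_eq, ex_of y hy0, ← hy1]
    exact sum_congr rfl fun i _ => (sq _).symm
  · rw [dot_eq, ex_of z hz0, ← hz1]
    exact sum_congr rfl fun i _ => (sq _).symm
  · rw [res_eq a c lam y hy0]
    exact hy2
  · rw [res_eq a c lam z hz0]
    exact hz2
  · rw [pos_eq, pos_eq]
    exact h3

end H94FG.WRO
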